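import Mathlib

/-!
# Block TU-AN: growth

`diff_bdd`: `e0 m^n/n! + e1 m^(n-1)/(n-1)! + o(m^(n-1))` has differences `d m - d (m - s) = O(m^(n-1))`
(`m^n - (m-s)^n ≤ n s m^(n-1)`).

`main`: suppose that `c (H (m + s) - H (m - s)) ≥ 2^n d m - d (2 m)` for all `m ≥ m₀` (`m₀ ≥ s`). The right hand side is
`≥ c' m^(n-1)`, `c' > 0`, for large `m`, because `2^n (e1 m^(n-1)/(n-1)!) - e1 (2 m)^(n-1)/(n-1)! = 2^(n-1) e1 m^(n-1)/(n-1)!` and the
`e0` terms cancel. Sum over `m₁ ≤ m ≤ M`: the left hand side is at most `2 s c H (M + s) ≤ 2 s c B (M + s + 1)^(n-1)` (each value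
`H j` is counted at most `2 s` times with total sign `≤`; telescoping in the residue classes, or
`∑ (H (m + s) - H (m - s)) ≤ ∑_{M - s < j ≤ M + s} H j`), the right hand side is `≥ c' ((M - m₁) / 2) (M/2)^(n-1)` or so, a contradiction
for large `M`.

`grow`: if `H (2 m + c) ≥ σ H m` for all `m ≥ m₀` then with `m_{j+1} = 2 m_j + c`, `m_j + c = 2^j (m_0 + c)`, `H m_j ≥ σ^j H m_0`, while
`H m_j ≤ B (2^j (m_0 + c) + 1)^N ≤ B' (2^N)^j`; contradiction as `σ > 2^N`.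
-/

set_option autoImplicit false

namespace Pool.Agent.Helper41.TU

open Filter Asymptotics

/-- the error term is bounded by a multiple of `(m + 1)^(n-1)` -/
private theorem err_bdd {n : ℕ} {f : ℕ → ℝ} (hd : f =o[atTop] fun m : ℕ => (m : ℝ) ^ (n - 1)) :
    ∃ C : ℝ, 0 ≤ C ∧ ∀ m : ℕ, |f m| ≤ C * ((m : ℝ) + 1) ^ (n - 1) := by
  have h1 : (fun m : ℕ => (m : ℝ) ^ (n - 1)) =O[atTop] fun m : ℕ => ((m : ℝ) + 1) ^ (n - 1) := by
    refine IsBigO.of_bound 1 (Eventually.of_forall fun m => ?_)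
    rw [one_mul, Real.norm_of_nonneg (by positivity), Real.norm_of_nonneg (by positivity)]
    exact pow_le_pow_left₀ (by positivity) (by linarith) _
  have h2 := hd.isBigO.trans h1
  rw [isBigO_nat_atTop_iff] at h2
  · obtain ⟨C, hC⟩ := h2
    refine ⟨|C|, abs_nonneg _, fun m => ?_⟩
    have h3 := hC m
    rw [Real.norm_eq_abs, Real.norm_of_nonneg (by positivity)] at h3
    exact h3.trans (mul_le_mul_of_nonneg_right (le_abs_self C) (by positivity))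
  · intro m hm
    exfalso
    have : (0 : ℝ) < ((m : ℝ) + 1) ^ (n - 1) := by positivity
    linarith

private theorem shift_bdd (k s m : ℕ) : ((m : ℝ) + s) ^ k ≤ ((s : ℝ) + 1) ^ k * ((m : ℝ) + 1) ^ k := by
  rw [← mul_pow]
  refine pow_le_pow_left₀ (by positivity) ?_ _
  nlinarith [(Nat.cast_nonneg m : (0 : ℝ) ≤ m), (Nat.cast_nonneg s : (0 : ℝ) ≤ s),
    mul_nonneg (Nat.cast_nonneg s : (0 : ℝ) ≤ s) (Nat.cast_nonneg m : (0 : ℝ) ≤ m)]

private theorem pow_diff (k s m : ℕ) :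
    ((m : ℝ) + s) ^ k - (m : ℝ) ^ k ≤ k * s * ((m : ℝ) + s) ^ (k - 1) := by
  induction k with
  | zero => simp
  | succ k ih =>
    have hm : (0 : ℝ) ≤ m := Nat.cast_nonneg m
    have hs : (0 : ℝ) ≤ s := Nat.cast_nonneg s
    have h1 : ((m : ℝ) + s) * (((m : ℝ) + s) ^ k - (m : ℝ) ^ k) ≤
        ((m : ℝ) + s) * (k * s * ((m : ℝ) + s) ^ (k - 1)) := mul_le_mul_of_nonneg_left ih (by positivity)
    have h2 : ((m : ℝ) + s) * (k * s * ((m : ℝ) + s) ^ (k - 1)) = k * s * ((m : ℝ) + s) ^ k := by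
      rcases k with _ | k
      · simp
      · rw [Nat.add_sub_cancel]
        ring
    have h3 : (s : ℝ) * (m : ℝ) ^ k ≤ s * ((m : ℝ) + s) ^ k :=
      mul_le_mul_of_nonneg_left (pow_le_pow_left₀ hm (by linarith) _) hs
    rw [Nat.add_sub_cancel]
    push_cast
    calc ((m : ℝ) + s) ^ (k + 1) - (m : ℝ) ^ (k + 1)
        = ((m : ℝ) + s) * (((m : ℝ) + s) ^ k - (m : ℝ) ^ k) + s * (m : ℝ) ^ k := by ring
      _ ≤ k * s * ((m : ℝ) + s) ^ k + s * ((m : ℝ) + s) ^ k := by linarith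
      _ = ((k : ℝ) + 1) * s * ((m : ℝ) + s) ^ k := by ring

theorem diff_bdd {n : ℕ} (hn : 1 ≤ n) {e0 e1 : ℝ} {d : ℕ → ℝ}
    (hd : (fun m : ℕ => d m - (e0 * (m : ℝ) ^ n / n.factorial + e1 * (m : ℝ) ^ (n - 1) / (n - 1).factorial))
      =o[atTop] fun m : ℕ => (m : ℝ) ^ (n - 1)) (s : ℕ) :
    ∃ B : ℝ, 0 ≤ B ∧ ∀ m : ℕ, d (m + s) - d m ≤ B * ((m : ℝ) + 1) ^ (n - 1) := by
  obtain ⟨C, hC0, hC⟩ := err_bdd hd
  set K : ℝ := ((s : ℝ) + 1) ^ (n - 1) with hK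
  have hK0 : 0 ≤ K := by positivity
  refine ⟨|e0| * (n * s) * K + |e1| * K + C * K + C, by positivity, fun m => ?_⟩
  have hm : (0 : ℝ) ≤ m := Nat.cast_nonneg m
  have hs : (0 : ℝ) ≤ s := Nat.cast_nonneg s
  set X : ℝ := ((m : ℝ) + 1) ^ (n - 1) with hX
  have hX0 : 0 ≤ X := by positivity
  have h1 := hC (m + s)
  have h2 := hC m
  have hKX : ((m : ℝ) + s) ^ (n - 1) ≤ K * X := shift_bdd (n - 1) s m
  have hKX1 : (((m + s : ℕ) : ℝ) + 1) ^ (n - 1) ≤ K * X := by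
    rw [hK, hX, ← mul_pow]
    refine pow_le_pow_left₀ (by positivity) ?_ _
    push_cast
    nlinarith [mul_nonneg hs hm]
  have h3 : |d (m + s) - (e0 * (((m + s : ℕ) : ℝ)) ^ n / n.factorial +
      e1 * (((m + s : ℕ) : ℝ)) ^ (n - 1) / (n - 1).factorial)| ≤ C * (K * X) :=
    h1.trans (mul_le_mul_of_nonneg_left hKX1 hC0)
  have h4 := (abs_le.1 h3).2
  have h5 := (abs_le.1 h2).1
  have f1 : (1 : ℝ) ≤ (n.factorial : ℝ) := by exact_mod_cast Nat.factorial_pos n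
  have f2 : (1 : ℝ) ≤ ((n - 1).factorial : ℝ) := by exact_mod_cast Nat.factorial_pos (n - 1)
  have g1 : e0 * (((m : ℝ) + s) ^ n - (m : ℝ) ^ n) / n.factorial ≤ |e0| * (n * s) * (K * X) := by
    have a1 : 0 ≤ ((m : ℝ) + s) ^ n - (m : ℝ) ^ n :=
      sub_nonneg.2 (pow_le_pow_left₀ hm (by linarith) _)
    have a2 : ((m : ℝ) + s) ^ n - (m : ℝ) ^ n ≤ (n * s) * (K * X) :=
      (pow_diff n s m).trans (mul_le_mul_of_nonneg_left hKX (by positivity))
    calc e0 * (((m : ℝ) + s) ^ n - (m : ℝ) ^ n) / n.factorial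
        ≤ |e0| * (((m : ℝ) + s) ^ n - (m : ℝ) ^ n) / n.factorial := by
          gcongr
          exact le_abs_self _
      _ ≤ |e0| * (((m : ℝ) + s) ^ n - (m : ℝ) ^ n) := div_le_self (by positivity) f1
      _ ≤ |e0| * ((n * s) * (K * X)) := mul_le_mul_of_nonneg_left a2 (abs_nonneg _)
      _ = |e0| * (n * s) * (K * X) := by ring
  have g2 : e1 * (((m : ℝ) + s) ^ (n - 1) - (m : ℝ) ^ (n - 1)) / (n - 1).factorial ≤ |e1| * (K * X) := by
    have a1 : 0 ≤ ((m : ℝ) + s) ^ (n - 1) - (m : ℝ) ^ (n - 1) :=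
      sub_nonneg.2 (pow_le_pow_left₀ hm (by linarith) _)
    have a3 : 0 ≤ (m : ℝ) ^ (n - 1) := by positivity
    calc e1 * (((m : ℝ) + s) ^ (n - 1) - (m : ℝ) ^ (n - 1)) / (n - 1).factorial
        ≤ |e1| * (((m : ℝ) + s) ^ (n - 1) - (m : ℝ) ^ (n - 1)) / (n - 1).factorial := by
          gcongr
          exact le_abs_self _
      _ ≤ |e1| * (((m : ℝ) + s) ^ (n - 1) - (m : ℝ) ^ (n - 1)) := div_le_self (by positivity) f2
      _ ≤ |e1| * (K * X) := mul_le_mul_of_nonneg_left (by linarith) (abs_nonneg _)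
  have g3 : e0 * (((m : ℝ) + s) ^ n - (m : ℝ) ^ n) / n.factorial =
      e0 * ((m : ℝ) + s) ^ n / n.factorial - e0 * (m : ℝ) ^ n / n.factorial := by ring
  have g4 : e1 * (((m : ℝ) + s) ^ (n - 1) - (m : ℝ) ^ (n - 1)) / (n - 1).factorial =
      e1 * ((m : ℝ) + s) ^ (n - 1) / (n - 1).factorial - e1 * (m : ℝ) ^ (n - 1) / (n - 1).factorial := by ring
  rw [g3] at g1
  rw [g4] at g2
  push_cast at h4
  have e : (|e0| * (n * s) * K + |e1| * K + C * K + C) * X =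
      |e0| * (n * s) * (K * X) + |e1| * (K * X) + C * (K * X) + C * X := by ring
  rw [e]
  linarith

theorem d_bdd {n : ℕ} (hn : 1 ≤ n) {e0 e1 : ℝ} {d : ℕ → ℝ}
    (hd : (fun m : ℕ => d m - (e0 * (m : ℝ) ^ n / n.factorial + e1 * (m : ℝ) ^ (n - 1) / (n - 1).factorial))
      =o[atTop] fun m : ℕ => (m : ℝ) ^ (n - 1)) :
    ∃ B : ℝ, 0 ≤ B ∧ ∀ m : ℕ, d m ≤ B * ((m : ℝ) + 1) ^ n := by
  obtain ⟨C, hC0, hC⟩ := err_bdd hd
  refine ⟨|e0| + |e1| + C, by positivity, fun m => ?_⟩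
  have hm : (0 : ℝ) ≤ m := Nat.cast_nonneg m
  have h2 := (abs_le.1 (hC m)).2
  have f1 : (1 : ℝ) ≤ (n.factorial : ℝ) := by exact_mod_cast Nat.factorial_pos n
  have f2 : (1 : ℝ) ≤ ((n - 1).factorial : ℝ) := by exact_mod_cast Nat.factorial_pos (n - 1)
  have hX : ((m : ℝ) + 1) ^ (n - 1) ≤ ((m : ℝ) + 1) ^ n :=
    pow_le_pow_right₀ (by linarith) (Nat.sub_le n 1)
  have g1 : e0 * (m : ℝ) ^ n / n.factorial ≤ |e0| * ((m : ℝ) + 1) ^ n := by
    calc e0 * (m : ℝ) ^ n / n.factorial ≤ |e0| * (m : ℝ) ^ n / n.factorial := by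
          gcongr
          exact le_abs_self _
      _ ≤ |e0| * (m : ℝ) ^ n := div_le_self (by positivity) f1
      _ ≤ |e0| * ((m : ℝ) + 1) ^ n :=
          mul_le_mul_of_nonneg_left (pow_le_pow_left₀ hm (by linarith) _) (abs_nonneg _)
  have g2 : e1 * (m : ℝ) ^ (n - 1) / (n - 1).factorial ≤ |e1| * ((m : ℝ) + 1) ^ n := by
    calc e1 * (m : ℝ) ^ (n - 1) / (n - 1).factorial ≤ |e1| * (m : ℝ) ^ (n - 1) / (n - 1).factorial := by
          gcongr
          exact le_abs_self _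
      _ ≤ |e1| * (m : ℝ) ^ (n - 1) := div_le_self (by positivity) f2
      _ ≤ |e1| * ((m : ℝ) + 1) ^ n :=
          mul_le_mul_of_nonneg_left ((pow_le_pow_left₀ hm (by linarith) _).trans hX) (abs_nonneg _)
  have g3 : C * ((m : ℝ) + 1) ^ (n - 1) ≤ C * ((m : ℝ) + 1) ^ n := mul_le_mul_of_nonneg_left hX hC0
  have e : (|e0| + |e1| + C) * ((m : ℝ) + 1) ^ n =
      |e0| * ((m : ℝ) + 1) ^ n + |e1| * ((m : ℝ) + 1) ^ n + C * ((m : ℝ) + 1) ^ n := by ring
  rw [e]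
  linarith

theorem main_growth {n : ℕ} (hn : 1 ≤ n) {e0 e1 : ℝ} (he1 : 0 < e1) {d : ℕ → ℝ}
    (hd : (fun m : ℕ => d m - (e0 * (m : ℝ) ^ n / n.factorial + e1 * (m : ℝ) ^ (n - 1) / (n - 1).factorial))
      =o[atTop] fun m : ℕ => (m : ℝ) ^ (n - 1)) {H : ℕ → ℝ} (hH : Monotone H) (h0 : ∀ m, 0 ≤ H m) {B : ℝ}
    (hB : ∀ m, H m ≤ B * ((m : ℝ) + 1) ^ (n - 1)) (s m₀ : ℕ) {c : ℝ} (hc : 0 ≤ c) :
    ∃ m : ℕ, s ≤ m ∧ m₀ ≤ m ∧ c * (H (m + s) - H (m - s)) < 2 ^ n * d m - d (2 * m) := by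
  by_contra hcon
  push Not at hcon
  set F : ℝ := ((n - 1).factorial : ℝ) with hF
  have hF0 : 0 < F := by
    rw [hF]
    exact_mod_cast Nat.factorial_pos (n - 1)
  -- the lower bound
  have hε : 0 < e1 / (6 * F) := by positivity
  have h1 := hd.def hε
  rw [eventually_atTop] at h1
  obtain ⟨m₁, hm₁⟩ := h1
  have hlow : ∀ m : ℕ, m₁ ≤ m → e1 * 2 ^ (n - 1) / (2 * F) * (m : ℝ) ^ (n - 1) ≤ 2 ^ n * d m - d (2 * m) := by
    intro m hm
    have a1 := hm₁ m hm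
    have a2 := hm₁ (2 * m) (by omega)
    rw [Real.norm_eq_abs, Real.norm_of_nonneg (by positivity)] at a1 a2
    have b1 := (abs_le.1 a1).1
    have b2 := (abs_le.1 a2).2
    push_cast at b2
    rw [mul_pow, mul_pow] at b2
    have hn2 : (2 : ℝ) ^ n = 2 * 2 ^ (n - 1) := by
      rw [← pow_succ', Nat.sub_add_cancel hn]
    rw [hn2] at b2 ⊢
    set P : ℝ := 2 ^ (n - 1) with hP
    have hP0 : 0 < P := by positivity
    set Y : ℝ := (m : ℝ) ^ (n - 1) with hY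
    set Z : ℝ := (m : ℝ) ^ n with hZ
    have c1 := mul_le_mul_of_nonneg_left b1 (by positivity : 0 ≤ 2 * P)
    have e2 : e1 * P / (2 * F) * Y = e1 * P * Y / F - 2 * P * (e1 / (6 * F) * Y) - e1 / (6 * F) * (P * Y) := by
      field_simp
      ring
    have e3 : 2 * P * (-(e1 / (6 * F) * Y)) = -(2 * P * (e1 / (6 * F) * Y)) := by ring
    have e4 : 2 * P * (d m - (e0 * Z / n.factorial + e1 * Y / F)) =
        2 * P * d m - e0 * (2 * P * Z) / n.factorial - 2 * (e1 * P * Y / F) := by ring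
    have e5 : e1 * (P * Y) / F = e1 * P * Y / F := by ring
    rw [e3, e4] at c1
    rw [e5] at b2
    rw [e2]
    linarith
  set c' : ℝ := e1 * 2 ^ (n - 1) / (2 * F) with hc'
  have hc'0 : 0 < c' := by positivity
  -- telescoping
  set S : ℕ → ℝ := fun k => ∑ j ∈ Finset.range (2 * s), H (k + j) with hS
  have hS1 : ∀ k, S (k + 1) = S k + (H (k + 2 * s) - H k) := by
    intro k
    have a1 : ∑ j ∈ Finset.range (2 * s + 1), H (k + j) = S k + H (k + 2 * s) :=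
      Finset.sum_range_succ (fun j => H (k + j)) (2 * s)
    have a2 : ∑ j ∈ Finset.range (2 * s + 1), H (k + j) = S (k + 1) + H k := by
      rw [Finset.sum_range_succ' (fun j => H (k + j)) (2 * s)]
      have : ∀ j, H (k + (j + 1)) = H (k + 1 + j) := fun j => by
        congr 1
        omega
      simp only [this]
      rfl
    linarith
  have hS0 : ∀ k, 0 ≤ S k := fun k => Finset.sum_nonneg fun j _ => h0 _
  have hS2 : ∀ k, S k ≤ 2 * s * H (k + 2 * s) := by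
    intro k
    have : S k ≤ ∑ _j ∈ Finset.range (2 * s), H (k + 2 * s) :=
      Finset.sum_le_sum fun j hj => hH (by
        have := Finset.mem_range.1 hj
        omega)
    refine this.trans (le_of_eq ?_)
    rw [Finset.sum_const, Finset.card_range, nsmul_eq_mul]
    push_cast
    ring
  have hstep : ∀ L : ℕ, m₁ + m₀ ≤ L → ∀ j : ℕ, c' * j * (L : ℝ) ^ (n - 1) ≤ c * (S (L + j) - S L) := by
    intro L hL j
    induction j with
    | zero => simp
    | succ j ih =>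
      have a1 := hlow (s + (L + j)) (by omega)
      have a2 := hcon (s + (L + j)) (by omega) (by omega)
      have a3 : s + (L + j) - s = L + j := by omega
      have a4 : s + (L + j) + s = L + j + 2 * s := by omega
      rw [a3, a4] at a2
      have a5 : c' * (L : ℝ) ^ (n - 1) ≤ c' * ((s + (L + j) : ℕ) : ℝ) ^ (n - 1) := by
        refine mul_le_mul_of_nonneg_left (pow_le_pow_left₀ (by positivity) ?_ _) hc'0.le
        exact_mod_cast (by omega : L ≤ s + (L + j))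
      have a6 := hS1 (L + j)
      have a7 : L + (j + 1) = L + j + 1 := by omega
      rw [a7, a6]
      have a8 : c * (S (L + j) + (H (L + j + 2 * s) - H (L + j)) - S L) =
          c * (S (L + j) - S L) + c * (H (L + j + 2 * s) - H (L + j)) := by ring
      rw [a8]
      push_cast
      have a9 : c' * ((j : ℝ) + 1) * (L : ℝ) ^ (n - 1) = c' * j * (L : ℝ) ^ (n - 1) + c' * (L : ℝ) ^ (n - 1) := by ring
      rw [a9]
      linarith
  have hB0 : 0 ≤ B := by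
    have := (h0 0).trans (hB 0)
    simpa using this
  -- the contradiction
  have hfin : ∀ L : ℕ, m₁ + m₀ + 1 ≤ L → c' * L ≤ c * (2 * s * (B * (2 * s + 3) ^ (n - 1))) := by
    intro L hL
    have hL1 : (1 : ℝ) ≤ L := by exact_mod_cast (by omega : 1 ≤ L)
    have a1 := hstep L (by omega) L
    have a2 : c * (S (L + L) - S L) ≤ c * (2 * s * H (L + L + 2 * s)) :=
      mul_le_mul_of_nonneg_left (by linarith [hS0 L, hS2 (L + L)]) hc
    have a3 := hB (L + L + 2 * s)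
    have a4 : (((L + L + 2 * s : ℕ) : ℝ) + 1) ^ (n - 1) ≤ (2 * s + 3) ^ (n - 1) * (L : ℝ) ^ (n - 1) := by
      rw [← mul_pow]
      refine pow_le_pow_left₀ (by positivity) ?_ _
      push_cast
      nlinarith [mul_nonneg (Nat.cast_nonneg s : (0 : ℝ) ≤ s) (sub_nonneg.2 hL1)]
    have a5 : c * (2 * s * H (L + L + 2 * s)) ≤ c * (2 * s * (B * ((2 * s + 3) ^ (n - 1) * (L : ℝ) ^ (n - 1)))) := by
      refine mul_le_mul_of_nonneg_left (mul_le_mul_of_nonneg_left ?_ (by positivity)) hc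
      exact a3.trans (mul_le_mul_of_nonneg_left a4 hB0)
    have hLp : 0 < (L : ℝ) ^ (n - 1) := by positivity
    have a6 : c' * L * (L : ℝ) ^ (n - 1) ≤ c * (2 * s * (B * (2 * s + 3) ^ (n - 1))) * (L : ℝ) ^ (n - 1) := by
      calc c' * L * (L : ℝ) ^ (n - 1) ≤ c * (2 * s * (B * ((2 * s + 3) ^ (n - 1) * (L : ℝ) ^ (n - 1)))) :=
            (a1.trans a2).trans a5
        _ = c * (2 * s * (B * (2 * s + 3) ^ (n - 1))) * (L : ℝ) ^ (n - 1) := by ring
    exact le_of_mul_le_mul_right a6 hLp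
  obtain ⟨L, hL⟩ := exists_nat_gt (c * (2 * s * (B * (2 * s + 3) ^ (n - 1))) / c')
  have a1 := hfin (L + (m₁ + m₀ + 1)) (by omega)
  rw [div_lt_iff₀ hc'0] at hL
  push_cast at a1
  have a2 : 0 ≤ c' * ((m₁ : ℝ) + m₀ + 1) := by positivity
  nlinarith

theorem grow {H : ℕ → ℝ} {N : ℕ} {B : ℝ} (hB : ∀ m, H m ≤ B * ((m : ℝ) + 1) ^ N) (hpos : ∀ᶠ m in atTop, 0 < H m)
    {σ : ℝ} (hσ : 2 ^ N < σ) (c m₀ : ℕ) : ∃ m, m₀ ≤ m ∧ H (2 * m + c) < σ * H m := by
  by_contra hcon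
  push Not at hcon
  rw [eventually_atTop] at hpos
  obtain ⟨m₁, hm₁⟩ := hpos
  set a : ℕ := m₁ + m₀ with ha
  have hσ0 : 0 < σ := lt_trans (by positivity) hσ
  have hHa : 0 < H a := hm₁ a (by omega)
  have key : ∀ j : ℕ, ∃ m : ℕ, a ≤ m ∧ m + c = 2 ^ j * (a + c) ∧ σ ^ j * H a ≤ H m := by
    intro j
    induction j with
    | zero => exact ⟨a, le_rfl, by simp, by simp⟩
    | succ j ih =>
      obtain ⟨m, h1, h2, h3⟩ := ih
      refine ⟨2 * m + c, by omega, ?_, ?_⟩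
      · rw [pow_succ, mul_comm (2 ^ j) 2, mul_assoc, ← h2]
        omega
      · refine le_trans ?_ (hcon m (by omega))
        rw [pow_succ, mul_comm (σ ^ j) σ, mul_assoc]
        exact mul_le_mul_of_nonneg_left h3 hσ0.le
  have hbd : ∀ j : ℕ, σ ^ j * H a ≤ |B| * ((a : ℝ) + c + 1) ^ N * (2 ^ N) ^ j := by
    intro j
    obtain ⟨m, h1, h2, h3⟩ := key j
    have h4 : (m : ℝ) + 1 ≤ 2 ^ j * ((a : ℝ) + c + 1) := by
      have h5 : ((m + c : ℕ) : ℝ) = ((2 ^ j * (a + c) : ℕ) : ℝ) := by rw [h2]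
      push_cast at h5
      have h6 : (1 : ℝ) ≤ 2 ^ j := one_le_pow₀ (by norm_num)
      have h7 : (0 : ℝ) ≤ c := Nat.cast_nonneg c
      linarith
    calc σ ^ j * H a ≤ H m := h3
      _ ≤ B * ((m : ℝ) + 1) ^ N := hB m
      _ ≤ |B| * ((m : ℝ) + 1) ^ N := mul_le_mul_of_nonneg_right (le_abs_self B) (by positivity)
      _ ≤ |B| * (2 ^ j * ((a : ℝ) + c + 1)) ^ N :=
          mul_le_mul_of_nonneg_left (pow_le_pow_left₀ (by positivity) h4 _) (abs_nonneg _)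
      _ = |B| * ((a : ℝ) + c + 1) ^ N * (2 ^ N) ^ j := by
          rw [mul_pow, ← pow_mul, ← pow_mul, mul_comm j N]
          ring
  have hq : 1 < σ / 2 ^ N := by
    rw [one_lt_div (by positivity)]
    exact hσ
  have ht := tendsto_pow_atTop_atTop_of_one_lt hq
  obtain ⟨j, hj⟩ := (ht.eventually_gt_atTop (|B| * ((a : ℝ) + c + 1) ^ N / H a)).exists
  have h8 := hbd j
  rw [div_lt_iff₀ hHa, div_pow, div_mul_eq_mul_div, lt_div_iff₀ (by positivity)] at hj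
  linarith

end Pool.Agent.Helper41.TU
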