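import Mathlib

/-!
# Project TU (MP_3f01ee): definitions

`ord i x` (`i : ι`, `x : K`) are the orders of `x` along the prime divisors `i` of a normal projective variety `X` over `k`,
with function field `K`; `D` is a very ample divisor, and
`V h D m C = {x | ord i x ≥ -m D i - C i for all i} = H^0(X, O(m D + C))`.
The values `ord i 0` are not used.
-/

set_option autoImplicit false

namespace Pool.Agent.Helper41.TU

open Module

/-- Order functions (discrete valuations of `K`, trivial on `k`) of finite character. -/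
structure Ords (k : Type*) {K ι : Type*} [Field k] [Field K] [Algebra k K] (ord : ι → K → ℤ) : Prop where
  mul : ∀ i x y, x ≠ 0 → y ≠ 0 → ord i (x * y) = ord i x + ord i y
  add : ∀ i x y, x ≠ 0 → y ≠ 0 → x + y ≠ 0 → min (ord i x) (ord i y) ≤ ord i (x + y)
  const : ∀ i (c : k), c ≠ 0 → ord i (algebraMap k K c) = 0
  unif : ∀ i, ∃ p : K, p ≠ 0 ∧ ord i p = 1
  fin : ∀ x : K, x ≠ 0 → {i | ord i x ≠ 0}.Finite

variable {k K ι : Type*} [Field k] [Field K] [Algebra k K] {ord : ι → K → ℤ}

/-- `H^0(X, O(m D + C))`. -/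
def V (h : Ords k ord) (D : ι → ℤ) (m : ℕ) (C : ι →₀ ℤ) : Submodule k K where
  carrier := {x | x ≠ 0 → ∀ i, -(m * D i) - C i ≤ ord i x}
  zero_mem' := fun h0 => absurd rfl h0
  add_mem' := by
    intro x y hx hy hxy i
    by_cases hx0 : x = 0
    · subst hx0
      rw [zero_add] at hxy ⊢
      exact hy hxy i
    by_cases hy0 : y = 0
    · subst hy0
      rw [add_zero] at hxy ⊢
      exact hx hxy i
    exact (le_min (hx hx0 i) (hy hy0 i)).trans (h.add i x y hx0 hy0 hxy)
  smul_mem' := by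
    intro c x hx hcx i
    rw [Algebra.smul_def] at hcx ⊢
    have h1 : algebraMap k K c ≠ 0 := left_ne_zero_of_mul hcx
    have h2 : x ≠ 0 := right_ne_zero_of_mul hcx
    have h3 : c ≠ 0 := by
      rintro rfl
      exact h1 (map_zero _)
    rw [h.mul i _ _ h1 h2, h.const i c h3, zero_add]
    exact hx h2 i

theorem mem_V {h : Ords k ord} {D : ι → ℤ} {m : ℕ} {C : ι →₀ ℤ} {x : K} :
    x ∈ V h D m C ↔ (x ≠ 0 → ∀ i, -(m * D i) - C i ≤ ord i x) := Iff.rfl

/-- The divisor of `x`. -/
noncomputable def dv (h : Ords k ord) (x : K) (hx : x ≠ 0) : ι →₀ ℤ :=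
  Finsupp.ofSupportFinite (fun i => ord i x) (h.fin x hx)

theorem dv_apply (h : Ords k ord) (x : K) (hx : x ≠ 0) (i : ι) : dv h x hx i = ord i x := rfl

/-- The prime divisors and a very ample divisor of a normal projective variety. -/
structure Model (h : Ords k ord) (D : ι → ℤ) : Prop where
  /-- sections of multiples of `D` with given zeros (or poles), and exact order at `i` -/
  appr : ∀ (C : ι →₀ ℤ) (i : ι), ∃ (s : ℕ) (g : K), g ≠ 0 ∧ (∀ j, C j - s * D j ≤ ord j g) ∧
    ord i g = C i - s * D i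
  step : ∀ i, ∃ t : K, t ≠ 0 ∧ (∀ j, -D j ≤ ord j t) ∧ ord i t = -D i
  fd : ∀ m : ℕ, FiniteDimensional k (V h D m 0)

/-- `dim H^0(X, O(m D + C))` -/
noncomputable def dd (h : Ords k ord) (D : ι → ℤ) (m : ℕ) (C : ι →₀ ℤ) : ℤ := (finrank k (V h D m C) : ℤ)

/-- `dim H^0(X, O(m D)) - dim H^0(X, O(m D - i))` -/
noncomputable def hh (h : Ords k ord) (D : ι → ℤ) (i : ι) (m : ℕ) : ℤ :=
  dd h D m 0 - dd h D m (-Finsupp.single i 1)

/-- The second residue form at `i` of the diagonal form with coefficients `f j` is metabolic, in terms of lifts: there are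
`N` linear forms with integral coefficients `c l j` in the variables `y j` (`j` with `ord i (f j)` odd), `2 N ≤` number of
these variables, such that the residue form vanishes on their common zeros in the residue field. -/
def ResLag (ord : ι → K → ℤ) {J : Type*} [Fintype J] (f : J → K) (i : ι) : Prop :=
  ∃ (p : K) (N : ℕ) (c : Fin N → {j : J // Odd (ord i (f j))} → K), p ≠ 0 ∧ ord i p = 1 ∧
    2 * N ≤ Nat.card {j : J // Odd (ord i (f j))} ∧ (∀ l j, c l j ≠ 0 → 0 ≤ ord i (c l j)) ∧
    ∀ y : {j : J // Odd (ord i (f j))} → K, (∀ j, y j ≠ 0 → 0 ≤ ord i (y j)) →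
      (∀ l, (∑ j, c l j * y j) ≠ 0 → 1 ≤ ord i (∑ j, c l j * y j)) →
      (∑ j, f j.1 * p ^ (-ord i (f j.1)) * y j ^ 2) ≠ 0 →
        1 ≤ ord i (∑ j, f j.1 * p ^ (-ord i (f j.1)) * y j ^ 2)

end Pool.Agent.Helper41.TU
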