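import Pool.Agent.Helper41.TU.Defs

/-!
# Block TU-EM1: the local computation

`local_q`. Put `a j = ord i (f j)`, `b j = (a j + 1) / 2` (the ceiling of `a j / 2`), `z j = x j * p ^ (b j + m D i)`; `z j` is integral at `i`
(`z j ≠ 0 → 0 ≤ ord i (z j)`). Let `u j = f j * p ^ (- a j)`, `ord i (u j) = 0`. Then `f j * x j ^ 2 = p ^ (-2 m D i) * p ^ (a j - 2 b j) * u j * z j ^ 2`,
and `a j - 2 b j` is `0` if `a j` is even and `-1` if `a j` is odd. So
`q(x) = p ^ (-2 m D i) * (∑_{even} u j z j ^ 2 + p⁻¹ * ∑_{odd} u j z j ^ 2)`. The first sum is integral. By `hy` the sums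
`∑_{odd} c l j * z j = p ^ (m D i) * ∑ c l j * p ^ (b j) * x j` have order `≥ 1` (or vanish), so by `hmeta` the second sum has order `≥ 1` (or
vanishes) and `p⁻¹` times it is integral.

`bound`: `C' j' = max` over the `j` with `b j ≠ 0` of `C j j' - ord j' (b j)` for `j' ≠ i` (and also `≥ 0`), `C' i = 0`; finite support by `Ords.fin`.
-/

set_option autoImplicit false

namespace Pool.Agent.Helper41.TU

open Module

variable {k K ι : Type*} [Field k] [Field K] [Algebra k K] {ord : ι → K → ℤ}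

private theorem ord_one (h : Ords k ord) (i : ι) : ord i (1 : K) = 0 := by
  have h1 := h.mul i 1 1 one_ne_zero one_ne_zero
  rw [mul_one] at h1
  linarith

private theorem ord_inv (h : Ords k ord) (i : ι) {x : K} (hx : x ≠ 0) : ord i x⁻¹ = -ord i x := by
  have h1 := h.mul i x x⁻¹ hx (inv_ne_zero hx)
  rw [mul_inv_cancel₀ hx, ord_one h i] at h1
  linarith

private theorem ord_pow (h : Ords k ord) (i : ι) {x : K} (hx : x ≠ 0) (n : ℕ) : ord i (x ^ n) = n * ord i x := by
  induction n with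
  | zero => rw [pow_zero, ord_one h i]; simp
  | succ n ih =>
    rw [pow_succ, h.mul i _ _ (pow_ne_zero n hx) hx, ih]
    push_cast
    ring

private theorem ord_zpow (h : Ords k ord) (i : ι) {x : K} (hx : x ≠ 0) (n : ℤ) : ord i (x ^ n) = n * ord i x := by
  obtain ⟨m, rfl | rfl⟩ := n.eq_nat_or_neg
  · rw [zpow_natCast, ord_pow h i hx]
  · rw [zpow_neg, zpow_natCast, ord_inv h i (pow_ne_zero m hx), ord_pow h i hx]
    ring

private theorem ge_add (h : Ords k ord) (i : ι) {n : ℤ} {x y : K} (hx : x ≠ 0 → n ≤ ord i x)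
    (hy : y ≠ 0 → n ≤ ord i y) : x + y ≠ 0 → n ≤ ord i (x + y) := by
  intro hxy
  by_cases hx0 : x = 0
  · subst hx0
    rw [zero_add] at hxy ⊢
    exact hy hxy
  by_cases hy0 : y = 0
  · subst hy0
    rw [add_zero] at hxy ⊢
    exact hx hxy
  exact (le_min (hx hx0) (hy hy0)).trans (h.add i x y hx0 hy0 hxy)

private theorem ge_sum (h : Ords k ord) (i : ι) {n : ℤ} {J : Type*} (s : Finset J) {g : J → K}
    (hg : ∀ j ∈ s, g j ≠ 0 → n ≤ ord i (g j)) : (∑ j ∈ s, g j) ≠ 0 → n ≤ ord i (∑ j ∈ s, g j) := by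
  classical
  induction s using Finset.induction_on with
  | empty =>
    intro h0
    exact absurd Finset.sum_empty h0
  | insert a s ha ih =>
    rw [Finset.sum_insert ha]
    exact ge_add h i (hg a (Finset.mem_insert_self a s))
      (ih fun j hj => hg j (Finset.mem_insert_of_mem hj))

theorem local_q (h : Ords k ord) {D : ι → ℤ} {J : Type*} [Fintype J] {f : J → K} (hf : ∀ j, f j ≠ 0) {i : ι} {p : K}
    (hp0 : p ≠ 0) (hp : ord i p = 1) {N : ℕ} {c : Fin N → {j : J // Odd (ord i (f j))} → K}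
    (hc : ∀ l j, c l j ≠ 0 → 0 ≤ ord i (c l j))
    (hmeta : ∀ y : {j : J // Odd (ord i (f j))} → K, (∀ j, y j ≠ 0 → 0 ≤ ord i (y j)) →
      (∀ l, (∑ j, c l j * y j) ≠ 0 → 1 ≤ ord i (∑ j, c l j * y j)) →
      (∑ j, f j.1 * p ^ (-ord i (f j.1)) * y j ^ 2) ≠ 0 →
        1 ≤ ord i (∑ j, f j.1 * p ^ (-ord i (f j.1)) * y j ^ 2))
    (m : ℕ) {x : J → K} (hx : ∀ j, x j ≠ 0 → -(m * D i) - (ord i (f j) + 1) / 2 ≤ ord i (x j))
    (hy : ∀ l, (∑ j : {j : J // Odd (ord i (f j))}, c l j * p ^ ((ord i (f j.1) + 1) / 2) * x j.1) ≠ 0 →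
      -(m * D i) + 1 ≤ ord i (∑ j : {j : J // Odd (ord i (f j))}, c l j * p ^ ((ord i (f j.1) + 1) / 2) * x j.1)) :
    (∑ j, f j * x j ^ 2) ≠ 0 → -(2 * m * D i) ≤ ord i (∑ j, f j * x j ^ 2) := by
  rw [← Fintype.sum_subtype_add_sum_subtype (fun j => Odd (ord i (f j))) fun j => f j * x j ^ 2]
  refine ge_add h i ?_ (ge_sum h i _ ?_)
  · -- the odd part
    set y : {j : J // Odd (ord i (f j))} → K := fun j => x j.1 * p ^ ((ord i (f j.1) + 1) / 2 + m * D i) with hydef
    have hm := hmeta y (by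
      intro j hj
      have hxj : x j.1 ≠ 0 := left_ne_zero_of_mul hj
      rw [hydef]
      dsimp only
      rw [h.mul i _ _ hxj (zpow_ne_zero _ hp0), ord_zpow h i hp0, hp]
      have := hx j.1 hxj
      linarith) (by
      intro l hl
      have e : ∑ j, c l j * y j = p ^ (m * D i : ℤ) * ∑ j : {j : J // Odd (ord i (f j))}, c l j * p ^ ((ord i (f j.1) + 1) / 2) * x j.1 := by
        rw [Finset.mul_sum]
        refine Finset.sum_congr rfl fun j _ => ?_
        rw [hydef]
        dsimp only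
        rw [zpow_add₀ hp0]
        ring
      rw [e] at hl ⊢
      have h2 := right_ne_zero_of_mul hl
      rw [h.mul i _ _ (zpow_ne_zero _ hp0) h2, ord_zpow h i hp0, hp]
      have := hy l h2
      linarith)
    have e : ∑ j : {j : J // Odd (ord i (f j))}, f j.1 * x j.1 ^ 2 =
        p ^ (-(2 * m * D i) - 1 : ℤ) * ∑ j, f j.1 * p ^ (-ord i (f j.1)) * y j ^ 2 := by
      rw [Finset.mul_sum]
      refine Finset.sum_congr rfl fun j _ => ?_
      rw [hydef]
      dsimp only
      obtain ⟨t, ht⟩ := j.2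
      have hb : (ord i (f j.1) + 1) / 2 = t + 1 := by omega
      rw [hb]
      have e2 : p ^ (-(2 * m * D i) - 1 : ℤ) * (f j.1 * p ^ (-ord i (f j.1)) * (x j.1 * p ^ (t + 1 + m * D i)) ^ 2) =
          f j.1 * x j.1 ^ 2 * (p ^ (-(2 * m * D i) - 1 : ℤ) * p ^ (-ord i (f j.1)) * (p ^ (t + 1 + m * D i)) ^ 2) := by ring
      have e3 : p ^ (-(2 * m * D i) - 1 : ℤ) * p ^ (-ord i (f j.1)) * (p ^ (t + 1 + m * D i)) ^ 2 = 1 := by
        rw [sq, ← zpow_add₀ hp0, ← zpow_add₀ hp0, ← zpow_add₀ hp0]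
        have : -(2 * (m : ℤ) * D i) - 1 + -ord i (f j.1) + (t + 1 + m * D i + (t + 1 + m * D i)) = 0 := by
          rw [ht]
          ring
        rw [this, zpow_zero]
      rw [e2, e3, mul_one]
    rw [e]
    intro h0
    have h2 := right_ne_zero_of_mul h0
    rw [h.mul i _ _ (zpow_ne_zero _ hp0) h2, ord_zpow h i hp0, hp]
    have := hm h2
    linarith
  · -- the even part
    intro j _ hj
    have hxj : x j.1 ≠ 0 := by
      intro h0
      rw [h0] at hj
      apply hj
      ring
    rw [h.mul i _ _ (hf _) (pow_ne_zero 2 hxj), ord_pow h i hxj]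
    obtain ⟨t, ht⟩ := Int.not_odd_iff_even.1 j.2
    have h1 := hx j.1 hxj
    have hb : (ord i (f j.1) + 1) / 2 = t := by omega
    rw [hb] at h1
    rw [ht]
    push_cast
    linarith

theorem bound (h : Ords k ord) {D : ι → ℤ} {J : Type*} [Fintype J] (C : J → (ι →₀ ℤ)) (b : J → K) (i : ι)
    (hb : ∀ j, b j ≠ 0 → C j i ≤ ord i (b j)) :
    ∃ C' : ι →₀ ℤ, C' i = 0 ∧ ∀ (m : ℕ) (x : J → K), (∀ j, x j ∈ V h D m (C j)) → ∑ j, b j * x j ∈ V h D m C' := by
  classical
  let g0 : J → ι → ℤ := fun j j' => if b j = 0 then 0 else if j' = i then 0 else max 0 (C j j' - ord j' (b j))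
  have hg0 : ∀ j j', 0 ≤ g0 j j' := by
    intro j j'
    change 0 ≤ (if b j = 0 then 0 else if j' = i then 0 else max 0 (C j j' - ord j' (b j)))
    split_ifs
    · exact le_rfl
    · exact le_rfl
    · exact le_max_left _ _
  have hfin : ∀ j, (Function.support (g0 j)).Finite := by
    intro j
    by_cases hbj : b j = 0
    · refine Set.Finite.subset Set.finite_empty fun j' hj' => ?_
      exact hj' (if_pos hbj)
    · refine Set.Finite.subset ((C j).support.finite_toSet.union (h.fin (b j) hbj)) fun j' hj' => ?_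
      by_contra hcon
      rw [Set.mem_union, not_or] at hcon
      obtain ⟨h1, h2⟩ := hcon
      have h1' : C j j' = 0 := by simpa using h1
      have h2' : ord j' (b j) = 0 := by simpa using h2
      apply hj'
      change (if b j = 0 then 0 else if j' = i then 0 else max 0 (C j j' - ord j' (b j))) = 0
      rw [h1', h2']
      simp
  let g : J → (ι →₀ ℤ) := fun j => Finsupp.ofSupportFinite (g0 j) (hfin j)
  have hg : ∀ j j', g j j' = g0 j j' := fun j j' => rfl
  have hle : ∀ j j', g0 j j' ≤ (∑ j, g j) j' := by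
    intro j j'
    rw [Finsupp.finsetSum_apply]
    calc g0 j j' = g j j' := rfl
      _ ≤ _ := Finset.single_le_sum (f := fun j => g j j') (fun j _ => hg0 j j') (Finset.mem_univ j)
  refine ⟨∑ j, g j, ?_, ?_⟩
  · rw [Finsupp.finsetSum_apply]
    refine Finset.sum_eq_zero fun j _ => ?_
    rw [hg]
    change (if b j = 0 then 0 else if i = i then 0 else max 0 (C j i - ord i (b j))) = 0
    simp
  · intro m x hx
    refine Submodule.sum_mem _ fun j _ => ?_
    rw [mem_V]
    intro h0 j'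
    have hbj := left_ne_zero_of_mul h0
    have hxj := right_ne_zero_of_mul h0
    rw [h.mul j' _ _ hbj hxj]
    have h1 := (mem_V.1 (hx j)) hxj j'
    have h2 := hle j j'
    by_cases hj' : j' = i
    · subst hj'
      have h3 := hb j hbj
      have h4 := (hg0 j j').trans h2
      linarith
    · have h3 : C j j' - ord j' (b j) ≤ g0 j j' := by
        change C j j' - ord j' (b j) ≤ (if b j = 0 then 0 else if j' = i then 0 else max 0 (C j j' - ord j' (b j)))
        rw [if_neg hbj, if_neg hj']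
        exact le_max_right _ _
      linarith

end Pool.Agent.Helper41.TU
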