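import Pool.Agent.Helper41.TU.La

/-!
# Block TU-MD: dimensions of `H^0(X, O(m D + C))`

`V_mono`: `C ≤ C'` pointwise gives `V m C ≤ V m C'`. `fd_all`: with `g` from `Model.appr` for `C` (needs a point of `ι`):
`ord j g ≥ C j - s D j`, `x ↦ g x` maps `V m C` injectively to `V (m + s) 0`.

`up`: for `C` and `i` take `s`, `g` from `Model.appr C i`; `x ↦ g x` maps `V m C` to `V (m + s) 0`, and if `g x ∈ V (m + s) (-i)` then
`ord i x ≥ -(m + s) D i + 1 - (C i - s D i) = -m D i - C i + 1`, so `x ∈ V m (C - i)`: `squeeze_lin`.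
`low`: for `-C` and `i` take `s`, `g`: `ord j g ≥ -C j - s D j`, `ord i g = -C i - s D i`: `x ↦ g x` maps `V m 0` to `V (m + s) C`, and if
`g x ∈ V (m + s) (C - i)` then `ord i x ≥ -m D i + 1`.
`hmono`: with `t` of `Model.step` at `i`, `x ↦ t x` maps `V m 0` to `V (m + 1) 0`, and if `t x ∈ V (m + 1) (-i)` then `x ∈ V m (-i)`.
`dmono`: `x ↦ t x` is injective from `V m 0` to `V (m + 1) 0`.
`hbd`: with `s`, `g` from `Model.appr (single i 1) i`: `x ↦ g x` maps `V m 0` into `V (m + s) (-i)` (`ord j g ≥ - s D j` for `j ≠ i` and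
`ord i g = 1 - s D i`), so `hh i (m + s) ≤ dd (m + s) 0 - dd m 0`.
`tele`: by `up`, `low`, `hmono` (apply them to all the finitely many divisors on a path from `0` to `C` by steps `± i`; Finsupp induction on
`∑ |C i|`, or `Finsupp.induction_linear`: prove the statement for `C + single i (±1)` from the one for `C` with larger `s`, `c`, `T`).
`prin`: `x ↦ x * f⁻¹`... `x ∈ V m (div f)` iff `x f ∈ V m 0`; so `dd m (div f) = dd m 0`.
-/

set_option autoImplicit false

namespace Pool.Agent.Helper41.TU

open Module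

variable {k K ι : Type*} [Field k] [Field K] [Algebra k K] {ord : ι → K → ℤ} {h : Ords k ord} {D : ι → ℤ}

private theorem ord_one (h : Ords k ord) (i : ι) : ord i (1 : K) = 0 := by
  have h1 := h.mul i 1 1 one_ne_zero one_ne_zero
  rw [mul_one] at h1
  omega

private theorem ord_inv (h : Ords k ord) (i : ι) {f : K} (hf : f ≠ 0) : ord i f⁻¹ = -ord i f := by
  have h1 := h.mul i f f⁻¹ hf (inv_ne_zero hf)
  rw [mul_inv_cancel₀ hf, ord_one h i] at h1
  omega

/-- multiplication by `g` from `V m C` to `V m' C'` -/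
private theorem mul_mem {m m' : ℕ} {C C' : ι →₀ ℤ} {g : K} (hg : g ≠ 0)
    (hb : ∀ j, m * D j + C j - (m' * D j + C' j) ≤ ord j g) {x : K} (hx : x ∈ V h D m C) :
    g * x ∈ V h D m' C' := by
  intro hgx j
  have hx0 : x ≠ 0 := right_ne_zero_of_mul hgx
  rw [h.mul j g x hg hx0]
  have h1 := hx hx0 j
  have h2 := hb j
  linarith

private theorem inj_le {W U : Submodule k K} [FiniteDimensional k W] [FiniteDimensional k U] {g : K} (hg : g ≠ 0)
    (h1 : ∀ x ∈ W, g * x ∈ U) : finrank k W ≤ finrank k U := by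
  have h2 := squeeze_lin (W' := (⊥ : Submodule k K)) (W := W) (U' := (⊥ : Submodule k K)) (U := U) bot_le bot_le
    (LinearMap.mulLeft k g) (fun x hx => by
      rw [LinearMap.mulLeft_apply]
      exact h1 x hx) (fun x _ hgx => by
      rw [LinearMap.mulLeft_apply, Submodule.mem_bot] at hgx
      rw [Submodule.mem_bot]
      exact (mul_eq_zero.1 hgx).resolve_left hg)
  rw [finrank_bot] at h2
  omega

theorem V_mono {m : ℕ} {C C' : ι →₀ ℤ} (hC : ∀ i, C i ≤ C' i) : V h D m C ≤ V h D m C' := by
  intro x hx hx0 i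
  have h1 := hx hx0 i
  have h2 := hC i
  linarith

theorem fd_all [Nonempty ι] (M : Model h D) (m : ℕ) (C : ι →₀ ℤ) : FiniteDimensional k (V h D m C) := by
  obtain ⟨i⟩ := ‹Nonempty ι›
  obtain ⟨s, g, hg, h1, -⟩ := M.appr C i
  have := M.fd (m + s)
  have h2 : ∀ x ∈ V h D m C, LinearMap.mulLeft k g x ∈ V h D (m + s) 0 := by
    intro x hx
    rw [LinearMap.mulLeft_apply]
    refine mul_mem hg (fun j => ?_) hx
    have h3 := h1 j
    push_cast
    simp only [Pi.zero_apply]
    linarith
  refine FiniteDimensional.of_injective ((LinearMap.mulLeft k g).restrict h2) ?_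
  intro x y hxy
  have h3 := congrArg Subtype.val hxy
  rw [LinearMap.restrict_apply, LinearMap.restrict_apply] at h3
  simp only [LinearMap.mulLeft_apply] at h3
  exact Subtype.ext (mul_left_cancel₀ hg h3)

private theorem sub_single_le (C : ι →₀ ℤ) (i : ι) : ∀ j, (C - Finsupp.single i 1 : ι →₀ ℤ) j ≤ C j := by
  classical
  intro j
  rw [Finsupp.sub_apply, Finsupp.single_apply]
  split_ifs <;> omega

/-- multiplication by `g` with exact order at `i` -/
private theorem squeeze_one {m m' : ℕ} {C C' : ι →₀ ℤ} {i : ι} [FiniteDimensional k (V h D m C)]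
    [FiniteDimensional k (V h D m' C')] {g : K} (hg : g ≠ 0)
    (hb : ∀ j, m * D j + C j - (m' * D j + C' j) ≤ ord j g)
    (he : ord i g = m * D i + C i - (m' * D i + C' i)) :
    dd h D m C - dd h D m (C - Finsupp.single i 1) ≤ dd h D m' C' - dd h D m' (C' - Finsupp.single i 1) := by
  classical
  have h1 := squeeze_lin (W' := V h D m (C - Finsupp.single i 1)) (W := V h D m C)
    (U' := V h D m' (C' - Finsupp.single i 1)) (U := V h D m' C')
    (V_mono (sub_single_le C i)) (V_mono (sub_single_le C' i)) (LinearMap.mulLeft k g) (fun x hx => by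
      rw [LinearMap.mulLeft_apply]
      exact mul_mem hg hb hx) (fun x hx hgx => by
      rw [LinearMap.mulLeft_apply] at hgx
      intro hx0 j
      have h2 := hx hx0 j
      rw [Finsupp.sub_apply, Finsupp.single_apply]
      split_ifs with hij
      · subst hij
        have h3 := hgx (mul_ne_zero hg hx0) i
        rw [h.mul i g x hg hx0, he, Finsupp.sub_apply, Finsupp.single_eq_same] at h3
        linarith
      · linarith)
  unfold dd
  have h2 : ((finrank k (V h D m C) + finrank k (V h D m' (C' - Finsupp.single i 1)) : ℕ) : ℤ) ≤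
      ((finrank k (V h D m (C - Finsupp.single i 1)) + finrank k (V h D m' C') : ℕ) : ℤ) := by
    exact_mod_cast h1
  push_cast at h2
  linarith

theorem up [Nonempty ι] (M : Model h D) (C : ι →₀ ℤ) (i : ι) :
    ∃ s : ℕ, ∀ m : ℕ, dd h D m C - dd h D m (C - Finsupp.single i 1) ≤ hh h D i (m + s) := by
  obtain ⟨s, g, hg, h1, h2⟩ := M.appr C i
  refine ⟨s, fun m => ?_⟩
  have := fd_all M m C
  have := M.fd (m + s)
  have h3 := squeeze_one (h := h) (D := D) (m := m) (m' := m + s) (C := C) (C' := 0) (i := i) hg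
    (fun j => by
      have h4 := h1 j
      push_cast
      simp only [Pi.zero_apply]
      linarith)
    (by
      push_cast
      simp only [Pi.zero_apply]
      linarith)
  rw [zero_sub] at h3
  exact h3

theorem low [Nonempty ι] (M : Model h D) (C : ι →₀ ℤ) (i : ι) :
    ∃ s : ℕ, ∀ m : ℕ, hh h D i m ≤ dd h D (m + s) C - dd h D (m + s) (C - Finsupp.single i 1) := by
  obtain ⟨s, g, hg, h1, h2⟩ := M.appr (-C) i
  refine ⟨s, fun m => ?_⟩
  have := fd_all M (m + s) C
  have := M.fd m
  have h3 := squeeze_one (h := h) (D := D) (m := m) (m' := m + s) (C := 0) (C' := C) (i := i) hg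
    (fun j => by
      have h4 := h1 j
      rw [Finsupp.neg_apply] at h4
      push_cast
      simp only [Pi.zero_apply]
      linarith)
    (by
      rw [Finsupp.neg_apply] at h2
      push_cast
      simp only [Pi.zero_apply]
      linarith)
  rw [zero_sub] at h3
  exact h3

theorem hmono (M : Model h D) (i : ι) : Monotone (hh h D i) := by
  refine monotone_nat_of_le_succ fun m => ?_
  obtain ⟨t, ht, h1, h2⟩ := M.step i
  have := M.fd m
  have := M.fd (m + 1)
  have h3 := squeeze_one (h := h) (D := D) (m := m) (m' := m + 1) (C := 0) (C' := 0) (i := i) ht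
    (fun j => by
      have h4 := h1 j
      push_cast
      simp only [Pi.zero_apply]
      linarith)
    (by
      push_cast
      simp only [Pi.zero_apply]
      linarith)
  rw [zero_sub] at h3
  exact h3

theorem hnonneg (M : Model h D) (i : ι) (m : ℕ) : 0 ≤ hh h D i m := by
  have := M.fd m
  unfold hh dd
  have h1 : V h D m (-Finsupp.single i 1) ≤ V h D m 0 := by
    have h2 := sub_single_le (0 : ι →₀ ℤ) i
    rw [zero_sub] at h2
    exact V_mono h2
  have h3 : (finrank k (V h D m (-Finsupp.single i 1)) : ℤ) ≤ finrank k (V h D m 0) := by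
    exact_mod_cast Submodule.finrank_mono h1
  linarith

theorem dmono [Nonempty ι] (M : Model h D) : Monotone fun m => dd h D m 0 := by
  refine monotone_nat_of_le_succ fun m => ?_
  obtain ⟨i⟩ := ‹Nonempty ι›
  obtain ⟨t, ht, h1, -⟩ := M.step i
  have := M.fd m
  have := M.fd (m + 1)
  unfold dd
  have h3 : finrank k (V h D m 0) ≤ finrank k (V h D (m + 1) 0) := inj_le ht fun x hx =>
    mul_mem ht (fun j => by
      have h4 := h1 j
      push_cast
      simp only [Pi.zero_apply]
      linarith) hx
  exact_mod_cast h3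

theorem hbd (M : Model h D) (i : ι) : ∃ s : ℕ, ∀ m : ℕ, hh h D i (m + s) ≤ dd h D (m + s) 0 - dd h D m 0 := by
  classical
  obtain ⟨s, g, hg, h1, -⟩ := M.appr (Finsupp.single i 1) i
  have : Nonempty ι := ⟨i⟩
  refine ⟨s, fun m => ?_⟩
  have := M.fd m
  have := fd_all M (m + s) (-Finsupp.single i 1)
  unfold hh dd
  have h3 : finrank k (V h D m 0) ≤ finrank k (V h D (m + s) (-Finsupp.single i 1)) := inj_le hg fun x hx =>
    mul_mem hg (fun j => by
      have h4 := h1 j
      rw [Finsupp.neg_apply]
      push_cast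
      simp only [Pi.zero_apply]
      linarith) hx
  have h4 : (finrank k (V h D m 0) : ℤ) ≤ finrank k (V h D (m + s) (-Finsupp.single i 1)) := by
    exact_mod_cast h3
  linarith

private theorem near [Nonempty ι] (M : Model h D) (C : ι →₀ ℤ) (i : ι) : ∃ s : ℕ, ∀ m : ℕ, s ≤ m →
    |dd h D m C - dd h D m (C - Finsupp.single i 1) - hh h D i m| ≤ hh h D i (m + s) - hh h D i (m - s) := by
  obtain ⟨s₁, h1⟩ := up M C i
  obtain ⟨s₂, h2⟩ := low M C i
  refine ⟨max s₁ s₂, fun m hm => ?_⟩
  have hmo := hmono M i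
  have a1 := h1 m
  have a2 := h2 (m - s₂)
  rw [Nat.sub_add_cancel ((le_max_right _ _).trans hm)] at a2
  have a3 : hh h D i (m + s₁) ≤ hh h D i (m + max s₁ s₂) := hmo (by omega)
  have a4 : hh h D i (m - max s₁ s₂) ≤ hh h D i (m - s₂) := hmo (by omega)
  have a5 : hh h D i m ≤ hh h D i (m + max s₁ s₂) := hmo (by omega)
  have a6 : hh h D i (m - max s₁ s₂) ≤ hh h D i m := hmo (by omega)
  rw [abs_le]
  constructor <;> linarith

private theorem comb (M : Model h D) {C C' : ι →₀ ℤ} {i : ι} {e : ℤ} (hC : C' = C + Finsupp.single i e) {S : ℕ}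
    (hS : ∀ m : ℕ, S ≤ m → |dd h D m C' - dd h D m C - e * hh h D i m| ≤ hh h D i (m + S) - hh h D i (m - S))
    (hP : ∃ (s : ℕ) (c : ℤ) (T : Finset ι), 0 ≤ c ∧ ∀ m : ℕ, s ≤ m →
      |dd h D m C - dd h D m 0 - C.sum fun i a => a * hh h D i m| ≤
        c * ∑ i ∈ T, (hh h D i (m + s) - hh h D i (m - s))) :
    ∃ (s : ℕ) (c : ℤ) (T : Finset ι), 0 ≤ c ∧ ∀ m : ℕ, s ≤ m →
      |dd h D m C' - dd h D m 0 - C'.sum fun i a => a * hh h D i m| ≤
        c * ∑ i ∈ T, (hh h D i (m + s) - hh h D i (m - s)) := by
  classical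
  obtain ⟨s, c, T, hc, hT⟩ := hP
  refine ⟨max s S, c + 1, insert i T, by omega, fun m hm => ?_⟩
  have a1 := hT m ((le_max_left _ _).trans hm)
  have a2 := hS m ((le_max_right _ _).trans hm)
  have hsum : (C'.sum fun i a => a * hh h D i m) = (C.sum fun i a => a * hh h D i m) + e * hh h D i m := by
    rw [hC, Finsupp.sum_add_index' (fun _ => zero_mul _) (fun _ _ _ => add_mul _ _ _),
      Finsupp.sum_single_index (zero_mul _)]
  have hnn : ∀ j ∈ insert i T, 0 ≤ hh h D j (m + max s S) - hh h D j (m - max s S) := by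
    intro j _
    have := hmono M j (show m - max s S ≤ m + max s S by omega)
    linarith
  have b1 : ∑ j ∈ T, (hh h D j (m + s) - hh h D j (m - s)) ≤
      ∑ j ∈ insert i T, (hh h D j (m + max s S) - hh h D j (m - max s S)) := by
    refine (Finset.sum_le_sum fun j _ => ?_).trans
      (Finset.sum_le_sum_of_subset_of_nonneg (Finset.subset_insert i T) fun j hj _ => hnn j hj)
    have c1 := hmono M j (show m + s ≤ m + max s S by omega)
    have c2 := hmono M j (show m - max s S ≤ m - s by omega)
    linarith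
  have b2 : hh h D i (m + S) - hh h D i (m - S) ≤
      ∑ j ∈ insert i T, (hh h D j (m + max s S) - hh h D j (m - max s S)) := by
    refine le_trans ?_ (Finset.single_le_sum hnn (Finset.mem_insert_self i T))
    have c1 := hmono M i (show m + S ≤ m + max s S by omega)
    have c2 := hmono M i (show m - max s S ≤ m - S by omega)
    linarith
  have b3 := mul_le_mul_of_nonneg_left b1 hc
  rw [hsum]
  have e1 : dd h D m C' - dd h D m 0 - ((C.sum fun i a => a * hh h D i m) + e * hh h D i m) =
      (dd h D m C - dd h D m 0 - C.sum fun i a => a * hh h D i m) +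
        (dd h D m C' - dd h D m C - e * hh h D i m) := by ring
  rw [e1]
  refine (abs_add_le _ _).trans ?_
  rw [add_mul, one_mul]
  linarith

/-- `dim H^0(m D + C) = dim H^0(m D) + ∑ C i h_i(m)` up to an error. -/
theorem tele [Nonempty ι] (M : Model h D) (C : ι →₀ ℤ) : ∃ (s : ℕ) (c : ℤ) (T : Finset ι), 0 ≤ c ∧ ∀ m : ℕ, s ≤ m →
    |dd h D m C - dd h D m 0 - C.sum fun i a => a * hh h D i m| ≤
      c * ∑ i ∈ T, (hh h D i (m + s) - hh h D i (m - s)) := by
  classical
  induction C using Finsupp.induction with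
  | zero => exact ⟨0, 0, ∅, le_rfl, fun m _ => by simp⟩
  | single_add a b f _ _ ih =>
    clear * - M ih
    induction b using Int.induction_on with
    | zero =>
      rw [Finsupp.single_zero, zero_add]
      exact ih
    | succ n ihn =>
      obtain ⟨S, hS⟩ := near M (Finsupp.single a ((n : ℤ) + 1) + f) a
      refine comb M (i := a) (e := 1) (S := S) ?_ (fun m hm => ?_) ihn
      · rw [Finsupp.single_add]
        abel
      · have h1 : Finsupp.single a ((n : ℤ) + 1) + f - Finsupp.single a 1 = Finsupp.single a (n : ℤ) + f := by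
          rw [Finsupp.single_add]
          abel
        have h2 := hS m hm
        rw [h1] at h2
        rw [one_mul]
        exact h2
    | pred n ihn =>
      obtain ⟨S, hS⟩ := near M (Finsupp.single a (-(n : ℤ)) + f) a
      refine comb M (i := a) (e := -1) (S := S) ?_ (fun m hm => ?_) ihn
      · rw [sub_eq_add_neg, Finsupp.single_add]
        abel
      · have h1 : Finsupp.single a (-(n : ℤ)) + f - Finsupp.single a 1 = Finsupp.single a (-(n : ℤ) - 1) + f := by
          rw [Finsupp.single_sub]
          abel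
        have h2 := hS m hm
        rw [h1] at h2
        rw [← abs_neg]
        refine le_trans (le_of_eq ?_) h2
        congr 1
        ring

theorem prin [Nonempty ι] (M : Model h D) {f : K} (hf : f ≠ 0) (m : ℕ) : dd h D m (dv h f hf) = dd h D m 0 := by
  have := fd_all M m (dv h f hf)
  have := M.fd m
  unfold dd
  have h1 : finrank k (V h D m (dv h f hf)) ≤ finrank k (V h D m 0) := inj_le hf fun x hx =>
    mul_mem hf (fun j => by
      have z : (0 : ι →₀ ℤ) j = 0 := rfl
      rw [z, dv_apply]
      linarith) hx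
  have h2 : finrank k (V h D m 0) ≤ finrank k (V h D m (dv h f hf)) := inj_le (inv_ne_zero hf) fun x hx =>
    mul_mem (inv_ne_zero hf) (fun j => by
      have z : (0 : ι →₀ ℤ) j = 0 := rfl
      rw [z, dv_apply, ord_inv h j hf]
      linarith) hx
  exact_mod_cast le_antisymm h1 h2

end Pool.Agent.Helper41.TU
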