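import Pool.Agent.Helper41.TU.Em1
import Pool.Agent.Helper41.TU.Md
import Pool.Agent.Helper41.TU.An

/-!
# Block TU-EM2: unramified forms of dimension `≥ 2 ^ n` are isotropic

NOTATION. `C j : ι →₀ ℤ`, `C j i = (ord i (f j) + 1) / 2`. For every `i` choose `p i, N i, c i` by `hm i`. For `l : Fin (N i)` let
`b j = c i l j * p i ^ (C j i)`; `bound` (for the index type `{j // Odd (ord i (f j))}`) gives `C' i l` with `C' i l i = 0` such that
`φ_{i l}(x) = ∑ j, b j * x j ∈ V m (C' i l)` for `x ∈ ∏ V m (C j)`. `S` = finite set of the `i` with `ord i (f j) ≠ 0` for some `j`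
(`Ords.fin`); for `i ∉ S` there is no odd `j` and `2 N i ≤ 0`, so `N i = 0`. `Λ = Σ i : S, Fin (N i)`.

`count`: `E m = {x ∈ ∏ V m (C j) : φ_{i l}(x) ∈ V m (C' i l - i) for all (i, l) ∈ Λ}`. `local_q` gives `q(E m) ⊆ V (2 m) 0`. `cut_lin` gives
`dim E m ≥ ∑ j, dd m (C j) - ∑_{(i,l)} (dd m (C' i l) - dd m (C' i l - i))`. Now `tele` for the `C j`, `up` for the `C' i l`, and
`tele` and `prin` for the divisors of the `f j` (so `|∑ i, ord i (f j) hh i m| ≤` error) give, with
`2 C j i = ord i (f j) + [ord i (f j) odd]`, `∑ j, [ord i (f j) odd] ≥ 2 N i` and `0 ≤ hh i m`,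
`2 dim E m ≥ 2 |J| dd m 0 - c ∑_{i ∈ T} (hh i (m + s) - hh i (m - s))` for `m ≥ s`, with `c, s, T` independent of `m` (take maxima, sums and
unions; `hmono` makes the error terms monotone in `s` and `T`).

`isotropic`: `main_growth` with `H m = ∑_{i ∈ T} hh i m` (bounded by `hbd` and `diff_bdd`; for the finitely many small `m` enlarge `B`) and
`d m = dd m 0` gives `m ≥ s` with `c (H (m + s) - H (m - s)) < 2^n d m - d (2 m)`; then `dim E m > dd (2 m) 0` (as `|J| ≥ 2^n`), and
`zero_quad` with `exists_coord` for `U = V (2 m) 0`, `U' = ⊥` gives `x ≠ 0` in `E m` with `q(x) ∈ U' = 0`.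
-/

set_option autoImplicit false

namespace Pool.Agent.Helper41.TU

open Module Filter Asymptotics

variable {k K ι : Type*} [Field k] [Field K] [Algebra k K] {ord : ι → K → ℤ} {h : Ords k ord} {D : ι → ℤ}

/-- Error terms. -/
private def Er (h : Ords k ord) (D : ι → ℤ) (e : ℕ → ℤ) : Prop :=
  ∃ (s : ℕ) (c : ℤ) (T : Finset ι), 0 ≤ c ∧ ∀ m : ℕ, s ≤ m →
    e m ≤ c * ∑ i ∈ T, (hh h D i (m + s) - hh h D i (m - s))

private theorem G_mono (M : Model h D) {s s' : ℕ} (hs : s ≤ s') {T T' : Finset ι} (hT : T ⊆ T') (m : ℕ) :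
    ∑ i ∈ T, (hh h D i (m + s) - hh h D i (m - s)) ≤
      ∑ i ∈ T', (hh h D i (m + s') - hh h D i (m - s')) := by
  have h1 : ∀ i, hh h D i (m + s) - hh h D i (m - s) ≤ hh h D i (m + s') - hh h D i (m - s') := fun i =>
    sub_le_sub (hmono M i (by omega)) (hmono M i (by omega))
  have h2 : ∀ i, 0 ≤ hh h D i (m + s') - hh h D i (m - s') := fun i =>
    sub_nonneg.2 (hmono M i (by omega))
  exact (Finset.sum_le_sum fun i _ => h1 i).trans
    (Finset.sum_le_sum_of_subset_of_nonneg hT fun i _ _ => h2 i)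

private theorem G_nonneg (M : Model h D) (s : ℕ) (T : Finset ι) (m : ℕ) :
    0 ≤ ∑ i ∈ T, (hh h D i (m + s) - hh h D i (m - s)) :=
  Finset.sum_nonneg fun i _ => sub_nonneg.2 (hmono M i (by omega))

private theorem Er.mono {e e' : ℕ → ℤ} (he : ∀ m, e m ≤ e' m) (H : Er h D e') : Er h D e := by
  obtain ⟨s, c, T, hc, H⟩ := H
  exact ⟨s, c, T, hc, fun m hm => (he m).trans (H m hm)⟩

private theorem Er.add (M : Model h D) {e e' : ℕ → ℤ} (H : Er h D e) (H' : Er h D e') :
    Er h D fun m => e m + e' m := by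
  classical
  obtain ⟨s, c, T, hc, H⟩ := H
  obtain ⟨s', c', T', hc', H'⟩ := H'
  refine ⟨max s s', c + c', T ∪ T', add_nonneg hc hc', fun m hm => ?_⟩
  rw [add_mul]
  refine add_le_add ?_ ?_
  · exact (H m ((le_max_left _ _).trans hm)).trans (mul_le_mul_of_nonneg_left
      (G_mono M (le_max_left _ _) Finset.subset_union_left m) hc)
  · exact (H' m ((le_max_right _ _).trans hm)).trans (mul_le_mul_of_nonneg_left
      (G_mono M (le_max_right _ _) Finset.subset_union_right m) hc')

private theorem Er.zero : Er h D fun _ => 0 :=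
  ⟨0, 0, ∅, le_refl _, fun m _ => by simp⟩

private theorem Er.two {e : ℕ → ℤ} (H : Er h D e) : Er h D fun m => 2 * e m := by
  obtain ⟨s, c, T, hc, H⟩ := H
  refine ⟨s, 2 * c, T, by omega, fun m hm => ?_⟩
  rw [mul_assoc]
  exact mul_le_mul_of_nonneg_left (H m hm) (by norm_num)

private theorem Er.sum (M : Model h D) {A : Type*} (S : Finset A) {e : A → ℕ → ℤ} (H : ∀ a, Er h D (e a)) :
    Er h D fun m => ∑ a ∈ S, e a m := by
  classical
  induction S using Finset.induction_on with
  | empty => simpa using Er.zero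
  | insert a S ha ih =>
    simp only [Finset.sum_insert ha]
    exact Er.add M (H a) ih

private theorem Er.shift (M : Model h D) (i : ι) (s : ℕ) : Er h D fun m => hh h D i (m + s) - hh h D i m := by
  refine ⟨s, 1, {i}, zero_le_one, fun m hm => ?_⟩
  rw [Finset.sum_singleton, one_mul]
  exact sub_le_sub_left (hmono M i (by omega)) _

private theorem ord_one (h : Ords k ord) (i : ι) : ord i (1 : K) = 0 := by
  have := h.const i (1 : k) one_ne_zero
  rwa [map_one] at this

private theorem ord_zp (h : Ords k ord) (i : ι) {p : K} (hp0 : p ≠ 0) (hp : ord i p = 1) (a : ℤ) :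
    ord i (p ^ a) = a := by
  induction a using Int.induction_on with
  | zero => rw [zpow_zero, ord_one h]
  | succ n ih => rw [zpow_add_one₀ hp0, h.mul i _ _ (zpow_ne_zero _ hp0) hp0, ih, hp]
  | pred n ih =>
    have h1 : ord i (p ^ (-(n : ℤ) - 1) * p) = ord i (p ^ (-(n : ℤ) - 1)) + ord i p :=
      h.mul i _ _ (zpow_ne_zero _ hp0) hp0
    rw [← zpow_add_one₀ hp0, sub_add_cancel, ih, hp] at h1
    omega

/-- The spaces cut out by linear conditions. -/
private theorem space [Nonempty ι] (M : Model h D) {J : Type*} [Fintype J] (C : J → (ι →₀ ℤ)) (m : ℕ) {Λ : Type*}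
    [Fintype Λ] (ψ : Λ → (J → K) →ₗ[k] K) (C' C'' : Λ → (ι →₀ ℤ)) (hC : ∀ l i, C'' l i ≤ C' l i)
    (h1 : ∀ l (x : J → K), (∀ j, x j ∈ V h D m (C j)) → ψ l x ∈ V h D m (C' l)) :
    ∃ E : Submodule k (J → K), FiniteDimensional k E ∧
      (∀ x ∈ E, (∀ j, x j ∈ V h D m (C j)) ∧ ∀ l, ψ l x ∈ V h D m (C'' l)) ∧
      ∑ j, dd h D m (C j) - ∑ l, (dd h D m (C' l) - dd h D m (C'' l)) ≤ (finrank k E : ℤ) := by
  have : ∀ (m : ℕ) (C : ι →₀ ℤ), FiniteDimensional k (V h D m C) := fd_all M
  let inc : ((j : J) → V h D m (C j)) →ₗ[k] (J → K) :=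
    LinearMap.pi fun j => (V h D m (C j)).subtype ∘ₗ LinearMap.proj j
  have hinc : ∀ x j, inc x j = (x j : K) := fun x j => rfl
  have hinj : Function.Injective inc := by
    intro x y hxy
    funext j
    exact Subtype.ext (congrFun hxy j)
  let E' : Submodule k ((j : J) → V h D m (C j)) := ⨅ l, (V h D m (C'' l)).comap (ψ l ∘ₗ inc)
  have hE' : ∀ x, x ∈ E' ↔ ∀ l, ψ l (inc x) ∈ V h D m (C'' l) := by
    intro x
    simp only [E', Submodule.mem_iInf, Submodule.mem_comap, LinearMap.comp_apply]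
  refine ⟨E'.map inc, inferInstance, ?_, ?_⟩
  · rintro _ ⟨x, hx, rfl⟩
    exact ⟨fun j => (x j).2, (hE' x).1 hx⟩
  · have h2 := cut_lin (fun l => ψ l ∘ₗ inc) (fun l => V h D m (C' l)) (fun l => V h D m (C'' l))
      (fun l => V_mono (hC l)) (fun l x => h1 l _ fun j => (x j).2) E' (fun x hx => (hE' x).2 hx)
    have h3 : finrank k (E'.map inc) = finrank k E' :=
      (Submodule.equivMapOfInjective inc hinj E').finrank_eq.symm
    have h4 : (finrank k ((j : J) → V h D m (C j)) : ℤ) = ∑ j, dd h D m (C j) := by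
      rw [Module.finrank_pi_fintype]
      push_cast
      rfl
    rw [h3]
    rw [h4] at h2
    have h5 : ∑ l, (dd h D m (C' l) - dd h D m (C'' l)) =
      ∑ l, ((finrank k (V h D m (C' l)) : ℤ) - finrank k (V h D m (C'' l))) := rfl
    rw [h5]
    linarith

/-- There is a family of spaces `E m` of the expected dimension on which the form takes values in `H^0(X, O(2 m D))`. -/
theorem count [Nonempty ι] (M : Model h D) {J : Type*} [Fintype J] {f : J → K} (hf : ∀ j, f j ≠ 0)
    (hm : ∀ i, ResLag ord f i) :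
    ∃ (s : ℕ) (c : ℤ) (T : Finset ι), 0 ≤ c ∧ ∀ m : ℕ, s ≤ m → ∃ E : Submodule k (J → K), FiniteDimensional k E ∧
      (∀ x ∈ E, ∑ j, f j * x j ^ 2 ∈ V h D (2 * m) 0) ∧
      2 * Fintype.card J * dd h D m 0 - c * ∑ i ∈ T, (hh h D i (m + s) - hh h D i (m - s)) ≤ 2 * (finrank k E : ℤ) := by
  classical
  unfold ResLag at hm
  choose p N c hp0 hp hN hc hmeta using hm
  -- the divisors
  let C : J → (ι →₀ ℤ) := fun j => (dv h (f j) (hf j)).mapRange (fun a => (a + 1) / 2) (by norm_num)
  have hC : ∀ j i, C j i = (ord i (f j) + 1) / 2 := fun j i => by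
    simp only [C, Finsupp.mapRange_apply, dv_apply]
  let S : Finset ι := Finset.univ.biUnion fun j => (dv h (f j) (hf j)).support
  have hS : ∀ i, i ∉ S → ∀ j, ord i (f j) = 0 := by
    intro i hi j
    by_contra hne
    exact hi (Finset.mem_biUnion.2 ⟨j, Finset.mem_univ _, Finsupp.mem_support_iff.2 hne⟩)
  have hS' : ∀ j, (dv h (f j) (hf j)).support ⊆ S := fun j =>
    Finset.subset_biUnion_of_mem (fun j => (dv h (f j) (hf j)).support) (Finset.mem_univ j)
  have hS'' : ∀ j, (C j).support ⊆ S := by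
    intro j i hi
    by_contra hne
    rw [Finsupp.mem_support_iff, hC, hS i hne j] at hi
    exact hi (by norm_num)
  -- the linear conditions
  have hb := fun (i : ι) (l : Fin (N i)) => bound (D := D) h
    (fun j : {j : J // Odd (ord i (f j))} => C j.1)
    (fun j : {j : J // Odd (ord i (f j))} => c i l j * p i ^ (C j.1 i)) i (by
      intro j hj
      have h1 : c i l j ≠ 0 := left_ne_zero_of_mul hj
      rw [h.mul i _ _ h1 (zpow_ne_zero _ (hp0 i)), ord_zp h i (hp0 i) (hp i)]
      have := hc i l j h1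
      omega)
  choose C' hC'i hC' using hb
  let Λ := (i : {i // i ∈ S}) × Fin (N i.1)
  let ψ : Λ → (J → K) →ₗ[k] K := fun a => ∑ j : {j : J // Odd (ord a.1.1 (f j))},
    (LinearMap.mulLeft k (c a.1.1 a.2 j * p a.1.1 ^ (C j.1 a.1.1))) ∘ₗ LinearMap.proj j.1
  have hψ : ∀ (a : Λ) (x : J → K), ψ a x = ∑ j : {j : J // Odd (ord a.1.1 (f j))},
      c a.1.1 a.2 j * p a.1.1 ^ (C j.1 a.1.1) * x j.1 := by
    intro a x
    simp only [ψ, LinearMap.sum_apply, LinearMap.comp_apply, LinearMap.proj_apply, LinearMap.mulLeft_apply]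
  have hsp := fun m : ℕ => space M C m ψ (fun a => C' a.1.1 a.2)
    (fun a => C' a.1.1 a.2 - Finsupp.single a.1.1 1) (by
      intro a i
      rw [Finsupp.sub_apply, Finsupp.single_apply]
      split_ifs <;> omega) (by
      intro a x hx
      rw [hψ]
      exact hC' a.1.1 a.2 m (fun j => x j.1) fun j => hx j.1)
  have hup := fun a : Λ => up M (C' a.1.1 a.2) a.1.1
  choose s hs using hup
  -- the error
  have herr : Er h D fun m => 2 * Fintype.card J * dd h D m 0 - 2 * (∑ j, dd h D m (C j) -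
      ∑ a : Λ, (dd h D m (C' a.1.1 a.2) - dd h D m (C' a.1.1 a.2 - Finsupp.single a.1.1 1))) := by
    have e1 : ∀ A : ι →₀ ℤ, Er h D fun m => |dd h D m A - dd h D m 0 - A.sum fun i a => a * hh h D i m| :=
      fun A => tele M A
    have e2 := Er.sum M Finset.univ fun j => e1 (C j)
    have e3 := Er.sum M Finset.univ fun j => e1 (dv h (f j) (hf j))
    have e4 := Er.sum M Finset.univ fun a : Λ => Er.shift M a.1.1 (s a)
    refine Er.mono ?_ ((e2.two.add M e3).add M e4.two)
    intro m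
    have h1 : ∑ a : Λ, (dd h D m (C' a.1.1 a.2) - dd h D m (C' a.1.1 a.2 - Finsupp.single a.1.1 1)) ≤
      ∑ a : Λ, hh h D a.1.1 (m + s a) := Finset.sum_le_sum fun a _ => hs a m
    have h2 : ∀ j, (C j).sum (fun i a => a * hh h D i m) = ∑ i ∈ S, C j i * hh h D i m := fun j =>
      Finsupp.sum_of_support_subset _ (hS'' j) _ fun i _ => zero_mul _
    have h3 : ∀ j, (dv h (f j) (hf j)).sum (fun i a => a * hh h D i m) = ∑ i ∈ S, ord i (f j) * hh h D i m := fun j =>
      Finsupp.sum_of_support_subset _ (hS' j) _ fun i _ => zero_mul _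
    have h4 : ∑ a : Λ, hh h D a.1.1 m = ∑ i ∈ S, N i * hh h D i m := by
      rw [Fintype.sum_sigma, ← Finset.sum_coe_sort S]
      refine Finset.sum_congr rfl fun i _ => ?_
      simp
    have h5 : 2 * ∑ a : Λ, hh h D a.1.1 m ≤
        ∑ j, (2 * (C j).sum (fun i a => a * hh h D i m) - (dv h (f j) (hf j)).sum fun i a => a * hh h D i m) := by
      simp only [h2, h3]
      rw [h4, Finset.mul_sum]
      simp only [Finset.mul_sum]
      simp only [← Finset.sum_sub_distrib]
      rw [Finset.sum_comm]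
      refine Finset.sum_le_sum fun i _ => ?_
      have h6 : ∀ j, 2 * (C j i * hh h D i m) - ord i (f j) * hh h D i m =
          (if Odd (ord i (f j)) then 1 else 0) * hh h D i m := by
        intro j
        rw [hC]
        split_ifs with ho
        · obtain ⟨r, hr⟩ := ho
          have : (ord i (f j) + 1) / 2 = r + 1 := by omega
          rw [this, hr]
          ring
        · rw [Int.not_odd_iff_even] at ho
          obtain ⟨r, hr⟩ := ho
          have : (ord i (f j) + 1) / 2 = r := by omega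
          rw [this, hr]
          ring
      simp only [h6]
      rw [← Finset.sum_mul, ← mul_assoc]
      refine mul_le_mul_of_nonneg_right ?_ (hnonneg M i m)
      have h7 := hN i
      rw [Nat.card_eq_fintype_card, Fintype.card_subtype] at h7
      rw [Finset.sum_boole]
      exact_mod_cast h7
    have h8 : ∀ j, dd h D m (dv h (f j) (hf j)) = dd h D m 0 := fun j => prin M (hf j) m
    have h9 : ∀ j, -2 * (dd h D m (C j) - dd h D m 0) ≤
        2 * |dd h D m (C j) - dd h D m 0 - (C j).sum fun i a => a * hh h D i m| +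
        |dd h D m (dv h (f j) (hf j)) - dd h D m 0 - (dv h (f j) (hf j)).sum fun i a => a * hh h D i m| -
        (2 * (C j).sum (fun i a => a * hh h D i m) - (dv h (f j) (hf j)).sum fun i a => a * hh h D i m) := by
      intro j
      have a1 := neg_abs_le (dd h D m (C j) - dd h D m 0 - (C j).sum fun i a => a * hh h D i m)
      have a2 := le_abs_self (dd h D m (dv h (f j) (hf j)) - dd h D m 0 -
        (dv h (f j) (hf j)).sum fun i a => a * hh h D i m)
      rw [h8] at a2 ⊢
      linarith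
    have h10 := Finset.sum_le_sum fun j (_ : j ∈ (Finset.univ : Finset J)) => h9 j
    rw [← Finset.mul_sum, Finset.sum_sub_distrib, Finset.sum_sub_distrib, Finset.sum_add_distrib,
      ← Finset.mul_sum, Finset.sum_const, Finset.card_univ, nsmul_eq_mul] at h10
    have h11 : ∑ a : Λ, (hh h D a.1.1 (m + s a) - hh h D a.1.1 m) =
      ∑ a : Λ, hh h D a.1.1 (m + s a) - ∑ a : Λ, hh h D a.1.1 m := Finset.sum_sub_distrib ..
    rw [h11]
    linarith
  obtain ⟨s', c', T, hc', H⟩ := herr
  refine ⟨s', c', T, hc', fun m hm => ?_⟩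
  obtain ⟨E, hE1, hE2, hE3⟩ := hsp m
  refine ⟨E, hE1, fun x hx => ?_, ?_⟩
  · obtain ⟨hx1, hx2⟩ := hE2 x hx
    rw [mem_V]
    intro hne i
    have h1 := local_q h (D := D) hf (hp0 i) (hp i) (hc i) (hmeta i) m (x := x) (by
      intro j hj
      have := hx1 j hj i
      rwa [hC] at this) (by
      intro l hl
      by_cases hi : i ∈ S
      · have h2 := hx2 ⟨⟨i, hi⟩, l⟩
        rw [hψ] at h2
        simp only [hC] at h2
        have h3 := h2 hl i
        rw [Finsupp.sub_apply, Finsupp.single_eq_same, hC'i] at h3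
        linarith
      · exfalso
        have h4 : N i = 0 := by
          have h5 := hN i
          have : IsEmpty {j : J // Odd (ord i (f j))} := by
            constructor
            rintro ⟨j, hj⟩
            rw [hS i hi j] at hj
            exact absurd hj (by decide)
          rw [Nat.card_of_isEmpty] at h5
          omega
        exact absurd l.2 (by omega)) hne
    rw [Finsupp.zero_apply, sub_zero]
    push_cast
    linarith
  · have h1 := H m hm
    linarith

theorem isotropic [IsAlgClosed k] [Nonempty ι] (M : Model h D) {n : ℕ} (hn : 1 ≤ n) {e0 e1 : ℝ} (he1 : 0 < e1)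
    (hd : (fun m : ℕ => (dd h D m 0 : ℝ) - (e0 * (m : ℝ) ^ n / n.factorial + e1 * (m : ℝ) ^ (n - 1) / (n - 1).factorial))
      =o[atTop] fun m : ℕ => (m : ℝ) ^ (n - 1))
    {J : Type*} [Fintype J] (hJ : 2 ^ n ≤ Fintype.card J) {f : J → K} (hf : ∀ j, f j ≠ 0)
    (hm : ∀ i, ResLag ord f i) : ∃ x : J → K, x ≠ 0 ∧ ∑ j, f j * x j ^ 2 = 0 := by
  obtain ⟨s, c, T, hc, H⟩ := count M hf hm
  have hB : ∀ i, ∃ B : ℝ, ∀ m : ℕ, (hh h D i m : ℝ) ≤ B * ((m : ℝ) + 1) ^ (n - 1) := by
    intro i
    obtain ⟨t, ht⟩ := hbd M i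
    obtain ⟨B, _, hB⟩ := diff_bdd hn hd t
    refine ⟨B, fun m => ?_⟩
    have h1 : hh h D i m ≤ dd h D (m + t) 0 - dd h D m 0 := (hmono M i (by omega)).trans (ht m)
    have h2 : (hh h D i m : ℝ) ≤ (dd h D (m + t) 0 : ℝ) - (dd h D m 0 : ℝ) := by exact_mod_cast h1
    exact h2.trans (hB m)
  choose B hB using hB
  obtain ⟨m, hm1, _, hm2⟩ := main_growth (H := fun m => ∑ i ∈ T, (hh h D i m : ℝ)) (B := ∑ i ∈ T, B i) hn he1 hd
    (fun a b hab => Finset.sum_le_sum fun i _ => by exact_mod_cast hmono M i hab)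
    (fun m => Finset.sum_nonneg fun i _ => by exact_mod_cast hnonneg M i m)
    (fun m => by
      rw [Finset.sum_mul]
      exact Finset.sum_le_sum fun i _ => hB i m) s s (c := (c : ℝ) / 2)
    (div_nonneg (by exact_mod_cast hc) (by norm_num))
  obtain ⟨E, hE1, hE2, hE3⟩ := H m hm1
  have h0 : 0 ≤ dd h D m 0 := Int.natCast_nonneg _
  have h1 : (c : ℝ) * ∑ i ∈ T, ((hh h D i (m + s) : ℝ) - hh h D i (m - s)) <
      2 * (2 ^ n * (dd h D m 0 : ℝ) - dd h D (2 * m) 0) := by
    rw [Finset.sum_sub_distrib]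
    linarith
  have h2 : c * ∑ i ∈ T, (hh h D i (m + s) - hh h D i (m - s)) <
      2 * (2 ^ n * dd h D m 0 - dd h D (2 * m) 0) := by exact_mod_cast h1
  have h3 : (2 : ℤ) ^ n * dd h D m 0 ≤ Fintype.card J * dd h D m 0 :=
    mul_le_mul_of_nonneg_right (by exact_mod_cast hJ) h0
  have h4 : dd h D (2 * m) 0 < finrank k E := by linarith
  have := M.fd (2 * m)
  obtain ⟨r, ℓ, hr, hℓ⟩ := exists_coord (bot_le : (⊥ : Submodule k K) ≤ V h D (2 * m) 0)
  rw [finrank_bot, add_zero] at hr
  have h5 : r < finrank k E := by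
    rw [hr]
    have h6 : (finrank k (V h D (2 * m) 0) : ℤ) < finrank k E := h4
    exact_mod_cast h6
  obtain ⟨x, hx, hx0, hx1⟩ := zero_quad f E ℓ h5
  exact ⟨x, hx0, (Submodule.mem_bot k).1 (hℓ _ (hE2 x hx) hx1)⟩

end Pool.Agent.Helper41.TU
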