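import Pool.Agent.Helper41.TU.Mk1

/-!
# Block TU-MK2: linkage (Elman - Lam): over a field with `u ≤ 2 ^ n` all elements of `K_n / 2` are symbols

`-1` is a square. For a list of entries write `φ_l = pf l`; pure part: the `S ≠ ∅`. It may be convenient to work with `Fin (r + s) → Fˣ` or with lists
`List Fˣ` of entries (`sym` of a list by `List.get`), and with sets of values `Val [] = {x^2}`, `Val (a :: l) = {u + a v : u, v ∈ Val l}` (all values, with `0`).

RELATIVE PURE SUBFORM THEOREM. Let `σ = (c_1..c_r)`, `τ = (a_1..a_s)`, `s ≥ 1`, and let `c ≠ 0` be a value of `φ_σ ⊗ φ_τ'`, where `φ_τ'` is the pure part of `φ_τ`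
(the form with coefficients `pf (σ ++ τ) S`, `S` not contained in the first `r` entries). Then there are `a'_2, .., a'_s` with
`{σ, τ} = {σ, c, a'_2, .., a'_s}`. Proof by induction on `s`. `s = 1`: `c = a_1 u`, `u` a value of `φ_σ`: `{σ, c} = {σ, a_1} + {σ, u} = {σ, a_1}` (`sym_value`).
`s ≥ 2`: `τ = (τ_1, a_s)`, `c = x + a_s y`, `x` a value of `φ_σ ⊗ φ_{τ_1}'`, `y` a value of `φ_σ ⊗ φ_{τ_1}`. If `y = 0`: `c = x`, induction for `(σ, τ_1)`. If `y ≠ 0`:
`{σ, τ_1, a_s} = {σ, τ_1, a_s y}` by `sym_value`; put `b = a_s y`. If `x = 0` then `c = b`: permute (`sym_perm`). If `x ≠ 0`: by induction `{σ, τ_1} = {σ, x, τ_2}`, and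
`{x, b} = {x + b, x b} = {c, x b}` (`sym_add_entries`).

LINKAGE. Let `l, l'` be two lists of length `n` and suppose `{l} = {σ, τ}`, `{l'} = {σ, ρ}` with `σ` of length `r ≤ n - 2` (start with `r = 0`). The form
`φ_σ ⊗ (φ_τ' ⊥ φ_ρ')` has dimension `2 (2^n - 2^r) > 2^n`, so it is isotropic (`hu`): `x + y = 0`, `x` a value of `φ_σ ⊗ φ_τ'`, `y` of `φ_σ ⊗ φ_ρ'`, the vectors not both `0`.
If `x = 0` (`= y`) then one of the forms `pf (σ ++ τ)`, `pf (σ ++ ρ)` is isotropic, one of the symbols is `0` (`sym_isotropic`) and the sum is a symbol. Otherwise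
`{l} = {σ, x, ..}`, `{l'} = {σ, y, ..} = {σ, x, ..}` (`y = -x`, `sym_neg`): `r + 1` common entries. Finally `r = n - 1`: `{σ, a} + {σ, b} = {σ, a b}`.
For `n = 1` this is the first step.
-/

set_option autoImplicit false

namespace Pool.Agent.Helper41.TU

variable {F : Type*} [Field F] {n : ℕ}

open Function

/-- one more entry -/
private abbrev sn61 {n : ℕ} (l : Fin n → Fˣ) (c : Fˣ) : Fin (n + 1) → Fˣ := Fin.snoc (α := fun _ => Fˣ) l c

private theorem sn_last61 {n : ℕ} (l : Fin n → Fˣ) (c : Fˣ) : sn61 l c (Fin.last n) = c := Fin.snoc_last _ _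

private theorem sn_cast61 {n : ℕ} (l : Fin n → Fˣ) (c : Fˣ) (k : Fin n) : sn61 l c k.castSucc = l k :=
  Fin.snoc_castSucc _ _ _

private theorem sn_mul61 {n : ℕ} (l : Fin n → Fˣ) (a b : Fˣ) :
    sym (sn61 l (a * b)) = sym (sn61 l a) + sym (sn61 l b) := by
  have h1 := sym_mul (sn61 l a) (Fin.last n) a b
  rw [Fin.update_snoc_last, Fin.update_snoc_last, Fin.update_snoc_last] at h1
  exact h1

private theorem sn_congr61 {n : ℕ} {l l' : Fin n → Fˣ} (h : sym l = sym l') (b : Fˣ) :
    sym (sn61 l b) = sym (sn61 l' b) := by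
  obtain ⟨φ, hφ⟩ := exists_snoc (F := F) n b
  rw [← hφ, ← hφ, h]

private theorem split61 {n : ℕ} {M : Type*} [AddCommMonoid M] (g : Finset (Fin (n + 1)) → M) :
    ∑ S, g S = ∑ S : Finset (Fin n), g (S.image Fin.castSucc) +
      ∑ S : Finset (Fin n), g (insert (Fin.last n) (S.image Fin.castSucc)) := by
  have h1 : (Finset.univ : Finset (Fin (n + 1))) =
      insert (Fin.last n) ((Finset.univ : Finset (Fin n)).image Fin.castSucc) := by
    ext k
    induction k using Fin.lastCases with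
    | last => simp
    | cast k => simp
  have h2 : Fin.last n ∉ ((Finset.univ : Finset (Fin n)).image Fin.castSucc) := by
    intro h
    obtain ⟨k, -, hk⟩ := Finset.mem_image.1 h
    exact Fin.castSucc_ne_last k hk
  have hinj : Function.Injective (fun S : Finset (Fin n) => S.image Fin.castSucc) :=
    Finset.image_injective (Fin.castSucc_injective n)
  rw [← Finset.powerset_univ, h1, Finset.sum_powerset_insert h2, Finset.powerset_image, Finset.powerset_univ,
    Finset.sum_image fun _ _ _ _ h => hinj h, Finset.sum_image fun _ _ _ _ h => hinj h]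

private theorem pf_cast61 {n : ℕ} (l : Fin n → Fˣ) (a : Fˣ) (S : Finset (Fin n)) :
    pf (sn61 l a) (S.image Fin.castSucc) = pf l S := by
  unfold pf
  rw [Finset.prod_image fun _ _ _ _ h => Fin.castSucc_injective n h]
  refine Finset.prod_congr rfl fun k _ => ?_
  rw [sn_cast61]

private theorem pf_last61 {n : ℕ} (l : Fin n → Fˣ) (a : Fˣ) (S : Finset (Fin n)) :
    pf (sn61 l a) (insert (Fin.last n) (S.image Fin.castSucc)) = a * pf l S := by
  have h2 : Fin.last n ∉ S.image Fin.castSucc := by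
    intro h
    obtain ⟨k, -, hk⟩ := Finset.mem_image.1 h
    exact Fin.castSucc_ne_last k hk
  rw [← pf_cast61 l a S]
  unfold pf
  rw [Finset.prod_insert h2, sn_last61]

private theorem form61 {n : ℕ} (l : Fin n → Fˣ) (a : Fˣ) (x : Finset (Fin (n + 1)) → F) :
    ∑ S, pf (sn61 l a) S * x S ^ 2 = ∑ S, pf l S * x (S.image Fin.castSucc) ^ 2 +
      a * ∑ S, pf l S * x (insert (Fin.last n) (S.image Fin.castSucc)) ^ 2 := by
  rw [split61, Finset.mul_sum]
  congr 1
  · refine Finset.sum_congr rfl fun S _ => ?_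
    rw [pf_cast61]
  · refine Finset.sum_congr rfl fun S _ => ?_
    rw [pf_last61, mul_assoc]

private theorem decomp61 {n : ℕ} (l : Fin (n + 1) → Fˣ) : ∃ (l' : Fin n → Fˣ) (a : Fˣ), l = sn61 l' a :=
  ⟨Fin.init l, l (Fin.last n), (Fin.snoc_init_self l).symm⟩

/-- The relative pure subform theorem. -/
private theorem rps61 (hi : IsSquare (-1 : F)) : ∀ (n r : ℕ) (hr : r < n) (l : Fin n → Fˣ)
    (x : Finset (Fin n) → F), (∀ S : Finset (Fin n), (∀ i ∈ S, i.val < r) → x S = 0) → ∀ c : Fˣ,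
    (c : F) = ∑ S, pf l S * x S ^ 2 →
    ∃ l'' : Fin n → Fˣ, sym l'' = sym l ∧ (∀ i : Fin n, i.val < r → l'' i = l i) ∧ l'' ⟨r, hr⟩ = c := by
  intro n
  induction n with
  | zero =>
    intro r hr
    exact absurd hr (Nat.not_lt_zero r)
  | succ n ih =>
    intro r hr l x hx c hc
    obtain ⟨l', a, rfl⟩ := decomp61 l
    rw [form61] at hc
    obtain ⟨u, hu⟩ : ∃ u, u = ∑ S, pf l' S * x (S.image Fin.castSucc) ^ 2 := ⟨_, rfl⟩
    obtain ⟨v, hv⟩ : ∃ v, v = ∑ S, pf l' S * x (insert (Fin.last n) (S.image Fin.castSucc)) ^ 2 := ⟨_, rfl⟩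
    rw [← hu, ← hv] at hc
    have hx' : ∀ S : Finset (Fin n), (∀ i ∈ S, i.val < r) → x (S.image Fin.castSucc) = 0 := by
      intro S hS
      apply hx
      intro i hi
      obtain ⟨k, hk, rfl⟩ := Finset.mem_image.1 hi
      exact hS k hk
    -- multiply the last entry by a value
    have hmul : ∀ hv0 : v ≠ 0, sym (sn61 l' (a * Units.mk0 v hv0)) = sym (sn61 l' a) := by
      intro hv0
      rw [sn_mul61]
      have h1 : sym (sn61 l' (Units.mk0 v hv0)) = 0 := sym_value hi l' _ _ (by rw [Units.val_mk0]; exact hv)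
      rw [h1, add_zero]
    have hcast : ∀ i : Fin (n + 1), i.val < n → ∃ k : Fin n, i = k.castSucc ∧ k.val = i.val :=
      fun i hin => ⟨⟨i.val, hin⟩, rfl, rfl⟩
    rcases Nat.lt_or_ge r n with hrn | hrn
    · by_cases hv0 : v = 0
      · rw [hv0, mul_zero, add_zero] at hc
        obtain ⟨l2, h1, h2, h3⟩ := ih r hrn l' _ hx' c (hc.trans hu)
        refine ⟨sn61 l2 a, sn_congr61 h1 a, ?_, ?_⟩
        · intro i hir
          obtain ⟨k, rfl, hk⟩ := hcast i (hir.trans hrn)
          rw [sn_cast61, sn_cast61]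
          exact h2 k hir
        · have h4 : (⟨r, hr⟩ : Fin (n + 1)) = (⟨r, hrn⟩ : Fin n).castSucc := rfl
          rw [h4, sn_cast61, h3]
      · obtain ⟨b, hb⟩ : ∃ b, b = a * Units.mk0 v hv0 := ⟨_, rfl⟩
        have hsb := hmul hv0
        rw [← hb] at hsb
        by_cases hu0 : u = 0
        · rw [hu0, zero_add] at hc
          have hcb : c = b := Units.ext (by rw [hc, hb, Units.val_mul, Units.val_mk0])
          refine ⟨sn61 l' b ∘ Equiv.swap ⟨r, hr⟩ (Fin.last n), ?_, ?_, ?_⟩
          · rw [sym_perm hi, hsb]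
          · intro i hir
            obtain ⟨k, rfl, hk⟩ := hcast i (hir.trans hrn)
            rw [comp_apply, Equiv.swap_apply_of_ne_of_ne, sn_cast61, sn_cast61]
            · intro h
              rw [h] at hir
              exact lt_irrefl _ hir
            · exact Fin.castSucc_ne_last k
          · rw [comp_apply, Equiv.swap_apply_left, sn_last61, hcb]
        · obtain ⟨u', hu'⟩ : ∃ u' : Fˣ, u' = Units.mk0 u hu0 := ⟨_, rfl⟩
          have hu1 : (u' : F) = u := by rw [hu', Units.val_mk0]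
          obtain ⟨l2, h1, h2, h3⟩ := ih r hrn l' _ hx' u' (hu1.trans hu)
          have h4 : (⟨r, hr⟩ : Fin (n + 1)) = (⟨r, hrn⟩ : Fin n).castSucc := rfl
          have hne : (⟨r, hr⟩ : Fin (n + 1)) ≠ Fin.last n := by
            rw [h4]
            exact Fin.castSucc_ne_last _
          have h5 : sn61 l2 b ⟨r, hr⟩ = u' := by rw [h4, sn_cast61, h3]
          have h6 : sn61 l2 b (Fin.last n) = b := sn_last61 _ _
          refine ⟨update (update (sn61 l2 b) ⟨r, hr⟩ c) (Fin.last n) (u' * b), ?_, ?_, ?_⟩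
          · have h7 := sym_add_entries hi (sn61 l2 b) hne c (by
              rw [h5, h6, hc, hu1, hb, Units.val_mul, Units.val_mk0])
            rw [h5, h6] at h7
            rw [← h7, sn_congr61 h1, hsb]
          · intro i hir
            obtain ⟨k, rfl, hk⟩ := hcast i (hir.trans hrn)
            rw [update_of_ne (Fin.castSucc_ne_last k), update_of_ne, sn_cast61, sn_cast61]
            · exact h2 k hir
            · intro h
              rw [h] at hir
              exact lt_irrefl _ hir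
          · rw [update_of_ne hne, update_self]
    · have hrn' : r = n := le_antisymm (Nat.lt_succ_iff.1 hr) hrn
      subst hrn'
      have hu0 : u = 0 := by
        rw [hu]
        refine Finset.sum_eq_zero fun S _ => ?_
        rw [hx' S (fun i _ => i.isLt), zero_pow two_ne_zero, mul_zero]
      rw [hu0, zero_add] at hc
      have hv0 : v ≠ 0 := by
        intro h
        rw [h, mul_zero] at hc
        exact c.ne_zero hc
      have hcb : c = a * Units.mk0 v hv0 := Units.ext (by rw [hc, Units.val_mul, Units.val_mk0])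
      refine ⟨sn61 l' c, ?_, ?_, ?_⟩
      · rw [hcb]
        exact hmul hv0
      · intro i hir
        obtain ⟨k, rfl, hk⟩ := hcast i hir
        rw [sn_cast61, sn_cast61]
      · exact sn_last61 l' c

/-- The sum of two orthogonal relative pure forms is isotropic. -/
private theorem iso61 (hu : ULe F (2 ^ n)) {r : ℕ} (hr : r + 1 < n) (l l' : Fin n → Fˣ) :
    ∃ x y : Finset (Fin n) → F, (∀ S : Finset (Fin n), (∀ i ∈ S, i.val < r) → x S = 0) ∧
      (∀ S : Finset (Fin n), (∀ i ∈ S, i.val < r) → y S = 0) ∧ (x ≠ 0 ∨ y ≠ 0) ∧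
      ∑ S, pf l S * x S ^ 2 + ∑ S, pf l' S * y S ^ 2 = 0 := by
  classical
  obtain ⟨A, hA⟩ : ∃ A : Finset (Fin n), A = Finset.univ.filter (fun i : Fin n => i.val < r) := ⟨_, rfl⟩
  have hmA : ∀ i, i ∈ A ↔ i.val < r := by
    intro i
    rw [hA]
    simp
  have hAc : A.card = r := by
    have h1 : A = (Finset.univ : Finset (Fin r)).image (Fin.castLE (by omega : r ≤ n)) := by
      ext i
      rw [hmA, Finset.mem_image]
      constructor
      · intro h
        exact ⟨⟨i.val, h⟩, Finset.mem_univ _, rfl⟩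
      · rintro ⟨k, -, rfl⟩
        exact k.isLt
    rw [h1, Finset.card_image_of_injective _ (Fin.castLE_injective _), Finset.card_univ, Fintype.card_fin]
  obtain ⟨J, hJ⟩ : ∃ J : Finset (Finset (Fin n)), J = Finset.univ \ A.powerset := ⟨_, rfl⟩
  have hmJ : ∀ S, S ∈ J ↔ ¬ ∀ i ∈ S, i.val < r := by
    intro S
    rw [hJ, Finset.mem_sdiff, Finset.mem_powerset]
    constructor
    · rintro ⟨-, h⟩ h'
      exact h fun i hi => (hmA i).2 (h' i hi)
    · intro h
      exact ⟨Finset.mem_univ _, fun h' => h fun i hi => (hmA i).1 (h' hi)⟩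
  have hJc : J.card = 2 ^ n - 2 ^ r := by
    rw [hJ, Finset.card_sdiff_of_subset (Finset.subset_univ _), Finset.card_powerset, hAc, Finset.card_univ,
      Fintype.card_finset, Fintype.card_fin]
  have hpow : 2 ^ (r + 1) < 2 ^ n := Nat.pow_lt_pow_right one_lt_two hr
  have hcard : Fintype.card (J ⊕ J) = 2 * (2 ^ n - 2 ^ r) := by
    rw [Fintype.card_sum, Fintype.card_coe, hJc]
    ring
  obtain ⟨f, hf⟩ : ∃ f : J ⊕ J → F, f = Sum.elim (fun S => pf l S.1) (fun S => pf l' S.1) := ⟨_, rfl⟩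
  have e := Fintype.equivFin (J ⊕ J)
  obtain ⟨z, hz0, hz⟩ := hu (Fintype.card (J ⊕ J)) (f ∘ e.symm) (by
    rw [hcard]
    rw [pow_succ] at hpow
    omega)
  have hsum : ∑ j : J ⊕ J, f j * z (e j) ^ 2 = 0 := by
    rw [← hz, ← Equiv.sum_comp e]
    refine Finset.sum_congr rfl fun j _ => ?_
    rw [comp_apply, Equiv.symm_apply_apply]
  rw [Fintype.sum_sum_type] at hsum
  have hext : ∀ (g : Finset (Fin n) → F) (w : J → F),
      ∑ S, g S * (if h : S ∈ J then w ⟨S, h⟩ else 0) ^ 2 = ∑ S : J, g S.1 * w S ^ 2 := by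
    intro g w
    rw [← Finset.sum_subset (Finset.subset_univ J)]
    · rw [← Finset.sum_attach, Finset.univ_eq_attach]
      refine Finset.sum_congr rfl fun S _ => ?_
      rw [dif_pos S.2]
    · intro S _ hS
      rw [dif_neg hS, zero_pow two_ne_zero, mul_zero]
  refine ⟨fun S => if h : S ∈ J then z (e (Sum.inl ⟨S, h⟩)) else 0,
    fun S => if h : S ∈ J then z (e (Sum.inr ⟨S, h⟩)) else 0, ?_, ?_, ?_, ?_⟩
  · intro S hS
    exact dif_neg fun h => (hmJ S).1 h hS
  · intro S hS
    exact dif_neg fun h => (hmJ S).1 h hS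
  · by_contra hcon
    push Not at hcon
    obtain ⟨h1, h2⟩ := hcon
    apply hz0
    funext k
    obtain ⟨j, rfl⟩ := e.surjective k
    rcases j with S | S
    · have h3 := congrFun h1 S.1
      rw [dif_pos S.2] at h3
      exact h3
    · have h3 := congrFun h2 S.1
      rw [dif_pos S.2] at h3
      exact h3
  · rw [hext (fun S => pf l S) (fun S => z (e (Sum.inl S))), hext (fun S => pf l' S) (fun S => z (e (Sum.inr S)))]
    rw [hf] at hsum
    exact hsum

private theorem link61 (hi : IsSquare (-1 : F)) (hn : 1 ≤ n) (hu : ULe F (2 ^ n)) (k : ℕ) :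
    ∀ l l' : Fin n → Fˣ, (∀ i : Fin n, i.val + k + 1 < n → l i = l' i) → ∃ l'' : Fin n → Fˣ, sym l + sym l' = sym l'' := by
  induction k with
  | zero =>
    intro l l' h
    obtain ⟨m, rfl⟩ : ∃ m, n = m + 1 := ⟨n - 1, by omega⟩
    obtain ⟨s, a, rfl⟩ := decomp61 l
    obtain ⟨s', b, rfl⟩ := decomp61 l'
    have h1 : s = s' := by
      funext i
      have h2 := h i.castSucc (by
        have := i.isLt
        rw [Fin.val_castSucc]
        omega)
      rw [sn_cast61, sn_cast61] at h2
      exact h2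
    subst h1
    exact ⟨sn61 s (a * b), (sn_mul61 s a b).symm⟩
  | succ k ih =>
    intro l l' h
    by_cases hk : k + 1 < n
    · -- `r` common entries
      obtain ⟨r, hr⟩ : ∃ r, r + (k + 1) + 1 = n := ⟨n - (k + 2), by omega⟩
      obtain ⟨x, y, hx, hy, hxy, hsum⟩ := iso61 hu (r := r) (by omega) l l'
      obtain ⟨c, hc⟩ : ∃ c, c = ∑ S, pf l S * x S ^ 2 := ⟨_, rfl⟩
      obtain ⟨c', hc'⟩ : ∃ c', c' = ∑ S, pf l' S * y S ^ 2 := ⟨_, rfl⟩
      rw [← hc, ← hc'] at hsum
      have hcc : c' = -c := by linear_combination hsum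
      by_cases hc0 : c = 0
      · rcases hxy with hx0 | hy0
        · have h1 : sym l = 0 := sym_isotropic hi l x hx0 (hc.symm.trans hc0)
          exact ⟨l', by rw [h1, zero_add]⟩
        · have h1 : sym l' = 0 := sym_isotropic hi l' y hy0 (by rw [← hc', hcc, hc0, neg_zero])
          exact ⟨l, by rw [h1, add_zero]⟩
      · have hrn : r < n := by omega
        obtain ⟨l1, h1, h2, h3⟩ := rps61 hi n r hrn l x hx (Units.mk0 c hc0) (by rw [Units.val_mk0]; exact hc)
        obtain ⟨l2, h4, h5, h6⟩ := rps61 hi n r hrn l' y hy (-Units.mk0 c hc0) (by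
          rw [Units.val_neg, Units.val_mk0, ← hcc]
          exact hc')
        obtain ⟨l'', hl''⟩ := ih l1 (update l2 ⟨r, hrn⟩ (-l2 ⟨r, hrn⟩)) (by
          intro i hi'
          by_cases hir : i = ⟨r, hrn⟩
          · rw [hir, update_self, h3, h6, neg_neg]
          · have hir' : i.val < r := by
              have h7 : i.val ≠ r := fun h8 => hir (Fin.ext h8)
              omega
            rw [update_of_ne hir, h2 i hir', h5 i hir']
            exact h i (by omega))
        exact ⟨l'', by rw [← hl'', sym_neg hi, h1, h4]⟩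
    · exact ih l l' fun i hi' => absurd hi' (by omega)

theorem sym_add (hi : IsSquare (-1 : F)) (hn : 1 ≤ n) (hu : ULe F (2 ^ n)) (l l' : Fin n → Fˣ) :
    ∃ l'' : Fin n → Fˣ, sym l + sym l' = sym l'' := by
  exact link61 hi hn hu n l l' fun i hi' => absurd hi' (by omega)

theorem exists_sym (hi : IsSquare (-1 : F)) (hn : 1 ≤ n) (hu : ULe F (2 ^ n)) (x : KM F n) :
    ∃ l : Fin n → Fˣ, x = sym l := by
  refine sym_ind (p := fun x => ∃ l : Fin n → Fˣ, x = sym l) ?_ ?_ ?_ x
  · exact ⟨fun _ => 1, (sym_one (fun _ => 1) ⟨0, by omega⟩ rfl).symm⟩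
  · exact fun l => ⟨l, rfl⟩
  · rintro x y ⟨l, rfl⟩ ⟨l', rfl⟩
    exact sym_add hi hn hu l l'

end Pool.Agent.Helper41.TU
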