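import Pool.Agent.Helper41.TU.Md
import Pool.Agent.Helper41.TU.An

/-!
# Block TU-UL: the `u`-invariants of `K` and of the residue fields (Tsen - Lang)

`u_fun`: `|J| > 2^n`. Take `s`, `g` with `ord j' g ≥ C j' - s D j'` where `C j' = max (over j) of -ord j' (f j)` (`Model.appr`; so `g f j ∈ V s 0` for
all `j`). For `x ∈ (V m 0)^J`: `g q(x) ∈ V (2 m + s) 0`. `grow` with `H m = dd m 0`, `N = n` (`d_bdd`), `σ = |J| > 2^n`, `c = s` gives `m` with
`dd (2 m + s) 0 < |J| dd m 0`; `zero_quad` for `E = (V m 0)^J` and the coordinates of `V (2 m + s) 0` (`exists_coord`, `U' = ⊥`).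
(`dd m 0 > 0`: `1 ∈ V m 0` if `D ≥ 0`; in general from `hd`, `e0 > 0`: `hpos`.)

`u_res`: `y j` units at `i`. Take `s`, `g` with `ord j' g ≥ C j' - s D j'`, `C j' = max (over j) of -ord j' (y j)`, exact at `i` (`C i = 0`, because
`ord i (y j) = 0`): `g y j ∈ V s 0` and `ord i g = - s D i`. Let `E₁` be a complement of `V m (-i)` in `V m 0`, `dim E₁ = hh i m`, `E = E₁^J`. For
`x ∈ E`: `g ∑ y j x j ^ 2 ∈ V (2 m + s) 0`; `exists_coord` for `U = V (2 m + s) 0`, `U' = V (2 m + s) (-i)` and `zero_quad` give `x ≠ 0` in `E`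
with `g ∑ y j x j ^ 2 ∈ V (2 m + s) (-i)`, if `hh i (2 m + s) < |J| hh i m`; such an `m` exists by `grow` with `N = n - 1`
(`hbd`, `diff_bdd`; `hh i m > 0` for large `m` is part of the hypothesis `hpos`). With `p` a uniformiser at `i` put `z j = x j * p ^ (m D i)`:
`ord i (z j) ≥ 0`, some `z j` has order exactly `0` (a nonzero element of `E₁` is not in `V m (-i)`; it has order `≥ - m D i` at `i`; if its
order were `≥ - m D i + 1` it would be in `V m (-i)`), and `∑ y j z j ^ 2 = p ^ (2 m D i) ∑ y j x j ^ 2` has order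
`≥ 2 m D i + (-(2 m + s) D i + 1) + s D i = 1` or vanishes.
-/

set_option autoImplicit false

namespace Pool.Agent.Helper41.TU

open Module Filter Asymptotics

variable {k K ι : Type*} [Field k] [Field K] [Algebra k K] {ord : ι → K → ℤ} {h : Ords k ord} {D : ι → ℤ}

private theorem ord_one_h54 (h : Ords k ord) (i : ι) : ord i (1 : K) = 0 := by
  have h1 := h.mul i 1 1 one_ne_zero one_ne_zero
  rw [mul_one] at h1
  omega

private theorem ord_inv_h54 (h : Ords k ord) (i : ι) {f : K} (hf : f ≠ 0) : ord i f⁻¹ = -ord i f := by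
  have h1 := h.mul i f f⁻¹ hf (inv_ne_zero hf)
  rw [mul_inv_cancel₀ hf, ord_one_h54 h i] at h1
  omega

private theorem ord_pow_h54 (h : Ords k ord) (i : ι) {f : K} (hf : f ≠ 0) (a : ℕ) : ord i (f ^ a) = a * ord i f := by
  induction a with
  | zero => simp [ord_one_h54 h i]
  | succ a ih =>
    rw [pow_succ, h.mul i _ _ (pow_ne_zero a hf) hf, ih]
    push_cast
    ring

private theorem ord_zpow_h54 (h : Ords k ord) (i : ι) {f : K} (hf : f ≠ 0) (a : ℤ) : ord i (f ^ a) = a * ord i f := by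
  obtain ⟨b, rfl | rfl⟩ := a.eq_nat_or_neg
  · rw [zpow_natCast, ord_pow_h54 h i hf]
  · rw [zpow_neg, zpow_natCast, ord_inv_h54 h i (pow_ne_zero b hf), ord_pow_h54 h i hf]
    ring

/-- a divisor dominating the poles of finitely many functions -/
private theorem exists_C_h54 (h : Ords k ord) {J : Type*} [Fintype J] (f : J → K) :
    ∃ C : ι →₀ ℤ, (∀ j, f j ≠ 0 → ∀ i, -ord i (f j) ≤ C i) ∧
      ∀ i, (∀ j, f j ≠ 0 → ord i (f j) = 0) → C i = 0 := by
  classical
  have hfin : (Function.support fun i : ι => ∑ j : J, if f j = 0 then (0 : ℤ) else |ord i (f j)|).Finite := by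
    refine Set.Finite.subset (Set.finite_iUnion (fun j : J => (show (if f j = 0 then (∅ : Set ι)
      else {i | ord i (f j) ≠ 0}).Finite from ?_))) ?_
    · split_ifs with h0
      · exact Set.finite_empty
      · exact h.fin _ h0
    · intro i hi
      rw [Function.mem_support] at hi
      obtain ⟨j, -, hj⟩ := Finset.exists_ne_zero_of_sum_ne_zero hi
      rw [Set.mem_iUnion]
      refine ⟨j, ?_⟩
      by_cases h0 : f j = 0
      · rw [if_pos h0] at hj
        exact absurd rfl hj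
      · rw [if_neg h0] at hj ⊢
        exact abs_ne_zero.1 hj
  refine ⟨Finsupp.ofSupportFinite _ hfin, fun j hj i => ?_, fun i hi => ?_⟩
  · change -ord i (f j) ≤ ∑ j : J, if f j = 0 then (0 : ℤ) else |ord i (f j)|
    have h1 : (if f j = 0 then (0 : ℤ) else |ord i (f j)|) ≤ ∑ j : J, if f j = 0 then (0 : ℤ) else |ord i (f j)| :=
      Finset.single_le_sum (f := fun j => if f j = 0 then (0 : ℤ) else |ord i (f j)|) (fun j _ => by
        split_ifs
        · exact le_rfl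
        · exact abs_nonneg _) (Finset.mem_univ j)
    rw [if_neg hj] at h1
    exact (neg_le_abs _).trans h1
  · change (∑ j : J, if f j = 0 then (0 : ℤ) else |ord i (f j)|) = 0
    refine Finset.sum_eq_zero fun j _ => ?_
    split_ifs with h0
    · rfl
    · rw [hi j h0, abs_zero]

private theorem exists_E_h54 (W : Submodule k K) [FiniteDimensional k W] (J : Type*) [Fintype J] :
    ∃ E : Submodule k (J → K), FiniteDimensional k E ∧ finrank k E = Fintype.card J * finrank k W ∧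
      ∀ x ∈ E, ∀ j, x j ∈ W := by
  refine ⟨LinearMap.range (W.subtype.compLeft J), inferInstance, ?_, ?_⟩
  · rw [LinearMap.finrank_range_of_inj, Module.finrank_pi_fintype]
    · rw [Finset.sum_const, Finset.card_univ, smul_eq_mul]
    · intro x y hxy
      funext j
      exact Subtype.ext (congrFun hxy j)
  · rintro x ⟨y, rfl⟩ j
    exact (y j).2

private theorem exists_compl_h54 {W' W : Submodule k K} (hW : W' ≤ W) [FiniteDimensional k W] :
    ∃ E₁ : Submodule k K, E₁ ≤ W ∧ FiniteDimensional k E₁ ∧ finrank k E₁ + finrank k W' = finrank k W ∧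
      ∀ x ∈ E₁, x ∈ W' → x = 0 := by
  obtain ⟨q, hq⟩ := Submodule.exists_isCompl (W'.submoduleOf W)
  refine ⟨q.map W.subtype, Submodule.map_subtype_le W q, inferInstance, ?_, ?_⟩
  · have h1 := Submodule.finrank_add_eq_of_isCompl hq
    rw [Submodule.finrank_map_subtype_eq, ← h1, add_comm, (Submodule.submoduleOfEquivOfLe hW).finrank_eq]
  · rintro x ⟨y, hy, rfl⟩ hx
    have h1 : y ∈ W'.submoduleOf W ⊓ q := ⟨hx, hy⟩
    rw [hq.inf_eq_bot, Submodule.mem_bot] at h1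
    rw [h1, map_zero]

private theorem prod_mem_h54 {m s : ℕ} {g : K} {x : K} (hx : x ∈ V h D m 0) (hg : g ∈ V h D s 0) :
    g * x ^ 2 ∈ V h D (2 * m + s) 0 := by
  intro h0 i
  have hg0 : g ≠ 0 := left_ne_zero_of_mul h0
  have hx0 : x ≠ 0 := by
    rintro rfl
    exact h0 (by ring)
  have h1 := hx hx0 i
  have h2 := hg hg0 i
  rw [h.mul i g _ hg0 (pow_ne_zero 2 hx0), ord_pow_h54 h i hx0]
  have z : (0 : ι →₀ ℤ) i = 0 := rfl
  rw [z] at h1 h2 ⊢
  push_cast
  linarith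

private theorem mul_mem_h54 {s : ℕ} {C : ι →₀ ℤ} {g y : K} (hC : y ≠ 0 → ∀ i, -ord i y ≤ C i)
    (hg : ∀ j, C j - s * D j ≤ ord j g) : g * y ∈ V h D s 0 := by
  intro h0 i
  have hg0 : g ≠ 0 := left_ne_zero_of_mul h0
  have hy0 : y ≠ 0 := right_ne_zero_of_mul h0
  have h1 := hC hy0 i
  have h2 := hg i
  rw [h.mul i g _ hg0 hy0]
  have z : (0 : ι →₀ ℤ) i = 0 := rfl
  rw [z]
  linarith

omit ord h D in
private theorem mul_sq_h54 (a b c : K) : a * (b * c) ^ 2 = c ^ 2 * (a * b ^ 2) := by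
  ring

theorem u_fun [IsAlgClosed k] [Nonempty ι] (M : Model h D) {n : ℕ} (hn : 1 ≤ n) {e0 e1 : ℝ}
    (hd : (fun m : ℕ => (dd h D m 0 : ℝ) - (e0 * (m : ℝ) ^ n / n.factorial + e1 * (m : ℝ) ^ (n - 1) / (n - 1).factorial))
      =o[atTop] fun m : ℕ => (m : ℝ) ^ (n - 1)) (hpos : ∀ᶠ m in atTop, 0 < dd h D m 0)
    {J : Type*} [Fintype J] (hJ : 2 ^ n < Fintype.card J) (f : J → K) :
    ∃ x : J → K, x ≠ 0 ∧ ∑ j, f j * x j ^ 2 = 0 := by
  obtain ⟨i0⟩ := ‹Nonempty ι›
  obtain ⟨C, hC, -⟩ := exists_C_h54 h f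
  obtain ⟨s, g, hg, h1, -⟩ := M.appr C i0
  obtain ⟨B, -, hB⟩ := d_bdd hn hd
  obtain ⟨m, -, hm⟩ := grow (H := fun m => (dd h D m 0 : ℝ)) (N := n) (σ := (Fintype.card J : ℝ)) hB
    (hpos.mono fun m hm => by
      exact_mod_cast hm) (by exact_mod_cast hJ) s 0
  have hm' : dd h D (2 * m + s) 0 < Fintype.card J * dd h D m 0 := by
    exact_mod_cast hm
  have := M.fd m
  have := M.fd (2 * m + s)
  obtain ⟨E, hE1, hE2, hE3⟩ := exists_E_h54 (V h D m 0) J
  obtain ⟨M', ℓ, hM1, hM2⟩ := exists_coord (U' := (⊥ : Submodule k K)) (U := V h D (2 * m + s) 0) bot_le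
  rw [finrank_bot, add_zero] at hM1
  unfold dd at hm'
  obtain ⟨x, hxE, hx0, hx⟩ := zero_quad (fun j => g * f j) E ℓ (by
    rw [hM1, hE2]
    exact_mod_cast hm')
  refine ⟨x, hx0, ?_⟩
  have h2 : (∑ j, g * f j * x j ^ 2) ∈ V h D (2 * m + s) 0 := Submodule.sum_mem _ fun j _ =>
    prod_mem_h54 (hE3 x hxE j) (mul_mem_h54 (hC j) h1)
  have h3 := hM2 _ h2 hx
  rw [Submodule.mem_bot] at h3
  have h4 : g * ∑ j, f j * x j ^ 2 = 0 := by
    rw [Finset.mul_sum, ← h3]
    exact Finset.sum_congr rfl fun j _ => by ring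
  exact (mul_eq_zero.1 h4).resolve_left hg

theorem u_res [IsAlgClosed k] [Nonempty ι] (M : Model h D) {n : ℕ} (hn : 1 ≤ n) {e0 e1 : ℝ}
    (hd : (fun m : ℕ => (dd h D m 0 : ℝ) - (e0 * (m : ℝ) ^ n / n.factorial + e1 * (m : ℝ) ^ (n - 1) / (n - 1).factorial))
      =o[atTop] fun m : ℕ => (m : ℝ) ^ (n - 1)) (i : ι) (hpos : ∀ᶠ m in atTop, 0 < hh h D i m)
    {J : Type*} [Fintype J] (hJ : 2 ^ (n - 1) < Fintype.card J) (y : J → K) (hy0 : ∀ j, y j ≠ 0) (hy : ∀ j, ord i (y j) = 0) :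
    ∃ z : J → K, (∀ j, z j ≠ 0 → 0 ≤ ord i (z j)) ∧ (∃ j, z j ≠ 0 ∧ ord i (z j) = 0) ∧
      ((∑ j, y j * z j ^ 2) ≠ 0 → 1 ≤ ord i (∑ j, y j * z j ^ 2)) := by
  classical
  obtain ⟨C, hC, hCi⟩ := exists_C_h54 h y
  have hCi0 : C i = 0 := hCi i fun j _ => hy j
  obtain ⟨s, g, hg, h1, h1i⟩ := M.appr C i
  rw [hCi0, zero_sub] at h1i
  obtain ⟨s', hs'⟩ := hbd M i
  obtain ⟨B, hB0, hB⟩ := diff_bdd hn hd s'
  have hBh : ∀ m : ℕ, (hh h D i m : ℝ) ≤ B * ((m : ℝ) + 1) ^ (n - 1) := by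
    intro m
    have a1 : (hh h D i m : ℝ) ≤ hh h D i (m + s') := by
      exact_mod_cast hmono M i (Nat.le_add_right m s')
    have a2 : (hh h D i (m + s') : ℝ) ≤ dd h D (m + s') 0 - dd h D m 0 := by
      exact_mod_cast hs' m
    exact a1.trans (a2.trans (hB m))
  obtain ⟨m, -, hm⟩ := grow (H := fun m => (hh h D i m : ℝ)) (N := n - 1) (σ := (Fintype.card J : ℝ)) hBh
    (hpos.mono fun m hm => by
      exact_mod_cast hm) (by exact_mod_cast hJ) s 0
  have hm' : hh h D i (2 * m + s) < Fintype.card J * hh h D i m := by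
    exact_mod_cast hm
  have := M.fd m
  have := M.fd (2 * m + s)
  have hle : ∀ m : ℕ, V h D m (-Finsupp.single i 1) ≤ V h D m 0 := fun m => V_mono fun j => by
    rw [Finsupp.neg_apply, Finsupp.single_apply]
    have z : (0 : ι →₀ ℤ) j = 0 := rfl
    rw [z]
    split_ifs <;> omega
  obtain ⟨E₁, hE₁, hE₁f, hE₁d, hE₁0⟩ := exists_compl_h54 (hle m)
  obtain ⟨E, hE1, hE2, hE3⟩ := exists_E_h54 E₁ J
  obtain ⟨M', ℓ, hM1, hM2⟩ := exists_coord (hle (2 * m + s))
  have hlt : M' < finrank k E := by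
    rw [hE2]
    unfold hh dd at hm'
    have b1 : (M' : ℤ) = finrank k (V h D (2 * m + s) 0) - finrank k (V h D (2 * m + s) (-Finsupp.single i 1)) := by
      rw [← hM1]
      push_cast
      ring
    have b2 : (finrank k E₁ : ℤ) = finrank k (V h D m 0) - finrank k (V h D m (-Finsupp.single i 1)) := by
      rw [← hE₁d]
      push_cast
      ring
    rw [← b1, ← b2] at hm'
    exact_mod_cast hm'
  obtain ⟨x, hxE, hx0, hx⟩ := zero_quad (fun j => g * y j) E ℓ hlt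
  have hxm : ∀ j, x j ∈ V h D m 0 := fun j => hE₁ (hE3 x hxE j)
  have h2 : (∑ j, g * y j * x j ^ 2) ∈ V h D (2 * m + s) 0 := Submodule.sum_mem _ fun j _ =>
    prod_mem_h54 (hxm j) (mul_mem_h54 (hC j) h1)
  have h3 := hM2 _ h2 hx
  obtain ⟨p, hp0, hp⟩ := h.unif i
  have hz : ∀ a : ℤ, ord i (p ^ a) = a := fun a => by
    rw [ord_zpow_h54 h i hp0, hp, mul_one]
  have z0 : (0 : ι →₀ ℤ) i = 0 := rfl
  refine ⟨fun j => x j * p ^ ((m : ℤ) * D i), fun j hj => ?_, ?_, fun hS => ?_⟩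
  · have hxj : x j ≠ 0 := left_ne_zero_of_mul hj
    have a1 := hxm j hxj i
    rw [z0] at a1
    rw [h.mul i _ _ hxj (zpow_ne_zero _ hp0), hz]
    linarith
  · obtain ⟨j, hj⟩ : ∃ j, x j ≠ 0 := by
      by_contra hcon
      push Not at hcon
      exact hx0 (funext hcon)
    refine ⟨j, mul_ne_zero hj (zpow_ne_zero _ hp0), ?_⟩
    rw [h.mul i _ _ hj (zpow_ne_zero _ hp0), hz]
    have a1 := hxm j hj i
    rw [z0] at a1
    by_contra hcon
    refine hj (hE₁0 (x j) (hE3 x hxE j) fun _ i' => ?_)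
    rw [Finsupp.neg_apply, Finsupp.single_apply]
    have a2 := hxm j hj i'
    have z1 : (0 : ι →₀ ℤ) i' = 0 := rfl
    rw [z1] at a2
    split_ifs with hii
    · subst hii
      have a3 : -((m : ℤ) * D i) ≤ ord i (x j) := by linarith
      have a4 : ord i (x j) ≠ -((m : ℤ) * D i) := fun h5 => hcon (by rw [h5]; ring)
      have a5 : -((m : ℤ) * D i) < ord i (x j) := lt_of_le_of_ne a3 (Ne.symm a4)
      linarith [Int.add_one_le_iff.2 a5]
    · linarith
  · have e1 : (∑ j, y j * (x j * p ^ ((m : ℤ) * D i)) ^ 2) = p ^ (2 * ((m : ℤ) * D i)) * ∑ j, y j * x j ^ 2 := by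
      rw [Finset.mul_sum]
      refine Finset.sum_congr rfl fun j _ => ?_
      have e3 : p ^ (2 * ((m : ℤ) * D i)) = (p ^ ((m : ℤ) * D i)) ^ 2 := by
        rw [two_mul, zpow_add₀ hp0]
        exact (sq _).symm
      rw [e3]
      exact mul_sq_h54 _ _ _
    change (∑ j, y j * (x j * p ^ ((m : ℤ) * D i)) ^ 2) ≠ 0 at hS
    rw [e1] at hS
    change 1 ≤ ord i (∑ j, y j * (x j * p ^ ((m : ℤ) * D i)) ^ 2)
    rw [e1]
    have hS0 : (∑ j, y j * x j ^ 2) ≠ 0 := right_ne_zero_of_mul hS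
    rw [h.mul i _ _ (zpow_ne_zero _ hp0) hS0, hz]
    have e2 : (∑ j, g * y j * x j ^ 2) = g * ∑ j, y j * x j ^ 2 := by
      rw [Finset.mul_sum]
      exact Finset.sum_congr rfl fun j _ => by ring
    rw [e2] at h3
    have a1 := h3 (mul_ne_zero hg hS0) i
    rw [h.mul i _ _ hg hS0, h1i, Finsupp.neg_apply, Finsupp.single_eq_same] at a1
    push_cast at a1
    linarith

end Pool.Agent.Helper41.TU
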