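import Pool.Agent.Helper41.TU.Rs
import Pool.Agent.Helper41.TU.Mk2
import Pool.Agent.Helper41.TU.Em2
import Pool.Agent.Helper41.TU.Ul

/-!
# Block TU-FIN0: unramified elements of `K_n(K) / 2` vanish (abstract form)

`u_K`: `u_fun` (`dd m 0 > 0` eventually because `dd m 0 ≥ 1`: `t ^ m ∈ V m 0` for `t` of `Model.step`). `u_kappa`: `u_res` for lifts: given `f : Fin m → κ`, `2^(n-1) < m`; if some `f j = 0` take
`x = Pi.single j 1`; otherwise lift to units `y j` of `O`, `u_res` gives `z`, reduce modulo the maximal ideal of `O`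
(`O` = elements of order `≥ 0`; `hpos`: `t ^ m ∈ V m 0`, not in `V m (-i)`).
`unramified_zero`: `x = sym l` by `exists_sym`; for every `i` let `O` be the valuation ring of `exists_vs`; `-1` is a square in `k`, so in `O` and in `κ`; `2 ≠ 0` in `κ` because `k ⊆ O`.
`resZero_of_tame` gives `ResZero O (pf l)`, so `ResLag ord (pf l) i`; `isotropic` gives `x ≠ 0` with `∑ S, pf l S * x S ^ 2 = 0` (`|Finset (Fin n)| = 2^n`), so `sym l = 0` by `sym_isotropic`.
-/

set_option autoImplicit false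

namespace Pool.Agent.Helper41.TU

open Module Filter Asymptotics IsLocalRing

variable {k K ι : Type*} [Field k] [Field K] [Algebra k K] {ord : ι → K → ℤ} {h : Ords k ord} {D : ι → ℤ}

private theorem ord_one58 (h : Ords k ord) (i : ι) : ord i (1 : K) = 0 := by
  have := h.const i (1 : k) one_ne_zero
  rwa [map_one] at this

private theorem ord_inv58 (h : Ords k ord) (i : ι) {x : K} (hx : x ≠ 0) : ord i x⁻¹ = -ord i x := by
  have := h.mul i x x⁻¹ hx (inv_ne_zero hx)
  rw [mul_inv_cancel₀ hx, ord_one58 h i] at this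
  omega

private theorem ord_pow58 (h : Ords k ord) (i : ι) {x : K} (hx : x ≠ 0) (n : ℕ) : ord i (x ^ n) = n * ord i x := by
  induction n with
  | zero => rw [pow_zero, ord_one58 h i]; simp
  | succ n ih =>
    rw [pow_succ, h.mul i _ _ (pow_ne_zero n hx) hx, ih]
    push_cast
    ring

private theorem unit_iff58 (h : Ords k ord) (i : ι) (O : ValuationSubring K) (hO : ∀ x, x ∈ O ↔ (x ≠ 0 → 0 ≤ ord i x))
    (x : O) : IsUnit x ↔ ((x : K) ≠ 0 ∧ ord i (x : K) = 0) := by
  constructor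
  · rintro ⟨u, rfl⟩
    have h1 : ((u : O) : K) * (((u⁻¹ : Oˣ) : O) : K) = 1 := by
      have : (u : O) * ((u⁻¹ : Oˣ) : O) = 1 := Units.mul_inv u
      exact_mod_cast congrArg (fun z : O => (z : K)) this
    have h2 : ((u : O) : K) ≠ 0 := left_ne_zero_of_mul (h1 ▸ one_ne_zero)
    have h3 : (((u⁻¹ : Oˣ) : O) : K) ≠ 0 := right_ne_zero_of_mul (h1 ▸ one_ne_zero)
    have h4 := h.mul i _ _ h2 h3
    rw [h1, ord_one58 h i] at h4
    have h5 := (hO _).1 (u : O).2 h2
    have h6 := (hO _).1 ((u⁻¹ : Oˣ) : O).2 h3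
    exact ⟨h2, by omega⟩
  · rintro ⟨h1, h2⟩
    have h3 : (x : K)⁻¹ ∈ O := (hO _).2 fun _ => by
      rw [ord_inv58 h i h1, h2]
      simp
    refine IsUnit.of_mul_eq_one ⟨(x : K)⁻¹, h3⟩ ?_
    apply Subtype.ext
    exact mul_inv_cancel₀ h1

private theorem res_zero_iff58 (h : Ords k ord) (i : ι) (O : ValuationSubring K) (hO : ∀ x, x ∈ O ↔ (x ≠ 0 → 0 ≤ ord i x))
    (x : O) : residue O x = 0 ↔ ((x : K) ≠ 0 → 1 ≤ ord i (x : K)) := by
  rw [residue_eq_zero_iff, mem_maximalIdeal, mem_nonunits_iff, unit_iff58 h i O hO]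
  constructor
  · intro h1 h2
    have h3 := (hO _).1 x.2 h2
    rcases h3.lt_or_eq with h4 | h4
    · omega
    · exact absurd ⟨h2, h4.symm⟩ h1
  · rintro h1 ⟨h2, h3⟩
    have := h1 h2
    omega

private theorem pow_mem58 {t : K} (ht0 : t ≠ 0) (ht : ∀ j, -D j ≤ ord j t) (m : ℕ) : t ^ m ∈ V h D m 0 := by
  intro _ j
  rw [ord_pow58 h j ht0]
  have z : (0 : ι →₀ ℤ) j = 0 := rfl
  rw [z]
  have h1 := mul_le_mul_of_nonneg_left (ht j) (Int.natCast_nonneg m)
  linarith

private theorem dd_pos58 [Nonempty ι] (M : Model h D) (m : ℕ) : 0 < dd h D m 0 := by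
  obtain ⟨i0⟩ := ‹Nonempty ι›
  obtain ⟨t, ht0, ht, -⟩ := M.step i0
  have := M.fd m
  have h1 : 0 < finrank k (V h D m 0) := by
    have h2 : Nontrivial (V h D m 0) :=
      ⟨⟨⟨t ^ m, pow_mem58 ht0 ht m⟩, 0, fun h3 => pow_ne_zero m ht0 (congrArg Subtype.val h3)⟩⟩
    exact finrank_pos
  unfold dd
  exact_mod_cast h1

private theorem hh_pos58 (M : Model h D) (i : ι) (m : ℕ) : 0 < hh h D i m := by
  classical
  obtain ⟨t, ht0, ht, hti⟩ := M.step i
  have := M.fd m
  have hle : V h D m (-Finsupp.single i 1) ≤ V h D m 0 := V_mono fun j => by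
    rw [Finsupp.neg_apply, Finsupp.single_apply]
    have z : (0 : ι →₀ ℤ) j = 0 := rfl
    rw [z]
    split_ifs <;> omega
  have hlt : V h D m (-Finsupp.single i 1) < V h D m 0 := by
    refine lt_of_le_of_ne hle fun h1 => ?_
    have h2 : t ^ m ∈ V h D m (-Finsupp.single i 1) := h1 ▸ pow_mem58 ht0 ht m
    have h3 := h2 (pow_ne_zero m ht0) i
    rw [ord_pow58 h i ht0, hti, Finsupp.neg_apply, Finsupp.single_eq_same] at h3
    linarith
  have h1 := Submodule.finrank_lt_finrank_of_lt hlt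
  unfold hh dd
  have h2 : (finrank k (V h D m (-Finsupp.single i 1)) : ℤ) < finrank k (V h D m 0) := by exact_mod_cast h1
  linarith

theorem u_K [IsAlgClosed k] [Nonempty ι] (M : Model h D) {n : ℕ} (hn : 1 ≤ n) {e0 e1 : ℝ}
    (hd : (fun m : ℕ => (dd h D m 0 : ℝ) - (e0 * (m : ℝ) ^ n / n.factorial + e1 * (m : ℝ) ^ (n - 1) / (n - 1).factorial))
      =o[atTop] fun m : ℕ => (m : ℝ) ^ (n - 1)) : ULe K (2 ^ n) := by
  intro m f hm
  exact u_fun M hn hd (Eventually.of_forall fun m => dd_pos58 M m) (by rwa [Fintype.card_fin]) f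

theorem u_kappa [IsAlgClosed k] [Nonempty ι] (M : Model h D) {n : ℕ} {e0 e1 : ℝ}
    (hd : (fun m : ℕ => (dd h D m 0 : ℝ) - (e0 * (m : ℝ) ^ (n + 1) / (n + 1).factorial + e1 * (m : ℝ) ^ n / n.factorial))
      =o[atTop] fun m : ℕ => (m : ℝ) ^ n) (i : ι) (O : ValuationSubring K) (hO : ∀ x, x ∈ O ↔ (x ≠ 0 → 0 ≤ ord i x)) :
    ULe (ResidueField O) (2 ^ n) := by
  intro m f hm
  by_cases hf : ∃ j, f j = 0
  · obtain ⟨j, hj⟩ := hf
    refine ⟨Pi.single j 1, fun h1 => ?_, ?_⟩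
    · have h2 := congrFun h1 j
      rw [Pi.single_eq_same, Pi.zero_apply] at h2
      exact one_ne_zero h2
    · rw [Fintype.sum_eq_single j]
      · rw [hj, zero_mul]
      · intro l hl
        rw [Pi.single_eq_of_ne hl, zero_pow two_ne_zero, mul_zero]
  · push Not at hf
    have hex : ∀ j, ∃ y : O, residue O y = f j := fun j => residue_surjective (f j)
    choose y hy using hex
    have hy1 : ∀ j, ((y j : O) : K) ≠ 0 ∧ ord i ((y j : O) : K) = 0 := by
      intro j
      refine (unit_iff58 h i O hO (y j)).1 ?_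
      by_contra h1
      apply hf j
      rw [← hy j, residue_eq_zero_iff, mem_maximalIdeal, mem_nonunits_iff]
      exact h1
    obtain ⟨z, hz1, ⟨j0, hj0, hj1⟩, hz2⟩ := u_res M (n := n + 1) (Nat.le_add_left 1 n) hd i
      (Eventually.of_forall fun m => hh_pos58 M i m) (J := Fin m) (by rwa [Fintype.card_fin]) (fun j => ((y j : O) : K))
      (fun j => (hy1 j).1) (fun j => (hy1 j).2)
    have hzO : ∀ j, z j ∈ O := fun j => (hO _).2 (hz1 j)
    refine ⟨fun j => residue O ⟨z j, hzO j⟩, fun h1 => ?_, ?_⟩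
    · have h2 := congrFun h1 j0
      rw [Pi.zero_apply] at h2
      have h3 := (res_zero_iff58 h i O hO _).1 h2 hj0
      change 1 ≤ ord i (z j0) at h3
      omega
    · have h1 : ∑ j, f j * (residue O ⟨z j, hzO j⟩) ^ 2 = residue O (∑ j, y j * (⟨z j, hzO j⟩ : O) ^ 2) := by
        rw [map_sum]
        refine Finset.sum_congr rfl fun j _ => ?_
        rw [map_mul, map_pow, hy j]
      rw [h1, res_zero_iff58 h i O hO]
      have h2 : ((∑ j, y j * (⟨z j, hzO j⟩ : O) ^ 2 : O) : K) = ∑ j, (y j : K) * z j ^ 2 := by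
        rw [AddSubmonoidClass.coe_finsetSum]
        refine Finset.sum_congr rfl fun j _ => ?_
        rw [MulMemClass.coe_mul, SubmonoidClass.coe_pow]
      rw [h2]
      exact hz2

theorem neg_one_sq [IsAlgClosed k] (O : ValuationSubring K) (hO : ∀ c : k, algebraMap k K c ∈ O) : IsSquare (-1 : ResidueField O) := by
  obtain ⟨c, hc⟩ := IsAlgClosed.exists_eq_mul_self (-1 : k)
  refine ⟨residue O ⟨algebraMap k K c, hO c⟩, ?_⟩
  rw [← map_mul]
  have h1 : (⟨algebraMap k K c, hO c⟩ : O) * ⟨algebraMap k K c, hO c⟩ = -1 := by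
    apply Subtype.ext
    rw [MulMemClass.coe_mul, ← map_mul, ← hc, map_neg, map_one]
    rfl
  rw [h1, map_neg, map_one]

private theorem two_ne58 (h2 : (2 : k) ≠ 0) (O : ValuationSubring K) (hO : ∀ c : k, algebraMap k K c ∈ O) :
    (2 : ResidueField O) ≠ 0 := by
  intro h0
  have h1 : (2 : O) * ⟨algebraMap k K (2 : k)⁻¹, hO _⟩ = 1 := by
    apply Subtype.ext
    rw [MulMemClass.coe_mul]
    have h3 : ((2 : O) : K) = algebraMap k K 2 := by
      rw [map_ofNat]
      rfl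
    rw [h3]
    change algebraMap k K 2 * algebraMap k K (2 : k)⁻¹ = 1
    rw [← map_mul, mul_inv_cancel₀ h2, map_one]
  have h3 := congrArg (residue O) h1
  rw [map_mul, map_ofNat, h0, zero_mul, map_one] at h3
  exact zero_ne_one h3

theorem unramified_zero [IsAlgClosed k] (h2 : (2 : k) ≠ 0) [Nonempty ι] (M : Model h D) {n : ℕ} {e0 e1 : ℝ} (he1 : 0 < e1)
    (hd : (fun m : ℕ => (dd h D m 0 : ℝ) - (e0 * (m : ℝ) ^ (n + 1) / (n + 1).factorial + e1 * (m : ℝ) ^ n / n.factorial))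
      =o[atTop] fun m : ℕ => (m : ℝ) ^ n) (x : KM K (n + 1))
    (hx : ∀ (O : ValuationSubring K) (hk : ∀ c : k, algebraMap k K c ∈ O) [IsDiscreteValuationRing O],
      ∃ (p : O) (hp : Irreducible p), tame O hp (neg_one_sq O hk) n x = 0) : x = 0 := by
  have hi : IsSquare (-1 : K) := by
    obtain ⟨c, hc⟩ := IsAlgClosed.exists_eq_mul_self (-1 : k)
    refine ⟨algebraMap k K c, ?_⟩
    rw [← map_mul, ← hc, map_neg, map_one]
  have hn : 1 ≤ n + 1 := Nat.le_add_left 1 n
  have hu : ULe K (2 ^ (n + 1)) := u_K M hn hd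
  obtain ⟨l, rfl⟩ := exists_sym hi hn hu x
  have hpf : ∀ S, pf l S ≠ 0 := fun S => Finset.prod_ne_zero_iff.2 fun j _ => (l j).ne_zero
  have hm : ∀ i, ResLag ord (pf l) i := by
    intro i
    obtain ⟨O, hO, hk, hdvr⟩ := exists_vs h i
    obtain ⟨p, hp, hpt⟩ := hx O hk
    exact meta_of_resZero h i O hO hpf
      (resZero_of_tame O hp (neg_one_sq O hk) (two_ne58 h2 O hk) (u_kappa M hd i O hO) l hpt)
  obtain ⟨y, hy0, hy⟩ := isotropic M hn he1 hd (J := Finset (Fin (n + 1))) (by rw [Fintype.card_finset, Fintype.card_fin]) hpf hm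
  exact sym_isotropic hi l y hy0 hy

end Pool.Agent.Helper41.TU
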