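import Pool.Agent.Helper41.TU.Gr3

/-!
# Block TU-GR4: the model of a homogeneous coordinate ring

`D P = ordP P t₀` for a fixed nonzero `t₀ ∈ A_1`.

`Ords`: `mul`, `add` from `IsOrd`; `const`: `c` and `c⁻¹` are in `A`, so both have order `≥ 0`; `unif`: `exists_hom` for `C = single P 1`, divided by `t ^ s`,
`t ∈ A_1`, `t ∉ P` (`exists_not_mem`); `fin`: `fin_char`.
`appr`: `exists_hom`, `g = (a / b) / t₀ ^ s`. `step`: `t / t₀` with `t ∈ A_1`, `t ∉ P`.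
Dimensions: `x ↦ x / t₀ ^ m` is an isomorphism `A_m → V m 0`: it is injective and maps into `V m 0`; if `y = a / b` (`a, b ∈ A_r`) lies in `V m 0` then
`ord (a t₀ ^ m) ≥ ord b` at all `P`, so `b ∣ a t₀ ^ m` by `hartogs`, `a t₀ ^ m = b c`, `c ∈ A_m` by `degree`, `y = c / t₀ ^ m`.
-/

set_option autoImplicit false

namespace Pool.Agent.Helper41.TU

open Module

section Aux6

private theorem one6 {A L : Type*} [CommRing A] [Field L] [Algebra A L] {P : Ideal A} {o : L → ℤ} (h : IsOrd L P o) :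
    o 1 = 0 := by
  have h1 := h.mul 1 1 one_ne_zero one_ne_zero
  rw [mul_one] at h1
  linarith

private theorem div6 {A L : Type*} [CommRing A] [Field L] [Algebra A L] {P : Ideal A} {o : L → ℤ} (h : IsOrd L P o)
    {x y : L} (hx : x ≠ 0) (hy : y ≠ 0) : o (x / y) = o x - o y := by
  have h1 := h.mul (x / y) y (div_ne_zero hx hy) hy
  rw [div_mul_cancel₀ _ hy] at h1
  linarith

private theorem pow6 {A L : Type*} [CommRing A] [Field L] [Algebra A L] {P : Ideal A} {o : L → ℤ} (h : IsOrd L P o)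
    {x : L} (hx : x ≠ 0) (n : ℕ) : o (x ^ n) = n * o x := by
  induction n with
  | zero => simp [one6 h]
  | succ n ih =>
    rw [pow_succ, h.mul _ _ (pow_ne_zero _ hx) hx, ih]
    push_cast
    ring

private theorem not_mem6 {A L : Type*} [CommRing A] [Field L] [Algebra A L] {P : Ideal A} {o : L → ℤ} (h : IsOrd L P o)
    {t : A} (ht : t ∉ P) (ht0 : t ≠ 0) : o (algebraMap A L t) = 0 := by
  have h1 := h.nonneg t ht0
  have h2 := mt (h.mem t ht0).1 ht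
  omega

end Aux6

variable {k A : Type*} [Field k] [CommRing A] [Algebra k A] (𝒜 : ℕ → Submodule k A) [GradedAlgebra 𝒜]
  [IsDomain A] (L : Type*) [Field L] [Algebra A L] [IsFractionRing A L] [Algebra k L] [IsScalarTower k A L]
  [IsNoetherianRing A] [IsIntegrallyClosed A]

omit [Algebra k L] [IsScalarTower k A L] in
private theorem const_nonneg6 (P : PD 𝒜) (c : k) (hc : c ≠ 0) : 0 ≤ ordP 𝒜 L P (algebraMap A L (algebraMap k A c)) := by
  apply (isOrd_ordP 𝒜 L P).nonneg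
  intro h0
  exact hc ((FaithfulSMul.algebraMap_injective k A) (h0.trans (map_zero _).symm))

omit [Algebra k L] [IsScalarTower k A L] in
private theorem const6 (P : PD 𝒜) (c : k) (hc : c ≠ 0) : ordP 𝒜 L P (algebraMap A L (algebraMap k A c)) = 0 := by
  have h1 := const_nonneg6 𝒜 L P c hc
  have h2 := const_nonneg6 𝒜 L P c⁻¹ (inv_ne_zero hc)
  have h3 : ∀ d : k, d ≠ 0 → algebraMap A L (algebraMap k A d) ≠ 0 := by
    intro d hd
    apply map_ne_zero' L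
    intro h0
    exact hd ((FaithfulSMul.algebraMap_injective k A) (h0.trans (map_zero _).symm))
  have h4 := (isOrd_ordP 𝒜 L P).mul _ _ (h3 c hc) (h3 c⁻¹ (inv_ne_zero hc))
  rw [← map_mul, ← map_mul, mul_inv_cancel₀ hc, map_one, map_one, one6 (isOrd_ordP 𝒜 L P)] at h4
  omega

/-- the degree zero element `(a / b) / t ^ s` -/
private theorem exists_el6 (hP : Polarized 𝒜) (hbig : ∃ m, 2 ≤ finrank k (𝒜 m)) (C : PD 𝒜 →₀ ℤ) (P : PD 𝒜) :
    ∃ s : ℕ, ∀ t ∈ 𝒜 1, t ≠ 0 → ∃ g : funField 𝒜 L, g ≠ 0 ∧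
      (∀ Q, C Q - s * ordP 𝒜 L Q (algebraMap A L t) ≤ ordK 𝒜 L Q g) ∧
      ordK 𝒜 L P g = C P - s * ordP 𝒜 L P (algebraMap A L t) := by
  obtain ⟨s, r, a, b, ha, hb, ha0, hb0, hge, heq⟩ := exists_hom 𝒜 L hP hbig C P
  refine ⟨s, fun t ht ht0 => ?_⟩
  have hab : algebraMap A L a / algebraMap A L b ≠ 0 := div_ne_zero (map_ne_zero' L ha0) (map_ne_zero' L hb0)
  have htL : algebraMap A L t ≠ 0 := map_ne_zero' L ht0
  have hmem : (algebraMap A L a / algebraMap A L b) / algebraMap A L t ^ s ∈ funField 𝒜 L := by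
    rw [mem_funField]
    refine ⟨s + r, a, b * t ^ s, ha, ?_, mul_ne_zero hb0 (pow_ne_zero _ ht0), ?_⟩
    · rw [add_comm]
      refine SetLike.mul_mem_graded hb ?_
      have h1 := SetLike.pow_mem_graded s ht
      rwa [smul_eq_mul, mul_one] at h1
    · rw [div_div, map_mul, map_pow]
  refine ⟨⟨_, hmem⟩, ?_, ?_, ?_⟩
  · intro h0
    exact (div_ne_zero hab (pow_ne_zero s htL)) (congrArg Subtype.val h0)
  · intro Q
    have h1 : ordK 𝒜 L Q ⟨_, hmem⟩ = ordP 𝒜 L Q (algebraMap A L a / algebraMap A L b) - s * ordP 𝒜 L Q (algebraMap A L t) := by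
      change ordP 𝒜 L Q ((algebraMap A L a / algebraMap A L b) / algebraMap A L t ^ s) = _
      rw [div6 (isOrd_ordP 𝒜 L Q) hab (pow_ne_zero s htL), pow6 (isOrd_ordP 𝒜 L Q) htL]
    rw [h1]
    have h2 := hge Q
    linarith
  · change ordP 𝒜 L P ((algebraMap A L a / algebraMap A L b) / algebraMap A L t ^ s) = _
    rw [div6 (isOrd_ordP 𝒜 L P) hab (pow_ne_zero s htL), pow6 (isOrd_ordP 𝒜 L P) htL, heq]

theorem ords_graded (hP : Polarized 𝒜) (hbig : ∃ m, 2 ≤ finrank k (𝒜 m)) : Ords k (ordK 𝒜 L) := by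
  refine ⟨?_, ?_, ?_, ?_, ?_⟩
  · intro P x y hx hy
    exact (isOrd_ordP 𝒜 L P).mul _ _ (fun h0 => hx (Subtype.ext h0)) (fun h0 => hy (Subtype.ext h0))
  · intro P x y hx hy hxy
    exact (isOrd_ordP 𝒜 L P).add _ _ (fun h0 => hx (Subtype.ext h0)) (fun h0 => hy (Subtype.ext h0))
      (fun h0 => hxy (Subtype.ext h0))
  · intro P c hc
    have h1 : ((algebraMap k (funField 𝒜 L) c : funField 𝒜 L) : L) = algebraMap A L (algebraMap k A c) :=
      IsScalarTower.algebraMap_apply k A L c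
    change ordP 𝒜 L P ((algebraMap k (funField 𝒜 L) c : funField 𝒜 L) : L) = 0
    rw [h1]
    exact const6 𝒜 L P c hc
  · intro P
    obtain ⟨t, ht, htP⟩ := exists_not_mem 𝒜 hP hbig P
    have ht0 : t ≠ 0 := fun h0 => htP (h0 ▸ P.1.zero_mem)
    obtain ⟨s, hs⟩ := exists_el6 𝒜 L hP hbig (Finsupp.single P 1) P
    obtain ⟨g, hg0, -, hg⟩ := hs t ht ht0
    refine ⟨g, hg0, ?_⟩
    rw [hg, not_mem6 (isOrd_ordP 𝒜 L P) htP ht0, Finsupp.single_eq_same]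
    ring
  · intro x hx
    exact fin_char 𝒜 L (fun h0 => hx (Subtype.ext h0))

private theorem mem6 (hP : Polarized 𝒜) (hbig : ∃ m, 2 ≤ finrank k (𝒜 m)) {t₀ : A} (ht : t₀ ∈ 𝒜 1) (ht0 : t₀ ≠ 0)
    (m : ℕ) (a : A) (ha : a ∈ 𝒜 m) : ∃ x : V (ords_graded 𝒜 L hP hbig) (fun P => ordP 𝒜 L P (algebraMap A L t₀)) m 0,
      ((x : funField 𝒜 L) : L) = algebraMap A L a / algebraMap A L t₀ ^ m := by
  have htL : algebraMap A L t₀ ≠ 0 := map_ne_zero' L ht0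
  have htm : t₀ ^ m ∈ 𝒜 m := by
    have h1 := SetLike.pow_mem_graded m ht
    rwa [smul_eq_mul, mul_one] at h1
  have hmem : algebraMap A L a / algebraMap A L t₀ ^ m ∈ funField 𝒜 L := by
    rw [mem_funField]
    exact ⟨m, a, t₀ ^ m, ha, htm, pow_ne_zero _ ht0, by rw [map_pow]⟩
  refine ⟨⟨⟨_, hmem⟩, ?_⟩, rfl⟩
  rw [mem_V]
  intro hx P
  have ha0 : a ≠ 0 := by
    rintro rfl
    apply hx
    apply Subtype.ext
    change algebraMap A L 0 / algebraMap A L t₀ ^ m = 0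
    rw [map_zero, zero_div]
  change _ ≤ ordP 𝒜 L P (algebraMap A L a / algebraMap A L t₀ ^ m)
  rw [div6 (isOrd_ordP 𝒜 L P) (map_ne_zero' L ha0) (pow_ne_zero m htL), pow6 (isOrd_ordP 𝒜 L P) htL]
  have h1 := (isOrd_ordP 𝒜 L P).nonneg a ha0
  simp only [Finsupp.coe_zero, Pi.zero_apply]
  linarith

/-- `a / t₀ ^ m` -/
private noncomputable def el6 (hP : Polarized 𝒜) (hbig : ∃ m, 2 ≤ finrank k (𝒜 m)) {t₀ : A} (ht : t₀ ∈ 𝒜 1) (ht0 : t₀ ≠ 0)
    (m : ℕ) (a : 𝒜 m) : V (ords_graded 𝒜 L hP hbig) (fun P => ordP 𝒜 L P (algebraMap A L t₀)) m 0 :=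
  Classical.choose (mem6 𝒜 L hP hbig ht ht0 m a.1 a.2)

private theorem coe_el6 (hP : Polarized 𝒜) (hbig : ∃ m, 2 ≤ finrank k (𝒜 m)) {t₀ : A} (ht : t₀ ∈ 𝒜 1) (ht0 : t₀ ≠ 0)
    (m : ℕ) (a : 𝒜 m) : (((el6 𝒜 L hP hbig ht ht0 m a) : funField 𝒜 L) : L) =
      algebraMap A L a.1 / algebraMap A L t₀ ^ m :=
  Classical.choose_spec (mem6 𝒜 L hP hbig ht ht0 m a.1 a.2)

/-- `x ↦ x / t₀ ^ m` -/
private noncomputable def toV6 (hP : Polarized 𝒜) (hbig : ∃ m, 2 ≤ finrank k (𝒜 m)) {t₀ : A} (ht : t₀ ∈ 𝒜 1) (ht0 : t₀ ≠ 0)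
    (m : ℕ) : 𝒜 m →ₗ[k] V (ords_graded 𝒜 L hP hbig) (fun P => ordP 𝒜 L P (algebraMap A L t₀)) m 0 where
  toFun a := el6 𝒜 L hP hbig ht ht0 m a
  map_add' := by
    intro a b
    apply Subtype.ext
    apply Subtype.ext
    rw [coe_el6]
    change _ = (((el6 𝒜 L hP hbig ht ht0 m a) : funField 𝒜 L) : L) + (((el6 𝒜 L hP hbig ht ht0 m b) : funField 𝒜 L) : L)
    rw [coe_el6, coe_el6, ← add_div, ← map_add]
    rfl
  map_smul' := by
    intro c a
    apply Subtype.ext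
    apply Subtype.ext
    rw [coe_el6, RingHom.id_apply]
    change _ = c • (((el6 𝒜 L hP hbig ht ht0 m a) : funField 𝒜 L) : L)
    rw [coe_el6]
    change algebraMap A L (c • a.1) / _ = _
    rw [Algebra.smul_def, Algebra.smul_def, map_mul, ← IsScalarTower.algebraMap_apply k A L, mul_div_assoc]

private theorem coe_toV6 (hP : Polarized 𝒜) (hbig : ∃ m, 2 ≤ finrank k (𝒜 m)) {t₀ : A} (ht : t₀ ∈ 𝒜 1) (ht0 : t₀ ≠ 0)
    (m : ℕ) (a : 𝒜 m) : ((toV6 𝒜 L hP hbig ht ht0 m a : funField 𝒜 L) : L) =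
      algebraMap A L a.1 / algebraMap A L t₀ ^ m :=
  coe_el6 𝒜 L hP hbig ht ht0 m a

private theorem bij6 (hP : Polarized 𝒜) (hbig : ∃ m, 2 ≤ finrank k (𝒜 m)) {t₀ : A} (ht : t₀ ∈ 𝒜 1) (ht0 : t₀ ≠ 0)
    (m : ℕ) : Function.Bijective (toV6 𝒜 L hP hbig ht ht0 m) := by
  have htL : algebraMap A L t₀ ≠ 0 := map_ne_zero' L ht0
  constructor
  · intro a b hab
    have h1 := coe_toV6 𝒜 L hP hbig ht ht0 m a
    rw [hab, coe_toV6 𝒜 L hP hbig ht ht0 m b] at h1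
    have h2 := (div_left_inj' (pow_ne_zero m htL)).1 h1
    exact Subtype.ext (IsFractionRing.injective A L h2.symm)
  · rintro ⟨y, hy⟩
    by_cases hy0 : y = 0
    · refine ⟨0, ?_⟩
      rw [map_zero]
      exact Subtype.ext hy0.symm
    obtain ⟨r, a, b, ha, hb, hb0, hyab⟩ := (mem_funField 𝒜 L).1 y.2
    have hbL : algebraMap A L b ≠ 0 := map_ne_zero' L hb0
    have ha0 : a ≠ 0 := by
      rintro rfl
      apply hy0
      apply Subtype.ext
      rw [hyab, map_zero, zero_div]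
      rfl
    have haL : algebraMap A L a ≠ 0 := map_ne_zero' L ha0
    have htm : t₀ ^ m ∈ 𝒜 m := by
      have h1 := SetLike.pow_mem_graded m ht
      rwa [smul_eq_mul, mul_one] at h1
    have hatm : a * t₀ ^ m ∈ 𝒜 (m + r) := by
      rw [add_comm]
      exact SetLike.mul_mem_graded ha htm
    have hdvd : b ∣ a * t₀ ^ m := by
      refine hartogs 𝒜 L hatm hb hb0 (fun _ P => ?_)
      have h1 := (mem_V.1 hy) hy0 P
      change _ ≤ ordP 𝒜 L P (y : L) at h1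
      rw [hyab, div6 (isOrd_ordP 𝒜 L P) haL hbL] at h1
      rw [map_mul, map_pow, (isOrd_ordP 𝒜 L P).mul _ _ haL (pow_ne_zero m htL), pow6 (isOrd_ordP 𝒜 L P) htL]
      simp only [Finsupp.coe_zero, Pi.zero_apply] at h1
      linarith
    obtain ⟨c, hc⟩ := hdvd
    have hcm : c ∈ 𝒜 m := degree 𝒜 hb hb0 (hc ▸ hatm)
    refine ⟨⟨c, hcm⟩, ?_⟩
    apply Subtype.ext
    apply Subtype.ext
    rw [coe_toV6 𝒜 L hP hbig ht ht0 m ⟨c, hcm⟩]
    change algebraMap A L c / algebraMap A L t₀ ^ m = (y : L)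
    rw [hyab, div_eq_div_iff (pow_ne_zero m htL) hbL, ← map_pow, ← map_mul, ← map_mul, hc, mul_comm]

theorem model_graded (hP : Polarized 𝒜) (hbig : ∃ m, 2 ≤ finrank k (𝒜 m)) {t₀ : A} (ht : t₀ ∈ 𝒜 1) (ht0 : t₀ ≠ 0) :
    Model (ords_graded 𝒜 L hP hbig) (fun P => ordP 𝒜 L P (algebraMap A L t₀)) ∧
      ∀ m : ℕ, dd (ords_graded 𝒜 L hP hbig) (fun P => ordP 𝒜 L P (algebraMap A L t₀)) m 0 = (finrank k (𝒜 m) : ℤ) := by
  have hiso : ∀ m : ℕ, Nonempty (𝒜 m ≃ₗ[k] V (ords_graded 𝒜 L hP hbig) (fun P => ordP 𝒜 L P (algebraMap A L t₀)) m 0) :=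
    fun m => ⟨LinearEquiv.ofBijective _ (bij6 𝒜 L hP hbig ht ht0 m)⟩
  refine ⟨⟨?_, ?_, ?_⟩, ?_⟩
  · intro C P
    obtain ⟨s, hs⟩ := exists_el6 𝒜 L hP hbig C P
    obtain ⟨g, hg0, hg1, hg2⟩ := hs t₀ ht ht0
    exact ⟨s, g, hg0, hg1, hg2⟩
  · intro P
    obtain ⟨t, ht1, htP⟩ := exists_not_mem 𝒜 hP hbig P
    have ht10 : t ≠ 0 := fun h0 => htP (h0 ▸ P.1.zero_mem)
    have htL : algebraMap A L t ≠ 0 := map_ne_zero' L ht10
    have ht0L : algebraMap A L t₀ ≠ 0 := map_ne_zero' L ht0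
    have hmem : algebraMap A L t / algebraMap A L t₀ ∈ funField 𝒜 L :=
      (mem_funField 𝒜 L).2 ⟨1, t, t₀, ht1, ht, ht0, rfl⟩
    refine ⟨⟨_, hmem⟩, ?_, ?_, ?_⟩
    · intro h0
      exact (div_ne_zero htL ht0L) (congrArg Subtype.val h0)
    · intro Q
      change _ ≤ ordP 𝒜 L Q (algebraMap A L t / algebraMap A L t₀)
      rw [div6 (isOrd_ordP 𝒜 L Q) htL ht0L]
      have h1 := (isOrd_ordP 𝒜 L Q).nonneg t ht10
      linarith
    · change ordP 𝒜 L P (algebraMap A L t / algebraMap A L t₀) = _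
      rw [div6 (isOrd_ordP 𝒜 L P) htL ht0L, not_mem6 (isOrd_ordP 𝒜 L P) htP ht10]
      ring
  · intro m
    obtain ⟨e⟩ := hiso m
    have := fd 𝒜 hP m
    exact Module.Finite.equiv e
  · intro m
    obtain ⟨e⟩ := hiso m
    unfold dd
    rw [e.finrank_eq]

end Pool.Agent.Helper41.TU
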