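import Pool.Agent.Helper41.TU.Fin0
import Pool.Agent.Helper41.TU.Gr4

/-!
# Project TU: the theorem for homogeneous coordinate rings
-/

set_option autoImplicit false

namespace Pool.Agent.Helper41.TU

open Module Filter Asymptotics IsLocalRing

variable {k A : Type*} [Field k] [CommRing A] [Algebra k A] (𝒜 : ℕ → Submodule k A) [GradedAlgebra 𝒜]

/-- The growth of the dimensions. -/
theorem tendsto_dim {n : ℕ} {e0 e1 : ℝ} (he0 : 0 < e0)
    (hd : (fun m : ℕ => (finrank k (𝒜 m) : ℝ) - (e0 * (m : ℝ) ^ (n + 1) / (n + 1).factorial + e1 * (m : ℝ) ^ n / n.factorial))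
      =o[atTop] fun m : ℕ => (m : ℝ) ^ n) : ∃ m, 1 ≤ m ∧ 2 ≤ finrank k (𝒜 m) := by
  have h1 := hd.def (c := 1) one_pos
  obtain ⟨c, hc⟩ : ∃ c : ℝ, c = e0 / (n + 1).factorial := ⟨_, rfl⟩
  have hc0 : 0 < c := hc ▸ (by positivity)
  obtain ⟨d, hdd⟩ : ∃ d : ℝ, d = e1 / n.factorial := ⟨_, rfl⟩
  have h2 : ∀ᶠ m : ℕ in atTop, (2 + |d| + 1) / c ≤ m := tendsto_natCast_atTop_atTop.eventually_ge_atTop _
  obtain ⟨m, h3, h4, h5⟩ := (h1.and (h2.and (eventually_ge_atTop 1))).exists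
  refine ⟨m, h5, ?_⟩
  rw [Real.norm_eq_abs, Real.norm_eq_abs, one_mul] at h3
  have hm : (1 : ℝ) ≤ m := by exact_mod_cast h5
  have hmn : (1 : ℝ) ≤ (m : ℝ) ^ n := one_le_pow₀ hm
  rw [abs_of_nonneg (by positivity : (0 : ℝ) ≤ (m : ℝ) ^ n)] at h3
  have h6 := (abs_le.1 h3).1
  rw [div_le_iff₀ hc0] at h4
  have e : e0 * (m : ℝ) ^ (n + 1) / (n + 1).factorial + e1 * (m : ℝ) ^ n / n.factorial = (m * c + d) * (m : ℝ) ^ n := by
    rw [hc, hdd, pow_succ]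
    ring
  rw [e] at h6
  have h7 : -|d| ≤ d := neg_abs_le d
  have h8 : (2 : ℝ) ≤ finrank k (𝒜 m) := by nlinarith
  exact_mod_cast h8

theorem exists_ne_zero (hP : Polarized 𝒜) (hbig : ∃ m, 1 ≤ m ∧ 2 ≤ finrank k (𝒜 m)) : ∃ t ∈ 𝒜 1, t ≠ 0 := by
  by_contra hcon
  push Not at hcon
  obtain ⟨m, hm1, hm⟩ := hbig
  have h1 : (𝒜 1 : Set A) ⊆ (⊥ : Subalgebra k A) := fun t ht => by rw [hcon t ht]; exact zero_mem _
  have h2 : (⊤ : Subalgebra k A) ≤ ⊥ := by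
    rw [← hP.gen]
    exact Algebra.adjoin_le h1
  have h3 : 𝒜 m = ⊥ := by
    rw [eq_bot_iff]
    intro a ha
    obtain ⟨c, hc⟩ := Algebra.mem_bot.1 (h2 (Algebra.mem_top : a ∈ (⊤ : Subalgebra k A)))
    have h0 : a ∈ 𝒜 0 := by rw [← hc]; exact SetLike.algebraMap_mem_graded 𝒜 c
    by_contra ha0
    rw [Submodule.mem_bot] at ha0
    have := DirectSum.degree_eq_of_mem_mem 𝒜 ha h0 ha0
    omega
  rw [h3, finrank_bot] at hm
  omega

variable [IsDomain A] [IsIntegrallyClosed A] (L : Type*) [Field L] [Algebra A L] [IsFractionRing A L] [Algebra k L]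
  [IsScalarTower k A L]

/-- Unramified elements of `K_N / 2` of the function field of `Proj A`, `N = n + 1` its dimension, vanish if the second
coefficient of the Hilbert polynomial is positive. -/
theorem main [IsAlgClosed k] (h2 : (2 : k) ≠ 0) (hP : Polarized 𝒜) {n : ℕ} {e0 e1 : ℝ} (he0 : 0 < e0) (he1 : 0 < e1)
    (hd : (fun m : ℕ => (finrank k (𝒜 m) : ℝ) - (e0 * (m : ℝ) ^ (n + 1) / (n + 1).factorial + e1 * (m : ℝ) ^ n / n.factorial))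
      =o[atTop] fun m : ℕ => (m : ℝ) ^ n)
    (x : KM (funField 𝒜 L) (n + 1))
    (hx : ∀ (O : ValuationSubring (funField 𝒜 L)) (hk : ∀ c : k, algebraMap k (funField 𝒜 L) c ∈ O) [IsDiscreteValuationRing O],
      ∃ (p : O) (hp : Irreducible p), tame O hp (neg_one_sq O hk) n x = 0) : x = 0 := by
  haveI : IsNoetherianRing A := noeth 𝒜 hP
  have hbig1 := tendsto_dim 𝒜 he0 hd
  have hbig : ∃ m, 2 ≤ finrank k (𝒜 m) := by
    obtain ⟨m, _, hm⟩ := hbig1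
    exact ⟨m, hm⟩
  obtain ⟨t, ht, ht0⟩ := exists_ne_zero 𝒜 hP hbig1
  haveI : Nonempty (PD 𝒜) := nonempty_PD 𝒜 ht ht0
  obtain ⟨M, hM⟩ := model_graded 𝒜 L hP hbig ht ht0
  refine unramified_zero h2 M (e0 := e0) he1 ?_ x hx
  simp only [hM]
  exact_mod_cast hd

/-- Unramified quadratic forms of dimension at least `2 ^ N`, `N = n + 1`, are isotropic. -/
theorem main_forms [IsAlgClosed k] (hP : Polarized 𝒜) {n : ℕ} {e0 e1 : ℝ} (he0 : 0 < e0) (he1 : 0 < e1)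
    (hd : (fun m : ℕ => (finrank k (𝒜 m) : ℝ) - (e0 * (m : ℝ) ^ (n + 1) / (n + 1).factorial + e1 * (m : ℝ) ^ n / n.factorial))
      =o[atTop] fun m : ℕ => (m : ℝ) ^ n)
    {r : ℕ} (hr : 2 ^ (n + 1) ≤ r) (f : Fin r → funField 𝒜 L) (hf : ∀ j, f j ≠ 0)
    (hx : ∀ (O : ValuationSubring (funField 𝒜 L)), (∀ c : k, algebraMap k (funField 𝒜 L) c ∈ O) → IsDiscreteValuationRing O →
      ResZero O f) : ∃ x : Fin r → funField 𝒜 L, x ≠ 0 ∧ ∑ j, f j * x j ^ 2 = 0 := by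
  haveI : IsNoetherianRing A := noeth 𝒜 hP
  have hbig1 := tendsto_dim 𝒜 he0 hd
  have hbig : ∃ m, 2 ≤ finrank k (𝒜 m) := by
    obtain ⟨m, _, hm⟩ := hbig1
    exact ⟨m, hm⟩
  obtain ⟨t, ht, ht0⟩ := exists_ne_zero 𝒜 hP hbig1
  haveI : Nonempty (PD 𝒜) := nonempty_PD 𝒜 ht ht0
  obtain ⟨M, hM⟩ := model_graded 𝒜 L hP hbig ht ht0
  refine isotropic M (n := n + 1) (by omega) he1 (e0 := e0) ?_ (by rw [Fintype.card_fin]; exact hr) hf fun i => ?_
  · simp only [hM]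
    exact_mod_cast hd
  · obtain ⟨O, hO, hk, hD⟩ := exists_vs (ords_graded 𝒜 L hP hbig) i
    exact meta_of_resZero (ords_graded 𝒜 L hP hbig) i O hO hf (hx O hk hD)

end Pool.Agent.Helper41.TU
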