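import Mathlib

/-!
# Block TU-GR1: the order along a prime of height one of a normal Noetherian domain

`R = A_P` (for instance `Localization.subalgebra.ofField L P.primeCompl _`, or `Localization.AtPrime P` with an algebra structure on `L`) is a
Noetherian integrally closed local domain of dimension one which is not a field, so it is a discrete valuation ring
(`IsDiscreteValuationRing.TFAE`, or `IsDedekindDomain` + local). `ord` = minus the logarithm of the valuation of `L` given by the maximal ideal
of `R` (`IsDedekindDomain.HeightOneSpectrum.valuation`, `WithZero.log`), or from `IsDiscreteValuationRing.addVal`, or from the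
multiplicity of a uniformiser. `frac`: elements of order `≥ 0` lie in `R`. `unif`: if all `p ∈ P` had order `≥ 2` (or `0`) then so would all elements
`p / s`, `s ∉ P`, of the maximal ideal of `R`.
-/

set_option autoImplicit false

namespace Pool.Agent.Helper41.TU

/-- `o` is the order function of the discrete valuation ring `A_P`. -/
structure IsOrd {A : Type*} (L : Type*) [CommRing A] [Field L] [Algebra A L] (P : Ideal A) (o : L → ℤ) : Prop where
  mul : ∀ x y, x ≠ 0 → y ≠ 0 → o (x * y) = o x + o y
  add : ∀ x y, x ≠ 0 → y ≠ 0 → x + y ≠ 0 → min (o x) (o y) ≤ o (x + y)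
  nonneg : ∀ a : A, a ≠ 0 → 0 ≤ o (algebraMap A L a)
  mem : ∀ a : A, a ≠ 0 → (1 ≤ o (algebraMap A L a) ↔ a ∈ P)
  frac : ∀ x : L, x ≠ 0 → 0 ≤ o x → ∃ a b : A, b ∉ P ∧ x = algebraMap A L a / algebraMap A L b
  unif : ∃ p ∈ P, p ≠ 0 ∧ o (algebraMap A L p) = 1

theorem exists_isOrd {A L : Type*} [CommRing A] [IsDomain A] [IsNoetherianRing A] [IsIntegrallyClosed A] [Field L] [Algebra A L]
    [IsFractionRing A L] (P : Ideal A) [P.IsPrime] (hP : P.height = 1) : ∃ o : L → ℤ, IsOrd L P o := by
  classical
  have hle : P.primeCompl ≤ nonZeroDivisors A := P.primeCompl_le_nonZeroDivisors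
  have hinj : Function.Injective (algebraMap A L) := IsFractionRing.injective A L
  have hu : ∀ y : P.primeCompl, IsUnit (algebraMap A L y) := fun y => IsUnit.mk0 _ (by
    intro h0
    have h1 : (y : A) = 0 := hinj (by rw [h0, map_zero])
    exact y.2 (by rw [h1]; exact P.zero_mem))
  let R := Localization.AtPrime P
  letI : Algebra R L := (IsLocalization.lift (M := P.primeCompl) (S := R) hu).toAlgebra
  have : IsScalarTower A R L := IsScalarTower.of_algebraMap_eq fun x => (IsLocalization.lift_eq hu x).symm
  have : IsDomain R := IsLocalization.isDomain_localization hle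
  have : IsFractionRing R L := IsFractionRing.isFractionRing_of_isDomain_of_isLocalization P.primeCompl R L
  have : IsNoetherianRing R := IsLocalization.isNoetherianRing P.primeCompl R inferInstance
  have : IsIntegrallyClosed R := isIntegrallyClosed_of_isLocalization R P.primeCompl hle
  have hPne : P ≠ ⊥ := Ideal.ne_bot_of_height_eq_one hP
  have hm : ∀ a : A, algebraMap A R a ∈ IsLocalRing.maximalIdeal R ↔ a ∈ P := fun a =>
    IsLocalization.AtPrime.to_map_mem_maximal_iff R P a
  have hAR : Function.Injective (algebraMap A R) := IsLocalization.injective R hle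
  have hmne : IsLocalRing.maximalIdeal R ≠ ⊥ := by
    obtain ⟨p, hp, hp0⟩ := Submodule.exists_mem_ne_zero_of_ne_bot hPne
    intro hb
    have h1 := (hm p).2 hp
    rw [hb, Ideal.mem_bot] at h1
    exact hp0 (hAR (by rw [h1, map_zero]))
  have huniq : ∀ Q : Ideal R, Q ≠ ⊥ → Q.IsPrime → Q = IsLocalRing.maximalIdeal R := by
    intro Q hQ hQp
    have h1 : Ideal.map (algebraMap A R) (Q.comap (algebraMap A R)) = Q := IsLocalization.map_under P.primeCompl R Q
    have h2 : Q.comap (algebraMap A R) ≠ ⊥ := by
      intro h
      rw [h, Ideal.map_bot] at h1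
      exact hQ h1.symm
    have h3 : Q.comap (algebraMap A R) ≤ P := by
      intro a ha
      exact (hm a).1 (IsLocalRing.le_maximalIdeal hQp.ne_top ha)
    have : (Q.comap (algebraMap A R)).IsPrime := Ideal.comap_isPrime _ Q
    have h4 : Q.comap (algebraMap A R) = P := by
      by_contra hne
      have h5 := Ideal.height_add_one_le_of_lt_of_isPrime (lt_of_le_of_ne h3 hne)
      rw [hP] at h5
      have h6 : (Q.comap (algebraMap A R)).height = 0 := by
        by_contra h7
        have h8 : 1 ≤ (Q.comap (algebraMap A R)).height := Order.one_le_iff_ne_zero.2 h7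
        have h9 : (1 : ℕ∞) + 1 ≤ 1 := (add_le_add_left h8 1).trans h5
        exact absurd h9 (by decide)
      exact h2 (Ideal.height_eq_zero_iff_eq_bot.1 h6)
    rw [← h1, h4]
    exact IsLocalization.AtPrime.map_eq_maximalIdeal P R
  have : IsDedekindDomain R :=
    have h : (IsIntegrallyClosed R ∧ ∀ P : Ideal R, P ≠ ⊥ → P.IsPrime → P = IsLocalRing.maximalIdeal R) ↔
        IsDedekindDomain R := (tfae_of_isNoetherianRing_of_isLocalRing_of_isDomain R).out 3 2
    h.1 ⟨inferInstance, huniq⟩
  let v : IsDedekindDomain.HeightOneSpectrum R := ⟨IsLocalRing.maximalIdeal R, inferInstance, hmne⟩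
  have hne : ∀ x : L, x ≠ 0 → v.valuation L x ≠ 0 := fun x hx => (Valuation.ne_zero_iff _).2 hx
  have hA : ∀ a : A, algebraMap A L a = algebraMap R L (algebraMap A R a) := fun a =>
    IsScalarTower.algebraMap_apply A R L a
  have hA0 : ∀ a : A, a ≠ 0 → algebraMap A L a ≠ 0 := fun a ha h => ha (hinj (by rw [h, map_zero]))
  have hlog : ∀ x : L, x ≠ 0 → (0 ≤ -(WithZero.log (v.valuation L x)) ↔ v.valuation L x ≤ 1) := by
    intro x hx
    rw [← WithZero.log_le_log (hne x hx) one_ne_zero, WithZero.log_one]
    constructor <;> intro h <;> linarith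
  have hlog1 : ∀ x : L, x ≠ 0 → (1 ≤ -(WithZero.log (v.valuation L x)) ↔ v.valuation L x < 1) := by
    intro x hx
    rw [← WithZero.log_lt_log (hne x hx) one_ne_zero, WithZero.log_one]
    constructor <;> intro h <;> omega
  refine ⟨fun x => -(WithZero.log (v.valuation L x)), ?_, ?_, ?_, ?_, ?_, ?_⟩
  · intro x y hx hy
    simp only [map_mul]
    rw [WithZero.log_mul (hne x hx) (hne y hy)]
    ring
  · intro x y hx hy hxy
    have h1 := Valuation.map_add (v.valuation L) x y
    rcases le_max_iff.1 h1 with h | h
    · have h2 := (WithZero.log_le_log (hne _ hxy) (hne x hx)).2 h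
      exact (min_le_left _ _).trans (by simpa using h2)
    · have h2 := (WithZero.log_le_log (hne _ hxy) (hne y hy)).2 h
      exact (min_le_right _ _).trans (by simpa using h2)
  · intro a ha
    refine (hlog _ (hA0 a ha)).2 ?_
    rw [hA]
    exact v.valuation_le_one _
  · intro a ha
    refine (hlog1 _ (hA0 a ha)).trans ?_
    rw [hA, v.valuation_lt_one_iff_mem]
    exact hm a
  · intro x hx h0
    have h1 := (hlog x hx).1 h0
    have h2 : x ∈ (algebraMap R L).range := by
      refine IsDedekindDomain.HeightOneSpectrum.mem_integers_of_valuation_le_one L x fun w => ?_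
      have hw : w = v := IsDedekindDomain.HeightOneSpectrum.ext (huniq w.asIdeal w.ne_bot w.isPrime)
      rw [hw]
      exact h1
    obtain ⟨r, rfl⟩ := h2
    obtain ⟨a, s, rfl⟩ := IsLocalization.exists_mk'_eq P.primeCompl r
    refine ⟨a, s, s.2, ?_⟩
    rw [eq_div_iff (hu s).ne_zero, hA, hA, ← map_mul, IsLocalization.mk'_spec]
  · obtain ⟨r, hr⟩ := v.valuation_exists_uniformizer' L
    obtain ⟨a, s, rfl⟩ := IsLocalization.exists_mk'_eq P.primeCompl r
    have h1 : v.valuation L (algebraMap A L a) = WithZero.exp (-1 : ℤ) := by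
      have h2 : algebraMap A L a = algebraMap R L (IsLocalization.mk' R a s) * algebraMap R L (algebraMap A R s) := by
        rw [← map_mul, IsLocalization.mk'_spec, hA]
      have h3 : v.valuation L (algebraMap R L (algebraMap A R s)) = 1 := by
        refine le_antisymm (v.valuation_le_one _) (not_lt.1 fun h => ?_)
        rw [v.valuation_lt_one_iff_mem] at h
        exact s.2 ((hm s).1 h)
      rw [h2, map_mul, h3, mul_one, hr]
    have ha0 : a ≠ 0 := by
      rintro rfl
      rw [map_zero, map_zero] at h1
      exact WithZero.exp_ne_zero h1.symm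
    have h4 : -(WithZero.log (v.valuation L (algebraMap A L a))) = 1 := by
      rw [h1, WithZero.log_exp]
      norm_num
    refine ⟨a, ?_, ha0, h4⟩
    have h5 := (hlog1 _ (hA0 a ha0)).1 h4.ge
    rw [hA, v.valuation_lt_one_iff_mem] at h5
    exact (hm a).1 h5

end Pool.Agent.Helper41.TU
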