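import Pool.Agent.Helper41.TU.GrDefs

/-!
# Block TU-GR2: a homogeneous fraction without poles along prime divisors is regular

`hartogs`. Suppose `b ∤ a` (`a, b` homogeneous, `b ≠ 0`; then `a ≠ 0`). Consider the ideals `Q_y = {c | b ∣ c y}` for homogeneous `y ∈ a A` with `b ∤ y`;
`y = a` is one of them, `A` is Noetherian: choose a maximal one, `P = Q_y`. `P` is homogeneous (`b, y` homogeneous, look at homogeneous
components: `b ∣ c y` implies `b ∣ c_i y` for all components, as `b` is homogeneous), `1 ∉ P`, and prime: enough for homogeneous `c, d`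
(`Ideal.IsHomogeneous.isPrime_of_homogeneous_mem_or_mem`): if `c d ∈ P`, `d ∉ P` then `d y ∈ a A` is homogeneous, `b ∤ d y`, `Q_{d y} ⊇ P`, so
`Q_{d y} = P` by maximality, and `c ∈ Q_{d y}`. `b ∈ P`, so `P ≠ ⊥`. Let `z = y / b ∈ L`; `z ∉ A`, `z P ⊆ A`.
If `z P ⊆ P` then `z` is integral over `A` (`P` is a finitely generated faithful module: `isIntegral_of_smul_mem_submodule` or
`isIntegral_of_mem_span...`), so `z ∈ A`, a contradiction. So there is `p ∈ P` with `s = z p ∈ A`, `s ∉ P`. For `p' ∈ P`: `s p' = z p p' = p (z p') ∈ p A`.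
So `P` is a minimal prime over `(p)` (if `Q ⊆ P` is a prime with `p ∈ Q` then `s p' ∈ Q`, `s ∉ P ⊇ Q`, so `p' ∈ Q`), so its height is `≤ 1` by Krull
(`Ideal.height_le_one_of_isPrincipal_of_mem_minimalPrimes`), and it is `1` as `P ≠ ⊥`. So `P ∈ PD`. Its order function: `1 ≤ o(p)`,
`o(s) = 0` (`≥ 0` and not `≥ 1`), `o(z) = o(s) - o(p) < 0`. But `z = y / b`, `y = a y'`, `o(z) = o(a) - o(b) + o(y') ≥ 0` by hypothesis.

`degree`: components. `fin_char`: `x = a / b` with `a, b ∈ A`; if `ordP P x ≠ 0` then `a ∈ P` or `b ∈ P`; a prime of height one containing `a ≠ 0` is a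
minimal prime over `(a)` and there are finitely many of these in a Noetherian ring. `nonempty`: a minimal prime `P` of the ideal `(t)` (`t` is
not a unit: degree one): its homogeneous core is a prime (`Ideal.IsPrime.homogeneousCore`) which contains `t`, so `P` is homogeneous; the height is one
by Krull.
-/

set_option autoImplicit false

namespace Pool.Agent.Helper41.TU

variable {k A : Type*} [Field k] [CommRing A] [Algebra k A] (𝒜 : ℕ → Submodule k A) [GradedAlgebra 𝒜] [IsDomain A]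
  (L : Type*) [Field L] [Algebra A L] [IsFractionRing A L] [IsNoetherianRing A] [IsIntegrallyClosed A]

private theorem height38 {A : Type*} [CommRing A] [IsDomain A] [IsNoetherianRing A] {P : Ideal A} {p : A}
    (hP : P ∈ (Ideal.span {p}).minimalPrimes) (h0 : P ≠ ⊥) : P.height = 1 := by
  have : (Ideal.span {p}).IsPrincipal := ⟨⟨p, rfl⟩⟩
  refine le_antisymm (Ideal.height_le_one_of_isPrincipal_of_mem_minimalPrimes _ P hP) ?_
  rw [Order.one_le_iff_ne_zero, Ne, Ideal.height_eq_zero_iff_eq_bot]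
  exact h0

private theorem minimal38 {A : Type*} [CommRing A] [IsDomain A] [IsNoetherianRing A] {P : Ideal A} [hP : P.IsPrime]
    (h1 : P.height = 1) {a : A} (ha : a ∈ P) (ha0 : a ≠ 0) : P ∈ (Ideal.span {a}).minimalPrimes := by
  refine ⟨⟨hP, (Ideal.span_singleton_le_iff_mem _).2 ha⟩, fun Q hQ hQP => ?_⟩
  obtain ⟨hQ1, hQ2⟩ := hQ
  by_contra hPQ
  have h2 : Q < P := lt_of_le_not_ge hQP hPQ
  have h3 := Ideal.height_strict_mono_of_isPrime_of_isPrime h2
  rw [h1, Order.lt_one_iff, Ideal.height_eq_zero_iff_eq_bot] at h3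
  refine ha0 ?_
  have h4 : a ∈ Q := (Ideal.span_singleton_le_iff_mem _).1 hQ2
  rwa [h3, Ideal.mem_bot] at h4

/-- The ideal of all `c` such that `b` divides `c y`. -/
private def col38 {A : Type*} [CommRing A] (b y : A) : Ideal A :=
  Submodule.comap (LinearMap.toSpanSingleton A A y) (Ideal.span {b})

private theorem mem_col38 {A : Type*} [CommRing A] {b y c : A} : c ∈ col38 b y ↔ b ∣ c * y := by
  unfold col38
  rw [Submodule.mem_comap, LinearMap.toSpanSingleton_apply, smul_eq_mul, Ideal.mem_span_singleton]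

theorem hartogs {i j : ℕ} {a b : A} (ha : a ∈ 𝒜 i) (hb : b ∈ 𝒜 j) (hb0 : b ≠ 0)
    (hab : a ≠ 0 → ∀ P : PD 𝒜, ordP 𝒜 L P (algebraMap A L b) ≤ ordP 𝒜 L P (algebraMap A L a)) : b ∣ a := by
  classical
  by_contra hba
  have ha0 : a ≠ 0 := by
    rintro rfl
    exact hba (dvd_zero b)
  -- a maximal ideal of the form `col38 b y`
  set S : Set (Ideal A) := {I | ∃ (l : ℕ) (y : A), y ∈ 𝒜 l ∧ a ∣ y ∧ ¬ b ∣ y ∧ I = col38 b y} with hS
  have hne : S.Nonempty := ⟨col38 b a, i, a, ha, dvd_rfl, hba, rfl⟩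
  have hex : ∃ P : Ideal A, P ∈ S ∧ ∀ I ∈ S, ¬ P < I := by
    obtain ⟨P, hP, h⟩ := set_has_maximal_iff_noetherian.2 (inferInstance : IsNoetherian A A) S hne
    exact ⟨P, hP, h⟩
  obtain ⟨P, ⟨l, y, hy, hay, hby, hPy⟩, hmax⟩ := hex
  have hmem : ∀ c, c ∈ P ↔ b ∣ c * y := fun c => by rw [hPy]; exact mem_col38
  -- `P` is homogeneous
  have hhom : P.IsHomogeneous 𝒜 := by
    intro n c hc
    rw [hmem] at hc ⊢
    obtain ⟨d, hd⟩ := hc
    have h1 := DirectSum.coe_decompose_mul_add_of_right_mem 𝒜 (i := n) (a := c) hy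
    rw [← h1, hd]
    by_cases hj : j ≤ n + l
    · rw [DirectSum.coe_decompose_mul_of_left_mem_of_le 𝒜 hb hj]
      exact dvd_mul_right _ _
    · rw [DirectSum.coe_decompose_mul_of_left_mem_of_not_le 𝒜 hb hj]
      exact dvd_zero b
  have htop : P ≠ ⊤ := by
    intro h
    have h1 : (1 : A) ∈ P := by
      rw [h]
      exact Submodule.mem_top
    rw [hmem, one_mul] at h1
    exact hby h1
  have hprime : P.IsPrime := by
    refine hhom.isPrime_of_homogeneous_mem_or_mem htop ?_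
    intro c d _ hd hcd
    by_contra hcon
    rw [not_or] at hcon
    obtain ⟨hc1, hd1⟩ := hcon
    obtain ⟨e, he⟩ := hd
    have h1 : col38 b (d * y) ∈ S := by
      refine ⟨e + l, d * y, SetLike.mul_mem_graded he hy, hay.mul_left d, ?_, rfl⟩
      rw [← hmem]
      exact hd1
    have h2 : P ≤ col38 b (d * y) := by
      intro x hx
      rw [hmem] at hx
      rw [mem_col38]
      have h3 : x * (d * y) = d * (x * y) := by ring
      rw [h3]
      exact hx.mul_left d
    have h3 : c ∈ col38 b (d * y) := by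
      rw [mem_col38, ← mul_assoc, ← hmem]
      exact hcd
    refine hmax _ h1 (lt_of_le_of_ne h2 ?_)
    intro h4
    rw [← h4] at h3
    exact hc1 h3
  have hbP : b ∈ P := (hmem b).2 (dvd_mul_right b y)
  have hbot : P ≠ ⊥ := by
    intro h
    rw [h, Ideal.mem_bot] at hbP
    exact hb0 hbP
  have hy0 : y ≠ 0 := by
    rintro rfl
    exact hby (dvd_zero b)
  have hbL : algebraMap A L b ≠ 0 := map_ne_zero' L hb0
  -- `p ∈ P` and `s ∉ P` with `s b = p y`
  have hps : ∃ p ∈ P, ∃ s, s ∉ P ∧ s * b = p * y := by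
    by_contra hcon
    push Not at hcon
    have h1 : ∀ n ∈ Submodule.map (Algebra.linearMap A L) P,
        (algebraMap A L y / algebraMap A L b) • n ∈ Submodule.map (Algebra.linearMap A L) P := by
      rintro n ⟨p, hp, rfl⟩
      obtain ⟨q, hq⟩ := (hmem p).1 hp
      have h2 : q ∈ P := by
        by_contra hq2
        exact hcon p hp q hq2 (by rw [hq, mul_comm])
      refine ⟨q, h2, ?_⟩
      rw [Algebra.linearMap_apply, Algebra.linearMap_apply, smul_eq_mul, div_mul_eq_mul_div, eq_div_iff hbL, ← map_mul,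
        ← map_mul, mul_comm q b, ← hq, mul_comm y p]
    have h2 : IsIntegral A (algebraMap A L y / algebraMap A L b) := by
      refine isIntegral_of_smul_mem_submodule (Submodule.map (Algebra.linearMap A L) P) ?_ ?_ _ h1
      · intro h
        have h3 : algebraMap A L b ∈ Submodule.map (Algebra.linearMap A L) P := ⟨b, hbP, rfl⟩
        rw [h, Submodule.mem_bot] at h3
        exact hbL h3
      · exact (IsNoetherian.noetherian P).map _
    obtain ⟨w, hw⟩ := IsIntegrallyClosed.isIntegral_iff.1 h2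
    rw [eq_div_iff hbL, ← map_mul] at hw
    have h3 := IsFractionRing.injective A L hw
    exact hby ⟨w, by rw [← h3, mul_comm]⟩
  obtain ⟨p, hp, s, hs, hsb⟩ := hps
  have hs0 : s ≠ 0 := by
    rintro rfl
    exact hs P.zero_mem
  have hp0 : p ≠ 0 := by
    rintro rfl
    rw [zero_mul] at hsb
    exact (mul_ne_zero hs0 hb0) hsb
  have hmin : P ∈ (Ideal.span {p}).minimalPrimes := by
    refine ⟨⟨hprime, (Ideal.span_singleton_le_iff_mem _).2 hp⟩, fun Q hQ hQP => ?_⟩
    obtain ⟨hQ1, hQ2⟩ := hQ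
    intro x hx
    obtain ⟨q, hq⟩ := (hmem x).1 hx
    have h1 : s * x = p * q := by
      refine mul_left_cancel₀ hb0 ?_
      calc b * (s * x) = (s * b) * x := by ring
        _ = p * (x * y) := by rw [hsb]; ring
        _ = b * (p * q) := by rw [hq]; ring
    have h2 : s * x ∈ Q := by
      rw [h1]
      exact Q.mul_mem_right _ ((Ideal.span_singleton_le_iff_mem _).1 hQ2)
    exact (hQ1.mem_or_mem h2).resolve_left fun h => hs (hQP h)
  have hht := height38 hmin hbot
  obtain ⟨y', hy'⟩ := hay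
  have hy'0 : y' ≠ 0 := by
    rintro rfl
    rw [mul_zero] at hy'
    exact hy0 hy'
  have hfin := hab ha0 (Subtype.mk P ⟨hprime, hhom, hht⟩ : PD 𝒜)
  have ho := isOrd_ordP 𝒜 L (Subtype.mk P ⟨hprime, hhom, hht⟩ : PD 𝒜)
  have o1 : 1 ≤ ordP 𝒜 L (Subtype.mk P ⟨hprime, hhom, hht⟩ : PD 𝒜) (algebraMap A L p) := (ho.mem p hp0).2 hp
  have o2 : ¬ 1 ≤ ordP 𝒜 L (Subtype.mk P ⟨hprime, hhom, hht⟩ : PD 𝒜) (algebraMap A L s) :=
    fun h => hs ((ho.mem s hs0).1 h)
  have o3 := ho.mul _ _ (map_ne_zero' L hs0) hbL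
  have o4 := ho.mul _ _ (map_ne_zero' L hp0) (map_ne_zero' L hy0)
  have o5 := ho.mul _ _ (map_ne_zero' L ha0) (map_ne_zero' L hy'0)
  have o6 := ho.nonneg y' hy'0
  rw [← map_mul, hsb, map_mul] at o3
  rw [← map_mul, ← hy'] at o5
  omega

omit [IsNoetherianRing A] [IsIntegrallyClosed A] in
theorem degree {i j : ℕ} {b c : A} (hb : b ∈ 𝒜 j) (hb0 : b ≠ 0) (hbc : b * c ∈ 𝒜 (i + j)) : c ∈ 𝒜 i := by
  classical
  have h : ∀ m, m ≠ i → (DirectSum.decompose 𝒜 c m : A) = 0 := by
    intro m hm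
    have h1 := DirectSum.coe_decompose_mul_add_of_left_mem 𝒜 (j := m) (b := c) hb
    have h2 : (DirectSum.decompose 𝒜 (b * c) (j + m) : A) = 0 :=
      DirectSum.decompose_of_mem_ne 𝒜 hbc (by omega)
    rw [h2] at h1
    exact (mul_eq_zero.1 h1.symm).resolve_left hb0
  rw [← DirectSum.sum_support_decompose 𝒜 c]
  refine Submodule.sum_mem _ fun m _ => ?_
  by_cases hmi : m = i
  · subst hmi
    exact (DirectSum.decompose 𝒜 c m).2
  · rw [h m hmi]
    exact Submodule.zero_mem _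

theorem fin_char {x : L} (hx : x ≠ 0) : {P : PD 𝒜 | ordP 𝒜 L P x ≠ 0}.Finite := by
  classical
  obtain ⟨a, b, hb, hab⟩ := IsFractionRing.div_surjective (A := A) x
  have hb0 : b ≠ 0 := nonZeroDivisors.ne_zero hb
  have ha0 : a ≠ 0 := by
    rintro rfl
    rw [map_zero, zero_div] at hab
    exact hx hab.symm
  have hfin : ∀ c : A, c ≠ 0 → {P : PD 𝒜 | c ∈ P.1}.Finite := by
    intro c hc
    refine Set.Finite.of_finite_image (f := fun P : PD 𝒜 => P.1)
      ((Ideal.finite_minimalPrimes_of_isNoetherianRing A (Ideal.span {c})).subset ?_) ?_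
    · rintro Q ⟨P, hP, rfl⟩
      have := P.2.1
      exact minimal38 P.2.2.2 hP hc
    · intro P _ Q _ h
      exact Subtype.ext h
  refine ((hfin a ha0).union (hfin b hb0)).subset fun P hP => ?_
  by_contra hcon
  have hcon' : a ∉ P.1 ∧ b ∉ P.1 := by
    rw [Set.mem_union, not_or] at hcon
    exact hcon
  have ho := isOrd_ordP 𝒜 L P
  have h1 := ho.nonneg a ha0
  have h2 := ho.nonneg b hb0
  have h3 : ¬ 1 ≤ ordP 𝒜 L P (algebraMap A L a) := fun h => hcon'.1 ((ho.mem a ha0).1 h)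
  have h4 : ¬ 1 ≤ ordP 𝒜 L P (algebraMap A L b) := fun h => hcon'.2 ((ho.mem b hb0).1 h)
  have h5 := ho.mul x (algebraMap A L b) hx (map_ne_zero' L hb0)
  have h6 : x * algebraMap A L b = algebraMap A L a := by
    rw [← hab, div_mul_cancel₀ _ (map_ne_zero' L hb0)]
  rw [h6] at h5
  exact hP (by omega)

omit [IsIntegrallyClosed A] in
theorem nonempty_PD {t : A} (ht : t ∈ 𝒜 1) (ht0 : t ≠ 0) : Nonempty (PD 𝒜) := by
  classical
  have hunit : Ideal.span {t} ≠ ⊤ := by
    intro h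
    rw [Ideal.span_singleton_eq_top] at h
    obtain ⟨u, hu⟩ := h.exists_right_inv
    have h1 : (DirectSum.decompose 𝒜 (t * u) 0 : A) = 0 :=
      DirectSum.coe_decompose_mul_of_left_mem_of_not_le 𝒜 ht (by omega)
    rw [hu, DirectSum.decompose_of_mem_same 𝒜 (SetLike.GradedOne.one_mem : (1 : A) ∈ 𝒜 0)] at h1
    exact one_ne_zero h1
  obtain ⟨M, hM, hle⟩ := Ideal.exists_le_maximal _ hunit
  have := hM.isPrime
  obtain ⟨P, hP, _⟩ := Ideal.exists_minimalPrimes_le hle
  have hPp : P.IsPrime := hP.1.1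
  have htP : t ∈ P := (Ideal.span_singleton_le_iff_mem _).1 hP.1.2
  have hcore := hPp.homogeneousCore (𝒜 := 𝒜)
  have htc : t ∈ (P.homogeneousCore 𝒜).toIdeal := Ideal.mem_homogeneousCore_of_homogeneous_of_mem ⟨1, ht⟩ htP
  have hle2 : P ≤ (P.homogeneousCore 𝒜).toIdeal :=
    hP.2 ⟨hcore, (Ideal.span_singleton_le_iff_mem _).2 htc⟩ (Ideal.toIdeal_homogeneousCore_le 𝒜 P)
  have heq : (P.homogeneousCore 𝒜).toIdeal = P := le_antisymm (Ideal.toIdeal_homogeneousCore_le 𝒜 P) hle2
  have hhom : P.IsHomogeneous 𝒜 := (Ideal.IsHomogeneous.iff_eq 𝒜 P).2 heq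
  have hbot : P ≠ ⊥ := by
    intro h
    rw [h, Ideal.mem_bot] at htP
    exact ht0 htP
  exact ⟨(Subtype.mk P ⟨hPp, hhom, height38 hP hbot⟩ : PD 𝒜)⟩

end Pool.Agent.Helper41.TU
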