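import Pool.Agent.Helper41.TU.Gr2

/-!
# Block TU-GR3: homogeneous elements with given orders

`noeth`, `fd`: `A` is generated by a basis of `A_1`; `A_m` is spanned by the products of `m` elements of `A_1` (and `A_0 = k`).

`exists_not_mem`: suppose `A_1 ⊆ P`. Then `A_m ⊆ P` for all `m ≥ 1` (`gen`). Let `x, y ∈ A_1` be nonzero, without loss of generality
`ord x ≥ ord y` (`ord = ordP P`). By `IsOrd.frac`, `x / y = a / b` with `b ∉ P`; `x b = y a`. The component of degree `0` of `b` is nonzero (the other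
components are in `P`, `b` is not), a constant `b_0`, and in degree one `x b_0 = y a_0`, `a_0` constant. So `A_1` has dimension `≤ 1`, all `A_m`
have dimension `≤ 1`, against `hbig`.

`exists_hom`: for `Q ≠ P` in `PD` there is a homogeneous `a_Q ∈ Q`, `a_Q ∉ P` (`Q ⊄ P`: both have height one; `Q` is generated by homogeneous
elements). There is a homogeneous `p ∈ P` with `ordP P p = 1` (if all homogeneous elements of `P` had order `≥ 2` then so would all of `P`, against
`IsOrd.unif`; use `IsOrd.add`). Numerator and denominator: let `t ∈ A_1`, `t ∉ P` (`exists_not_mem`). If `C P ≥ 0`: `g = p ^ (C P) * ∏ a_Q ^ (C Q)⁺` over the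
`Q ≠ P` in the support of `C`. If `C P = -c < 0`: let `w = ∏ a_Q ^ (ordP Q p)` over the finitely many `Q ≠ P` with `ordP Q p ≠ 0`; then `w / p` has order
`≥ 0` at all `Q ≠ P`, and order `-1` at `P`; `g = (w / p) ^ c * ∏ a_Q ^ (C Q)⁺ * t ^ N` with `N` so large that the degree of `g` is `≥ 0`.
-/

set_option autoImplicit false

namespace Pool.Agent.Helper41.TU

open Module

variable {k A : Type*} [Field k] [CommRing A] [Algebra k A] (𝒜 : ℕ → Submodule k A) [GradedAlgebra 𝒜]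

private theorem pow_le56 (m : ℕ) : (𝒜 1) ^ m ≤ 𝒜 m := by
  induction m with
  | zero =>
    rw [pow_zero]
    intro x hx
    obtain ⟨c, rfl⟩ := Submodule.mem_one.1 hx
    exact SetLike.algebraMap_mem_graded 𝒜 c
  | succ m ih =>
    rw [pow_succ]
    exact Submodule.mul_le.2 fun a ha b hb => SetLike.mul_mem_graded (ih ha) hb

omit [GradedAlgebra 𝒜] in
private theorem clo56 {x : A} (hx : x ∈ Submonoid.closure (𝒜 1 : Set A)) : ∃ n, x ∈ (𝒜 1) ^ n := by
  induction hx using Submonoid.closure_induction with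
  | mem x hx => exact ⟨1, by rw [pow_one]; exact hx⟩
  | one => exact ⟨0, by rw [pow_zero]; exact Submodule.one_le.1 le_rfl⟩
  | mul x y _ _ hx hy =>
    obtain ⟨n, hn⟩ := hx
    obtain ⟨n', hn'⟩ := hy
    exact ⟨n + n', by rw [pow_add]; exact Submodule.mul_mem_mul hn hn'⟩

private theorem le_pow56 (hP : Polarized 𝒜) (m : ℕ) : 𝒜 m ≤ (𝒜 1) ^ m := by
  have key : ∀ a : A, ∀ m, (DirectSum.decompose 𝒜 a m : A) ∈ (𝒜 1) ^ m := by
    intro a
    have ha : a ∈ Submodule.span k ((Submonoid.closure (𝒜 1 : Set A) : Submonoid A) : Set A) := by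
      rw [← Algebra.adjoin_eq_span, hP.gen]
      trivial
    induction ha using Submodule.span_induction with
    | mem x hx =>
      have h1 : ∃ n, x ∈ (𝒜 1) ^ n := clo56 𝒜 hx
      obtain ⟨n, hn⟩ := h1
      intro m
      by_cases h : n = m
      · subst h
        rw [DirectSum.decompose_of_mem_same 𝒜 (pow_le56 𝒜 n hn)]
        exact hn
      · rw [DirectSum.decompose_of_mem_ne 𝒜 (pow_le56 𝒜 n hn) h]
        exact zero_mem _
    | zero =>
      intro m
      rw [DirectSum.decompose_zero]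
      exact zero_mem _
    | add x y _ _ hx hy =>
      intro m
      rw [DirectSum.decompose_add, DirectSum.add_apply, Submodule.coe_add]
      exact add_mem (hx m) (hy m)
    | smul c x _ hx =>
      intro m
      rw [DirectSum.decompose_smul]
      exact Submodule.smul_mem _ c (hx m)
  intro a ha
  have := key a m
  rwa [DirectSum.decompose_of_mem_same 𝒜 ha] at this

theorem noeth (hP : Polarized 𝒜) : IsNoetherianRing A := by
  obtain ⟨S, hS⟩ := Module.Finite.iff_fg.1 hP.fin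
  have h1 : Algebra.FiniteType k A := by
    refine ⟨⟨S, ?_⟩⟩
    rw [eq_top_iff, ← hP.gen]
    refine Algebra.adjoin_le ?_
    intro x hx
    have hx' : x ∈ Submodule.span k (S : Set A) := by
      rw [hS]
      exact hx
    exact Algebra.span_le_adjoin k _ hx'
  exact Algebra.FiniteType.isNoetherianRing k A

theorem fd (hP : Polarized 𝒜) (m : ℕ) : FiniteDimensional k (𝒜 m) := by
  have h1 : ((𝒜 1) ^ m).FG := (Module.Finite.iff_fg.1 hP.fin).pow m
  have h2 : Module.Finite k ↥((𝒜 1) ^ m) := Module.Finite.iff_fg.2 h1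
  have h3 : 𝒜 m = (𝒜 1) ^ m := le_antisymm (le_pow56 𝒜 hP m) (pow_le56 𝒜 m)
  rw [h3]
  exact h2

section Ord

variable {A L : Type*} [CommRing A] [Field L] [Algebra A L] {P : Ideal A} {o : L → ℤ}

private theorem o_one56 (ho : IsOrd L P o) : o 1 = 0 := by
  have := ho.mul 1 1 one_ne_zero one_ne_zero
  rw [mul_one] at this
  omega

private theorem o_pow56 (ho : IsOrd L P o) {x : L} (hx : x ≠ 0) (n : ℕ) : o (x ^ n) = n * o x := by
  induction n with
  | zero => rw [pow_zero, o_one56 ho, Nat.cast_zero, zero_mul]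
  | succ n ih =>
    rw [pow_succ, ho.mul _ _ (pow_ne_zero n hx) hx, ih]
    push_cast
    ring

private theorem o_div56 (ho : IsOrd L P o) {x y : L} (hx : x ≠ 0) (hy : y ≠ 0) : o (x / y) = o x - o y := by
  have h1 := ho.mul (x / y) y (div_ne_zero hx hy) hy
  rw [div_mul_cancel₀ _ hy] at h1
  omega

private theorem o_zero56 (ho : IsOrd L P o) {a : A} (ha0 : a ≠ 0) (ha : a ∉ P) : o (algebraMap A L a) = 0 := by
  have h1 := ho.nonneg a ha0
  have h2 := (ho.mem a ha0).not.2 ha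
  omega

private theorem sum56 (ho : IsOrd L P o) (hinj : ∀ a : A, a ≠ 0 → algebraMap A L a ≠ 0) {ι : Type*} (S : Finset ι)
    (f : ι → A) (h : ∀ i ∈ S, f i ≠ 0 → 2 ≤ o (algebraMap A L (f i))) :
    (∑ i ∈ S, f i) ≠ 0 → 2 ≤ o (algebraMap A L (∑ i ∈ S, f i)) := by
  classical
  induction S using Finset.induction_on with
  | empty =>
    intro h0
    exact absurd Finset.sum_empty h0
  | insert a S ha ih =>
    rw [Finset.sum_insert ha]
    intro h0
    have ih' := ih fun i hi => h i (Finset.mem_insert_of_mem hi)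
    have ha' := h a (Finset.mem_insert_self a S)
    by_cases h1 : f a = 0
    · rw [h1, zero_add] at h0 ⊢
      exact ih' h0
    by_cases h2 : ∑ i ∈ S, f i = 0
    · rw [h2, add_zero]
      exact ha' h1
    have h3 := ho.add _ _ (hinj _ h1) (hinj _ h2) (by
      rw [← map_add]
      exact hinj _ h0)
    rw [← map_add] at h3
    exact (le_min (ha' h1) (ih' h2)).trans h3

end Ord

variable [IsDomain A] (L : Type*) [Field L] [Algebra A L] [IsFractionRing A L] [IsNoetherianRing A] [IsIntegrallyClosed A]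

private theorem dep56 (hP : Polarized 𝒜) (P : PD 𝒜) (hm : ∀ m, 1 ≤ m → ∀ a ∈ 𝒜 m, a ∈ P.1) {x y : A} (hx : x ∈ 𝒜 1)
    (hy : y ∈ 𝒜 1) (hx0 : x ≠ 0) (hy0 : y ≠ 0)
    (hxy : ordP 𝒜 L P (algebraMap A L y) ≤ ordP 𝒜 L P (algebraMap A L x)) : ∃ c : k, x = algebraMap k A c * y := by
  classical
  have ho := isOrd_ordP 𝒜 L P
  have hx1 := map_ne_zero' L hx0
  have hy1 := map_ne_zero' L hy0
  have hz : 0 ≤ ordP 𝒜 L P (algebraMap A L x / algebraMap A L y) := by
    rw [o_div56 ho hx1 hy1]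
    omega
  obtain ⟨a, b, hb, hab⟩ := ho.frac _ (div_ne_zero hx1 hy1) hz
  have hb0 : b ≠ 0 := by
    intro h
    exact hb (h ▸ P.1.zero_mem)
  have hb1 := map_ne_zero' L hb0
  rw [div_eq_div_iff hy1 hb1, ← map_mul, ← map_mul] at hab
  have h1 : x * b = y * a := by
    rw [mul_comm y a]
    exact IsFractionRing.injective A L hab
  have h2 : x * (DirectSum.decompose 𝒜 b 0 : A) = y * (DirectSum.decompose 𝒜 a 0 : A) := by
    rw [← DirectSum.coe_decompose_mul_add_of_left_mem 𝒜 hx, ← DirectSum.coe_decompose_mul_add_of_left_mem 𝒜 hy, h1]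
  obtain ⟨β, hβ⟩ := hP.zero _ (DirectSum.decompose 𝒜 b 0).2
  obtain ⟨α, hα⟩ := hP.zero _ (DirectSum.decompose 𝒜 a 0).2
  have hβ0 : β ≠ 0 := by
    intro h
    apply hb
    rw [← DirectSum.sum_support_decompose 𝒜 b]
    refine P.1.sum_mem fun i _ => ?_
    rcases Nat.eq_zero_or_pos i with h0 | h0
    · rw [h0, ← hβ, h, map_zero]
      exact P.1.zero_mem
    · exact hm i h0 _ (DirectSum.decompose 𝒜 b i).2
  rw [← hβ, ← hα] at h2
  refine ⟨β⁻¹ * α, ?_⟩
  have h3 : algebraMap k A β⁻¹ * algebraMap k A β = 1 := by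
    rw [← map_mul, inv_mul_cancel₀ hβ0, map_one]
  rw [map_mul]
  calc x = x * (algebraMap k A β⁻¹ * algebraMap k A β) := by rw [h3, mul_one]
    _ = algebraMap k A β⁻¹ * (x * algebraMap k A β) := by ring
    _ = algebraMap k A β⁻¹ * algebraMap k A α * y := by
      rw [h2]
      ring

theorem exists_not_mem (hP : Polarized 𝒜) (hbig : ∃ m, 2 ≤ finrank k (𝒜 m)) (P : PD 𝒜) : ∃ t ∈ 𝒜 1, t ∉ P.1 := by
  classical
  by_contra hcon
  push Not at hcon
  have hm : ∀ m, 1 ≤ m → ∀ a ∈ 𝒜 m, a ∈ P.1 := by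
    intro m hm a ha
    have h1 := le_pow56 𝒜 hP m ha
    obtain ⟨m', rfl⟩ := Nat.exists_eq_add_of_le hm
    rw [pow_add, pow_one] at h1
    exact Submodule.mul_induction_on h1 (fun x hx y _ => P.1.mul_mem_right y (hcon x hx))
      (fun x y hx hy => P.1.add_mem hx hy)
  have hspan : ∃ t : A, 𝒜 1 ≤ Submodule.span k {t} := by
    by_cases h0 : ∀ x ∈ 𝒜 1, x = 0
    · refine ⟨0, fun x hx => ?_⟩
      rw [h0 x hx]
      exact zero_mem _
    · push Not at h0
      obtain ⟨t, ht, ht0⟩ := h0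
      refine ⟨t, fun x hx => ?_⟩
      by_cases hx0 : x = 0
      · rw [hx0]
        exact zero_mem _
      rcases le_total (ordP 𝒜 (FractionRing A) P (algebraMap A (FractionRing A) t))
        (ordP 𝒜 (FractionRing A) P (algebraMap A (FractionRing A) x)) with h | h
      · obtain ⟨c, hc⟩ := dep56 𝒜 (FractionRing A) hP P hm hx ht hx0 ht0 h
        rw [hc, ← Algebra.smul_def]
        exact Submodule.smul_mem _ c (Submodule.mem_span_singleton_self t)
      · obtain ⟨c, hc⟩ := dep56 𝒜 (FractionRing A) hP P hm ht hx ht0 hx0 h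
        have hc0 : c ≠ 0 := by
          intro h1
          rw [h1, map_zero, zero_mul] at hc
          exact ht0 hc
        rw [← Algebra.smul_def] at hc
        have h1 : x = c⁻¹ • t := by rw [hc, smul_smul, inv_mul_cancel₀ hc0, one_smul]
        rw [h1]
        exact Submodule.smul_mem _ _ (Submodule.mem_span_singleton_self t)
  obtain ⟨t, ht⟩ := hspan
  obtain ⟨m, hm2⟩ := hbig
  have h1 : 𝒜 m ≤ Submodule.span k {t ^ m} := by
    refine (le_pow56 𝒜 hP m).trans ((pow_le_pow_left' ht m).trans ?_)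
    rw [Submodule.span_pow, Set.singleton_pow]
  have h2 : finrank k (𝒜 m) ≤ 1 := by
    refine (Submodule.finrank_mono h1).trans ((finrank_span_le_card _).trans ?_)
    simp
  omega

private theorem unif56 (P : PD 𝒜) : ∃ d, ∃ p ∈ 𝒜 d, p ≠ 0 ∧ ordP 𝒜 L P (algebraMap A L p) = 1 := by
  classical
  have ho := isOrd_ordP 𝒜 L P
  obtain ⟨u, huP, hu0, hu1⟩ := ho.unif
  by_contra hcon
  push Not at hcon
  have h1 : ∀ i ∈ DFinsupp.support (DirectSum.decompose 𝒜 u), (DirectSum.decompose 𝒜 u i : A) ≠ 0 →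
      2 ≤ ordP 𝒜 L P (algebraMap A L (DirectSum.decompose 𝒜 u i : A)) := by
    intro i _ hi
    have h2 : (DirectSum.decompose 𝒜 u i : A) ∈ P.1 := P.2.2.1 i huP
    have h3 := (ho.mem _ hi).2 h2
    have h4 := hcon i _ (DirectSum.decompose 𝒜 u i).2 hi
    omega
  have h2 := sum56 ho (fun a ha => map_ne_zero' L ha) _ _ h1
  rw [DirectSum.sum_support_decompose 𝒜 u] at h2
  have h3 := h2 hu0
  omega

omit [IsDomain A] [IsNoetherianRing A] [IsIntegrallyClosed A] in
private theorem sep56 (P Q : PD 𝒜) (h : Q ≠ P) : ∃ d, ∃ a ∈ 𝒜 d, a ∈ Q.1 ∧ a ∉ P.1 := by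
  classical
  by_contra hcon
  push Not at hcon
  have h1 : Q.1 ≤ P.1 := by
    intro x hx
    rw [← DirectSum.sum_support_decompose 𝒜 x]
    exact P.1.sum_mem fun i _ => hcon i _ (DirectSum.decompose 𝒜 x i).2 (Q.2.2.1 i hx)
  rcases h1.lt_or_eq with h2 | h2
  · have i1 : Q.1.IsPrime := Q.2.1
    have i2 : P.1.IsPrime := P.2.1
    have h3 := Ideal.height_add_one_le_of_lt_of_isPrime h2
    rw [Q.2.2.2, P.2.2.2] at h3
    exact absurd h3 (by norm_num)
  · exact h (Subtype.ext h2)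

private theorem prod56 (P : PD 𝒜) (S : Finset (PD 𝒜)) (e : PD 𝒜 → ℕ) (hS : P ∉ S) :
    ∃ d, ∃ W ∈ 𝒜 d, W ∉ P.1 ∧ ∀ Q ∈ S, (e Q : ℤ) ≤ ordP 𝒜 L Q (algebraMap A L W) := by
  classical
  induction S using Finset.induction_on with
  | empty =>
    refine ⟨0, 1, SetLike.GradedOne.one_mem, ?_, fun Q hQ => absurd hQ (Finset.notMem_empty Q)⟩
    exact (Ideal.ne_top_iff_one _).1 P.2.1.ne_top
  | insert Q S hQ ih =>
    rw [Finset.mem_insert, not_or] at hS
    obtain ⟨d, W, hWd, hWP, hW⟩ := ih hS.2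
    obtain ⟨d', a, had, haQ, haP⟩ := sep56 𝒜 P Q (fun h => hS.1 h.symm)
    have hW0 : W ≠ 0 := by
      intro h
      exact hWP (h ▸ P.1.zero_mem)
    have ha0 : a ≠ 0 := by
      intro h
      exact haP (h ▸ P.1.zero_mem)
    have hpr : P.1.IsPrime := P.2.1
    refine ⟨e Q • d' + d, a ^ e Q * W, SetLike.mul_mem_graded (SetLike.pow_mem_graded _ had) hWd, ?_, ?_⟩
    · intro h
      rcases hpr.mem_or_mem h with h1 | h1
      · exact haP (hpr.mem_of_pow_mem _ h1)
      · exact hWP h1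
    · intro R hR
      have hoR := isOrd_ordP 𝒜 L R
      rw [map_mul, map_pow, hoR.mul _ _ (pow_ne_zero _ (map_ne_zero' L ha0)) (map_ne_zero' L hW0),
        o_pow56 hoR (map_ne_zero' L ha0)]
      have h3 := hoR.nonneg a ha0
      have h4 := hoR.nonneg W hW0
      rcases Finset.mem_insert.1 hR with rfl | hR'
      · have h5 := (hoR.mem a ha0).2 haQ
        have h6 : (e R : ℤ) * 1 ≤ (e R : ℤ) * ordP 𝒜 L R (algebraMap A L a) :=
          mul_le_mul_of_nonneg_left h5 (Nat.cast_nonneg _)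
        linarith
      · have h5 := hW R hR'
        have h6 : 0 ≤ (e Q : ℤ) * ordP 𝒜 L R (algebraMap A L a) := mul_nonneg (Nat.cast_nonneg _) h3
        linarith

theorem exists_hom (hP : Polarized 𝒜) (hbig : ∃ m, 2 ≤ finrank k (𝒜 m)) (C : PD 𝒜 →₀ ℤ) (P : PD 𝒜) :
    ∃ (s r : ℕ) (a b : A), a ∈ 𝒜 (s + r) ∧ b ∈ 𝒜 r ∧ a ≠ 0 ∧ b ≠ 0 ∧
      (∀ Q, C Q ≤ ordP 𝒜 L Q (algebraMap A L a / algebraMap A L b)) ∧
      ordP 𝒜 L P (algebraMap A L a / algebraMap A L b) = C P := by
  classical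
  obtain ⟨t, ht, htP⟩ := exists_not_mem 𝒜 hP hbig P
  obtain ⟨dp, p, hpd, hp0, hp1⟩ := unif56 𝒜 L P
  have ht0 : t ≠ 0 := by
    intro h
    exact htP (h ▸ P.1.zero_mem)
  obtain ⟨c, hc⟩ : ∃ c : ℕ, c = (-C P).toNat := ⟨_, rfl⟩
  obtain ⟨n, hn⟩ : ∃ n : ℕ, n = (C P).toNat := ⟨_, rfl⟩
  have hnc : (n : ℤ) - c = C P := by
    rw [hn, hc]
    omega
  obtain ⟨S, hSd⟩ : ∃ S, S = (C.support ∪ (fin_char 𝒜 L (map_ne_zero' L hp0)).toFinset).erase P := ⟨_, rfl⟩
  obtain ⟨dW, W, hWd, hWP, hW⟩ := prod56 𝒜 L P S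
    (fun Q => c * (ordP 𝒜 L Q (algebraMap A L p)).toNat + (C Q).toNat) (by rw [hSd]; exact Finset.notMem_erase P _)
  have hW0 : W ≠ 0 := by
    intro h
    exact hWP (h ▸ P.1.zero_mem)
  have ha0 : p ^ n * W * t ^ (c * dp) ≠ 0 := mul_ne_zero (mul_ne_zero (pow_ne_zero _ hp0) hW0) (pow_ne_zero _ ht0)
  have hb0 : p ^ c ≠ 0 := pow_ne_zero _ hp0
  have hord : ∀ Q : PD 𝒜, ordP 𝒜 L Q (algebraMap A L (p ^ n * W * t ^ (c * dp)) / algebraMap A L (p ^ c)) =
      n * ordP 𝒜 L Q (algebraMap A L p) + ordP 𝒜 L Q (algebraMap A L W) +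
        (c * dp : ℕ) * ordP 𝒜 L Q (algebraMap A L t) - c * ordP 𝒜 L Q (algebraMap A L p) := by
    intro Q
    have ho := isOrd_ordP 𝒜 L Q
    have e1 := map_ne_zero' L hp0
    have e2 := map_ne_zero' L hW0
    have e3 := map_ne_zero' L ht0
    rw [o_div56 ho (map_ne_zero' L ha0) (map_ne_zero' L hb0), map_mul, map_mul, map_pow, map_pow, map_pow,
      ho.mul _ _ (mul_ne_zero (pow_ne_zero _ e1) e2) (pow_ne_zero _ e3), ho.mul _ _ (pow_ne_zero _ e1) e2,
      o_pow56 ho e1, o_pow56 ho e1, o_pow56 ho e3]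
  have hoP : ordP 𝒜 L P (algebraMap A L (p ^ n * W * t ^ (c * dp)) / algebraMap A L (p ^ c)) = C P := by
    have ho := isOrd_ordP 𝒜 L P
    rw [hord, hp1, o_zero56 ho hW0 hWP, o_zero56 ho ht0 htP, ← hnc]
    ring
  refine ⟨n * dp + dW, c * dp, p ^ n * W * t ^ (c * dp), p ^ c, ?_, ?_, ha0, hb0, ?_, hoP⟩
  · refine SetLike.mul_mem_graded (SetLike.mul_mem_graded ?_ hWd) ?_
    · have := SetLike.pow_mem_graded n hpd
      rwa [smul_eq_mul] at this
    · have := SetLike.pow_mem_graded (c * dp) ht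
      rwa [smul_eq_mul, mul_one] at this
  · have := SetLike.pow_mem_graded c hpd
    rwa [smul_eq_mul] at this
  · intro Q
    by_cases hQP : Q = P
    · rw [hQP, hoP]
    have ho := isOrd_ordP 𝒜 L Q
    rw [hord]
    have h1 := ho.nonneg p hp0
    have h2 := ho.nonneg W hW0
    have h3 := ho.nonneg t ht0
    have h4 : 0 ≤ (n : ℤ) * ordP 𝒜 L Q (algebraMap A L p) := mul_nonneg (Nat.cast_nonneg _) h1
    have h5 : 0 ≤ ((c * dp : ℕ) : ℤ) * ordP 𝒜 L Q (algebraMap A L t) := mul_nonneg (Nat.cast_nonneg _) h3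
    by_cases hQS : Q ∈ S
    · have h6 := hW Q hQS
      push_cast at h6
      rw [Int.toNat_of_nonneg h1] at h6
      have h7 : C Q ≤ ((C Q).toNat : ℤ) := Int.self_le_toNat _
      linarith
    · have h6 : Q ∉ C.support ∪ (fin_char 𝒜 L (map_ne_zero' L hp0)).toFinset := by
        intro h
        exact hQS (hSd ▸ Finset.mem_erase.2 ⟨hQP, h⟩)
      rw [Finset.mem_union, not_or, Finsupp.mem_support_iff, not_not, Set.Finite.mem_toFinset] at h6
      obtain ⟨h7, h8⟩ := h6
      have h9 : ordP 𝒜 L Q (algebraMap A L p) = 0 := by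
        by_contra h10
        exact h8 h10
      rw [h7, h9]
      linarith

end Pool.Agent.Helper41.TU
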