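import Pool.Agent.Helper41.TU.Gr1
import Pool.Agent.Helper41.TU.Defs

/-!
# Project TU: homogeneous coordinate rings

`A` is a graded domain over the field `k`, `L` its fraction field. `funField 𝒜 L` is the function field of `Proj A`: the quotients of
homogeneous elements of the same degree. `PD 𝒜` is the set of the prime divisors of `Proj A`, the homogeneous primes of height one.
-/

set_option autoImplicit false

namespace Pool.Agent.Helper41.TU

variable {k A : Type*} [Field k] [CommRing A] [Algebra k A] (𝒜 : ℕ → Submodule k A) [GradedAlgebra 𝒜]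

/-- `A` is generated over `A_0 = k` by the finite dimensional space `A_1`. -/
structure Polarized : Prop where
  zero : ∀ a ∈ 𝒜 0, ∃ c : k, algebraMap k A c = a
  gen : Algebra.adjoin k (𝒜 1 : Set A) = ⊤
  fin : FiniteDimensional k (𝒜 1)

/-- The homogeneous prime ideals of height one. -/
def PD : Type _ := {P : Ideal A // P.IsPrime ∧ P.IsHomogeneous 𝒜 ∧ P.height = 1}

variable [IsDomain A] (L : Type*) [Field L] [Algebra A L] [IsFractionRing A L]

theorem map_ne_zero' {b : A} (hb : b ≠ 0) : algebraMap A L b ≠ 0 := by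
  intro h0
  exact hb ((IsFractionRing.injective A L) (h0.trans (map_zero _).symm))

section

variable [IsNoetherianRing A] [IsIntegrallyClosed A]

/-- The order along a prime divisor. -/
noncomputable def ordP (P : PD 𝒜) : L → ℤ :=
  haveI : P.1.IsPrime := P.2.1
  Classical.choose (exists_isOrd (L := L) P.1 P.2.2.2)

theorem isOrd_ordP (P : PD 𝒜) : IsOrd L P.1 (ordP 𝒜 L P) :=
  haveI : P.1.IsPrime := P.2.1
  Classical.choose_spec (exists_isOrd (L := L) P.1 P.2.2.2)

end

variable [Algebra k L] [IsScalarTower k A L]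

/-- The function field of `Proj A`. -/
def funField : IntermediateField k L where
  carrier := {x | ∃ (m : ℕ) (a b : A), a ∈ 𝒜 m ∧ b ∈ 𝒜 m ∧ b ≠ 0 ∧ x = algebraMap A L a / algebraMap A L b}
  mul_mem' := by
    rintro x y ⟨m, a, b, ha, hb, hb0, rfl⟩ ⟨m', a', b', ha', hb', hb0', rfl⟩
    refine ⟨m + m', a * a', b * b', SetLike.mul_mem_graded ha ha', SetLike.mul_mem_graded hb hb', mul_ne_zero hb0 hb0', ?_⟩
    rw [map_mul, map_mul, div_mul_div_comm]
  add_mem' := by
    rintro x y ⟨m, a, b, ha, hb, hb0, rfl⟩ ⟨m', a', b', ha', hb', hb0', rfl⟩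
    refine ⟨m + m', a * b' + b * a', b * b', (𝒜 (m + m')).add_mem (SetLike.mul_mem_graded ha hb') (SetLike.mul_mem_graded hb ha'),
      SetLike.mul_mem_graded hb hb', mul_ne_zero hb0 hb0', ?_⟩
    rw [map_mul, map_add, map_mul, map_mul, div_add_div _ _ (map_ne_zero' L hb0) (map_ne_zero' L hb0')]
  algebraMap_mem' := by
    intro c
    refine ⟨0, algebraMap k A c, 1, SetLike.algebraMap_mem_graded 𝒜 c, SetLike.GradedOne.one_mem, one_ne_zero, ?_⟩
    rw [map_one, div_one, IsScalarTower.algebraMap_apply k A L]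
  inv_mem' := by
    rintro x ⟨m, a, b, ha, hb, hb0, rfl⟩
    by_cases ha0 : a = 0
    · subst ha0
      refine ⟨m, 0, b, ha, hb, hb0, ?_⟩
      rw [map_zero, zero_div, inv_zero]
    · exact ⟨m, b, a, hb, ha, ha0, by rw [inv_div]⟩

theorem mem_funField {x : L} : x ∈ funField 𝒜 L ↔
    ∃ (m : ℕ) (a b : A), a ∈ 𝒜 m ∧ b ∈ 𝒜 m ∧ b ≠ 0 ∧ x = algebraMap A L a / algebraMap A L b := Iff.rfl

variable [IsNoetherianRing A] [IsIntegrallyClosed A]

/-- The orders of the elements of the function field. -/
noncomputable def ordK (P : PD 𝒜) (x : funField 𝒜 L) : ℤ := ordP 𝒜 L P (x : L)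

end Pool.Agent.Helper41.TU
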