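import Pool.Agent.Helper41.TU.Pm

/-!
# Block TU-KW: if `{l} = 0` then the Pfister form is metabolic (`u ≤ 2 ^ n`)

`-1` is a square, `2 ≠ 0`, `u(F) ≤ 2^n`. For a finite family `L : Fin m → (Fin n → Fˣ)` let `ψ(L)` be the form with coefficients `pf (L i) S`, `(i, S) : Fin m × Finset (Fin n)`.
Let `N` = the set of the `x : (Fin n → Fˣ) →₀ ZMod 2` such that `ψ` of an enumeration of the support of `x` is metabolic. By `metab_cancel`, `metab_double`, `metab_sum`, `metab_equiv`: for all
families `L`, `∑ i, single (L i) 1 ∈ N` if and only if `ψ(L)` is metabolic (remove pairs of equal members). So `N` is closed under addition, a submodule over `ZMod 2`.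
It contains the relations: STEINBERG: `l i + l j = 1`: `pf l` is isotropic: take `x_∅ = ι`, `ι^2 = -1`, `x_{i} = x_{j} = 1`, the other `x_S = 0`: `-1 + l i + l j = 0`; `pfister_metab`.
MULTIPLICATIVITY: for `l_{ab}, l_a, l_b` (`update l i (a b)` etc.): the form `pf l_{ab} ⊥ pf l_a ⊥ pf l_b` is, with `θ` = the form of the coefficients `pf l S`, `i ∉ S`:
`θ ⊗ ⟨1, ab, 1, a, 1, b⟩ = θ ⊗ ⟨1, 1⟩ ⊥ θ ⊗ ⟨1, a, b, ab⟩`, the first metabolic (`metab_double`), the second is `pf` of the `(n + 1)`-tuple consisting of `a`, `b` and the `l j`, `j ≠ i`, of dimension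
`2^(n+1) > 2^n`, so isotropic (`hu`, reindexed by `Fin`), so metabolic by `pfister_metab`.
So the span of the relations is contained in `N`, and `sym l = 0` means that `single l 1` is in this span.
-/

set_option autoImplicit false

namespace Pool.Agent.Helper41.TU

variable {F : Type*} [Field F] {n : ℕ}

open Finset in
private theorem pf_update_notMem_h99 (l : Fin n → Fˣ) (i : Fin n) (c : Fˣ) {S : Finset (Fin n)}
    (h : i ∉ S) : pf (Function.update l i c) S = pf l S := by
  unfold pf
  refine Finset.prod_congr rfl fun j hj => ?_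
  have hji : j ≠ i := fun e => h (e ▸ hj)
  rw [Function.update_of_ne hji]

private theorem pf_update_mem_h99 (l : Fin n → Fˣ) (i : Fin n) (c : Fˣ) {S : Finset (Fin n)}
    (h : i ∈ S) : pf (Function.update l i c) S = c * pf l (S.erase i) := by
  unfold pf
  rw [← Finset.mul_prod_erase S _ h, Function.update_self]
  congr 1
  refine Finset.prod_congr rfl fun j hj => ?_
  rw [Function.update_of_ne (Finset.ne_of_mem_erase hj)]

private theorem pf_ne_zero_h99 (l : Fin n → Fˣ) (S : Finset (Fin n)) : pf l S ≠ 0 := by
  unfold pf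
  exact Finset.prod_ne_zero_iff.2 fun j _ => (l j).ne_zero

/-- the form of a family of symbols -/
private def psi_h99 {ι : Type} (L : ι → (Fin n → Fˣ)) : ι × Finset (Fin n) → F :=
  fun p => pf (L p.1) p.2

private theorem metab_of_isEmpty_h99 {J : Type*} [Fintype J] [IsEmpty J] (f : J → F) :
    Metab f := by
  refine ⟨⊥, ?_, ?_⟩
  · rw [Nat.card_of_isEmpty]
    exact Nat.zero_le _
  · intro w _
    rw [Finset.univ_eq_empty, Finset.sum_empty]

private def optProd_h99 (ι T : Type) : T ⊕ (ι × T) ≃ Option ι × T where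
  toFun := Sum.elim (fun t => (none, t)) (fun p => (some p.1, p.2))
  invFun := fun p => match p with
    | (none, t) => Sum.inl t
    | (some i, t) => Sum.inr (i, t)
  left_inv := by
    rintro (t | ⟨i, t⟩) <;> rfl
  right_inv := by
    rintro ⟨_ | i, t⟩ <;> rfl

private theorem psi_option_h99 {ι : Type} [Fintype ι] (L : Option ι → (Fin n → Fˣ)) :
    Metab (psi_h99 L) ↔ Metab (Sum.elim (pf (L none)) (psi_h99 fun i => L (some i))) := by
  have h1 : psi_h99 L ∘ optProd_h99 ι (Finset (Fin n)) =
      Sum.elim (pf (L none)) (psi_h99 fun i => L (some i)) := by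
    funext p
    rcases p with t | ⟨i, t⟩ <;> rfl
  constructor
  · intro h
    rw [← h1]
    exact metab_equiv _ h
  · intro h
    rw [← h1] at h
    have h2 := metab_equiv (optProd_h99 ι (Finset (Fin n))).symm h
    rwa [Function.comp_assoc, Equiv.self_comp_symm, Function.comp_id] at h2

private theorem psi_equiv_h99 {ι κ : Type} [Fintype ι] [Fintype κ] (e : ι ≃ κ)
    (L : κ → (Fin n → Fˣ)) (h : Metab (psi_h99 L)) : Metab (psi_h99 (L ∘ e)) :=
  metab_equiv (Equiv.prodCongr e (Equiv.refl (Finset (Fin n)))) h

private theorem even_fin_h99 (hi : IsSquare (-1 : F)) : ∀ (m : ℕ) (L : Fin m → (Fin n → Fˣ)),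
    ∑ i, Finsupp.single (L i) (1 : ZMod 2) = 0 → Metab (psi_h99 L) := by
  classical
  intro m
  induction m using Nat.strong_induction_on with
  | _ m ih =>
    intro L hL
    rcases m with _ | _ | m
    · exact metab_of_isEmpty_h99 _
    · exfalso
      rw [Fin.sum_univ_one, Finsupp.single_eq_zero] at hL
      exact one_ne_zero hL
    · obtain ⟨i1, hi0, hi1⟩ : ∃ i1 : Fin (m + 2), i1 ≠ 0 ∧ L i1 = L 0 := by
        by_contra hcon
        push Not at hcon
        have h1 := DFunLike.congr_fun hL (L 0)
        rw [Finsupp.finsetSum_apply, Finset.sum_eq_single 0, Finsupp.single_eq_same,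
          Finsupp.zero_apply] at h1
        · exact one_ne_zero h1
        · intro b _ hb
          exact Finsupp.single_eq_of_ne (hcon b hb).symm
        · intro h
          exact absurd (Finset.mem_univ _) h
      set σ : Equiv.Perm (Fin (m + 2)) := Equiv.swap 1 i1 with hσ
      have h10 : (0 : Fin (m + 2)) ≠ 1 := Fin.zero_ne_one
      have hσ0 : σ 0 = 0 := Equiv.swap_apply_of_ne_of_ne h10 hi0.symm
      have hσ1 : σ 1 = i1 := Equiv.swap_apply_left 1 i1
      have hs : ∑ i, Finsupp.single ((L ∘ σ) i) (1 : ZMod 2) = 0 := by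
        rw [← hL]
        exact Equiv.sum_comp σ (fun i => Finsupp.single (L i) (1 : ZMod 2))
      have hs2 : ∑ i : Fin m, Finsupp.single ((L ∘ σ) i.succ.succ) (1 : ZMod 2) = 0 := by
        rw [Fin.sum_univ_succ, Fin.sum_univ_succ] at hs
        have h1 : (L ∘ σ) 0 = L 0 := by
          simp only [Function.comp_apply, hσ0]
        have h2 : (L ∘ σ) (Fin.succ 0) = L 0 := by
          have h3 : (Fin.succ 0 : Fin (m + 2)) = 1 := rfl
          rw [h3, Function.comp_apply, hσ1, hi1]
        rw [h1, h2, ← add_assoc, ← Finsupp.single_add] at hs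
        have h4 : (1 + 1 : ZMod 2) = 0 := by decide
        rwa [h4, Finsupp.single_zero, zero_add] at hs
      have h5 := ih m (by omega) (fun i => (L ∘ σ) i.succ.succ) hs2
      have h6 : Metab (Sum.elim (Sum.elim (pf (L 0)) (pf (L 0)))
          (psi_h99 fun i : Fin m => (L ∘ σ) i.succ.succ)) :=
        metab_sum (metab_double hi _) h5
      have h7 : Metab (Sum.elim (pf (L 0)) (Sum.elim (pf (L 0))
          (psi_h99 fun i : Fin m => (L ∘ σ) i.succ.succ))) := by
        have h8 := metab_equiv (Equiv.sumAssoc _ _ _).symm h6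
        refine cast ?_ h8
        congr 1
        funext p
        rcases p with p | p | p <;> rfl
      set L2 : Option (Option (Fin m)) → (Fin n → Fˣ) := fun o =>
        match o with
        | none => L 0
        | some none => L 0
        | some (some i) => (L ∘ σ) i.succ.succ with hL2
      have h8 : Metab (psi_h99 L2) := by
        rw [psi_option_h99]
        have h8 := metab_equiv (Equiv.sumCongr (Equiv.refl (Finset (Fin n)))
          (optProd_h99 (Fin m) (Finset (Fin n))).symm) h7
        refine cast ?_ h8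
        congr 1
        funext p
        rcases p with p | ⟨_ | i, p⟩ <;> rfl
      set e2 : Fin (m + 2) ≃ Option (Option (Fin m)) :=
        (finSuccEquiv (m + 1)).trans (Equiv.optionCongr (finSuccEquiv m)) with he2
      have h9 : L2 ∘ e2 = L ∘ σ := by
        funext i
        refine Fin.cases ?_ (fun j => ?_) i
        · have h1 : e2 0 = none := by
            simp [he2]
          rw [Function.comp_apply, h1, Function.comp_apply, hσ0]
        · refine Fin.cases ?_ (fun j => ?_) j
          · have h1 : e2 (Fin.succ 0) = some none := by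
              simp [he2, finSuccEquiv_succ]
            have h3 : (Fin.succ 0 : Fin (m + 2)) = 1 := rfl
            rw [Function.comp_apply, h1, h3, Function.comp_apply, hσ1, hi1]
          · have h1 : e2 j.succ.succ = some (some j) := by
              simp [he2, finSuccEquiv_succ]
            rw [Function.comp_apply, h1]
      have h11 := psi_equiv_h99 e2 L2 h8
      rw [h9] at h11
      have h12 := psi_equiv_h99 σ.symm (L ∘ σ) h11
      rwa [Function.comp_assoc, Equiv.self_comp_symm, Function.comp_id] at h12

private theorem even_h99 (hi : IsSquare (-1 : F)) {ι : Type} [Fintype ι]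
    (L : ι → (Fin n → Fˣ)) (hL : ∑ i, Finsupp.single (L i) (1 : ZMod 2) = 0) :
    Metab (psi_h99 L) := by
  have e := Fintype.equivFin ι
  have h1 := even_fin_h99 hi _ (L ∘ e.symm) (by
    rw [← hL]
    exact Equiv.sum_comp e.symm (fun i => Finsupp.single (L i) (1 : ZMod 2)))
  have h2 := psi_equiv_h99 e (L ∘ e.symm) h1
  rwa [Function.comp_assoc, Equiv.symm_comp_self, Function.comp_id] at h2

/-- the submodule of the sums of families with metabolic form -/
private def Nn_h99 (F : Type*) [Field F] (n : ℕ) :
    Submodule (ZMod 2) ((Fin n → Fˣ) →₀ ZMod 2) where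
  carrier := {x | ∃ (ι : Type) (_ : Fintype ι) (L : ι → (Fin n → Fˣ)),
    x = ∑ i, Finsupp.single (L i) (1 : ZMod 2) ∧ Metab (psi_h99 L)}
  add_mem' := by
    rintro x y ⟨ι, _, L, rfl, hL⟩ ⟨κ, _, K, rfl, hK⟩
    refine ⟨ι ⊕ κ, inferInstance, Sum.elim L K, ?_, ?_⟩
    · rw [Fintype.sum_sum_type]
      rfl
    · have h1 := metab_equiv (Equiv.sumProdDistrib ι κ (Finset (Fin n))) (metab_sum hL hK)
      refine cast ?_ h1
      congr 1
      funext p
      rcases p with ⟨i | i, p⟩ <;> rfl
  zero_mem' := ⟨Empty, inferInstance, Empty.elim, by simp, metab_of_isEmpty_h99 _⟩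
  smul_mem' := by
    intro c x hx
    have h1 : c = 0 ∨ c = 1 := by
      revert c
      decide
    rcases h1 with rfl | rfl
    · rw [zero_smul]
      exact ⟨Empty, inferInstance, Empty.elim, by simp, metab_of_isEmpty_h99 _⟩
    · rw [one_smul]
      exact hx

private theorem psi_unit_h99 (l : Fin n → Fˣ) (h : Metab (pf l)) :
    Metab (psi_h99 (fun _ : Unit => l)) := by
  have h1 := metab_equiv (Equiv.punitProd (Finset (Fin n))) h
  refine cast ?_ h1
  congr 1

private theorem isotropic_h99 (hi : IsSquare (-1 : F)) (l : Fin n → Fˣ) {i : Fin n}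
    (h : l i = 1) : Metab (pf l) := by
  classical
  obtain ⟨u, hu⟩ := hi
  have hu0 : u ≠ 0 := by
    rintro rfl
    rw [mul_zero] at hu
    exact (neg_ne_zero.2 one_ne_zero) hu
  refine pfister_metab l (fun S => if S = ∅ then u else if S = {i} then 1 else 0) ?_ ?_
  · intro h1
    have h2 := congrFun h1 ∅
    simp only [if_true, Pi.zero_apply] at h2
    exact hu0 h2
  · rw [Finset.sum_eq_add (∅ : Finset (Fin n)) {i} (Finset.singleton_ne_empty i).symm]
    · have hne : ({i} : Finset (Fin n)) ≠ ∅ := Finset.singleton_ne_empty i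
      simp only [if_true, if_neg hne, pf, Finset.prod_empty, Finset.prod_singleton, h,
        Units.val_one, one_mul, one_pow]
      rw [pow_two, ← hu]
      ring
    · rintro S _ ⟨h1, h2⟩
      rw [if_neg h1, if_neg h2]
      ring
    · intro h1
      exact absurd (Finset.mem_univ _) h1
    · intro h1
      exact absurd (Finset.mem_univ _) h1

private theorem steinberg_h99 (hi : IsSquare (-1 : F)) (l : Fin n → Fˣ) {i j : Fin n}
    (hij : i ≠ j) (h : (l i : F) + l j = 1) : Metab (pf l) := by
  classical
  obtain ⟨u, hu⟩ := hi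
  refine pfister_metab l
    (fun S => if S = ∅ then u else if S = {i} then 1 else if S = {j} then 1 else 0) ?_ ?_
  · intro h1
    have h2 := congrFun h1 {i}
    simp at h2
  · have hi0 : ({i} : Finset (Fin n)) ≠ ∅ := Finset.singleton_ne_empty i
    have hj0 : ({j} : Finset (Fin n)) ≠ ∅ := Finset.singleton_ne_empty j
    have hij' : ({j} : Finset (Fin n)) ≠ {i} := fun h => hij (Finset.singleton_injective h).symm
    rw [← Finset.sum_subset (Finset.subset_univ ({∅, {i}, {j}} : Finset (Finset (Fin n))))]
    · rw [Finset.sum_insert, Finset.sum_insert, Finset.sum_singleton]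
      · simp only [if_true, if_neg hi0, if_neg hj0, if_neg hij', pf, Finset.prod_empty,
          Finset.prod_singleton, one_pow, mul_one]
        rw [pow_two, ← hu, h]
        ring
      · rw [Finset.mem_singleton]
        exact hij'.symm
      · rw [Finset.mem_insert, Finset.mem_singleton]
        rintro (h1 | h1)
        · exact hi0 h1.symm
        · exact hj0 h1.symm
    · intro S _ hS
      simp only [Finset.mem_insert, Finset.mem_singleton, not_or] at hS
      rw [if_neg hS.1, if_neg hS.2.1, if_neg hS.2.2]
      ring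

/-- subsets of `Fin (n + 1)` -/
private def succSub_h99 (n : ℕ) :
    Finset (Fin n) ⊕ Finset (Fin n) → Finset (Fin (n + 1)) :=
  Sum.elim (fun S => S.map (Fin.succEmb n)) (fun S => insert 0 (S.map (Fin.succEmb n)))

private theorem succSub_bij_h99 (n : ℕ) : Function.Bijective (succSub_h99 n) := by
  classical
  rw [Fintype.bijective_iff_injective_and_card]
  constructor
  · have h0 : ∀ S : Finset (Fin n), (0 : Fin (n + 1)) ∉ S.map (Fin.succEmb n) := by
      intro S hS
      rw [Finset.mem_map] at hS
      obtain ⟨a, _, ha⟩ := hS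
      exact Fin.succ_ne_zero a ha
    rintro (S | S) (S' | S') h
    · exact congrArg Sum.inl (Finset.map_injective _ h)
    · exfalso
      refine h0 S ?_
      have h' : S.map (Fin.succEmb n) = insert 0 (S'.map (Fin.succEmb n)) := h
      rw [h']
      exact Finset.mem_insert_self _ _
    · exfalso
      refine h0 S' ?_
      have h' : insert 0 (S.map (Fin.succEmb n)) = S'.map (Fin.succEmb n) := h
      rw [← h']
      exact Finset.mem_insert_self _ _
    · have h' : insert 0 (S.map (Fin.succEmb n)) = insert 0 (S'.map (Fin.succEmb n)) := h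
      have h2 := congrArg (fun A => Finset.erase A 0) h'
      simp only [Finset.erase_insert (h0 S), Finset.erase_insert (h0 S')] at h2
      exact congrArg Sum.inr (Finset.map_injective _ h2)
  · rw [Fintype.card_sum, Fintype.card_finset, Fintype.card_finset, Fintype.card_fin,
      Fintype.card_fin, pow_succ]
    ring

private theorem pf_cons_h99 (b : Fˣ) (l : Fin n → Fˣ) :
    pf (Fin.cons b l : Fin (n + 1) → Fˣ) ∘ succSub_h99 n =
      Sum.elim (pf l) (fun S => b * pf l S) := by
  classical
  have h0 : ∀ S : Finset (Fin n), (0 : Fin (n + 1)) ∉ S.map (Fin.succEmb n) := by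
    intro S hS
    rw [Finset.mem_map] at hS
    obtain ⟨a, _, ha⟩ := hS
    exact Fin.succ_ne_zero a ha
  have h1 : ∀ S : Finset (Fin n), ∏ j ∈ S.map (Fin.succEmb n),
      (((Fin.cons b l : Fin (n + 1) → Fˣ) j : Fˣ) : F) = pf l S := by
    intro S
    rw [Finset.prod_map]
    unfold pf
    refine Finset.prod_congr rfl fun j _ => ?_
    rw [Fin.coe_succEmb, Fin.cons_succ]
  funext S
  rcases S with S | S
  · exact h1 S
  · have h2 : pf (Fin.cons b l : Fin (n + 1) → Fˣ) (insert 0 (S.map (Fin.succEmb n))) =
        b * pf l S := by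
      rw [pf, Finset.prod_insert (h0 S), h1, Fin.cons_zero]
    exact h2

private theorem big_h99 (hu : ULe F (2 ^ n)) (b : Fˣ) (l : Fin n → Fˣ) :
    Metab (Sum.elim (pf l) (fun S => (b : F) * pf l S)) := by
  have hM : Metab (pf (Fin.cons b l : Fin (n + 1) → Fˣ)) := by
    have hcard : Fintype.card (Finset (Fin (n + 1))) = 2 ^ (n + 1) := by
      rw [Fintype.card_finset, Fintype.card_fin]
    have e : Fin (2 ^ (n + 1)) ≃ Finset (Fin (n + 1)) := (Fintype.equivFinOfCardEq hcard).symm
    obtain ⟨x, hx, hx2⟩ := hu (2 ^ (n + 1)) (pf (Fin.cons b l : Fin (n + 1) → Fˣ) ∘ e)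
      (Nat.pow_lt_pow_right (by norm_num) (Nat.lt_succ_self n))
    refine pfister_metab _ (x ∘ e.symm) ?_ ?_
    · intro h
      refine hx ?_
      funext j
      have h1 := congrFun h (e j)
      rwa [Function.comp_apply, Equiv.symm_apply_apply] at h1
    · rw [← Equiv.sum_comp e, ← hx2]
      refine Finset.sum_congr rfl fun j _ => ?_
      rw [Function.comp_apply, Function.comp_apply, Equiv.symm_apply_apply]
  have h1 := metab_equiv (Equiv.ofBijective _ (succSub_bij_h99 n)) hM
  rw [Equiv.coe_ofBijective, pf_cons_h99] at h1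
  exact h1

private def swp_h99 (i : Fin n) :
    Finset (Fin n) ⊕ Finset (Fin n) ≃ Finset (Fin n) ⊕ Finset (Fin n) where
  toFun := Sum.elim (fun S => if i ∈ S then Sum.inr S else Sum.inl S)
    (fun S => if i ∈ S then Sum.inr (S.erase i) else Sum.inl (insert i S))
  invFun := Sum.elim (fun S => if i ∈ S then Sum.inr (S.erase i) else Sum.inl S)
    (fun S => if i ∈ S then Sum.inl S else Sum.inr (insert i S))
  left_inv := by
    rintro (S | S)
    · by_cases h : i ∈ S
      · simp [h]
      · simp [h]
    · by_cases h : i ∈ S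
      · simp [h]
      · simp [h]
  right_inv := by
    rintro (S | S)
    · by_cases h : i ∈ S
      · simp [h]
      · simp [h]
    · by_cases h : i ∈ S
      · simp [h]
      · simp [h]

private theorem mult_h99 (hi : IsSquare (-1 : F)) (hu : ULe F (2 ^ n)) (l : Fin n → Fˣ)
    (i : Fin n) (a b : Fˣ) :
    Metab (Sum.elim (Sum.elim (pf (Function.update l i (a * b))) (pf (Function.update l i b)))
      (pf (Function.update l i a))) := by
  have h1 : Metab (pf (Function.update l i 1)) :=
    isotropic_h99 hi _ (i := i) (Function.update_self i 1 l)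
  have h2 := big_h99 hu b (Function.update l i a)
  have h3 := metab_sum h1 h2
  -- reorder: (1, (a, b a)) to ((1, b a), a)
  have h4 := metab_equiv ((Equiv.sumCongr (Equiv.refl _) (Equiv.sumComm _ _)).trans
    (Equiv.sumAssoc (Finset (Fin n)) (Finset (Fin n)) (Finset (Fin n))).symm).symm h3
  have h5 := metab_equiv (Equiv.sumCongr (swp_h99 i) (Equiv.refl (Finset (Fin n)))) h4
  refine cast ?_ h5
  congr 1
  funext p
  rcases p with (S | S) | S
  · by_cases h : i ∈ S
    · simp [swp_h99, h, pf_update_mem_h99, mul_assoc, mul_left_comm]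
    · simp [swp_h99, h, pf_update_notMem_h99]
  · by_cases h : i ∈ S
    · simp [swp_h99, h, pf_update_mem_h99, pf_update_notMem_h99]
    · simp [swp_h99, h, pf_update_mem_h99, pf_update_notMem_h99]
  · simp

private def tri_h99 (T : Type) : (T ⊕ T) ⊕ T ≃ Option (Option Unit) × T where
  toFun := Sum.elim (Sum.elim (fun t => (none, t)) (fun t => (some none, t)))
    (fun t => (some (some ()), t))
  invFun := fun p => match p with
    | (none, t) => Sum.inl (Sum.inl t)
    | (some none, t) => Sum.inl (Sum.inr t)
    | (some (some _), t) => Sum.inr t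
  left_inv := by
    rintro ((t | t) | t) <;> rfl
  right_inv := by
    rintro ⟨_ | _ | ⟨⟩, t⟩ <;> rfl

private theorem psi_tri_h99 (l1 l2 l3 : Fin n → Fˣ)
    (h : Metab (Sum.elim (Sum.elim (pf l1) (pf l2)) (pf l3))) :
    ∃ (ι : Type) (_ : Fintype ι) (L : ι → (Fin n → Fˣ)),
      Finsupp.single l1 (1 : ZMod 2) + (Finsupp.single l2 1 + Finsupp.single l3 1) =
        ∑ i, Finsupp.single (L i) (1 : ZMod 2) ∧ Metab (psi_h99 L) := by
  refine ⟨Option (Option Unit), inferInstance, fun o =>
    match o with
    | none => l1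
    | some none => l2
    | some (some _) => l3, ?_, ?_⟩
  · rw [Fintype.sum_option, Fintype.sum_option, Fintype.sum_unique]
  · have h1 := metab_equiv (tri_h99 (Finset (Fin n))).symm h
    refine cast ?_ h1
    congr 1
    funext p
    rcases p with ⟨_ | _ | ⟨⟩, p⟩ <;> rfl

private theorem span_le_h99 (hi : IsSquare (-1 : F)) (hu : ULe F (2 ^ n)) :
    Submodule.span (ZMod 2) {x | KRel F n x} ≤ Nn_h99 F n := by
  rw [Submodule.span_le]
  intro x hx
  have hx' : KRel F n x := hx
  cases hx' with
  | mul l i a b =>
    have hneg : ∀ y : (Fin n → Fˣ) →₀ ZMod 2, -y = y := by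
      intro y
      ext z
      rw [Finsupp.neg_apply]
      have h1 : ∀ c : ZMod 2, -c = c := by decide
      exact h1 _
    have h1 := psi_tri_h99 _ _ _ (mult_h99 hi hu l i a b)
    have h2 : Finsupp.single (Function.update l i (a * b)) (1 : ZMod 2) -
        Finsupp.single (Function.update l i a) 1 - Finsupp.single (Function.update l i b) 1 =
        Finsupp.single (Function.update l i (a * b)) (1 : ZMod 2) +
        (Finsupp.single (Function.update l i b) 1 + Finsupp.single (Function.update l i a) 1) := by
      rw [sub_eq_add_neg, sub_eq_add_neg, hneg, hneg]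
      abel
    rw [h2]
    exact h1
  | steinberg l i j hij h =>
    refine ⟨Unit, inferInstance, fun _ => l, ?_, psi_unit_h99 l (steinberg_h99 hi l hij h)⟩
    rw [Fintype.sum_unique]

theorem metab_of_sym (hi : IsSquare (-1 : F)) (h2 : (2 : F) ≠ 0) (hu : ULe F (2 ^ n)) (l : Fin n → Fˣ) (h : sym l = 0) :
    Metab (pf l) := by
  have h1 : Finsupp.single l (1 : ZMod 2) ∈ Nn_h99 F n := by
    refine span_le_h99 hi hu ?_
    exact (Submodule.Quotient.mk_eq_zero _).1 h
  obtain ⟨ι, _, L, hL, hM⟩ := h1
  have h3 : Metab (psi_h99 (fun o : Option ι => o.elim l L)) := by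
    refine even_h99 hi _ ?_
    rw [Fintype.sum_option]
    simp only [Option.elim]
    rw [← hL, ← Finsupp.single_add]
    have h4 : (1 + 1 : ZMod 2) = 0 := by decide
    rw [h4, Finsupp.single_zero]
  rw [psi_option_h99] at h3
  exact metab_cancel h2 (pf_ne_zero_h99 l) (fun p => pf_ne_zero_h99 _ _) h3 hM

end Pool.Agent.Helper41.TU
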