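import Pool.Agent.Helper41.TU.Defs
import Pool.Agent.Helper71.SE.Zero

/-!
# Block TU-LA: linear algebra

`squeeze_lin`: `x ↦ g x` induces an injection `W / W' → U / U'` (`LinearMap.finrank_range_add_finrank_ker`,
`Submodule.finrank_quotient_add_finrank`; the kernel of `W → U ⧸ (U'.comap U.subtype)` is contained in `W'.comap W.subtype`,
`Submodule.finrank_map_subtype_eq` and similar lemmas).

`cut_lin`: `E` is the kernel of `N → ∏ l, U l ⧸ (U' l).comap (U l).subtype` (`Module.finrank_pi_fintype`).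

`zero_quad`: choose a basis `b : Fin N → E` (`Module.finBasis`), `N = finrank E`; for `c : Fin M` let
`F c = ∑ a, ∑ a', C (ℓ (∑ j, f j * b a j * b a' j) c) * X a * X a'`, a polynomial in `N > M` variables which vanishes at `0`.
`Pool.Agent.Helper71.SE.exists_common_zero` gives `t ≠ 0` with `eval t (F c) = 0` for all `c`; `x = ∑ a, t a • b a`, and
`ℓ (∑ j, f j * x j ^ 2) c = ∑ a, ∑ a', t a * t a' * ℓ (∑ j, f j * b a j * b a' j) c = eval t (F c)`.
-/

set_option autoImplicit false

namespace Pool.Agent.Helper41.TU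

open Module

variable {k K : Type*} [Field k] [Field K] [Algebra k K]

private theorem finrank_comap {U' U : Submodule k K} (hU : U' ≤ U) :
    finrank k (U'.comap U.subtype) = finrank k U' := by
  have e := Submodule.comapSubtypeEquivOfLe hU
  exact e.finrank_eq

private theorem finrank_quot {U' U : Submodule k K} (hU : U' ≤ U) [FiniteDimensional k U] :
    finrank k (U ⧸ U'.comap U.subtype) + finrank k U' = finrank k U := by
  rw [← finrank_comap hU]
  exact Submodule.finrank_quotient_add_finrank _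

theorem squeeze_lin {W' W U' U : Submodule k K} (hW : W' ≤ W) (hU : U' ≤ U) [FiniteDimensional k W]
    [FiniteDimensional k U] (g : K →ₗ[k] K) (h1 : ∀ x ∈ W, g x ∈ U) (h2 : ∀ x ∈ W, g x ∈ U' → x ∈ W') :
    finrank k W + finrank k U' ≤ finrank k W' + finrank k U := by
  let φ : W →ₗ[k] U := (g.comp W.subtype).codRestrict U fun x => h1 x x.2
  let ψ : W →ₗ[k] U ⧸ U'.comap U.subtype := (Submodule.mkQ _).comp φ
  have h3 := ψ.finrank_range_add_finrank_ker
  have h4 : finrank k (LinearMap.range ψ) ≤ finrank k (U ⧸ U'.comap U.subtype) := Submodule.finrank_le _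
  have h5 : LinearMap.ker ψ ≤ W'.comap W.subtype := by
    intro x hx
    rw [LinearMap.mem_ker] at hx
    have h6 : φ x ∈ U'.comap U.subtype := (Submodule.Quotient.mk_eq_zero _).1 hx
    exact h2 x x.2 h6
  have h6 : finrank k (LinearMap.ker ψ) ≤ finrank k (W'.comap W.subtype) := Submodule.finrank_mono h5
  rw [finrank_comap hW] at h6
  have h7 := finrank_quot hU
  omega

/-- A linear map to `k ^ M`, `M = dim U - dim U'`, whose kernel on `U` is contained in `U'`. -/
theorem exists_coord {U' U : Submodule k K} (hU : U' ≤ U) [FiniteDimensional k U] :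
    ∃ (M : ℕ) (ℓ : K →ₗ[k] (Fin M → k)), M + finrank k U' = finrank k U ∧ ∀ x ∈ U, ℓ x = 0 → x ∈ U' := by
  let Q := U ⧸ U'.comap U.subtype
  let e : Q ≃ₗ[k] (Fin (finrank k Q) → k) := (Module.finBasis k Q).equivFun
  let φ : U →ₗ[k] (Fin (finrank k Q) → k) := e.toLinearMap.comp (Submodule.mkQ _)
  obtain ⟨ℓ, hℓ⟩ := LinearMap.exists_extend φ
  refine ⟨finrank k Q, ℓ, finrank_quot hU, fun x hx h0 => ?_⟩
  have h1 : φ ⟨x, hx⟩ = 0 := by
    rw [← hℓ]
    exact h0
  have h2 : (Submodule.mkQ (U'.comap U.subtype)) ⟨x, hx⟩ = 0 := by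
    apply e.injective
    rw [map_zero]
    exact h1
  have h3 := (Submodule.Quotient.mk_eq_zero (U'.comap U.subtype)).1 h2
  exact h3

theorem cut_lin {N : Type*} [AddCommGroup N] [Module k N] [FiniteDimensional k N] {Λ : Type*} [Fintype Λ]
    (φ : Λ → N →ₗ[k] K) (U U' : Λ → Submodule k K) (hle : ∀ l, U' l ≤ U l)
    [∀ l, FiniteDimensional k (U l)] (h1 : ∀ l x, φ l x ∈ U l) (E : Submodule k N)
    (hE : ∀ x, (∀ l, φ l x ∈ U' l) → x ∈ E) :
    (finrank k N : ℤ) ≤ finrank k E + ∑ l, ((finrank k (U l) : ℤ) - finrank k (U' l)) := by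
  classical
  choose M ℓ hM hℓ using fun l => exists_coord (hle l)
  let ψ : N →ₗ[k] ((Σ l, Fin (M l)) → k) := LinearMap.pi fun p => (LinearMap.proj p.2).comp ((ℓ p.1).comp (φ p.1))
  have h3 := ψ.finrank_range_add_finrank_ker
  have h4 : finrank k (LinearMap.range ψ) ≤ finrank k ((Σ l, Fin (M l)) → k) := Submodule.finrank_le _
  rw [Module.finrank_fintype_fun_eq_card, Fintype.card_sigma] at h4
  simp only [Fintype.card_fin] at h4
  have h5 : LinearMap.ker ψ ≤ E := by
    intro x hx
    rw [LinearMap.mem_ker] at hx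
    refine hE x fun l => hℓ l _ (h1 l x) ?_
    funext i
    exact congrFun hx ⟨l, i⟩
  have h6 : finrank k (LinearMap.ker ψ) ≤ finrank k E := Submodule.finrank_mono h5
  have h7 : ∑ l, ((finrank k (U l) : ℤ) - finrank k (U' l)) = ((∑ l, M l : ℕ) : ℤ) := by
    push_cast
    refine Finset.sum_congr rfl fun l _ => ?_
    have := hM l
    omega
  rw [h7]
  omega

theorem zero_quad [IsAlgClosed k] {J : Type*} [Fintype J] (f : J → K) (E : Submodule k (J → K))
    [FiniteDimensional k E] {M : ℕ} (ℓ : K →ₗ[k] (Fin M → k)) (hM : M < finrank k E) :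
    ∃ x ∈ E, x ≠ 0 ∧ ℓ (∑ j, f j * x j ^ 2) = 0 := by
  classical
  let b := Module.finBasis k E
  let F : Fin M → MvPolynomial (Fin (finrank k E)) k := fun c =>
    ∑ a, ∑ a', MvPolynomial.C (ℓ (∑ j, f j * (b a : J → K) j * (b a' : J → K) j) c) * MvPolynomial.X a * MvPolynomial.X a'
  obtain ⟨t, ht0, ht⟩ := Pool.Agent.Helper71.SE.exists_common_zero F (fun c => by simp [F]) (by simpa using hM)
  let x : E := ∑ a, t a • b a
  refine ⟨x, x.2, ?_, ?_⟩
  · intro hx
    apply ht0
    have h1 : x = 0 := Subtype.ext hx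
    have h2 := Fintype.linearIndependent_iff.1 b.linearIndependent t h1
    exact funext h2
  · funext c
    have h1 := ht c
    have h2 : ∀ j, (x : J → K) j = ∑ a, t a • (b a : J → K) j := by
      intro j
      simp only [x]
      rw [Submodule.coe_sum, Finset.sum_apply]
      rfl
    have h3 : ∑ j, f j * (x : J → K) j ^ 2 = ∑ a, ∑ a', (t a * t a') • ∑ j, f j * (b a : J → K) j * (b a' : J → K) j := by
      have h4 : ∀ j, f j * (x : J → K) j ^ 2 = ∑ a, ∑ a', (t a * t a') • (f j * (b a : J → K) j * (b a' : J → K) j) := by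
        intro j
        rw [h2 j, pow_two, Finset.sum_mul_sum, Finset.mul_sum]
        refine Finset.sum_congr rfl fun a _ => ?_
        rw [Finset.mul_sum]
        refine Finset.sum_congr rfl fun a' _ => ?_
        simp only [Algebra.smul_def, map_mul]
        ring
      rw [Finset.sum_congr rfl fun j _ => h4 j, Finset.sum_comm]
      refine Finset.sum_congr rfl fun a _ => ?_
      rw [Finset.sum_comm]
      refine Finset.sum_congr rfl fun a' _ => ?_
      rw [Finset.smul_sum]
    rw [h3]
    simp only [F, map_sum, map_mul, MvPolynomial.eval_C, MvPolynomial.eval_X] at h1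
    simp only [map_sum, map_smul, Finset.sum_apply, Pi.smul_apply, smul_eq_mul, Pi.zero_apply]
    rw [← h1]
    refine Finset.sum_congr rfl fun a _ => Finset.sum_congr rfl fun a' _ => ?_
    rw [Finset.sum_apply]
    ring

end Pool.Agent.Helper41.TU
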