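import Pool.Agent.Helper41.TU.Em2

/-!
# Block TU-LG1: forms with ramification

`ResDef ord f i d`: as `ResLag`, but with `2 N ≤ |{j : ord i (f j) odd}| + d`: the anisotropic part of the residue form at `i` has dimension `≤ d`.

`count_log`: copy the proof of `count` (Em2.lean). The only change: for `i ∈ R` one has `∑ j, [ord i (f j) odd] ≥ 2 N i - d i`, which gives the extra term `- ∑_{i ∈ R} d i * hh i m`.
`main_growth_log`: copy `main_growth` (An.lean): `2 (2^n d m - d (2 m)) ~ 2^n e1 m^(n-1)/(n-1)!` and `G m ≤ δ m^(n-1)/(n-1)!` with `δ < 2^n e1`, so the difference is still `≥ c' m^(n-1)`.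
`isotropic_log`: copy `isotropic`.
-/

set_option autoImplicit false

namespace Pool.Agent.Helper41.TU

open Module Filter Asymptotics

/-- The second residue form at `i` vanishes on a subspace of codimension at most `(dimension + d) / 2`. -/
def ResDef {K ι : Type*} [Field K] (ord : ι → K → ℤ) {J : Type*} [Fintype J] (f : J → K) (i : ι) (d : ℕ) : Prop :=
  ∃ (p : K) (N : ℕ) (c : Fin N → {j : J // Odd (ord i (f j))} → K), p ≠ 0 ∧ ord i p = 1 ∧
    2 * N ≤ Nat.card {j : J // Odd (ord i (f j))} + d ∧ (∀ l j, c l j ≠ 0 → 0 ≤ ord i (c l j)) ∧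
    ∀ y : {j : J // Odd (ord i (f j))} → K, (∀ j, y j ≠ 0 → 0 ≤ ord i (y j)) →
      (∀ l, (∑ j, c l j * y j) ≠ 0 → 1 ≤ ord i (∑ j, c l j * y j)) →
      (∑ j, f j.1 * p ^ (-ord i (f j.1)) * y j ^ 2) ≠ 0 →
        1 ≤ ord i (∑ j, f j.1 * p ^ (-ord i (f j.1)) * y j ^ 2)

variable {k K ι : Type*} [Field k] [Field K] [Algebra k K] {ord : ι → K → ℤ} {h : Ords k ord} {D : ι → ℤ}

/-- Error terms. -/
private def Er (h : Ords k ord) (D : ι → ℤ) (e : ℕ → ℤ) : Prop :=
  ∃ (s : ℕ) (c : ℤ) (T : Finset ι), 0 ≤ c ∧ ∀ m : ℕ, s ≤ m →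
    e m ≤ c * ∑ i ∈ T, (hh h D i (m + s) - hh h D i (m - s))

private theorem G_mono (M : Model h D) {s s' : ℕ} (hs : s ≤ s') {T T' : Finset ι} (hT : T ⊆ T') (m : ℕ) :
    ∑ i ∈ T, (hh h D i (m + s) - hh h D i (m - s)) ≤
      ∑ i ∈ T', (hh h D i (m + s') - hh h D i (m - s')) := by
  have h1 : ∀ i, hh h D i (m + s) - hh h D i (m - s) ≤ hh h D i (m + s') - hh h D i (m - s') := fun i =>
    sub_le_sub (hmono M i (by omega)) (hmono M i (by omega))
  have h2 : ∀ i, 0 ≤ hh h D i (m + s') - hh h D i (m - s') := fun i =>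
    sub_nonneg.2 (hmono M i (by omega))
  exact (Finset.sum_le_sum fun i _ => h1 i).trans
    (Finset.sum_le_sum_of_subset_of_nonneg hT fun i _ _ => h2 i)

private theorem G_nonneg (M : Model h D) (s : ℕ) (T : Finset ι) (m : ℕ) :
    0 ≤ ∑ i ∈ T, (hh h D i (m + s) - hh h D i (m - s)) :=
  Finset.sum_nonneg fun i _ => sub_nonneg.2 (hmono M i (by omega))

private theorem Er.mono {e e' : ℕ → ℤ} (he : ∀ m, e m ≤ e' m) (H : Er h D e') : Er h D e := by
  obtain ⟨s, c, T, hc, H⟩ := H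
  exact ⟨s, c, T, hc, fun m hm => (he m).trans (H m hm)⟩

private theorem Er.add (M : Model h D) {e e' : ℕ → ℤ} (H : Er h D e) (H' : Er h D e') :
    Er h D fun m => e m + e' m := by
  classical
  obtain ⟨s, c, T, hc, H⟩ := H
  obtain ⟨s', c', T', hc', H'⟩ := H'
  refine ⟨max s s', c + c', T ∪ T', add_nonneg hc hc', fun m hm => ?_⟩
  rw [add_mul]
  refine add_le_add ?_ ?_
  · exact (H m ((le_max_left _ _).trans hm)).trans (mul_le_mul_of_nonneg_left
      (G_mono M (le_max_left _ _) Finset.subset_union_left m) hc)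
  · exact (H' m ((le_max_right _ _).trans hm)).trans (mul_le_mul_of_nonneg_left
      (G_mono M (le_max_right _ _) Finset.subset_union_right m) hc')

private theorem Er.zero : Er h D fun _ => 0 :=
  ⟨0, 0, ∅, le_refl _, fun m _ => by simp⟩

private theorem Er.two {e : ℕ → ℤ} (H : Er h D e) : Er h D fun m => 2 * e m := by
  obtain ⟨s, c, T, hc, H⟩ := H
  refine ⟨s, 2 * c, T, by omega, fun m hm => ?_⟩
  rw [mul_assoc]
  exact mul_le_mul_of_nonneg_left (H m hm) (by norm_num)

private theorem Er.sum (M : Model h D) {A : Type*} (S : Finset A) {e : A → ℕ → ℤ} (H : ∀ a, Er h D (e a)) :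
    Er h D fun m => ∑ a ∈ S, e a m := by
  classical
  induction S using Finset.induction_on with
  | empty => simpa using Er.zero
  | insert a S ha ih =>
    simp only [Finset.sum_insert ha]
    exact Er.add M (H a) ih

private theorem Er.shift (M : Model h D) (i : ι) (s : ℕ) : Er h D fun m => hh h D i (m + s) - hh h D i m := by
  refine ⟨s, 1, {i}, zero_le_one, fun m hm => ?_⟩
  rw [Finset.sum_singleton, one_mul]
  exact sub_le_sub_left (hmono M i (by omega)) _

private theorem ord_one (h : Ords k ord) (i : ι) : ord i (1 : K) = 0 := by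
  have := h.const i (1 : k) one_ne_zero
  rwa [map_one] at this

private theorem ord_zp (h : Ords k ord) (i : ι) {p : K} (hp0 : p ≠ 0) (hp : ord i p = 1) (a : ℤ) :
    ord i (p ^ a) = a := by
  induction a using Int.induction_on with
  | zero => rw [zpow_zero, ord_one h]
  | succ n ih => rw [zpow_add_one₀ hp0, h.mul i _ _ (zpow_ne_zero _ hp0) hp0, ih, hp]
  | pred n ih =>
    have h1 : ord i (p ^ (-(n : ℤ) - 1) * p) = ord i (p ^ (-(n : ℤ) - 1)) + ord i p :=
      h.mul i _ _ (zpow_ne_zero _ hp0) hp0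
    rw [← zpow_add_one₀ hp0, sub_add_cancel, ih, hp] at h1
    omega

/-- The spaces cut out by linear conditions. -/
private theorem space [Nonempty ι] (M : Model h D) {J : Type*} [Fintype J] (C : J → (ι →₀ ℤ)) (m : ℕ) {Λ : Type*}
    [Fintype Λ] (ψ : Λ → (J → K) →ₗ[k] K) (C' C'' : Λ → (ι →₀ ℤ)) (hC : ∀ l i, C'' l i ≤ C' l i)
    (h1 : ∀ l (x : J → K), (∀ j, x j ∈ V h D m (C j)) → ψ l x ∈ V h D m (C' l)) :
    ∃ E : Submodule k (J → K), FiniteDimensional k E ∧
      (∀ x ∈ E, (∀ j, x j ∈ V h D m (C j)) ∧ ∀ l, ψ l x ∈ V h D m (C'' l)) ∧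
      ∑ j, dd h D m (C j) - ∑ l, (dd h D m (C' l) - dd h D m (C'' l)) ≤ (finrank k E : ℤ) := by
  have : ∀ (m : ℕ) (C : ι →₀ ℤ), FiniteDimensional k (V h D m C) := fd_all M
  let inc : ((j : J) → V h D m (C j)) →ₗ[k] (J → K) :=
    LinearMap.pi fun j => (V h D m (C j)).subtype ∘ₗ LinearMap.proj j
  have hinc : ∀ x j, inc x j = (x j : K) := fun x j => rfl
  have hinj : Function.Injective inc := by
    intro x y hxy
    funext j
    exact Subtype.ext (congrFun hxy j)
  let E' : Submodule k ((j : J) → V h D m (C j)) := ⨅ l, (V h D m (C'' l)).comap (ψ l ∘ₗ inc)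
  have hE' : ∀ x, x ∈ E' ↔ ∀ l, ψ l (inc x) ∈ V h D m (C'' l) := by
    intro x
    simp only [E', Submodule.mem_iInf, Submodule.mem_comap, LinearMap.comp_apply]
  refine ⟨E'.map inc, inferInstance, ?_, ?_⟩
  · rintro _ ⟨x, hx, rfl⟩
    exact ⟨fun j => (x j).2, (hE' x).1 hx⟩
  · have h2 := cut_lin (fun l => ψ l ∘ₗ inc) (fun l => V h D m (C' l)) (fun l => V h D m (C'' l))
      (fun l => V_mono (hC l)) (fun l x => h1 l _ fun j => (x j).2) E' (fun x hx => (hE' x).2 hx)
    have h3 : finrank k (E'.map inc) = finrank k E' :=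
      (Submodule.equivMapOfInjective inc hinj E').finrank_eq.symm
    have h4 : (finrank k ((j : J) → V h D m (C j)) : ℤ) = ∑ j, dd h D m (C j) := by
      rw [Module.finrank_pi_fintype]
      push_cast
      rfl
    rw [h3]
    rw [h4] at h2
    have h5 : ∑ l, (dd h D m (C' l) - dd h D m (C'' l)) =
      ∑ l, ((finrank k (V h D m (C' l)) : ℤ) - finrank k (V h D m (C'' l))) := rfl
    rw [h5]
    linarith

private theorem ge_add (h : Ords k ord) (i : ι) {n : ℤ} {x y : K} (hx : x ≠ 0 → n ≤ ord i x)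
    (hy : y ≠ 0 → n ≤ ord i y) : x + y ≠ 0 → n ≤ ord i (x + y) := by
  intro hxy
  by_cases hx0 : x = 0
  · subst hx0
    rw [zero_add] at hxy ⊢
    exact hy hxy
  by_cases hy0 : y = 0
  · subst hy0
    rw [add_zero] at hxy ⊢
    exact hx hxy
  exact (le_min (hx hx0) (hy hy0)).trans (h.add i x y hx0 hy0 hxy)

private theorem ge_sum (h : Ords k ord) (i : ι) {n : ℤ} {J : Type*} (s : Finset J) {g : J → K}
    (hg : ∀ j ∈ s, g j ≠ 0 → n ≤ ord i (g j)) : (∑ j ∈ s, g j) ≠ 0 → n ≤ ord i (∑ j ∈ s, g j) := by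
  classical
  induction s using Finset.induction_on with
  | empty =>
    intro h0
    exact absurd Finset.sum_empty h0
  | insert a s ha ih =>
    rw [Finset.sum_insert ha]
    exact ge_add h i (hg a (Finset.mem_insert_self a s))
      (ih fun j hj => hg j (Finset.mem_insert_of_mem hj))

/-- Nothing to prove if `d` is at least the number of the odd orders: take all coordinates as linear forms. -/
theorem resDef_all (h : Ords k ord) {J : Type*} [Fintype J] {f : J → K} (hf : ∀ j, f j ≠ 0) (i : ι) {d : ℕ}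
    (hd : Nat.card {j : J // Odd (ord i (f j))} ≤ d) : ResDef ord f i d := by
  obtain ⟨p, hp0, hp⟩ := h.unif i
  classical
  let e := (Finite.equivFin {j : J // Odd (ord i (f j))}).symm
  have hone : ord i (1 : K) = 0 := ord_one h i
  have hsum : ∀ (l : Fin (Nat.card {j : J // Odd (ord i (f j))})) (y : {j : J // Odd (ord i (f j))} → K),
      ∑ j, (if e l = j then (1 : K) else 0) * y j = y (e l) := by
    intro l y
    simp
  refine ⟨p, Nat.card {j : J // Odd (ord i (f j))}, fun l j => if e l = j then 1 else 0, hp0, hp, by omega, ?_, ?_⟩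
  · intro l j hl
    dsimp only at hl ⊢
    split_ifs at hl ⊢ with h1
    · rw [hone]
    · exact absurd rfl hl
  · intro y _ hy2
    refine ge_sum h i _ ?_
    intro j _ hj
    have hyj : y j ≠ 0 := by
      intro h0
      rw [h0] at hj
      apply hj
      ring
    have h1 := hy2 (e.symm j)
    rw [hsum, Equiv.apply_symm_apply] at h1
    have h2 := h1 hyj
    rw [h.mul i _ _ (mul_ne_zero (hf _) (zpow_ne_zero _ hp0)) (pow_ne_zero 2 hyj),
      h.mul i _ _ (hf _) (zpow_ne_zero _ hp0), ord_zp h i hp0 hp, sq, h.mul i _ _ hyj hyj]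
    omega

theorem count_log [Nonempty ι] (M : Model h D) {J : Type*} [Fintype J] {f : J → K} (hf : ∀ j, f j ≠ 0)
    (R : Finset ι) (d : ι → ℕ) (hm : ∀ i ∉ R, ResLag ord f i) (hR : ∀ i ∈ R, ResDef ord f i (d i)) :
    ∃ (s : ℕ) (c : ℤ) (T : Finset ι), 0 ≤ c ∧ ∀ m : ℕ, s ≤ m → ∃ E : Submodule k (J → K), FiniteDimensional k E ∧
      (∀ x ∈ E, ∑ j, f j * x j ^ 2 ∈ V h D (2 * m) 0) ∧
      2 * Fintype.card J * dd h D m 0 - (∑ i ∈ R, d i * hh h D i m)
        - c * ∑ i ∈ T, (hh h D i (m + s) - hh h D i (m - s)) ≤ 2 * (finrank k E : ℤ) := by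
  classical
  have hall : ∀ i, ResDef ord f i (if i ∈ R then d i else 0) := by
    intro i
    by_cases hi : i ∈ R
    · rw [if_pos hi]
      exact hR i hi
    · rw [if_neg hi]
      exact hm i hi
  unfold ResDef at hall
  choose p N c hp0 hp hN hc hmeta using hall
  -- the divisors
  let C : J → (ι →₀ ℤ) := fun j => (dv h (f j) (hf j)).mapRange (fun a => (a + 1) / 2) (by norm_num)
  have hC : ∀ j i, C j i = (ord i (f j) + 1) / 2 := fun j i => by
    simp only [C, Finsupp.mapRange_apply, dv_apply]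
  let S : Finset ι := Finset.univ.biUnion fun j => (dv h (f j) (hf j)).support
  have hS : ∀ i, i ∉ S → ∀ j, ord i (f j) = 0 := by
    intro i hi j
    by_contra hne
    exact hi (Finset.mem_biUnion.2 ⟨j, Finset.mem_univ _, Finsupp.mem_support_iff.2 hne⟩)
  have hS' : ∀ j, (dv h (f j) (hf j)).support ⊆ S := fun j =>
    Finset.subset_biUnion_of_mem (fun j => (dv h (f j) (hf j)).support) (Finset.mem_univ j)
  have hS'' : ∀ j, (C j).support ⊆ S := by
    intro j i hi
    by_contra hne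
    rw [Finsupp.mem_support_iff, hC, hS i hne j] at hi
    exact hi (by norm_num)
  -- the linear conditions
  have hb := fun (i : ι) (l : Fin (N i)) => bound (D := D) h
    (fun j : {j : J // Odd (ord i (f j))} => C j.1)
    (fun j : {j : J // Odd (ord i (f j))} => c i l j * p i ^ (C j.1 i)) i (by
      intro j hj
      have h1 : c i l j ≠ 0 := left_ne_zero_of_mul hj
      rw [h.mul i _ _ h1 (zpow_ne_zero _ (hp0 i)), ord_zp h i (hp0 i) (hp i)]
      have := hc i l j h1
      omega)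
  choose C' hC'i hC' using hb
  let Λ := (i : {i // i ∈ S}) × Fin (N i.1)
  let ψ : Λ → (J → K) →ₗ[k] K := fun a => ∑ j : {j : J // Odd (ord a.1.1 (f j))},
    (LinearMap.mulLeft k (c a.1.1 a.2 j * p a.1.1 ^ (C j.1 a.1.1))) ∘ₗ LinearMap.proj j.1
  have hψ : ∀ (a : Λ) (x : J → K), ψ a x = ∑ j : {j : J // Odd (ord a.1.1 (f j))},
      c a.1.1 a.2 j * p a.1.1 ^ (C j.1 a.1.1) * x j.1 := by
    intro a x
    simp only [ψ, LinearMap.sum_apply, LinearMap.comp_apply, LinearMap.proj_apply, LinearMap.mulLeft_apply]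
  have hsp := fun m : ℕ => space M C m ψ (fun a => C' a.1.1 a.2)
    (fun a => C' a.1.1 a.2 - Finsupp.single a.1.1 1) (by
      intro a i
      rw [Finsupp.sub_apply, Finsupp.single_apply]
      split_ifs <;> omega) (by
      intro a x hx
      rw [hψ]
      exact hC' a.1.1 a.2 m (fun j => x j.1) fun j => hx j.1)
  have hup := fun a : Λ => up M (C' a.1.1 a.2) a.1.1
  choose s hs using hup
  -- the error
  have herr : Er h D fun m => 2 * Fintype.card J * dd h D m 0 - (∑ i ∈ R, d i * hh h D i m) - 2 * (∑ j, dd h D m (C j) -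
      ∑ a : Λ, (dd h D m (C' a.1.1 a.2) - dd h D m (C' a.1.1 a.2 - Finsupp.single a.1.1 1))) := by
    have e1 : ∀ A : ι →₀ ℤ, Er h D fun m => |dd h D m A - dd h D m 0 - A.sum fun i a => a * hh h D i m| :=
      fun A => tele M A
    have e2 := Er.sum M Finset.univ fun j => e1 (C j)
    have e3 := Er.sum M Finset.univ fun j => e1 (dv h (f j) (hf j))
    have e4 := Er.sum M Finset.univ fun a : Λ => Er.shift M a.1.1 (s a)
    refine Er.mono ?_ ((e2.two.add M e3).add M e4.two)
    intro m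
    have h1 : ∑ a : Λ, (dd h D m (C' a.1.1 a.2) - dd h D m (C' a.1.1 a.2 - Finsupp.single a.1.1 1)) ≤
      ∑ a : Λ, hh h D a.1.1 (m + s a) := Finset.sum_le_sum fun a _ => hs a m
    have h2 : ∀ j, (C j).sum (fun i a => a * hh h D i m) = ∑ i ∈ S, C j i * hh h D i m := fun j =>
      Finsupp.sum_of_support_subset _ (hS'' j) _ fun i _ => zero_mul _
    have h3 : ∀ j, (dv h (f j) (hf j)).sum (fun i a => a * hh h D i m) = ∑ i ∈ S, ord i (f j) * hh h D i m := fun j =>
      Finsupp.sum_of_support_subset _ (hS' j) _ fun i _ => zero_mul _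
    have h4 : ∑ a : Λ, hh h D a.1.1 m = ∑ i ∈ S, N i * hh h D i m := by
      rw [Fintype.sum_sigma, ← Finset.sum_coe_sort S]
      refine Finset.sum_congr rfl fun i _ => ?_
      simp
    have h5' : ∑ i ∈ S, (((if i ∈ R then d i else 0 : ℕ) : ℤ) * hh h D i m) ≤ ∑ i ∈ R, (d i : ℤ) * hh h D i m := by
      calc ∑ i ∈ S, (((if i ∈ R then d i else 0 : ℕ) : ℤ) * hh h D i m)
          = ∑ i ∈ S with i ∈ R, (d i : ℤ) * hh h D i m := by
            rw [Finset.sum_filter]
            refine Finset.sum_congr rfl fun i _ => ?_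
            split_ifs <;> simp
        _ ≤ ∑ i ∈ R, (d i : ℤ) * hh h D i m :=
            Finset.sum_le_sum_of_subset_of_nonneg (fun i hi => (Finset.mem_filter.1 hi).2) fun i _ _ =>
              mul_nonneg (Int.natCast_nonneg _) (hnonneg M i m)
    have h5 : 2 * ∑ a : Λ, hh h D a.1.1 m ≤
        ∑ j, (2 * (C j).sum (fun i a => a * hh h D i m) - (dv h (f j) (hf j)).sum fun i a => a * hh h D i m)
        + ∑ i ∈ S, (((if i ∈ R then d i else 0 : ℕ) : ℤ) * hh h D i m) := by
      simp only [h2, h3]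
      rw [h4, Finset.mul_sum]
      simp only [Finset.mul_sum]
      simp only [← Finset.sum_sub_distrib]
      rw [Finset.sum_comm, ← Finset.sum_add_distrib]
      refine Finset.sum_le_sum fun i _ => ?_
      have h6 : ∀ j, 2 * (C j i * hh h D i m) - ord i (f j) * hh h D i m =
          (if Odd (ord i (f j)) then 1 else 0) * hh h D i m := by
        intro j
        rw [hC]
        split_ifs with ho
        · obtain ⟨r, hr⟩ := ho
          have : (ord i (f j) + 1) / 2 = r + 1 := by omega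
          rw [this, hr]
          ring
        · rw [Int.not_odd_iff_even] at ho
          obtain ⟨r, hr⟩ := ho
          have : (ord i (f j) + 1) / 2 = r := by omega
          rw [this, hr]
          ring
      simp only [h6]
      rw [← Finset.sum_mul, ← mul_assoc, ← add_mul]
      refine mul_le_mul_of_nonneg_right ?_ (hnonneg M i m)
      have h7 := hN i
      rw [Nat.card_eq_fintype_card, Fintype.card_subtype] at h7
      rw [Finset.sum_boole]
      exact_mod_cast h7
    have h8 : ∀ j, dd h D m (dv h (f j) (hf j)) = dd h D m 0 := fun j => prin M (hf j) m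
    have h9 : ∀ j, -2 * (dd h D m (C j) - dd h D m 0) ≤
        2 * |dd h D m (C j) - dd h D m 0 - (C j).sum fun i a => a * hh h D i m| +
        |dd h D m (dv h (f j) (hf j)) - dd h D m 0 - (dv h (f j) (hf j)).sum fun i a => a * hh h D i m| -
        (2 * (C j).sum (fun i a => a * hh h D i m) - (dv h (f j) (hf j)).sum fun i a => a * hh h D i m) := by
      intro j
      have a1 := neg_abs_le (dd h D m (C j) - dd h D m 0 - (C j).sum fun i a => a * hh h D i m)
      have a2 := le_abs_self (dd h D m (dv h (f j) (hf j)) - dd h D m 0 -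
        (dv h (f j) (hf j)).sum fun i a => a * hh h D i m)
      rw [h8] at a2 ⊢
      linarith
    have h10 := Finset.sum_le_sum fun j (_ : j ∈ (Finset.univ : Finset J)) => h9 j
    rw [← Finset.mul_sum, Finset.sum_sub_distrib, Finset.sum_sub_distrib, Finset.sum_add_distrib,
      ← Finset.mul_sum, Finset.sum_const, Finset.card_univ, nsmul_eq_mul] at h10
    have h11 : ∑ a : Λ, (hh h D a.1.1 (m + s a) - hh h D a.1.1 m) =
      ∑ a : Λ, hh h D a.1.1 (m + s a) - ∑ a : Λ, hh h D a.1.1 m := Finset.sum_sub_distrib ..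
    rw [h11]
    linarith
  obtain ⟨s', c', T, hc', H⟩ := herr
  refine ⟨s', c', T, hc', fun m hm => ?_⟩
  obtain ⟨E, hE1, hE2, hE3⟩ := hsp m
  refine ⟨E, hE1, fun x hx => ?_, ?_⟩
  · obtain ⟨hx1, hx2⟩ := hE2 x hx
    rw [mem_V]
    intro hne i
    have h1 := local_q h (D := D) hf (hp0 i) (hp i) (hc i) (hmeta i) m (x := x) (by
      intro j hj
      have := hx1 j hj i
      rwa [hC] at this) (by
      intro l hl
      by_cases hi : i ∈ S
      · have h2 := hx2 ⟨⟨i, hi⟩, l⟩
        rw [hψ] at h2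
        simp only [hC] at h2
        have h3 := h2 hl i
        rw [Finsupp.sub_apply, Finsupp.single_eq_same, hC'i] at h3
        linarith
      · exfalso
        have : IsEmpty {j : J // Odd (ord i (f j))} := by
          constructor
          rintro ⟨j, hj⟩
          rw [hS i hi j] at hj
          exact absurd hj (by decide)
        apply hl
        rw [Finset.univ_eq_empty, Finset.sum_empty]) hne
    rw [Finsupp.zero_apply, sub_zero]
    push_cast
    linarith
  · have h1 := H m hm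
    linarith

theorem main_growth_log {n : ℕ} (hn : 1 ≤ n) {e0 e1 δ : ℝ} (hδ : δ < 2 ^ n * e1) {d G : ℕ → ℝ}
    (hd : (fun m : ℕ => d m - (e0 * (m : ℝ) ^ n / n.factorial + e1 * (m : ℝ) ^ (n - 1) / (n - 1).factorial))
      =o[atTop] fun m : ℕ => (m : ℝ) ^ (n - 1))
    (hG : ∀ᶠ m : ℕ in atTop, G m ≤ δ * (m : ℝ) ^ (n - 1) / (n - 1).factorial) {H : ℕ → ℝ} (hH : Monotone H) (h0 : ∀ m, 0 ≤ H m) {B : ℝ}
    (hB : ∀ m, H m ≤ B * ((m : ℝ) + 1) ^ (n - 1)) (s m₀ : ℕ) {c : ℝ} (hc : 0 ≤ c) :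
    ∃ m : ℕ, s ≤ m ∧ m₀ ≤ m ∧ G m + c * (H (m + s) - H (m - s)) < 2 * (2 ^ n * d m - d (2 * m)) := by
  by_contra hcon
  push Not at hcon
  set F : ℝ := ((n - 1).factorial : ℝ) with hF
  have hF0 : 0 < F := by
    rw [hF]
    exact_mod_cast Nat.factorial_pos (n - 1)
  -- the lower bound
  obtain ⟨γ, hγ⟩ : ∃ γ : ℝ, γ = 2 ^ n * e1 - δ := ⟨_, rfl⟩
  have hγ0 : 0 < γ := by rw [hγ]; linarith
  have hε : 0 < γ / (12 * 2 ^ (n - 1) * F) := by positivity
  have h1 := hd.def hε
  rw [eventually_atTop] at h1 hG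
  obtain ⟨m₂, hm₂⟩ := h1
  obtain ⟨m₃, hm₃⟩ := hG
  obtain ⟨m₁, hm₁2, hm₁3⟩ : ∃ m₁ : ℕ, m₂ ≤ m₁ ∧ m₃ ≤ m₁ := ⟨max m₂ m₃, le_max_left _ _, le_max_right _ _⟩
  have hlow : ∀ m : ℕ, m₁ ≤ m → γ / (2 * F) * (m : ℝ) ^ (n - 1) ≤ 2 * (2 ^ n * d m - d (2 * m)) - G m := by
    intro m hm
    have a1 := hm₂ m (by omega)
    have a2 := hm₂ (2 * m) (by omega)
    have a3 := hm₃ m (by omega)
    rw [Real.norm_eq_abs, Real.norm_of_nonneg (by positivity)] at a1 a2
    have b1 := (abs_le.1 a1).1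
    have b2 := (abs_le.1 a2).2
    push_cast at b2
    rw [mul_pow, mul_pow] at b2
    have hn2 : (2 : ℝ) ^ n = 2 * 2 ^ (n - 1) := by
      rw [← pow_succ', Nat.sub_add_cancel hn]
    rw [hn2] at b2 hγ ⊢
    set P : ℝ := 2 ^ (n - 1) with hP
    have hP0 : 0 < P := by positivity
    set Y : ℝ := (m : ℝ) ^ (n - 1) with hY
    set Z : ℝ := (m : ℝ) ^ n with hZ
    have c1 := mul_le_mul_of_nonneg_left b1 (by positivity : 0 ≤ 2 * P)
    have e2 : γ / (2 * F) * Y = (2 * P * e1) * Y / F - δ * Y / F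
        - 2 * (2 * P * (γ / (12 * P * F) * Y)) - 2 * (γ / (12 * P * F) * (P * Y)) := by
      rw [hγ]
      field_simp
      ring
    have e3 : 2 * P * (-(γ / (12 * P * F) * Y)) = -(2 * P * (γ / (12 * P * F) * Y)) := by ring
    have e4 : 2 * P * (d m - (e0 * Z / n.factorial + e1 * Y / F)) =
        2 * P * d m - e0 * (2 * P * Z) / n.factorial - 2 * (e1 * P * Y / F) := by ring
    have e5 : e1 * (P * Y) / F = e1 * P * Y / F := by ring
    have e6 : (2 * P * e1) * Y / F = 2 * (e1 * P * Y / F) := by ring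
    rw [e3, e4] at c1
    rw [e5] at b2
    rw [e2, e6]
    linarith
  set c' : ℝ := γ / (2 * F) with hc'
  have hc'0 : 0 < c' := by positivity
  -- telescoping
  set S : ℕ → ℝ := fun k => ∑ j ∈ Finset.range (2 * s), H (k + j) with hS
  have hS1 : ∀ k, S (k + 1) = S k + (H (k + 2 * s) - H k) := by
    intro k
    have a1 : ∑ j ∈ Finset.range (2 * s + 1), H (k + j) = S k + H (k + 2 * s) :=
      Finset.sum_range_succ (fun j => H (k + j)) (2 * s)
    have a2 : ∑ j ∈ Finset.range (2 * s + 1), H (k + j) = S (k + 1) + H k := by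
      rw [Finset.sum_range_succ' (fun j => H (k + j)) (2 * s)]
      have : ∀ j, H (k + (j + 1)) = H (k + 1 + j) := fun j => by
        congr 1
        omega
      simp only [this]
      rfl
    linarith
  have hS0 : ∀ k, 0 ≤ S k := fun k => Finset.sum_nonneg fun j _ => h0 _
  have hS2 : ∀ k, S k ≤ 2 * s * H (k + 2 * s) := by
    intro k
    have : S k ≤ ∑ _j ∈ Finset.range (2 * s), H (k + 2 * s) :=
      Finset.sum_le_sum fun j hj => hH (by
        have := Finset.mem_range.1 hj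
        omega)
    refine this.trans (le_of_eq ?_)
    rw [Finset.sum_const, Finset.card_range, nsmul_eq_mul]
    push_cast
    ring
  have hstep : ∀ L : ℕ, m₁ + m₀ ≤ L → ∀ j : ℕ, c' * j * (L : ℝ) ^ (n - 1) ≤ c * (S (L + j) - S L) := by
    intro L hL j
    induction j with
    | zero => simp
    | succ j ih =>
      have a1 := hlow (s + (L + j)) (by omega)
      have a2 := hcon (s + (L + j)) (by omega) (by omega)
      have a3 : s + (L + j) - s = L + j := by omega
      have a4 : s + (L + j) + s = L + j + 2 * s := by omega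
      rw [a3, a4] at a2
      have a5 : c' * (L : ℝ) ^ (n - 1) ≤ c' * ((s + (L + j) : ℕ) : ℝ) ^ (n - 1) := by
        refine mul_le_mul_of_nonneg_left (pow_le_pow_left₀ (by positivity) ?_ _) hc'0.le
        exact_mod_cast (by omega : L ≤ s + (L + j))
      have a6 := hS1 (L + j)
      have a7 : L + (j + 1) = L + j + 1 := by omega
      rw [a7, a6]
      have a8 : c * (S (L + j) + (H (L + j + 2 * s) - H (L + j)) - S L) =
          c * (S (L + j) - S L) + c * (H (L + j + 2 * s) - H (L + j)) := by ring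
      rw [a8]
      push_cast
      have a9 : c' * ((j : ℝ) + 1) * (L : ℝ) ^ (n - 1) = c' * j * (L : ℝ) ^ (n - 1) + c' * (L : ℝ) ^ (n - 1) := by ring
      rw [a9]
      linarith
  have hB0 : 0 ≤ B := by
    have := (h0 0).trans (hB 0)
    simpa using this
  -- the contradiction
  have hfin : ∀ L : ℕ, m₁ + m₀ + 1 ≤ L → c' * L ≤ c * (2 * s * (B * (2 * s + 3) ^ (n - 1))) := by
    intro L hL
    have hL1 : (1 : ℝ) ≤ L := by exact_mod_cast (by omega : 1 ≤ L)
    have a1 := hstep L (by omega) L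
    have a2 : c * (S (L + L) - S L) ≤ c * (2 * s * H (L + L + 2 * s)) :=
      mul_le_mul_of_nonneg_left (by linarith [hS0 L, hS2 (L + L)]) hc
    have a3 := hB (L + L + 2 * s)
    have a4 : (((L + L + 2 * s : ℕ) : ℝ) + 1) ^ (n - 1) ≤ (2 * s + 3) ^ (n - 1) * (L : ℝ) ^ (n - 1) := by
      rw [← mul_pow]
      refine pow_le_pow_left₀ (by positivity) ?_ _
      push_cast
      nlinarith [mul_nonneg (Nat.cast_nonneg s : (0 : ℝ) ≤ s) (sub_nonneg.2 hL1)]
    have a5 : c * (2 * s * H (L + L + 2 * s)) ≤ c * (2 * s * (B * ((2 * s + 3) ^ (n - 1) * (L : ℝ) ^ (n - 1)))) := by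
      refine mul_le_mul_of_nonneg_left (mul_le_mul_of_nonneg_left ?_ (by positivity)) hc
      exact a3.trans (mul_le_mul_of_nonneg_left a4 hB0)
    have hLp : 0 < (L : ℝ) ^ (n - 1) := by positivity
    have a6 : c' * L * (L : ℝ) ^ (n - 1) ≤ c * (2 * s * (B * (2 * s + 3) ^ (n - 1))) * (L : ℝ) ^ (n - 1) := by
      calc c' * L * (L : ℝ) ^ (n - 1) ≤ c * (2 * s * (B * ((2 * s + 3) ^ (n - 1) * (L : ℝ) ^ (n - 1)))) :=
            (a1.trans a2).trans a5
        _ = c * (2 * s * (B * (2 * s + 3) ^ (n - 1))) * (L : ℝ) ^ (n - 1) := by ring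
    exact le_of_mul_le_mul_right a6 hLp
  obtain ⟨L, hL⟩ := exists_nat_gt (c * (2 * s * (B * (2 * s + 3) ^ (n - 1))) / c')
  have a1 := hfin (L + (m₁ + m₀ + 1)) (by omega)
  rw [div_lt_iff₀ hc'0] at hL
  push_cast at a1
  have a2 : 0 ≤ c' * ((m₁ : ℝ) + m₀ + 1) := by positivity
  nlinarith

theorem isotropic_log [IsAlgClosed k] [Nonempty ι] (M : Model h D) {n : ℕ} (hn : 1 ≤ n) {e0 e1 δ : ℝ} (hδ : δ < 2 ^ n * e1)
    (hd : (fun m : ℕ => (dd h D m 0 : ℝ) - (e0 * (m : ℝ) ^ n / n.factorial + e1 * (m : ℝ) ^ (n - 1) / (n - 1).factorial))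
      =o[atTop] fun m : ℕ => (m : ℝ) ^ (n - 1))
    {J : Type*} [Fintype J] (hJ : 2 ^ n ≤ Fintype.card J) {f : J → K} (hf : ∀ j, f j ≠ 0)
    (R : Finset ι) (d : ι → ℕ) (hm : ∀ i ∉ R, ResLag ord f i) (hR : ∀ i ∈ R, ResDef ord f i (d i))
    (hG : ∀ᶠ m : ℕ in atTop, (((∑ i ∈ R, d i * hh h D i m : ℤ)) : ℝ) ≤ δ * (m : ℝ) ^ (n - 1) / (n - 1).factorial) :
    ∃ x : J → K, x ≠ 0 ∧ ∑ j, f j * x j ^ 2 = 0 := by
  obtain ⟨s, c, T, hc, H⟩ := count_log M hf R d hm hR
  have hB : ∀ i, ∃ B : ℝ, ∀ m : ℕ, (hh h D i m : ℝ) ≤ B * ((m : ℝ) + 1) ^ (n - 1) := by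
    intro i
    obtain ⟨t, ht⟩ := hbd M i
    obtain ⟨B, _, hB⟩ := diff_bdd hn hd t
    refine ⟨B, fun m => ?_⟩
    have h1 : hh h D i m ≤ dd h D (m + t) 0 - dd h D m 0 := (hmono M i (by omega)).trans (ht m)
    have h2 : (hh h D i m : ℝ) ≤ (dd h D (m + t) 0 : ℝ) - (dd h D m 0 : ℝ) := by exact_mod_cast h1
    exact h2.trans (hB m)
  choose B hB using hB
  obtain ⟨m, hm1, _, hm2⟩ := main_growth_log (H := fun m => ∑ i ∈ T, (hh h D i m : ℝ)) (B := ∑ i ∈ T, B i) hn hδ hd hG
    (fun a b hab => Finset.sum_le_sum fun i _ => by exact_mod_cast hmono M i hab)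
    (fun m => Finset.sum_nonneg fun i _ => by exact_mod_cast hnonneg M i m)
    (fun m => by
      rw [Finset.sum_mul]
      exact Finset.sum_le_sum fun i _ => hB i m) s s (c := (c : ℝ))
    (by exact_mod_cast hc)
  obtain ⟨E, hE1, hE2, hE3⟩ := H m hm1
  have h0 : 0 ≤ dd h D m 0 := Int.natCast_nonneg _
  have h1 : ((∑ i ∈ R, d i * hh h D i m : ℤ) : ℝ) +
      (c : ℝ) * ∑ i ∈ T, ((hh h D i (m + s) : ℝ) - hh h D i (m - s)) <
      2 * (2 ^ n * (dd h D m 0 : ℝ) - dd h D (2 * m) 0) := by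
    rw [Finset.sum_sub_distrib]
    exact hm2
  have h2 : (∑ i ∈ R, d i * hh h D i m) + c * ∑ i ∈ T, (hh h D i (m + s) - hh h D i (m - s)) <
      2 * (2 ^ n * dd h D m 0 - dd h D (2 * m) 0) := by exact_mod_cast h1
  have h3 : (2 : ℤ) ^ n * dd h D m 0 ≤ Fintype.card J * dd h D m 0 :=
    mul_le_mul_of_nonneg_right (by exact_mod_cast hJ) h0
  have h4 : dd h D (2 * m) 0 < finrank k E := by linarith
  have := M.fd (2 * m)
  obtain ⟨r, ℓ, hr, hℓ⟩ := exists_coord (bot_le : (⊥ : Submodule k K) ≤ V h D (2 * m) 0)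
  rw [finrank_bot, add_zero] at hr
  have h5 : r < finrank k E := by
    rw [hr]
    have h6 : (finrank k (V h D (2 * m) 0) : ℤ) < finrank k E := h4
    exact_mod_cast h6
  obtain ⟨x, hx, hx0, hx1⟩ := zero_quad f E ℓ h5
  exact ⟨x, hx0, (Submodule.mem_bot k).1 (hℓ _ (hE2 x hx) hx1)⟩

end Pool.Agent.Helper41.TU
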