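import Pool.Agent.Helper41.TU.Lg1
import Pool.Agent.Helper41.TU.Fin0

/-!
# Project TU: elements with ramification along divisors of small degree
-/

set_option autoImplicit false

namespace Pool.Agent.Helper41.TU

open Module Filter Asymptotics IsLocalRing

/-- At most half of the subsets have an odd sum. -/
theorem card_odd_le {n : ℕ} (a : Fin (n + 1) → ℤ) :
    Nat.card {S : Finset (Fin (n + 1)) // Odd (∑ j ∈ S, a j)} ≤ 2 ^ n := by
  classical
  by_cases h0 : ∃ j₀, Odd (a j₀)
  · obtain ⟨j₀, hj₀⟩ := h0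
    have hsum : ∀ S : Finset (Fin (n + 1)), ∑ j ∈ S, a j = (if j₀ ∈ S then a j₀ else 0) +
        ∑ j : Fin n, if j₀.succAbove j ∈ S then a (j₀.succAbove j) else 0 := by
      intro S
      rw [← Fin.sum_univ_succAbove (fun j => if j ∈ S then a j else 0) j₀, Finset.sum_ite_mem, Finset.univ_inter]
    have hinj : Function.Injective (fun S : {S : Finset (Fin (n + 1)) // Odd (∑ j ∈ S, a j)} =>
        (Finset.univ.filter fun j : Fin n => j₀.succAbove j ∈ S.1)) := by
      rintro ⟨S, hS⟩ ⟨T, hT⟩ hST
      have h1 : ∀ j : Fin n, j₀.succAbove j ∈ S ↔ j₀.succAbove j ∈ T := by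
        intro j
        have h2 : j ∈ (Finset.univ.filter fun j : Fin n => j₀.succAbove j ∈ S) ↔
            j ∈ (Finset.univ.filter fun j : Fin n => j₀.succAbove j ∈ T) := by
          have : (Finset.univ.filter fun j : Fin n => j₀.succAbove j ∈ S) =
            (Finset.univ.filter fun j : Fin n => j₀.succAbove j ∈ T) := hST
          rw [this]
        simpa using h2
      have h3 : j₀ ∈ S ↔ j₀ ∈ T := by
        rw [hsum] at hS hT
        simp only [h1] at hS
        by_cases hs : j₀ ∈ S <;> by_cases ht : j₀ ∈ T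
        · simp [hs, ht]
        · exfalso
          rw [if_pos hs] at hS
          rw [if_neg ht, zero_add] at hT
          rcases hS with ⟨u, hu⟩
          rcases hT with ⟨v, hv⟩
          rcases hj₀ with ⟨w, hw⟩
          omega
        · exfalso
          rw [if_neg hs, zero_add] at hS
          rw [if_pos ht] at hT
          rcases hS with ⟨u, hu⟩
          rcases hT with ⟨v, hv⟩
          rcases hj₀ with ⟨w, hw⟩
          omega
        · simp [hs, ht]
      apply Subtype.ext
      ext i
      rcases Fin.eq_self_or_eq_succAbove j₀ i with h | ⟨j, h⟩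
      · rw [h]
        exact h3
      · rw [h]
        exact h1 j
    have := Nat.card_le_card_of_injective _ hinj
    refine this.trans (le_of_eq ?_)
    rw [Nat.card_eq_fintype_card, Fintype.card_finset, Fintype.card_fin]
  · push Not at h0
    have hemp : IsEmpty {S : Finset (Fin (n + 1)) // Odd (∑ j ∈ S, a j)} := by
      constructor
      rintro ⟨S, hS⟩
      exact Int.not_even_iff_odd.2 hS (Finset.sum_induction _ Even (fun _ _ ha hb => ha.add hb) (by simp)
        fun j _ => Int.not_odd_iff_even.1 (h0 j))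
    rw [Nat.card_of_isEmpty]
    exact Nat.zero_le _

variable {k K ι : Type*} [Field k] [Field K] [Algebra k K] {ord : ι → K → ℤ} {h : Ords k ord} {D : ι → ℤ}

theorem ord_pf (h : Ords k ord) (i : ι) {n : ℕ} (l : Fin n → Kˣ) (S : Finset (Fin n)) :
    ord i (pf l S) = ∑ j ∈ S, ord i (l j : K) := by
  classical
  induction S using Finset.induction_on with
  | empty =>
    have := h.const i (1 : k) one_ne_zero
    rw [map_one] at this
    simpa [pf] using this
  | insert a S ha ih =>
    have h1 : pf l (insert a S) = (l a : K) * pf l S := by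
      unfold pf
      rw [Finset.prod_insert ha]
    have h2 : pf l S ≠ 0 := Finset.prod_ne_zero_iff.2 fun j _ => (l j).ne_zero
    rw [h1, h.mul i _ _ (l a).ne_zero h2, ih, Finset.sum_insert ha]

/-- Elements of `K_{n+1} / 2` which are unramified outside the finite set `R` of prime divisors vanish if the degree of `R` is smaller than
`-K_X . D ^ n`. -/
theorem ramified_zero [IsAlgClosed k] (h2 : (2 : k) ≠ 0) [Nonempty ι] (M : Model h D) {n : ℕ} {e0 e1 δ : ℝ} (hδ : δ < 2 * e1)
    (hd : (fun m : ℕ => (dd h D m 0 : ℝ) - (e0 * (m : ℝ) ^ (n + 1) / (n + 1).factorial + e1 * (m : ℝ) ^ n / n.factorial))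
      =o[atTop] fun m : ℕ => (m : ℝ) ^ n) (R : Finset ι)
    (hG : ∀ᶠ m : ℕ in atTop, ((∑ i ∈ R, hh h D i m : ℤ) : ℝ) ≤ δ * (m : ℝ) ^ n / n.factorial) (x : KM K (n + 1))
    (hx : ∀ i ∉ R, ∀ (O : ValuationSubring K) (hk : ∀ c : k, algebraMap k K c ∈ O) [IsDiscreteValuationRing O],
      (∀ y, y ∈ O ↔ (y ≠ 0 → 0 ≤ ord i y)) → ∃ (p : O) (hp : Irreducible p), tame O hp (neg_one_sq O hk) n x = 0) : x = 0 := by
  have hK : ULe K (2 ^ (n + 1)) := u_K M (n := n + 1) (by omega) hd
  have hiK : IsSquare (-1 : K) := by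
    obtain ⟨c, hc⟩ := IsAlgClosed.exists_pow_nat_eq (-1 : k) (n := 2) (by norm_num)
    refine ⟨algebraMap k K c, ?_⟩
    rw [← map_mul, ← sq, hc, map_neg, map_one]
  obtain ⟨l, rfl⟩ := exists_sym hiK (by omega) hK x
  have hpf : ∀ S, pf l S ≠ 0 := fun S => Finset.prod_ne_zero_iff.2 fun j _ => (l j).ne_zero
  have hm : ∀ i ∉ R, ResLag ord (pf l) i := by
    intro i hi
    obtain ⟨O, hO, hk, hD⟩ := exists_vs h i
    obtain ⟨p, hp, ht⟩ := hx i hi O hk hO
    have h2κ : (2 : ResidueField O) ≠ 0 := by
      intro h0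
      have h3 : residue O (2 : O) = 0 := by
        rw [map_ofNat]
        exact h0
      rw [residue_eq_zero_iff, mem_maximalIdeal, mem_nonunits_iff] at h3
      apply h3
      have h4 : algebraMap k K (2 : k)⁻¹ ∈ O := hk _
      rw [isUnit_iff_exists_inv]
      refine ⟨⟨_, h4⟩, ?_⟩
      apply Subtype.ext
      change (2 : K) * algebraMap k K (2 : k)⁻¹ = 1
      rw [← map_ofNat (algebraMap k K) 2, ← map_mul, mul_inv_cancel₀ h2, map_one]
    exact meta_of_resZero h i O hO hpf
      (resZero_of_tame O hp (neg_one_sq O hk) h2κ (u_kappa M hd i O hO) l ht)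
  have hR : ∀ i ∈ R, ResDef ord (pf l) i (2 ^ n) := by
    intro i _
    refine resDef_all h hpf i ?_
    simp only [ord_pf h i l]
    exact card_odd_le fun j => ord i (l j : K)
  obtain ⟨y, hy, hy2⟩ := isotropic_log M (n := n + 1) (by omega) (δ := 2 ^ n * δ) (e0 := e0) (e1 := e1) (by
      rw [pow_succ]
      nlinarith [pow_pos (two_pos : (0 : ℝ) < 2) n]) hd (by
      rw [Fintype.card_finset, Fintype.card_fin]) hpf R (fun _ => 2 ^ n) hm hR (by
      filter_upwards [hG] with m hm
      rw [← Finset.mul_sum]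
      push_cast
      calc (2 : ℝ) ^ n * ∑ i ∈ R, (hh h D i m : ℝ) ≤ 2 ^ n * (δ * (m : ℝ) ^ n / n.factorial) := by
            refine mul_le_mul_of_nonneg_left ?_ (by positivity)
            exact_mod_cast hm
        _ = 2 ^ n * δ * (m : ℝ) ^ n / n.factorial := by ring)
  exact sym_isotropic hiK l y hy hy2

end Pool.Agent.Helper41.TU
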