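import Pool.Agent.Helper41.TU.Lg2
import Pool.Agent.Helper41.TU.Fin1

/-!
# Project TU: ramification along divisors of small degree, for homogeneous coordinate rings
-/

set_option autoImplicit false

namespace Pool.Agent.Helper41.TU

open Module Filter Asymptotics IsLocalRing

section

variable {A L : Type*} [CommRing A] [Field L] [Algebra A L] {P : Ideal A} {o : L → ℤ}

private theorem one7 (h : IsOrd L P o) : o 1 = 0 := by
  have h1 := h.mul 1 1 one_ne_zero one_ne_zero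
  rw [mul_one] at h1
  linarith

private theorem div7 (h : IsOrd L P o) {x y : L} (hx : x ≠ 0) (hy : y ≠ 0) : o (x / y) = o x - o y := by
  have h1 := h.mul (x / y) y (div_ne_zero hx hy) hy
  rw [div_mul_cancel₀ _ hy] at h1
  linarith

private theorem pow7 (h : IsOrd L P o) {x : L} (hx : x ≠ 0) (n : ℕ) : o (x ^ n) = n * o x := by
  induction n with
  | zero => simp [one7 h]
  | succ n ih =>
    rw [pow_succ, h.mul _ _ (pow_ne_zero _ hx) hx, ih]
    push_cast
    ring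

end

variable {k A : Type*} [Field k] [CommRing A] [Algebra k A] (𝒜 : ℕ → Submodule k A) [GradedAlgebra 𝒜]
  [IsDomain A] (L : Type*) [Field L] [Algebra A L] [IsFractionRing A L] [Algebra k L] [IsScalarTower k A L]

/-- The elements of degree `m` of the ideal `P`. -/
def part (P : Ideal A) (m : ℕ) : Submodule k A := 𝒜 m ⊓ P.restrictScalars k

variable [IsNoetherianRing A] [IsIntegrallyClosed A]

/-- `a / t₀ ^ m` -/
private def el7 {t₀ : A} (ht : t₀ ∈ 𝒜 1) (ht0 : t₀ ≠ 0) (m : ℕ) (P : Ideal A) (a : part 𝒜 P m) : funField 𝒜 L :=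
  ⟨algebraMap A L a.1 / algebraMap A L t₀ ^ m, by
    rw [mem_funField]
    refine ⟨m, a.1, t₀ ^ m, a.2.1, ?_, pow_ne_zero _ ht0, by rw [map_pow]⟩
    have h1 := SetLike.pow_mem_graded m ht
    rwa [smul_eq_mul, mul_one] at h1⟩

private def lin7 {t₀ : A} (ht : t₀ ∈ 𝒜 1) (ht0 : t₀ ≠ 0) (m : ℕ) (P : Ideal A) : part 𝒜 P m →ₗ[k] funField 𝒜 L where
  toFun a := el7 𝒜 L ht ht0 m P a
  map_add' := by
    intro a b
    apply Subtype.ext
    change algebraMap A L (a.1 + b.1) / _ = algebraMap A L a.1 / _ + algebraMap A L b.1 / _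
    rw [← add_div, ← map_add]
  map_smul' := by
    intro c a
    apply Subtype.ext
    change algebraMap A L (c • a.1) / algebraMap A L t₀ ^ m = c • (algebraMap A L a.1 / algebraMap A L t₀ ^ m)
    rw [Algebra.smul_def, Algebra.smul_def, map_mul, ← IsScalarTower.algebraMap_apply k A L, mul_div_assoc]

theorem hh_le (hP : Polarized 𝒜) (hbig : ∃ m, 2 ≤ finrank k (𝒜 m)) {t₀ : A} (ht : t₀ ∈ 𝒜 1) (ht0 : t₀ ≠ 0) (P : PD 𝒜) (m : ℕ) :
    hh (ords_graded 𝒜 L hP hbig) (fun P => ordP 𝒜 L P (algebraMap A L t₀)) P m ≤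
      (finrank k (𝒜 m) : ℤ) - finrank k (part 𝒜 P.1 m) := by
  classical
  obtain ⟨M, hM⟩ := model_graded 𝒜 L hP hbig ht ht0
  haveI : Nonempty (PD 𝒜) := ⟨P⟩
  have htL : algebraMap A L t₀ ≠ 0 := map_ne_zero' L ht0
  unfold hh
  rw [hM]
  have hfd : FiniteDimensional k (V (ords_graded 𝒜 L hP hbig) (fun P => ordP 𝒜 L P (algebraMap A L t₀)) m
    (-Finsupp.single P 1)) := fd_all M m _
  have hmem : ∀ a : part 𝒜 P.1 m, lin7 𝒜 L ht ht0 m P.1 a ∈
      V (ords_graded 𝒜 L hP hbig) (fun P => ordP 𝒜 L P (algebraMap A L t₀)) m (-Finsupp.single P 1) := by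
    intro a
    rw [mem_V]
    intro hne Q
    have ha0 : a.1 ≠ 0 := by
      intro h0
      apply hne
      apply Subtype.ext
      change algebraMap A L a.1 / algebraMap A L t₀ ^ m = 0
      rw [h0, map_zero, zero_div]
    change _ ≤ ordP 𝒜 L Q (algebraMap A L a.1 / algebraMap A L t₀ ^ m)
    rw [div7 (isOrd_ordP 𝒜 L Q) (map_ne_zero' L ha0) (pow_ne_zero m htL), pow7 (isOrd_ordP 𝒜 L Q) htL]
    have h1 := (isOrd_ordP 𝒜 L Q).nonneg a.1 ha0
    rw [Finsupp.neg_apply, Finsupp.single_apply]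
    split_ifs with hQ
    · subst hQ
      have h2 := ((isOrd_ordP 𝒜 L P).mem a.1 ha0).2 a.2.2
      linarith
    · linarith
  have hinj : Function.Injective (LinearMap.codRestrict _ (lin7 𝒜 L ht ht0 m P.1) hmem) := by
    intro a b hab
    have h1 : lin7 𝒜 L ht ht0 m P.1 a = lin7 𝒜 L ht ht0 m P.1 b := congrArg Subtype.val hab
    have h2 : algebraMap A L a.1 / algebraMap A L t₀ ^ m = algebraMap A L b.1 / algebraMap A L t₀ ^ m :=
      congrArg Subtype.val h1
    have h3 := (div_left_inj' (pow_ne_zero m htL)).1 h2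
    exact Subtype.ext (IsFractionRing.injective A L h3)
  have h4 := LinearMap.finrank_le_finrank_of_injective hinj
  have h5 : (finrank k (part 𝒜 P.1 m) : ℤ) ≤ dd (ords_graded 𝒜 L hP hbig) (fun P => ordP 𝒜 L P (algebraMap A L t₀)) m
      (-Finsupp.single P 1) := by
    unfold dd
    exact_mod_cast h4
  linarith

omit [IsNoetherianRing A] in
/-- Elements of `K_N / 2` of the function field of `Proj A` which are unramified outside a finite set `R` of prime divisors vanish if the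
degree of `R` is smaller than `-K . L^(N-1)`. -/
theorem main_log [IsAlgClosed k] (h2 : (2 : k) ≠ 0) (hP : Polarized 𝒜) {n : ℕ} {e0 e1 δ : ℝ} (he0 : 0 < e0) (hδ : δ < 2 * e1)
    (hd : (fun m : ℕ => (finrank k (𝒜 m) : ℝ) - (e0 * (m : ℝ) ^ (n + 1) / (n + 1).factorial + e1 * (m : ℝ) ^ n / n.factorial))
      =o[atTop] fun m : ℕ => (m : ℝ) ^ n)
    (R : Finset (PD 𝒜)) (hG : ∀ᶠ m : ℕ in atTop,
      ∑ P ∈ R, ((finrank k (𝒜 m) : ℝ) - finrank k (part 𝒜 P.1 m)) ≤ δ * (m : ℝ) ^ n / n.factorial)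
    (x : KM (funField 𝒜 L) (n + 1))
    (hx : ∀ P : PD 𝒜, P ∉ R → ∀ (O : ValuationSubring (funField 𝒜 L)) (hk : ∀ c : k, algebraMap k (funField 𝒜 L) c ∈ O)
      [IsDiscreteValuationRing O],
      (∀ (m : ℕ) (a b : A), a ∈ 𝒜 m → b ∈ 𝒜 m → b ∉ P.1 → ∀ y : funField 𝒜 L, (y : L) = algebraMap A L a / algebraMap A L b → y ∈ O) →
      ∃ (p : O) (hp : Irreducible p), tame O hp (neg_one_sq O hk) n x = 0) : x = 0 := by
  haveI : IsNoetherianRing A := noeth 𝒜 hP
  have hbig1 := tendsto_dim 𝒜 he0 hd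
  have hbig : ∃ m, 2 ≤ finrank k (𝒜 m) := by
    obtain ⟨m, _, hm⟩ := hbig1
    exact ⟨m, hm⟩
  obtain ⟨t, ht, ht0⟩ := exists_ne_zero 𝒜 hP hbig1
  haveI : Nonempty (PD 𝒜) := nonempty_PD 𝒜 ht ht0
  obtain ⟨M, hM⟩ := model_graded 𝒜 L hP hbig ht ht0
  refine ramified_zero h2 M (e0 := e0) hδ ?_ R ?_ x ?_
  · simp only [hM]
    exact_mod_cast hd
  · filter_upwards [hG] with m hm
    refine le_trans ?_ hm
    push_cast
    refine Finset.sum_le_sum fun P _ => ?_
    have h3 := hh_le 𝒜 L hP hbig ht ht0 P m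
    exact_mod_cast h3
  · intro P hPR O hk _ hO
    refine hx P hPR O hk ?_
    intro m a b _ _ hbP y hy
    rw [hO]
    intro hy0
    have hb0 : b ≠ 0 := fun h0 => hbP (h0 ▸ P.1.zero_mem)
    have ha0 : a ≠ 0 := by
      rintro rfl
      apply hy0
      apply Subtype.ext
      rw [hy, map_zero, zero_div]
      rfl
    change 0 ≤ ordP 𝒜 L P (y : L)
    rw [hy, div7 (isOrd_ordP 𝒜 L P) (map_ne_zero' L ha0) (map_ne_zero' L hb0)]
    have h3 := (isOrd_ordP 𝒜 L P).nonneg a ha0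
    have h4 := (isOrd_ordP 𝒜 L P).nonneg b hb0
    have h5 := mt ((isOrd_ordP 𝒜 L P).mem b hb0).1 hbP
    omega

end Pool.Agent.Helper41.TU
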