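import Pool.Agent.Helper41.TU.MkDefs

/-!
# Block TU-MK1: symbols

`sym_mul`, `sym_steinberg`: the relations. `sym_ind`: the quotient map is surjective, `Finsupp` induction, coefficients `0, 1` in `ZMod 2`.
`sym_one`: `{.., 1, ..} = 2 {..} = 0`; `sym_sq`: `= 2 (..) = 0`, `sym_inv`.
`sym_neg` (`-1` is a square): `sym_mul` and `sym_sq`.
`sym_self`: `{a, -a} = 0` for `a ≠ 1` because `-a = (1 - a) / (1 - a⁻¹)`: `{a, -a} = {a, 1 - a} - {a, 1 - a⁻¹} = {a, 1 - a} + {a⁻¹, 1 - a⁻¹} = 0` (for `a = 1` it is
`sym_one`); so `{a, a} = {a, -1} + {a, -a} = 0` if `-1` is a square.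
`sym_swap`: `0 = {ab, ab} = {a, a} + {a, b} + {b, a} + {b, b}`, and `-x = x` in `KM`. `sym_perm`: by swaps (`Equiv.Perm.swap_induction_on`).
`sym_add_entries` (`u + v = w`): `{u / w, v / w} = 0`, so `{u, v} = {u, w} + {w, v} + {w, w} = {w, u v}`.
`sym_many`: induction on `T`; in the step the terms with `x` in two entries vanish by `sym_self`.

`sym_value`: if `c = ∑ S, pf l S * x S ^ 2 ≠ 0` then `{l_1, .., l_n, c} = 0` (`Fin.snoc l c`). Induction on `n`. `n = 0`: `c = x^2`. Step: with `a` the last (or first) entry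
of `l` and `l'` the other ones, `c = u + a v`, `u`, `v` values of `pf l'`. If `v = 0`: `{l', u} = 0`, so `{l, c} = 0`. If `u = 0`:
`{l', a, a v} = {l', a, a} + {l', a, v} = 0`. If both are nonzero: `c = u (1 + a v / u)`, `{l', a, u} = 0`, and
`{l', a, 1 + a v / u} = {l', a v / u, 1 + a v / u} - {l', v / u, 1 + a v / u} = 0`: the first because `{-b, 1 + b} = 0` and `-1` is a square, the second because
`{l', v / u} = {l', v} - {l', u} = 0` by induction (a vanishing symbol with one more entry is `0`: the map `KM n → KM (n + 1)`, `{l} ↦ {l, b}` is well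
defined: state and prove this first).
`sym_isotropic`: `{l} = 0` if the form `pf l` is isotropic. Induction on `n` (`n = 0` is impossible). `∑ = u + a v = 0` where `u = φ'(x)`, `v = φ'(y)`, `φ' = pf l'`. If `φ'` is
isotropic then `{l'} = 0`. Otherwise `u, v ≠ 0`, `a = - u / v`, `{l', a} = {l', u} - {l', v} = 0` by `sym_value`.
-/

set_option autoImplicit false

namespace Pool.Agent.Helper41.TU

open Function

variable {F : Type*} [Field F] {n : ℕ}

theorem sym_mul (l : Fin n → Fˣ) (i : Fin n) (a b : Fˣ) :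
    sym (update l i (a * b)) = sym (update l i a) + sym (update l i b) := by
  have h1 : (Submodule.Quotient.mk (Finsupp.single (update l i (a * b)) 1 - Finsupp.single (update l i a) 1 -
      Finsupp.single (update l i b) 1) : KM F n) = 0 :=
    (Submodule.Quotient.mk_eq_zero _).2 (Submodule.subset_span (KRel.mul l i a b))
  rw [Submodule.Quotient.mk_sub, Submodule.Quotient.mk_sub, sub_sub, sub_eq_zero] at h1
  exact h1

theorem sym_steinberg (l : Fin n → Fˣ) {i j : Fin n} (hij : i ≠ j) (h : (l i : F) + l j = 1) : sym l = 0 :=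
  (Submodule.Quotient.mk_eq_zero _).2 (Submodule.subset_span (KRel.steinberg l i j hij h))

theorem KM_add_self (x : KM F n) : x + x = 0 := by
  have h1 : x + x = (2 : ZMod 2) • x := (two_smul (ZMod 2) x).symm
  have h2 : (2 : ZMod 2) = 0 := by decide
  rw [h1, h2, zero_smul]

/-- `p` holds if it is compatible with sums and holds for `0` and the symbols. -/
theorem sym_ind {p : KM F n → Prop} (h0 : p 0) (hs : ∀ l, p (sym l)) (ha : ∀ x y, p x → p y → p (x + y)) (x : KM F n) : p x := by
  obtain ⟨y, rfl⟩ := Submodule.Quotient.mk_surjective _ x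
  induction y using Finsupp.induction_linear with
  | zero => exact h0
  | add f g hf hg => exact ha _ _ hf hg
  | single l c =>
    have hc : c = 0 ∨ c = 1 := by
      revert c
      decide
    rcases hc with rfl | rfl
    · rw [Finsupp.single_zero]
      exact h0
    · exact hs l

private theorem one56 (l : Fin n → Fˣ) (i : Fin n) : sym (update l i 1) = 0 := by
  have h1 := sym_mul l i 1 1
  rw [mul_one, KM_add_self] at h1
  exact h1

theorem sym_one (l : Fin n → Fˣ) (i : Fin n) (h : l i = 1) : sym l = 0 := by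
  have h1 := one56 l i
  rw [← h, update_eq_self] at h1
  exact h1

private theorem sq56 (l : Fin n → Fˣ) (i : Fin n) (b : Fˣ) : sym (update l i (b * b)) = 0 := by
  rw [sym_mul, KM_add_self]

theorem sym_sq (l : Fin n → Fˣ) (i : Fin n) (h : IsSquare (l i)) : sym l = 0 := by
  obtain ⟨b, hb⟩ := h
  have h1 := sq56 l i b
  rw [← hb, update_eq_self] at h1
  exact h1

theorem sym_mul_sq (l : Fin n → Fˣ) (i : Fin n) (b : Fˣ) : sym (update l i (l i * b ^ 2)) = sym l := by
  rw [sym_mul, pow_two, sq56, add_zero, update_eq_self]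

private theorem inv56 (l : Fin n → Fˣ) (i : Fin n) (a : Fˣ) : sym (update l i a⁻¹) = sym (update l i a) := by
  have h1 := sym_mul l i a a⁻¹
  rw [mul_inv_cancel, one56] at h1
  have h2 := KM_add_self (sym (update l i a))
  exact (add_left_cancel (h2.trans h1)).symm

theorem sym_neg (hi : IsSquare (-1 : F)) (l : Fin n → Fˣ) (i : Fin n) : sym (update l i (-l i)) = sym l := by
  obtain ⟨r, hr⟩ := hi
  have hr0 : r ≠ 0 := by
    intro h0
    rw [h0, mul_zero] at hr
    exact neg_ne_zero.2 one_ne_zero hr
  have h1 : -l i = l i * (Units.mk0 r hr0) ^ 2 := by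
    apply Units.ext
    rw [Units.val_neg, Units.val_mul, Units.val_pow_eq_pow_val, Units.val_mk0, pow_two, ← hr, mul_neg_one]
  rw [h1, sym_mul_sq]

/-- the symbol with two entries replaced -/
private noncomputable def L56 (l : Fin n → Fˣ) (i j : Fin n) (x y : Fˣ) : KM F n := sym (update (update l i x) j y)

private theorem L_eq56 (l : Fin n → Fˣ) (i j : Fin n) : L56 l i j (l i) (l j) = sym l := by
  unfold L56
  rw [update_eq_self, update_eq_self]

private theorem L_mulr56 (l : Fin n → Fˣ) (i j : Fin n) (x y z : Fˣ) :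
    L56 l i j x (y * z) = L56 l i j x y + L56 l i j x z := sym_mul _ _ _ _

private theorem L_mull56 (l : Fin n → Fˣ) {i j : Fin n} (hij : i ≠ j) (x y z : Fˣ) :
    L56 l i j (x * y) z = L56 l i j x z + L56 l i j y z := by
  unfold L56
  rw [update_comm hij, update_comm hij, update_comm hij, sym_mul]

private theorem L_invr56 (l : Fin n → Fˣ) (i j : Fin n) (x y : Fˣ) : L56 l i j x y⁻¹ = L56 l i j x y := inv56 _ _ _

private theorem L_invl56 (l : Fin n → Fˣ) {i j : Fin n} (hij : i ≠ j) (x y : Fˣ) :
    L56 l i j x⁻¹ y = L56 l i j x y := by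
  unfold L56
  rw [update_comm hij, update_comm hij, inv56]

private theorem L_st56 (l : Fin n → Fˣ) {i j : Fin n} (hij : i ≠ j) {x y : Fˣ} (h : (x : F) + y = 1) :
    L56 l i j x y = 0 := by
  refine sym_steinberg _ hij ?_
  rw [update_of_ne hij, update_self, update_self]
  exact h

private theorem L_negr56 (hi : IsSquare (-1 : F)) (l : Fin n → Fˣ) (i j : Fin n) (x y : Fˣ) :
    L56 l i j x (-y) = L56 l i j x y := by
  have h1 := sym_neg hi (update (update l i x) j y) j
  rw [update_self, update_idem] at h1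
  exact h1

private theorem L_negl56 (hi : IsSquare (-1 : F)) (l : Fin n → Fˣ) {i j : Fin n} (hij : i ≠ j) (x y : Fˣ) :
    L56 l i j (-x) y = L56 l i j x y := by
  have h1 := sym_neg hi (update (update l j y) i x) i
  rw [update_self, update_idem] at h1
  unfold L56
  rw [update_comm hij, update_comm hij]
  exact h1

private theorem L_onel56 (l : Fin n → Fˣ) {i j : Fin n} (hij : i ≠ j) (y : Fˣ) : L56 l i j 1 y = 0 := by
  unfold L56
  rw [update_comm hij, one56]

private theorem L_self56 (hi : IsSquare (-1 : F)) (l : Fin n → Fˣ) {i j : Fin n} (hij : i ≠ j) (a : Fˣ) :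
    L56 l i j a a = 0 := by
  by_cases ha : a = 1
  · rw [ha]
    exact L_onel56 l hij 1
  have hc0 : (1 : F) - a ≠ 0 := by
    intro h
    apply ha
    apply Units.ext
    rw [Units.val_one]
    exact (sub_eq_zero.1 h).symm
  have hd0 : (1 : F) - (a⁻¹ : Fˣ) ≠ 0 := by
    intro h
    apply ha
    have h1 : a⁻¹ = 1 := by
      apply Units.ext
      rw [Units.val_one]
      exact (sub_eq_zero.1 h).symm
    exact inv_eq_one.1 h1
  have hac : -a = Units.mk0 _ hc0 * (Units.mk0 _ hd0)⁻¹ := by
    rw [eq_mul_inv_iff_mul_eq]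
    apply Units.ext
    rw [Units.val_mul, Units.val_neg, Units.val_mk0, Units.val_mk0, mul_sub, mul_one, neg_mul, Units.mul_inv]
    ring
  rw [← L_negr56 hi, hac, L_mulr56, L_invr56, L_st56 l hij (by rw [Units.val_mk0]; ring), zero_add, ← L_invl56 l hij,
    L_st56 l hij (by rw [Units.val_mk0]; ring)]

theorem sym_self (hi : IsSquare (-1 : F)) (l : Fin n → Fˣ) {i j : Fin n} (hij : i ≠ j) (h : l i = l j) : sym l = 0 := by
  rw [← L_eq56 l i j, h]
  exact L_self56 hi l hij _

private theorem L_swap56 (hi : IsSquare (-1 : F)) (l : Fin n → Fˣ) {i j : Fin n} (hij : i ≠ j) (a b : Fˣ) :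
    L56 l i j b a = L56 l i j a b := by
  have h1 := L_self56 hi l hij (a * b)
  rw [L_mulr56, L_mull56 l hij, L_mull56 l hij, L_self56 hi l hij, L_self56 hi l hij, zero_add, add_zero] at h1
  have h2 := KM_add_self (L56 l i j b a)
  exact add_left_cancel (h2.trans h1.symm)

private theorem swap56 (hi : IsSquare (-1 : F)) (l : Fin n → Fˣ) {i j : Fin n} (hij : i ≠ j) :
    sym (l ∘ Equiv.swap i j) = sym l := by
  have h1 := L_swap56 hi l hij (l i) (l j)
  rw [L_eq56] at h1
  rw [← h1]
  unfold L56
  congr 1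
  funext k
  rw [comp_apply]
  by_cases hk : k = j
  · rw [hk, Equiv.swap_apply_right, update_self]
  by_cases hk' : k = i
  · rw [hk', Equiv.swap_apply_left, update_of_ne hij, update_self]
  · rw [Equiv.swap_apply_of_ne_of_ne hk' hk, update_of_ne hk, update_of_ne hk']

theorem sym_perm (hi : IsSquare (-1 : F)) (l : Fin n → Fˣ) (σ : Equiv.Perm (Fin n)) : sym (l ∘ σ) = sym l := by
  induction σ using Equiv.Perm.swap_induction_on generalizing l with
  | one => rfl
  | swap_mul σ x y hxy ih =>
    have h1 : l ∘ (Equiv.swap x y * σ : Equiv.Perm (Fin n)) = (l ∘ Equiv.swap x y) ∘ σ := rfl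
    rw [h1, ih, swap56 hi l hxy]

/-- `{u, v} = {u + v, u v}` -/
theorem sym_add_entries (hi : IsSquare (-1 : F)) (l : Fin n → Fˣ) {i j : Fin n} (hij : i ≠ j) (w : Fˣ)
    (hw : (w : F) = l i + l j) : sym l = sym (update (update l i w) j (l i * l j)) := by
  have h0 : L56 l i j (l i * w⁻¹) (l j * w⁻¹) = 0 := by
    refine L_st56 l hij ?_
    rw [Units.val_mul, Units.val_mul, ← add_mul, ← hw, Units.mul_inv]
  rw [L_mulr56, L_mull56 l hij, L_mull56 l hij, L_invl56 l hij, L_invl56 l hij, L_invr56, L_invr56, L_self56 hi l hij,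
    add_zero, L_eq56, L_swap56 hi l hij w (l i)] at h0
  have h1 : sym (update (update l i w) j (l i * l j)) = L56 l i j w (l i) + L56 l i j w (l j) := L_mulr56 _ _ _ _ _ _
  have h2 := KM_add_self (L56 l i j w (l i) + L56 l i j w (l j))
  rw [h1]
  have h3 : sym l + (L56 l i j w (l i) + L56 l i j w (l j)) = 0 := by
    rw [← h0]
    abel
  exact add_right_cancel (h3.trans h2.symm)

theorem sym_many (hi : IsSquare (-1 : F)) (l : Fin n → Fˣ) (x : Fˣ) (T : Finset (Fin n)) :
    sym (fun j => if j ∈ T then l j * x else l j) = sym l + ∑ j ∈ T, sym (update l j x) := by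
  induction T using Finset.induction_on generalizing l with
  | empty => simp
  | insert a T ha ih =>
    have h1 : (fun j => if j ∈ insert a T then l j * x else l j) =
        update (fun j => if j ∈ T then l j * x else l j) a (l a * x) := by
      funext j
      by_cases hj : j = a
      · rw [hj, update_self, if_pos (Finset.mem_insert_self a T)]
      · rw [update_of_ne hj]
        simp [hj]
    have h2 : update (fun j => if j ∈ T then l j * x else l j) a (l a) = fun j => if j ∈ T then l j * x else l j := by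
      have : l a = (fun j => if j ∈ T then l j * x else l j) a := by simp [ha]
      rw [this, update_eq_self]
    have h3 : update (fun j => if j ∈ T then l j * x else l j) a x =
        fun j => if j ∈ T then (update l a x) j * x else (update l a x) j := by
      funext j
      by_cases hj : j = a
      · rw [hj, update_self, update_self, if_neg ha]
      · rw [update_of_ne hj, update_of_ne hj]
    have h4 : ∑ j ∈ T, sym (update (update l a x) j x) = 0 := by
      refine Finset.sum_eq_zero fun j hj => ?_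
      have hja : a ≠ j := fun h => ha (h ▸ hj)
      exact sym_self hi _ hja (by rw [update_of_ne hja, update_self, update_self])
    rw [h1, sym_mul, h2, h3, ih, ih, h4, add_zero, Finset.sum_insert ha]
    abel

/-- One more entry. -/
theorem exists_snoc (n : ℕ) (b : Fˣ) : ∃ φ : KM F n →+ KM F (n + 1), ∀ l : Fin n → Fˣ, φ (sym l) = sym (Fin.snoc (α := fun _ => Fˣ) l b) := by
  let g : ((Fin n → Fˣ) →₀ ZMod 2) →ₗ[ZMod 2] KM F (n + 1) :=
    Finsupp.linearCombination (ZMod 2) (fun l : Fin n → Fˣ => sym (Fin.snoc (α := fun _ => Fˣ) l b))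
  have hg : ∀ l, g (Finsupp.single l 1) = sym (Fin.snoc (α := fun _ => Fˣ) l b) := by
    intro l
    simp [g]
  have hker : Submodule.span (ZMod 2) {x | KRel F n x} ≤ LinearMap.ker g := by
    rw [Submodule.span_le]
    rintro x hx
    rw [SetLike.mem_coe, LinearMap.mem_ker]
    have hx' : KRel F n x := hx
    cases hx' with
    | mul l i a c =>
      rw [map_sub, map_sub, hg, hg, hg, Fin.snoc_update, Fin.snoc_update, Fin.snoc_update, sym_mul]
      abel
    | steinberg l i j hij h =>
      rw [hg]
      refine sym_steinberg _ (i := i.castSucc) (j := j.castSucc) (fun h0 => hij (Fin.castSucc_injective n h0)) ?_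
      rw [Fin.snoc_castSucc, Fin.snoc_castSucc]
      exact h
  exact ⟨(Submodule.liftQ _ g hker).toAddMonoidHom, fun l => hg l⟩

/-- one more entry -/
private abbrev sn56 (l : Fin n → Fˣ) (c : Fˣ) : Fin (n + 1) → Fˣ := Fin.snoc (α := fun _ => Fˣ) l c

private theorem sn_last56 (l : Fin n → Fˣ) (c : Fˣ) : sn56 l c (Fin.last n) = c := Fin.snoc_last _ _

private theorem sn_cast56 (l : Fin n → Fˣ) (c : Fˣ) (k : Fin n) : sn56 l c k.castSucc = l k := Fin.snoc_castSucc _ _ _

private theorem sn_mul56 (l : Fin n → Fˣ) (a b : Fˣ) : sym (sn56 l (a * b)) = sym (sn56 l a) + sym (sn56 l b) := by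
  have h1 := sym_mul (sn56 l a) (Fin.last n) a b
  rw [Fin.update_snoc_last, Fin.update_snoc_last, Fin.update_snoc_last] at h1
  exact h1

private theorem sn_inv56 (l : Fin n → Fˣ) (a : Fˣ) : sym (sn56 l a⁻¹) = sym (sn56 l a) := by
  have h1 := inv56 (sn56 l a) (Fin.last n) a
  rw [Fin.update_snoc_last, Fin.update_snoc_last] at h1
  exact h1

private theorem sn_neg56 (hi : IsSquare (-1 : F)) (l : Fin n → Fˣ) (a : Fˣ) : sym (sn56 l (-a)) = sym (sn56 l a) := by
  have h1 := sym_neg hi (sn56 l a) (Fin.last n)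
  rw [sn_last56, Fin.update_snoc_last] at h1
  exact h1

private theorem sn_zero56 {l : Fin n → Fˣ} (h : sym l = 0) (b : Fˣ) : sym (sn56 l b) = 0 := by
  obtain ⟨φ, hφ⟩ := exists_snoc (F := F) n b
  rw [← hφ, h, map_zero]

private theorem sn2_mul56 (l : Fin n → Fˣ) (a b e : Fˣ) :
    sym (sn56 (sn56 l (a * b)) e) = sym (sn56 (sn56 l a) e) + sym (sn56 (sn56 l b) e) := by
  obtain ⟨φ, hφ⟩ := exists_snoc (F := F) (n + 1) e
  rw [← hφ, ← hφ, ← hφ, sn_mul56, map_add]

private theorem sn_swap56 (hi : IsSquare (-1 : F)) (l : Fin n → Fˣ) (a c : Fˣ) :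
    sym (sn56 (sn56 l a) c) = sym (sn56 (sn56 l c) a) := by
  have hne : (Fin.last (n + 1)) ≠ (Fin.last n).castSucc := by
    intro h
    have := congrArg Fin.val h
    simp at this
  rw [← swap56 hi (sn56 (sn56 l a) c) hne]
  congr 1
  funext k
  rw [comp_apply]
  induction k using Fin.lastCases with
  | last => rw [Equiv.swap_apply_left, sn_cast56, sn_last56, sn_last56]
  | cast k =>
    induction k using Fin.lastCases with
    | last => rw [Equiv.swap_apply_right, sn_last56, sn_cast56, sn_last56]
    | cast k =>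
      have h1 : k.castSucc.castSucc ≠ Fin.last (n + 1) := Fin.castSucc_ne_last _
      have h2 : k.castSucc.castSucc ≠ (Fin.last n).castSucc := by
        intro h
        exact Fin.castSucc_ne_last k (Fin.castSucc_injective _ h)
      rw [Equiv.swap_apply_of_ne_of_ne h1 h2, sn_cast56, sn_cast56, sn_cast56,
        sn_cast56]

private theorem split56 {M : Type*} [AddCommMonoid M] (g : Finset (Fin (n + 1)) → M) :
    ∑ S, g S = ∑ S : Finset (Fin n), g (S.image Fin.castSucc) +
      ∑ S : Finset (Fin n), g (insert (Fin.last n) (S.image Fin.castSucc)) := by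
  have h1 : (Finset.univ : Finset (Fin (n + 1))) =
      insert (Fin.last n) ((Finset.univ : Finset (Fin n)).image Fin.castSucc) := by
    ext k
    induction k using Fin.lastCases with
    | last => simp
    | cast k => simp
  have h2 : Fin.last n ∉ ((Finset.univ : Finset (Fin n)).image Fin.castSucc) := by
    intro h
    obtain ⟨k, -, hk⟩ := Finset.mem_image.1 h
    exact Fin.castSucc_ne_last k hk
  have hinj : Function.Injective (fun S : Finset (Fin n) => S.image Fin.castSucc) :=
    Finset.image_injective (Fin.castSucc_injective n)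
  rw [← Finset.powerset_univ, h1, Finset.sum_powerset_insert h2, Finset.powerset_image, Finset.powerset_univ,
    Finset.sum_image fun _ _ _ _ h => hinj h, Finset.sum_image fun _ _ _ _ h => hinj h]

private theorem pf_cast56 (l : Fin n → Fˣ) (a : Fˣ) (S : Finset (Fin n)) :
    pf (sn56 l a) (S.image Fin.castSucc) = pf l S := by
  unfold pf
  rw [Finset.prod_image fun _ _ _ _ h => Fin.castSucc_injective n h]
  refine Finset.prod_congr rfl fun k _ => ?_
  rw [sn_cast56]

private theorem pf_last56 (l : Fin n → Fˣ) (a : Fˣ) (S : Finset (Fin n)) :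
    pf (sn56 l a) (insert (Fin.last n) (S.image Fin.castSucc)) = a * pf l S := by
  have h2 : Fin.last n ∉ S.image Fin.castSucc := by
    intro h
    obtain ⟨k, -, hk⟩ := Finset.mem_image.1 h
    exact Fin.castSucc_ne_last k hk
  rw [← pf_cast56 l a S]
  unfold pf
  rw [Finset.prod_insert h2, sn_last56]

private theorem form56 (l : Fin n → Fˣ) (a : Fˣ) (x : Finset (Fin (n + 1)) → F) :
    ∑ S, pf (sn56 l a) S * x S ^ 2 = ∑ S, pf l S * x (S.image Fin.castSucc) ^ 2 +
      a * ∑ S, pf l S * x (insert (Fin.last n) (S.image Fin.castSucc)) ^ 2 := by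
  rw [split56, Finset.mul_sum]
  congr 1
  · refine Finset.sum_congr rfl fun S _ => ?_
    rw [pf_cast56]
  · refine Finset.sum_congr rfl fun S _ => ?_
    rw [pf_last56, mul_assoc]

private theorem decomp56 (l : Fin (n + 1) → Fˣ) : ∃ (l' : Fin n → Fˣ) (a : Fˣ), l = sn56 l' a :=
  ⟨Fin.init l, l (Fin.last n), (Fin.snoc_init_self l).symm⟩

theorem sym_value (hi : IsSquare (-1 : F)) (l : Fin n → Fˣ) (x : Finset (Fin n) → F) (c : Fˣ)
    (hc : (c : F) = ∑ S, pf l S * x S ^ 2) : sym (Fin.snoc (α := fun _ => Fˣ) l c) = 0 := by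
  induction n generalizing c with
  | zero =>
    have h1 : (c : F) = x ∅ ^ 2 := by
      rw [hc, Fintype.sum_eq_single (∅ : Finset (Fin 0))]
      · simp [pf]
      · intro S hS
        exact absurd (Subsingleton.elim S ∅) hS
    have hx0 : x ∅ ≠ 0 := by
      intro h
      rw [h] at h1
      exact c.ne_zero (by rw [h1]; norm_num)
    refine sym_sq _ (Fin.last 0) ⟨Units.mk0 _ hx0, ?_⟩
    rw [Fin.snoc_last]
    apply Units.ext
    rw [h1, Units.val_mul, Units.val_mk0, pow_two]
  | succ n ih =>
    obtain ⟨l', a, rfl⟩ := decomp56 l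
    rw [form56] at hc
    obtain ⟨u, hu⟩ : ∃ u, u = ∑ S, pf l' S * x (S.image Fin.castSucc) ^ 2 := ⟨_, rfl⟩
    obtain ⟨v, hv⟩ : ∃ v, v = ∑ S, pf l' S * x (insert (Fin.last n) (S.image Fin.castSucc)) ^ 2 := ⟨_, rfl⟩
    rw [← hu, ← hv] at hc
    -- symbols with a value of the form in the last place
    have hval : ∀ (y : Finset (Fin n) → F) (d : Fˣ), (d : F) = ∑ S, pf l' S * y S ^ 2 → sym (sn56 l' d) = 0 :=
      fun y d hd => ih l' y d hd
    have hval2 : ∀ (y : Finset (Fin n) → F) (d : Fˣ), (d : F) = ∑ S, pf l' S * y S ^ 2 →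
        sym (sn56 (sn56 l' a) d) = 0 := by
      intro y d hd
      rw [sn_swap56 hi]
      exact sn_zero56 (hval y d hd) a
    show sym (sn56 (sn56 l' a) c) = 0
    by_cases hv0 : v = 0
    · rw [hv0, mul_zero, add_zero] at hc
      exact hval2 _ c (hc.trans hu)
    by_cases hu0 : u = 0
    · rw [hu0, zero_add] at hc
      have h1 : c = a * Units.mk0 v hv0 := Units.ext (by rw [hc, Units.val_mul, Units.val_mk0])
      have h2 : sym (sn56 (sn56 l' a) a) = 0 := by
        have hne : (Fin.last (n + 1)) ≠ (Fin.last n).castSucc := by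
          intro h
          have := congrArg Fin.val h
          simp at this
        refine sym_self hi _ hne ?_
        rw [sn_last56, sn_cast56, sn_last56]
      rw [h1, sn_mul56, h2, zero_add]
      exact hval2 _ _ (by rw [Units.val_mk0]; exact hv)
    · obtain ⟨u', hu'⟩ : ∃ u' : Fˣ, u' = Units.mk0 u hu0 := ⟨_, rfl⟩
      obtain ⟨v', hv'⟩ : ∃ v' : Fˣ, v' = Units.mk0 v hv0 := ⟨_, rfl⟩
      have hu1 : (u' : F) = u := by rw [hu', Units.val_mk0]
      have hv1 : (v' : F) = v := by rw [hv', Units.val_mk0]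
      have hlu : sym (sn56 l' u') = 0 := hval _ u' (hu1.trans hu)
      have hlv : sym (sn56 l' v') = 0 := hval _ v' (hv1.trans hv)
      have h1 : c = u' * (c * u'⁻¹) := by rw [mul_comm c, mul_inv_cancel_left]
      have h2 : a = a * v' * u'⁻¹ * (u' * v'⁻¹) := by
        rw [mul_assoc (a * v'), inv_mul_cancel_left, mul_inv_cancel_right]
      obtain ⟨e, he⟩ : ∃ e, e = c * u'⁻¹ := ⟨_, rfl⟩
      obtain ⟨b, hb⟩ : ∃ b, b = a * v' * u'⁻¹ := ⟨_, rfl⟩
      have h3 : sym (sn56 (sn56 l' (u' * v'⁻¹)) e) = 0 := by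
        apply sn_zero56
        rw [sn_mul56, sn_inv56, hlu, hlv, add_zero]
      have h4 : sym (sn56 (sn56 l' b) e) = 0 := by
        have h5 : sym (sn56 (sn56 l' (-b)) e) = 0 := by
          refine sym_steinberg _ (i := (Fin.last n).castSucc) (j := Fin.last (n + 1)) ?_ ?_
          · intro h
            have := congrArg Fin.val h
            simp at this
          · rw [sn_cast56, sn_last56, sn_last56, Units.val_neg, hb, he, Units.val_mul, Units.val_mul,
              Units.val_mul, hc, hv1]
            have h6 : u * ((u'⁻¹ : Fˣ) : F) = 1 := by rw [← hu1, Units.mul_inv]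
            linear_combination h6
        rw [sn_swap56 hi] at h5 ⊢
        have h7 := sym_neg hi (sn56 (sn56 l' e) b) (Fin.last (n + 1))
        rw [sn_last56, Fin.update_snoc_last] at h7
        rw [← h7]
        exact h5
      rw [h1, sn_mul56, hval2 _ u' (hu1.trans hu), zero_add, ← he, h2, ← hb, sn2_mul56, h3, h4, add_zero]

theorem sym_isotropic (hi : IsSquare (-1 : F)) (l : Fin n → Fˣ) (x : Finset (Fin n) → F) (hx : x ≠ 0)
    (h : ∑ S, pf l S * x S ^ 2 = 0) : sym l = 0 := by
  induction n with
  | zero =>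
    exfalso
    rw [Fintype.sum_eq_single (∅ : Finset (Fin 0))] at h
    · simp [pf] at h
      apply hx
      funext S
      rw [Subsingleton.elim S ∅, h]
      rfl
    · intro S hS
      exact absurd (Subsingleton.elim S ∅) hS
  | succ n ih =>
    obtain ⟨l', a, rfl⟩ := decomp56 l
    rw [form56] at h
    by_cases hiso : ∃ y : Finset (Fin n) → F, y ≠ 0 ∧ ∑ S, pf l' S * y S ^ 2 = 0
    · obtain ⟨y, hy0, hy⟩ := hiso
      exact sn_zero56 (ih l' y hy0 hy) a
    push Not at hiso
    obtain ⟨u, hu⟩ : ∃ u, u = ∑ S, pf l' S * x (S.image Fin.castSucc) ^ 2 := ⟨_, rfl⟩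
    obtain ⟨v, hv⟩ : ∃ v, v = ∑ S, pf l' S * x (insert (Fin.last n) (S.image Fin.castSucc)) ^ 2 := ⟨_, rfl⟩
    have hx0 : u = 0 → ∀ S : Finset (Fin n), x (S.image Fin.castSucc) = 0 := by
      intro h0 S
      by_contra hS
      refine hiso (fun S => x (S.image Fin.castSucc)) ?_ (hu.symm.trans h0)
      intro h1
      exact hS (congrFun h1 S)
    have hx1 : v = 0 → ∀ S : Finset (Fin n), x (insert (Fin.last n) (S.image Fin.castSucc)) = 0 := by
      intro h0 S
      by_contra hS
      refine hiso (fun S => x (insert (Fin.last n) (S.image Fin.castSucc))) ?_ (hv.symm.trans h0)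
      intro h1
      exact hS (congrFun h1 S)
    rw [← hu, ← hv] at h
    have hv0 : v ≠ 0 := by
      intro h0
      rw [h0, mul_zero, add_zero] at h
      apply hx
      funext S
      by_cases hS : Fin.last n ∈ S
      · have h1 : S = insert (Fin.last n) ((Finset.univ.filter (fun k : Fin n => k.castSucc ∈ S)).image Fin.castSucc) := by
          ext k
          induction k using Fin.lastCases with
          | last => simp [hS]
          | cast k => simp
        rw [h1]
        exact hx1 h0 _
      · have h1 : S = (Finset.univ.filter (fun k : Fin n => k.castSucc ∈ S)).image Fin.castSucc := by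
          ext k
          induction k using Fin.lastCases with
          | last => simp [hS]
          | cast k => simp
        rw [h1]
        exact hx0 h _
    have hu0 : u ≠ 0 := by
      intro h0
      rw [h0, zero_add] at h
      exact mul_ne_zero a.ne_zero hv0 h
    have h1 : a = -(Units.mk0 u hu0 * (Units.mk0 v hv0)⁻¹) := by
      have h2 : a * Units.mk0 v hv0 = -Units.mk0 u hu0 := by
        apply Units.ext
        rw [Units.val_mul, Units.val_neg, Units.val_mk0, Units.val_mk0]
        linear_combination h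
      rw [← neg_mul, ← h2, mul_inv_cancel_right]
    rw [h1, sn_neg56 hi, sn_mul56, sn_inv56]
    have h3 : sym (sn56 l' (Units.mk0 u hu0)) = 0 := sym_value hi l' _ _ (by rw [Units.val_mk0]; exact hu)
    have h4 : sym (sn56 l' (Units.mk0 v hv0)) = 0 := sym_value hi l' _ _ (by rw [Units.val_mk0]; exact hv)
    rw [h3, h4, add_zero]

end Pool.Agent.Helper41.TU
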