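import Mathlib

/-!
# Project TU: Milnor K-theory modulo 2 and quadratic forms

`KM F n = K_n^M(F) / 2`: generated by the symbols `{l_1, ..., l_n}`, `l_i ∈ Fˣ`, with the relations that they are multiplicative in each entry
and vanish if `l_i + l_j = 1` for some `i ≠ j`.
`ULe F N`: diagonal quadratic forms of dimension `> N` over `F` are isotropic.
`Metab f`: the diagonal form `⟨f j⟩` vanishes on a subspace of at least half of the dimension.
`pf l S = ∏_{i ∈ S} l i` (`S : Finset (Fin n)`): the coefficients of the Pfister form `⟨1, l_1⟩ ⊗ ... ⊗ ⟨1, l_n⟩` (over fields in which `-1` is a square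
this is also `⟨1, -l_1⟩ ⊗ ... ⊗ ⟨1, -l_n⟩`).
-/

set_option autoImplicit false

namespace Pool.Agent.Helper41.TU

open Module

/-- The defining relations of `K_n^M(F) / 2`. -/
inductive KRel (F : Type*) [Field F] (n : ℕ) : ((Fin n → Fˣ) →₀ ZMod 2) → Prop
  | mul (l : Fin n → Fˣ) (i : Fin n) (a b : Fˣ) : KRel F n (Finsupp.single (Function.update l i (a * b)) 1 -
      Finsupp.single (Function.update l i a) 1 - Finsupp.single (Function.update l i b) 1)
  | steinberg (l : Fin n → Fˣ) (i j : Fin n) (hij : i ≠ j) (h : (l i : F) + l j = 1) : KRel F n (Finsupp.single l 1)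

/-- Milnor K-theory modulo `2`. -/
abbrev KM (F : Type*) [Field F] (n : ℕ) : Type _ :=
  ((Fin n → Fˣ) →₀ ZMod 2) ⧸ Submodule.span (ZMod 2) {x | KRel F n x}

/-- The symbol `{l_1, ..., l_n}`. -/
noncomputable def sym {F : Type*} [Field F] {n : ℕ} (l : Fin n → Fˣ) : KM F n := Submodule.Quotient.mk (Finsupp.single l 1)

/-- The coefficients of the Pfister form. -/
def pf {F : Type*} [Field F] {n : ℕ} (l : Fin n → Fˣ) (S : Finset (Fin n)) : F := ∏ i ∈ S, (l i : F)

/-- Diagonal forms in more than `N` variables are isotropic. -/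
def ULe (F : Type*) [Field F] (N : ℕ) : Prop :=
  ∀ (m : ℕ) (f : Fin m → F), N < m → ∃ x : Fin m → F, x ≠ 0 ∧ ∑ j, f j * x j ^ 2 = 0

/-- The form `⟨f j⟩` is metabolic. -/
def Metab {F : Type*} [Field F] {J : Type*} [Fintype J] (f : J → F) : Prop :=
  ∃ W : Submodule F (J → F), Nat.card J ≤ 2 * finrank F W ∧ ∀ w ∈ W, ∑ j, f j * w j ^ 2 = 0

end Pool.Agent.Helper41.TU
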