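import Pool.Agent.Helper41.TU.Wt

/-!
# Block TU-PM: isotropic Pfister forms are metabolic

`pf l` for `l : Fin (n + 1) → Fˣ`, `l = Fin.cons a l'` (or `Fin.snoc`): under `Finset (Fin (n + 1)) ≃ Finset (Fin n) ⊕ Finset (Fin n)` it is
`φ' ⊥ a φ'`, `φ' = pf l'`.

SIMILARITY. Let `φ = pf l` be anisotropic and `c = φ(x) ≠ 0`. There is a linear map `T` with `φ(T z) = c φ(z)` for all `z`, and `T` is invertible. Induction. `n = 0`:
multiplication by `x`. Step: `φ = φ' ⊥ a φ'`, `x = (x_1, x_2)`, `c_i = φ'(x_i)`, `T_1, T_2` similarities of `φ'` with factors `c_1, c_2` (`φ'` is anisotropic too; `T_i = 0` if `x_i = 0`),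
`T^*` the adjoint for the bilinear form of `φ'`, `T_i^* T_i = T_i T_i^* = c_i`. If `c_1 ≠ 0`: `T(z_1, z_2) = (T_1 z_1 - a c_1⁻¹ T_1 T_2^* T_1 z_2, T_2 z_1 + T_1 z_2)`:
`φ(T z) = φ'(T_1 z_1) + a^2 c_1⁻² φ'(T_1 T_2^* T_1 z_2) + a φ'(T_2 z_1) + a φ'(T_1 z_2) + cross terms = c_1 φ'(z_1) + a^2 c_2 φ'(z_2) + a c_2 φ'(z_1) + a c_1 φ'(z_2) = (c_1 + a c_2)(φ'(z_1) + a φ'(z_2))`,
and the cross terms cancel: `2 b(T_1 z_1, - a c_1⁻¹ T_1 T_2^* T_1 z_2) = - 2 a b(z_1, T_2^* T_1 z_2)` and `2 a b(T_2 z_1, T_1 z_2)`. If `c_1 = 0` then `x_1 = 0`, `c = a c_2`: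
`T(z_1, z_2) = (a T_2 z_2, T_2 z_1)`. (One may avoid adjoints: use `T^{-1}`: `T^* = c T⁻¹`.)

`pfister_metab`. Induction on `n`: `x ≠ 0`, `φ(x) = 0` (`n = 0` impossible). `φ = φ' ⊥ a φ'`. If `φ'` is isotropic, it is metabolic by induction and so is `φ` (`metab_sum`, `metab_smul`).
If `φ'` is anisotropic: `x = (x_1, x_2)`, `c_1 + a c_2 = 0`, so `c_1, c_2 ≠ 0`, `T_1, T_2` the similarities; `R = T_2⁻¹ T_1` has factor `c_1 / c_2 = - a`. `W = {(R z, z)}`: `φ'(R z) + a φ'(z) = 0`;
`dim W = 2^n`.
-/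

set_option autoImplicit false

namespace Pool.Agent.Helper41.TU

open Module

variable {F : Type*} [Field F] {n : ℕ}

private def Sim36 {J : Type*} [Fintype J] [DecidableEq J] (d : J → F) (c : F) : Prop :=
  ∃ T : Matrix J J F, T.transpose * Matrix.diagonal d * T = c • Matrix.diagonal d ∧
    T * Matrix.diagonal (fun j => (d j)⁻¹) * T.transpose = c • Matrix.diagonal (fun j => (d j)⁻¹)

private theorem dg36 {J : Type*} [Fintype J] [DecidableEq J] {d : J → F} (hd : ∀ j, d j ≠ 0) :
    Matrix.diagonal d * Matrix.diagonal (fun j => (d j)⁻¹) = 1 := by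
  rw [Matrix.diagonal_mul_diagonal, ← Matrix.diagonal_one]
  congr 1
  funext j
  exact mul_inv_cancel₀ (hd j)

private theorem dg36' {J : Type*} [Fintype J] [DecidableEq J] {d : J → F} (hd : ∀ j, d j ≠ 0) :
    Matrix.diagonal (fun j => (d j)⁻¹) * Matrix.diagonal d = 1 := by
  rw [Matrix.diagonal_mul_diagonal, ← Matrix.diagonal_one]
  congr 1
  funext j
  exact inv_mul_cancel₀ (hd j)

private theorem sim_of36 {J : Type*} [Fintype J] [DecidableEq J] {d : J → F} (hd : ∀ j, d j ≠ 0) {c : F}
    (h : ∃ T : Matrix J J F, T.transpose * Matrix.diagonal d * T = c • Matrix.diagonal d) : Sim36 d c := by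
  by_cases hc : c = 0
  · subst hc
    exact ⟨0, by simp, by simp⟩
  obtain ⟨T, hT⟩ := h
  refine ⟨T, hT, ?_⟩
  have h1 : (c⁻¹ • (Matrix.diagonal (fun j => (d j)⁻¹) * T.transpose * Matrix.diagonal d)) * T = 1 := by
    rw [Matrix.smul_mul, Matrix.mul_assoc, Matrix.mul_assoc, ← Matrix.mul_assoc T.transpose, hT, Matrix.mul_smul,
      dg36' hd, smul_smul, inv_mul_cancel₀ hc, one_smul]
  have h2 := mul_eq_one_comm.1 h1
  rw [Matrix.mul_smul] at h2
  have h3 : T * (Matrix.diagonal (fun j => (d j)⁻¹) * T.transpose * Matrix.diagonal d) = c • (1 : Matrix J J F) := by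
    rw [← h2, smul_smul, mul_inv_cancel₀ hc, one_smul]
  have h4 : T * (Matrix.diagonal (fun j => (d j)⁻¹) * T.transpose * Matrix.diagonal d) *
      Matrix.diagonal (fun j => (d j)⁻¹) = c • Matrix.diagonal (fun j => (d j)⁻¹) := by
    rw [h3, Matrix.smul_mul, Matrix.one_mul]
  rw [← h4]
  simp only [Matrix.mul_assoc, dg36 hd, Matrix.mul_one]

private theorem sim_step36 {J : Type*} [Fintype J] [DecidableEq J] {d : J → F} (hd : ∀ j, d j ≠ 0) {a : F} (ha : a ≠ 0)
    {c1 c2 : F} (h1 : Sim36 d c1) (h2 : Sim36 d c2) : Sim36 (Sum.elim d (fun j => a * d j)) (c1 + a * c2) := by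
  obtain ⟨T1, h1a, -⟩ := h1
  obtain ⟨T2, h2a, h2b⟩ := h2
  have hE := dg36 hd
  have hE' := dg36' hd
  have hEt : (Matrix.diagonal d).transpose = Matrix.diagonal d := Matrix.diagonal_transpose d
  have hEt' : (Matrix.diagonal (fun j => (d j)⁻¹)).transpose = Matrix.diagonal (fun j => (d j)⁻¹) := Matrix.diagonal_transpose _
  have hbl : Matrix.diagonal (Sum.elim d (fun j => a * d j)) =
      Matrix.fromBlocks (Matrix.diagonal d) 0 0 (a • Matrix.diagonal d) := by
    rw [← Matrix.diagonal_smul, Matrix.fromBlocks_diagonal]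
    rfl
  have hdd : ∀ j, Sum.elim d (fun j => a * d j) j ≠ 0 := by
    rintro (j | j)
    · exact hd j
    · exact mul_ne_zero ha (hd j)
  refine sim_of36 hdd ?_
  rw [hbl]
  generalize Matrix.diagonal d = E at *
  generalize Matrix.diagonal (fun j => (d j)⁻¹) = E' at *
  by_cases hc : c1 = 0
  · subst hc
    refine ⟨Matrix.fromBlocks 0 (a • T2) T2 0, ?_⟩
    rw [Matrix.fromBlocks_transpose, Matrix.fromBlocks_multiply, Matrix.fromBlocks_multiply, Matrix.fromBlocks_smul]
    simp only [Matrix.transpose_zero, Matrix.transpose_smul, Matrix.zero_mul, Matrix.mul_zero, zero_add, add_zero,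
      Matrix.smul_mul, Matrix.mul_smul, smul_zero, h2a, smul_smul]
    rw [mul_comm (a * c2) a]
  · have hS : (E' * T2.transpose * E).transpose = E * T2 * E' := by
      rw [Matrix.transpose_mul, Matrix.transpose_mul, Matrix.transpose_transpose, hEt, hEt', Matrix.mul_assoc]
    have hES : E * (E' * T2.transpose * E) = T2.transpose * E := by
      rw [← Matrix.mul_assoc, ← Matrix.mul_assoc, hE, Matrix.one_mul]
    have hSE : E * T2 * E' * E = E * T2 := by
      rw [Matrix.mul_assoc, hE', Matrix.mul_one]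
    have hSS : E * T2 * (E' * T2.transpose * E) = c2 • E := by
      rw [Matrix.mul_assoc, ← Matrix.mul_assoc T2, ← Matrix.mul_assoc T2, h2b, Matrix.smul_mul, hE', Matrix.mul_smul,
        Matrix.mul_one]
    generalize E' * T2.transpose * E = S at *
    have k1 : T1.transpose * E * (T1 * S * T1) = c1 • (T2.transpose * E * T1) := by
      rw [← Matrix.mul_assoc, ← Matrix.mul_assoc, h1a, Matrix.smul_mul, hES, Matrix.smul_mul]
    have k2 : (T1 * S * T1).transpose * E * T1 = c1 • (T1.transpose * E * T2) := by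
      rw [Matrix.transpose_mul, Matrix.transpose_mul, hS]
      calc T1.transpose * (E * T2 * E' * T1.transpose) * E * T1
          = T1.transpose * (E * T2 * E') * (T1.transpose * E * T1) := by simp only [Matrix.mul_assoc]
        _ = c1 • (T1.transpose * (E * T2 * E' * E)) := by rw [h1a, Matrix.mul_smul, Matrix.mul_assoc T1.transpose]
        _ = c1 • (T1.transpose * E * T2) := by rw [hSE, ← Matrix.mul_assoc]
    have k3 : (T1 * S * T1).transpose * E * (T1 * S * T1) = (c1 * c2 * c1) • E := by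
      rw [← Matrix.mul_assoc, ← Matrix.mul_assoc, k2, Matrix.smul_mul, Matrix.smul_mul, Matrix.mul_assoc T1.transpose E T2,
        Matrix.mul_assoc T1.transpose, hSS, Matrix.mul_smul, Matrix.smul_mul, h1a, smul_smul, smul_smul]
    refine ⟨Matrix.fromBlocks T1 (-(a * c1⁻¹) • (T1 * S * T1)) T2 T1, ?_⟩
    rw [Matrix.fromBlocks_transpose, Matrix.fromBlocks_multiply, Matrix.fromBlocks_multiply, Matrix.fromBlocks_smul]
    simp only [Matrix.transpose_smul, Matrix.mul_zero, zero_add, add_zero,
      Matrix.smul_mul, Matrix.mul_smul, smul_zero, h1a, h2a, k1, k2, k3, smul_smul]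
    congr 1
    · rw [← add_smul]
    · rw [← add_smul]
      have : -(a * c1⁻¹) * c1 + a = 0 := by
        field_simp
        ring
      rw [this, zero_smul]
    · rw [← add_smul]
      have : -(a * c1⁻¹) * c1 + a = 0 := by
        field_simp
        ring
      rw [this, zero_smul]
    · rw [← add_smul]
      congr 1
      field_simp
      ring

/-- Finite subsets of `Fin (n + 1)`. -/
private def eq36 (n : ℕ) : Finset (Fin (n + 1)) ≃ Finset (Fin n) ⊕ Finset (Fin n) where
  toFun S := if 0 ∈ S then Sum.inr (Finset.univ.filter fun i => i.succ ∈ S) else Sum.inl (Finset.univ.filter fun i => i.succ ∈ S)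
  invFun := Sum.elim (fun T => T.map (Fin.succEmb n)) (fun T => insert 0 (T.map (Fin.succEmb n)))
  left_inv S := by
    by_cases h : (0 : Fin (n + 1)) ∈ S
    · simp only [h, if_true, Sum.elim_inr]
      ext i
      refine Fin.cases ?_ (fun j => ?_) i
      · simp [h]
      · simp
    · simp only [h, if_false, Sum.elim_inl]
      ext i
      refine Fin.cases ?_ (fun j => ?_) i
      · simp [h]
      · simp
  right_inv T := by
    rcases T with T | T
    · simp
    · simp

private theorem pf36 (l : Fin (n + 1) → Fˣ) :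
    pf l = Sum.elim (pf fun i => l i.succ) (fun T => (l 0 : F) * pf (fun i => l i.succ) T) ∘ eq36 n := by
  have h : pf l ∘ (eq36 n).symm = Sum.elim (pf fun i => l i.succ) (fun T => (l 0 : F) * pf (fun i => l i.succ) T) := by
    funext T
    rcases T with T | T
    · simp [eq36, pf]
    · simp [eq36, pf]
  rw [← h]
  funext S
  simp

private theorem val36 (l : Fin (n + 1) → Fˣ) (x : Finset (Fin (n + 1)) → F) :
    ∑ S, pf l S * x S ^ 2 = (∑ S, pf (fun i => l i.succ) S * x ((eq36 n).symm (Sum.inl S)) ^ 2) +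
      (l 0 : F) * ∑ S, pf (fun i => l i.succ) S * x ((eq36 n).symm (Sum.inr S)) ^ 2 := by
  rw [← (eq36 n).symm.sum_comp, Fintype.sum_sum_type, Finset.mul_sum]
  rw [pf36 l]
  congr 1
  · refine Finset.sum_congr rfl fun S _ => ?_
    simp
  · refine Finset.sum_congr rfl fun S _ => ?_
    simp only [Function.comp_apply, Equiv.apply_symm_apply, Sum.elim_inr]
    ring

private theorem pf_ne36 (l : Fin n → Fˣ) (S : Finset (Fin n)) : pf l S ≠ 0 :=
  Finset.prod_ne_zero_iff.2 fun i _ => (l i).ne_zero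

private theorem sim36 : ∀ (n : ℕ) (l : Fin n → Fˣ) (x : Finset (Fin n) → F), Sim36 (pf l) (∑ S, pf l S * x S ^ 2)
  | 0, l, x => by
    refine sim_of36 (pf_ne36 l) ⟨x ∅ • 1, ?_⟩
    have h1 : ∑ S, pf l S * x S ^ 2 = x ∅ ^ 2 := by
      rw [Fintype.sum_subsingleton _ (∅ : Finset (Fin 0))]
      simp [pf]
    rw [h1, Matrix.transpose_smul, Matrix.transpose_one, Matrix.smul_mul, Matrix.smul_mul, Matrix.mul_smul, Matrix.mul_one,
      Matrix.one_mul, smul_smul, sq]
  | n + 1, l, x => by
    have ih := sim36 n (fun i => l i.succ)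
    have h := sim_step36 (pf_ne36 _) (l 0).ne_zero (ih fun S => x ((eq36 n).symm (Sum.inl S)))
      (ih fun S => x ((eq36 n).symm (Sum.inr S)))
    rw [← val36] at h
    obtain ⟨T, hT, -⟩ := h
    refine sim_of36 (pf_ne36 l) ⟨T.submatrix (eq36 n) (eq36 n), ?_⟩
    have h1 : Matrix.diagonal (pf l) =
        (Matrix.diagonal (Sum.elim (pf fun i => l i.succ) (fun T => (l 0 : F) * pf (fun i => l i.succ) T))).submatrix
          (eq36 n) (eq36 n) := by
      rw [Matrix.submatrix_diagonal_equiv, ← pf36]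
    rw [h1, Matrix.transpose_submatrix, Matrix.submatrix_mul_equiv, Matrix.submatrix_mul_equiv, hT]
    rfl

private theorem metab_sim36 {J : Type*} [Fintype J] [DecidableEq J] {d : J → F} {a : F}
    (h : ∃ R : Matrix J J F, R.transpose * Matrix.diagonal d * R = (-a) • Matrix.diagonal d) :
    Metab (Sum.elim d (fun j => a * d j)) := by
  obtain ⟨R, hR⟩ := h
  let f : (J → F) →ₗ[F] (J ⊕ J → F) :=
    (LinearEquiv.sumArrowLequivProdArrow J J F F).symm.toLinearMap ∘ₗ (LinearMap.prod (Matrix.mulVecLin R) LinearMap.id)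
  have hf1 : ∀ z j, f z (Sum.inl j) = R.mulVec z j := fun z j => rfl
  have hf2 : ∀ z j, f z (Sum.inr j) = z j := fun z j => rfl
  have hinj : Function.Injective f := by
    intro z z' hz
    funext j
    rw [← hf2 z j, ← hf2 z' j, hz]
  refine ⟨LinearMap.range f, ?_, ?_⟩
  · rw [LinearMap.finrank_range_of_inj hinj, Module.finrank_fintype_fun_eq_card, Nat.card_eq_fintype_card,
      Fintype.card_sum]
    omega
  · rintro w ⟨z, rfl⟩
    rw [Fintype.sum_sum_type]
    simp only [Sum.elim_inl, Sum.elim_inr, hf1, hf2]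
    have h1 : ∑ j, d j * R.mulVec z j ^ 2 = (R.mulVec z) ⬝ᵥ ((Matrix.diagonal d).mulVec (R.mulVec z)) := by
      rw [dotProduct]
      refine Finset.sum_congr rfl fun j _ => ?_
      rw [Matrix.mulVec_diagonal]
      ring
    have h2 : (R.mulVec z) ⬝ᵥ ((Matrix.diagonal d).mulVec (R.mulVec z)) =
        z ⬝ᵥ ((R.transpose * Matrix.diagonal d * R).mulVec z) := by
      rw [← Matrix.mulVec_mulVec, ← Matrix.mulVec_mulVec, Matrix.dotProduct_mulVec z, Matrix.vecMul_transpose]
    have h3 : z ⬝ᵥ (((-a) • Matrix.diagonal d).mulVec z) = -(∑ j, a * d j * z j ^ 2) := by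
      rw [dotProduct, ← Finset.sum_neg_distrib]
      refine Finset.sum_congr rfl fun j _ => ?_
      rw [Matrix.smul_mulVec, Pi.smul_apply, Matrix.mulVec_diagonal, smul_eq_mul]
      ring
    rw [h1, h2, hR, h3]
    ring

theorem pfister_metab (l : Fin n → Fˣ) (x : Finset (Fin n) → F) (hx : x ≠ 0) (h : ∑ S, pf l S * x S ^ 2 = 0) :
    Metab (pf l) := by
  induction n with
  | zero =>
    exfalso
    apply hx
    rw [Fintype.sum_subsingleton _ (∅ : Finset (Fin 0))] at h
    have h1 : x ∅ = 0 := by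
      simpa [pf] using h
    funext S
    rw [Subsingleton.elim S ∅, h1]
    rfl
  | succ n ih =>
    rw [pf36 l]
    refine metab_equiv (eq36 n) ?_
    rw [val36] at h
    by_cases hc2 : ∑ S, pf (fun i => l i.succ) S * x ((eq36 n).symm (Sum.inr S)) ^ 2 = 0
    · rw [hc2, mul_zero, add_zero] at h
      have h1 : Metab (pf fun i => l i.succ) := by
        by_cases hz : (fun S => x ((eq36 n).symm (Sum.inl S))) = 0
        · refine ih _ (fun S => x ((eq36 n).symm (Sum.inr S))) (fun hz2 => hx ?_) hc2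
          funext S
          obtain ⟨T, rfl⟩ := (eq36 n).symm.surjective S
          rcases T with T | T
          · exact congrFun hz T
          · exact congrFun hz2 T
        · exact ih _ _ hz h
      exact metab_sum h1 (metab_smul h1 _)
    · have hd := pf_ne36 (fun i => l i.succ)
      obtain ⟨T1, h1a, -⟩ := sim36 n (fun i => l i.succ) (fun S => x ((eq36 n).symm (Sum.inl S)))
      obtain ⟨T2, h2a, h2b⟩ := sim36 n (fun i => l i.succ) (fun S => x ((eq36 n).symm (Sum.inr S)))
      refine metab_sim36 ?_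
      have hE := dg36 hd
      have hE' := dg36' hd
      have hEt := Matrix.diagonal_transpose (pf fun i => l i.succ)
      have hEt' := Matrix.diagonal_transpose (fun S => (pf (fun i => l i.succ) S)⁻¹)
      generalize Matrix.diagonal (pf fun i => l i.succ) = E at *
      generalize Matrix.diagonal (fun S => (pf (fun i => l i.succ) S)⁻¹) = E' at *
      generalize (∑ S, pf (fun i => l i.succ) S * x ((eq36 n).symm (Sum.inl S)) ^ 2) = c1 at *
      generalize (∑ S, pf (fun i => l i.succ) S * x ((eq36 n).symm (Sum.inr S)) ^ 2) = c2 at *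
      have hS : (E' * T2.transpose * E).transpose = E * T2 * E' := by
        rw [Matrix.transpose_mul, Matrix.transpose_mul, Matrix.transpose_transpose, hEt, hEt', Matrix.mul_assoc]
      have hSE : E * T2 * E' * E = E * T2 := by
        rw [Matrix.mul_assoc, hE', Matrix.mul_one]
      have hSS : E * T2 * (E' * T2.transpose * E) = c2 • E := by
        rw [Matrix.mul_assoc, ← Matrix.mul_assoc T2, ← Matrix.mul_assoc T2, h2b, Matrix.smul_mul, hE', Matrix.mul_smul,
          Matrix.mul_one]
      generalize E' * T2.transpose * E = S at *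
      refine ⟨c2⁻¹ • (S * T1), ?_⟩
      have k3 : (S * T1).transpose * E * (S * T1) = (c2 * c1) • E := by
        rw [Matrix.transpose_mul, hS, Matrix.mul_assoc T1.transpose, hSE, ← Matrix.mul_assoc, Matrix.mul_assoc T1.transpose,
          hSS, Matrix.mul_smul, Matrix.smul_mul, h1a, smul_smul]
      rw [Matrix.transpose_smul, Matrix.smul_mul, Matrix.smul_mul, Matrix.mul_smul, k3, smul_smul, smul_smul]
      congr 1
      field_simp
      linear_combination h

end Pool.Agent.Helper41.TU
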