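import Pool.Agent.Helper41.TU.RsDefs
import Pool.Agent.Helper41.TU.Kw

/-!
# Block TU-RS: vanishing residue of a symbol and the residue form of its Pfister form

Let `a i = vO (l i)`, `ū i = rO (l i)`, `T = {i : a i odd}`. In `ResZero` take `p`, `S ↦ ∑ i ∈ S, a i`, `S ↦ ∏ i ∈ S, uO (l i)` for the form with coefficients `pf l S`. `S` is odd if and only if
`|S ∩ T|` is odd. If `T = ∅` there are no odd `S`: `W = ⊥`. Otherwise fix `i₀ ∈ T` and define `l̄ : Fin n → κˣ`, `l̄ j = ū i` if `i = i₀.succAbove j ∉ T`, `l̄ j = ū i * ū i₀` if `i ∈ T`.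
`sym_many` gives `sym l̄ = sym (ū ∘ i₀.succAbove) + ∑_{j, i ∈ T} sym (update (ū ∘ i₀.succAbove) j (ū i₀))`, and the last symbol is, up to a permutation, `{ū, omit i}` (`sym_perm`); so
`sym l̄ = ∑_{i ∈ T} {ū, omit i} = tame0 l = 0`. By `metab_of_sym` (`u(κ) ≤ 2^n`) the form `pf l̄` is metabolic. The map `S ↦ R = {j : i₀.succAbove j ∈ S}` is a bijection of the odd `S` onto
`Finset (Fin n)` (`S` is determined by `S \ {i₀}` and the parity), and `∏_{S} ū i = ū i₀ * ∏_{R} l̄ j * (square)`: if `i₀ ∈ S` then `|(S \ i₀) ∩ T|` is even and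
`ū i₀ ∏_R l̄ = ∏_S ū * ū i₀ ^ even`; if `i₀ ∉ S` it is odd and `ū i₀ ∏_R l̄ = ∏_S ū * ū i₀ ^ (1 + odd)`. So the residue form is metabolic: `metab_equiv`, `metab_smul`, `metab_sq`.
-/

set_option autoImplicit false

namespace Pool.Agent.Helper41.TU

open IsLocalRing

variable {F : Type*} [Field F] (O : ValuationSubring F)

open Finset in
private theorem sum_split53 {M : Type*} [AddCommMonoid M] {n : ℕ} (i₀ : Fin (n + 1)) (v : Fin (n + 1) → M)
    (S : Finset (Fin (n + 1))) :
    ∑ i ∈ S, v i = (if i₀ ∈ S then v i₀ else 0) +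
      ∑ j ∈ univ.filter (fun j : Fin n => i₀.succAbove j ∈ S), v (i₀.succAbove j) := by
  classical
  have h1 : ∑ i ∈ S, v i = ∑ i : Fin (n + 1), if i ∈ S then v i else 0 := by
    rw [← Finset.sum_filter]
    congr 1
    ext i
    simp
  rw [h1, Fin.sum_univ_succAbove _ i₀, Finset.sum_filter]

open Finset in
private theorem prod_split53 {M : Type*} [CommMonoid M] {n : ℕ} (i₀ : Fin (n + 1)) (v : Fin (n + 1) → M)
    (S : Finset (Fin (n + 1))) :
    ∏ i ∈ S, v i = (if i₀ ∈ S then v i₀ else 1) *
      ∏ j ∈ univ.filter (fun j : Fin n => i₀.succAbove j ∈ S), v (i₀.succAbove j) := by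
  classical
  have h1 : ∏ i ∈ S, v i = ∏ i : Fin (n + 1), if i ∈ S then v i else 1 := by
    rw [← Finset.prod_filter]
    congr 1
    ext i
    simp
  rw [h1, Fin.prod_univ_succAbove _ i₀, Finset.prod_filter]

/-- the odd subsets and the subsets of the others -/
private theorem bij53 {n : ℕ} (i₀ : Fin (n + 1)) (v : Fin (n + 1) → ℤ) (h0 : Odd (v i₀)) :
    Function.Bijective (fun S : {S : Finset (Fin (n + 1)) // Odd (∑ i ∈ S, v i)} =>
      Finset.univ.filter (fun j : Fin n => i₀.succAbove j ∈ S.1)) := by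
  classical
  constructor
  · rintro ⟨S, hS⟩ ⟨S', hS'⟩ h
    have h' : Finset.univ.filter (fun j : Fin n => i₀.succAbove j ∈ S) =
      Finset.univ.filter (fun j : Fin n => i₀.succAbove j ∈ S') := h
    rw [sum_split53 i₀ v S, h'] at hS
    rw [sum_split53 i₀ v S'] at hS'
    apply Subtype.ext
    ext i
    rcases eq_or_ne i i₀ with rfl | hi
    · by_cases h1 : i ∈ S
      · by_cases h2 : i ∈ S'
        · simp [h1, h2]
        · exfalso
          rw [if_pos h1] at hS
          rw [if_neg h2, zero_add] at hS'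
          exact (Int.not_even_iff_odd.2 hS) (h0.add_odd hS')
      · by_cases h2 : i ∈ S'
        · exfalso
          rw [if_neg h1, zero_add] at hS
          rw [if_pos h2] at hS'
          exact (Int.not_even_iff_odd.2 hS') (h0.add_odd hS)
        · simp [h1, h2]
    · obtain ⟨j, rfl⟩ := Fin.exists_succAbove_eq hi
      have h3 := Finset.ext_iff.1 h' j
      simpa using h3
  · intro R
    let S : Finset (Fin (n + 1)) := Finset.univ.filter (fun i =>
      (i = i₀ ∧ ¬ Odd (∑ j ∈ R, v (i₀.succAbove j))) ∨ ∃ j ∈ R, i₀.succAbove j = i)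
    have hR : Finset.univ.filter (fun j : Fin n => i₀.succAbove j ∈ S) = R := by
      ext j
      simp only [S, Finset.mem_filter, Finset.mem_univ, true_and]
      constructor
      · rintro (⟨h1, _⟩ | ⟨j', h1, h2⟩)
        · exact absurd h1 (Fin.succAbove_ne i₀ j)
        · rwa [← Fin.succAbove_right_injective h2]
      · intro h1
        exact Or.inr ⟨j, h1, rfl⟩
    have hi0 : i₀ ∈ S ↔ ¬ Odd (∑ j ∈ R, v (i₀.succAbove j)) := by
      simp only [S, Finset.mem_filter, Finset.mem_univ, true_and]
      constructor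
      · rintro (h1 | ⟨j', _, h2⟩)
        · exact h1
        · exact absurd h2 (Fin.succAbove_ne i₀ j')
      · intro h1
        exact Or.inl h1
    refine ⟨⟨S, ?_⟩, hR⟩
    rw [sum_split53 i₀ v S, hR]
    by_cases h1 : Odd (∑ j ∈ R, v (i₀.succAbove j))
    · rw [if_neg (fun h => (hi0.1 h) h1), zero_add]
      exact h1
    · rw [if_pos (hi0.2 h1)]
      exact h0.add_even (Int.not_odd_iff_even.1 h1)

private theorem sqpar53 {κ : Type*} [Field κ] {ι : Type*} (x : κˣ) (v : ι → ℤ) (R : Finset ι) :
    ∃ d : κˣ, ∏ j ∈ R, (if Odd (v j) then x else 1) = (if Odd (∑ j ∈ R, v j) then x else 1) * d ^ 2 := by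
  classical
  induction R using Finset.induction_on with
  | empty =>
    refine ⟨1, ?_⟩
    simp
  | insert j R hj ih =>
    obtain ⟨d, hd⟩ := ih
    rw [Finset.prod_insert hj, Finset.sum_insert hj, hd]
    by_cases h1 : Odd (v j)
    · by_cases h2 : Odd (∑ j ∈ R, v j)
      · refine ⟨x * d, ?_⟩
        rw [if_pos h1, if_pos h2, if_neg (Int.not_odd_iff_even.2 (h1.add_odd h2))]
        rw [one_mul, mul_pow, pow_two x, mul_assoc]
      · refine ⟨d, ?_⟩
        rw [if_pos h1, if_neg h2, if_pos (h1.add_even (Int.not_odd_iff_even.1 h2)), one_mul]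
    · have h1' := Int.not_odd_iff_even.1 h1
      by_cases h2 : Odd (∑ j ∈ R, v j)
      · refine ⟨d, ?_⟩
        rw [if_neg h1, if_pos h2, if_pos (h1'.add_odd h2), one_mul]
      · refine ⟨d, ?_⟩
        rw [if_neg h1, if_neg h2, if_neg (Int.not_odd_iff_even.2 (h1'.add (Int.not_odd_iff_even.1 h2))),
          one_mul]

private theorem pf_decomp53 [IsDiscreteValuationRing O] {p : O} (hp : Irreducible p) {m : ℕ} (l : Fin m → Fˣ)
    (S : Finset (Fin m)) :
    pf l S = (p : F) ^ (∑ i ∈ S, vO O hp (l i)) * (((∏ i ∈ S, uO O hp (l i) : Oˣ) : O) : F) := by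
  classical
  have hp0 : (p : F) ≠ 0 := fun hc => hp.ne_zero (Subtype.ext hc)
  unfold pf
  induction S using Finset.induction_on with
  | empty => simp
  | insert j S hj ih =>
    rw [Finset.prod_insert hj, Finset.sum_insert hj, Finset.prod_insert hj, ih, decomp O hp (l j),
      zpow_add₀ hp0]
    push_cast
    ring

/-- the symbol with one entry omitted, up to a permutation -/
private theorem omit53 {κ : Type*} [Field κ] (hi : IsSquare (-1 : κ)) {n : ℕ} (r : Fin (n + 1) → κˣ)
    (i₀ : Fin (n + 1)) (j : Fin n) :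
    sym (fun j' : Fin n => r ((i₀.succAbove j).succAbove j')) =
      sym (Function.update (fun j' : Fin n => r (i₀.succAbove j')) j (r i₀)) := by
  classical
  set i := i₀.succAbove j with hidef
  let g : Fin n → Fin (n + 1) := Function.update i₀.succAbove j i₀
  have hgj : g j = i₀ := Function.update_self _ _ _
  have hgne : ∀ j', j' ≠ j → g j' = i₀.succAbove j' := fun j' h => Function.update_of_ne h _ _
  have hg1 : ∀ j', g j' ≠ i := by
    intro j'
    rcases eq_or_ne j' j with rfl | h
    · rw [hgj, hidef]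
      exact (Fin.succAbove_ne i₀ _).symm
    · rw [hgne j' h, hidef]
      exact fun h1 => h (Fin.succAbove_right_injective h1)
  have hginj : Function.Injective g := by
    intro a b hab
    rcases eq_or_ne a j with rfl | ha
    · rcases eq_or_ne b a with rfl | hb
      · rfl
      · rw [hgj, hgne b hb] at hab
        exact absurd hab.symm (Fin.succAbove_ne i₀ b)
    · rcases eq_or_ne b j with rfl | hb
      · rw [hgj, hgne a ha] at hab
        exact absurd hab (Fin.succAbove_ne i₀ a)
      · rw [hgne a ha, hgne b hb] at hab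
        exact Fin.succAbove_right_injective hab
  have hex : ∀ j', ∃ z, i.succAbove z = g j' := fun j' => Fin.exists_succAbove_eq (hg1 j')
  choose s hs using hex
  have hsinj : Function.Injective s := by
    intro a b hab
    apply hginj
    rw [← hs a, ← hs b, hab]
  let σ : Equiv.Perm (Fin n) := Equiv.ofBijective s (Finite.injective_iff_bijective.1 hsinj)
  have h1 := sym_perm hi (fun j' : Fin n => r (i.succAbove j')) σ
  rw [← h1]
  congr 1
  funext j'
  change r (i.succAbove (s j')) = _
  rw [hs]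
  rcases eq_or_ne j' j with rfl | h
  · rw [hgj, Function.update_self]
  · rw [hgne j' h, Function.update_of_ne h]

theorem resZero_of_tame [IsDiscreteValuationRing O] {p : O} (hp : Irreducible p) (hi : IsSquare (-1 : ResidueField O))
    (h2 : (2 : ResidueField O) ≠ 0) {n : ℕ} (hu : ULe (ResidueField O) (2 ^ n)) (l : Fin (n + 1) → Fˣ)
    (h : tame O hp hi n (sym l) = 0) : ResZero O (pf l) := by
  classical
  set v : Fin (n + 1) → ℤ := fun i => vO O hp (l i) with hv
  set r : Fin (n + 1) → (ResidueField O)ˣ := fun i => rO O hp (l i) with hr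
  refine ⟨p, fun S => ∑ i ∈ S, v i, fun S => ∏ i ∈ S, uO O hp (l i), hp, fun S => pf_decomp53 O hp l S, ?_⟩
  by_cases hT : ∃ i₀, Odd (v i₀)
  · obtain ⟨i₀, h0⟩ := hT
    -- the symbol vanishes
    set T : Finset (Fin n) := Finset.univ.filter (fun j => Odd (v (i₀.succAbove j))) with hTdef
    have hsym : sym (fun j : Fin n => if j ∈ T then r (i₀.succAbove j) * r i₀ else r (i₀.succAbove j)) = 0 := by
      rw [sym_many hi (fun j : Fin n => r (i₀.succAbove j)) (r i₀) T]
      rw [tame_sym, tame0, Fin.sum_univ_succAbove _ i₀] at h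
      have hc1 : ∀ a : ℤ, Odd a → ((a : ℤ) : ZMod 2) = 1 := by
        rintro a ⟨b, rfl⟩
        push_cast
        have h2' : (2 : ZMod 2) = 0 := by decide
        rw [h2', zero_mul, zero_add]
      have hc0 : ∀ a : ℤ, ¬ Odd a → ((a : ℤ) : ZMod 2) = 0 := by
        intro a ha
        obtain ⟨b, rfl⟩ := Int.not_odd_iff_even.1 ha
        push_cast
        have h2' : ∀ c : ZMod 2, c + c = 0 := by decide
        exact h2' _
      rw [hc1 _ h0, one_smul] at h
      rw [← h]
      congr 1
      rw [hTdef, Finset.sum_filter]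
      refine Finset.sum_congr rfl fun j _ => ?_
      by_cases hj : Odd (v (i₀.succAbove j))
      · rw [if_pos hj, hc1 _ hj, one_smul]
        exact (omit53 hi r i₀ j).symm
      · rw [if_neg hj, hc0 _ hj, zero_smul]
    have hM := metab_of_sym hi h2 hu _ hsym
    have hM2 := metab_smul hM ((r i₀ : (ResidueField O)ˣ) : ResidueField O)
    have hM3 := metab_equiv (Equiv.ofBijective _ (bij53 i₀ v h0)) hM2
    have hex : ∀ S : {S : Finset (Fin (n + 1)) // Odd (∑ i ∈ S, v i)}, ∃ c : (ResidueField O)ˣ,
        residue O ((∏ i ∈ S.1, uO O hp (l i) : Oˣ) : O) =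
          ((fun R => ((r i₀ : (ResidueField O)ˣ) : ResidueField O) *
            pf (fun j : Fin n => if j ∈ T then r (i₀.succAbove j) * r i₀ else r (i₀.succAbove j)) R) ∘
            (Equiv.ofBijective _ (bij53 i₀ v h0))) S * (c : ResidueField O) ^ 2 := by
      intro S
      set R : Finset (Fin n) := Finset.univ.filter (fun j : Fin n => i₀.succAbove j ∈ S.1) with hRdef
      obtain ⟨d, hd⟩ := sqpar53 (r i₀) (fun j : Fin n => v (i₀.succAbove j)) R
      have e1 : residue O ((∏ i ∈ S.1, uO O hp (l i) : Oˣ) : O) = ((∏ i ∈ S.1, r i : (ResidueField O)ˣ) : ResidueField O) := by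
        rw [Units.coe_prod, Units.coe_prod, map_prod]
        rfl
      have e2 : ((fun R => ((r i₀ : (ResidueField O)ˣ) : ResidueField O) *
            pf (fun j : Fin n => if j ∈ T then r (i₀.succAbove j) * r i₀ else r (i₀.succAbove j)) R) ∘
            (Equiv.ofBijective _ (bij53 i₀ v h0))) S =
          ((r i₀ * ((∏ j ∈ R, r (i₀.succAbove j)) *
            ∏ j ∈ R, (if Odd (v (i₀.succAbove j)) then r i₀ else 1)) : (ResidueField O)ˣ) : ResidueField O) := by
        change ((r i₀ : (ResidueField O)ˣ) : ResidueField O) *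
            pf (fun j : Fin n => if j ∈ T then r (i₀.succAbove j) * r i₀ else r (i₀.succAbove j)) R = _
        rw [← Finset.prod_mul_distrib, Units.val_mul, Units.coe_prod]
        unfold pf
        congr 1
        refine Finset.prod_congr rfl fun j _ => ?_
        by_cases hj : Odd (v (i₀.succAbove j))
        · have hjT : j ∈ T := Finset.mem_filter.2 ⟨Finset.mem_univ _, hj⟩
          simp only [if_pos hjT, if_pos hj]
        · have hjT : j ∉ T := fun hh => hj (Finset.mem_filter.1 hh).2
          simp only [if_neg hjT, if_neg hj, mul_one]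
      rw [e1, e2, hd, prod_split53 i₀ r S.1, ← hRdef]
      have hodd := S.2
      rw [sum_split53 i₀ v S.1, ← hRdef] at hodd
      by_cases h3 : i₀ ∈ S.1
      · rw [if_pos h3] at hodd
        have h4 : ¬ Odd (∑ j ∈ R, v (i₀.succAbove j)) := fun h5 =>
          (Int.not_even_iff_odd.2 hodd) (h0.add_odd h5)
        refine ⟨d⁻¹, ?_⟩
        rw [if_pos h3, if_neg h4, one_mul, ← Units.val_pow_eq_pow_val, ← Units.val_mul]
        congr 1
        rw [inv_pow]
        group
      · rw [if_neg h3, zero_add] at hodd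
        refine ⟨(r i₀ * d)⁻¹, ?_⟩
        rw [if_neg h3, if_pos hodd, one_mul, ← Units.val_pow_eq_pow_val, ← Units.val_mul]
        congr 1
        rw [inv_pow, eq_mul_inv_iff_mul_eq, mul_pow, pow_two (r i₀)]
        simp only [mul_assoc, mul_left_comm, mul_comm]
    choose c hc using hex
    exact metab_sq hM3 (fun S => (c S : ResidueField O)) (fun S => (c S).ne_zero) hc
  · have hE : ∀ S : Finset (Fin (n + 1)), ¬ Odd (∑ i ∈ S, v i) := by
      intro S
      rw [Int.not_odd_iff_even]
      refine Finset.even_sum _ fun i _ => ?_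
      by_contra hc
      exact hT ⟨i, Int.not_even_iff_odd.1 hc⟩
    have : IsEmpty {S : Finset (Fin (n + 1)) // Odd (∑ i ∈ S, v i)} := ⟨fun S => hE S.1 S.2⟩
    refine ⟨⊥, ?_, ?_⟩
    · rw [Nat.card_of_isEmpty]
      exact Nat.zero_le _
    · intro w _
      rw [Finset.univ_eq_empty, Finset.sum_empty]

end Pool.Agent.Helper41.TU
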