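import Pool.Agent.Helper41.TU.Defs

/-!
# Block TU-VR: valuation rings

`ResZero O f`: the second residue of the diagonal form `⟨f j⟩` at the discrete valuation ring `O` is `0` in the Witt group of the residue
field: `f j = p ^ (a j) u j` with a uniformiser `p` and units `u j`, and the form `⟨residue (u j) : a j odd⟩` over the residue field is
metabolic: it vanishes on a subspace of at least half of the dimension.

`exists_vs`: the valuation subring `{x | x = 0 ∨ 0 ≤ ord i x}` (`ValuationSubring` from the `Ords` axioms; `mem_or_inv_mem'` as `ord i x⁻¹ = - ord i x`)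
is a discrete valuation ring: the element `p` with `ord i p = 1` generates every ideal as a power
(`IsDiscreteValuationRing.ofHasUnitMulPowIrreducibleFactorization`), units are the elements of order `0`.

`meta_of_resZero`: a uniformiser of `O` has order `1`, units have order `0`, so `ord i (f j) = a j`. `W` is a subspace of `κ^o`,
`o = {j // Odd (a j)}`; take `N = |o| - dim W` linear forms on `κ^o` whose common kernel is `W` (a basis of the dual annihilator
`W.dualAnnihilator`, `Subspace.finrank_dualAnnihilator...`), with coefficients in `κ`, and lift them to `O`. `2 N ≤ |o|` from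
`|o| ≤ 2 dim W`. For integral `y` the residues `w j = residue (y j)` lie in `W` if the `N` sums have order `≥ 1` (or vanish), and then
`∑ residue (u j) (w j)^2 = 0`, so that `∑ f j p ^ (- a j) (y j)^2 = ∑ u j (y j)^2` is in the maximal ideal. (`p` in `ResLag` is `(p : K)`.)
-/

set_option autoImplicit false

namespace Pool.Agent.Helper41.TU

open Module IsLocalRing

/-- The second residue of `⟨f j⟩` at `O` is `0` in the Witt group of the residue field. -/
def ResZero {K : Type*} [Field K] (O : ValuationSubring K) {J : Type*} [Fintype J] (f : J → K) : Prop :=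
  ∃ (p : O) (a : J → ℤ) (u : J → Oˣ), Irreducible p ∧ (∀ j, f j = (p : K) ^ (a j) * ((u j : O) : K)) ∧
    ∃ W : Submodule (ResidueField O) ({j : J // Odd (a j)} → ResidueField O),
      Nat.card {j : J // Odd (a j)} ≤ 2 * finrank (ResidueField O) W ∧
      ∀ w ∈ W, ∑ j : {j : J // Odd (a j)}, residue O (u j.1 : O) * w j ^ 2 = 0

variable {k K ι : Type*} [Field k] [Field K] [Algebra k K] {ord : ι → K → ℤ}

private theorem ord_one68 (h : Ords k ord) (i : ι) : ord i (1 : K) = 0 := by
  have := h.const i (1 : k) one_ne_zero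
  rwa [map_one] at this

private theorem ord_neg_one68 (h : Ords k ord) (i : ι) : ord i (-1 : K) = 0 := by
  have := h.const i (-1 : k) (neg_ne_zero.2 one_ne_zero)
  rwa [map_neg, map_one] at this

private theorem ord_neg68 (h : Ords k ord) (i : ι) {x : K} (hx : x ≠ 0) : ord i (-x) = ord i x := by
  have h1 : (-1 : K) ≠ 0 := neg_ne_zero.2 one_ne_zero
  have := h.mul i (-1) x h1 hx
  rw [ord_neg_one68 h i, zero_add, neg_one_mul] at this
  exact this

private theorem ord_inv68 (h : Ords k ord) (i : ι) {x : K} (hx : x ≠ 0) : ord i x⁻¹ = -ord i x := by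
  have := h.mul i x x⁻¹ hx (inv_ne_zero hx)
  rw [mul_inv_cancel₀ hx, ord_one68 h i] at this
  omega

private theorem ord_pow68 (h : Ords k ord) (i : ι) {x : K} (hx : x ≠ 0) (n : ℕ) : ord i (x ^ n) = n * ord i x := by
  induction n with
  | zero => rw [pow_zero, ord_one68 h i]; simp
  | succ n ih =>
    rw [pow_succ, h.mul i _ _ (pow_ne_zero n hx) hx, ih]
    push_cast
    ring

private theorem ord_zpow68 (h : Ords k ord) (i : ι) {x : K} (hx : x ≠ 0) (n : ℤ) : ord i (x ^ n) = n * ord i x := by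
  cases n with
  | ofNat n =>
    have := ord_pow68 h i hx n
    simpa using this
  | negSucc n =>
    rw [zpow_negSucc, ord_inv68 h i (pow_ne_zero _ hx), ord_pow68 h i hx]
    push_cast [Int.negSucc_eq]
    ring

private def vs68 (h : Ords k ord) (i : ι) : ValuationSubring K where
  carrier := {x | x ≠ 0 → 0 ≤ ord i x}
  mul_mem' := by
    intro x y hx hy hxy
    have h1 : x ≠ 0 := left_ne_zero_of_mul hxy
    have h2 : y ≠ 0 := right_ne_zero_of_mul hxy
    rw [h.mul i x y h1 h2]
    exact add_nonneg (hx h1) (hy h2)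
  one_mem' := fun _ => (ord_one68 h i).ge
  add_mem' := by
    intro x y hx hy hxy
    by_cases hx0 : x = 0
    · subst hx0
      rw [zero_add] at hxy ⊢
      exact hy hxy
    by_cases hy0 : y = 0
    · subst hy0
      rw [add_zero] at hxy ⊢
      exact hx hxy
    exact (le_min (hx hx0) (hy hy0)).trans (h.add i x y hx0 hy0 hxy)
  zero_mem' := fun h0 => absurd rfl h0
  neg_mem' := by
    intro x hx hx0
    have h1 : x ≠ 0 := neg_ne_zero.1 hx0
    rw [ord_neg68 h i h1]
    exact hx h1
  mem_or_inv_mem' := by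
    intro x
    by_cases hx0 : x = 0
    · exact Or.inl (fun h0 => absurd hx0 h0)
    rcases le_total 0 (ord i x) with h1 | h1
    · exact Or.inl (fun _ => h1)
    · refine Or.inr (fun _ => ?_)
      rw [ord_inv68 h i hx0]
      omega

private theorem unit_iff68 (h : Ords k ord) (i : ι) (O : ValuationSubring K) (hO : ∀ x, x ∈ O ↔ (x ≠ 0 → 0 ≤ ord i x))
    (x : O) : IsUnit x ↔ ((x : K) ≠ 0 ∧ ord i (x : K) = 0) := by
  constructor
  · rintro ⟨u, rfl⟩
    have h1 : ((u : O) : K) * (((u⁻¹ : Oˣ) : O) : K) = 1 := by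
      have : (u : O) * ((u⁻¹ : Oˣ) : O) = 1 := Units.mul_inv u
      exact_mod_cast congrArg (fun z : O => (z : K)) this
    have h2 : ((u : O) : K) ≠ 0 := left_ne_zero_of_mul (h1 ▸ one_ne_zero)
    have h3 : (((u⁻¹ : Oˣ) : O) : K) ≠ 0 := right_ne_zero_of_mul (h1 ▸ one_ne_zero)
    have h4 := h.mul i _ _ h2 h3
    rw [h1, ord_one68 h i] at h4
    have h5 := (hO _).1 (u : O).2 h2
    have h6 := (hO _).1 ((u⁻¹ : Oˣ) : O).2 h3
    exact ⟨h2, by omega⟩
  · rintro ⟨h1, h2⟩
    have h3 : (x : K)⁻¹ ∈ O := (hO _).2 fun _ => by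
      rw [ord_inv68 h i h1, h2]
      simp
    refine IsUnit.of_mul_eq_one ⟨(x : K)⁻¹, h3⟩ ?_
    apply Subtype.ext
    exact mul_inv_cancel₀ h1

private theorem res_zero_iff68 (h : Ords k ord) (i : ι) (O : ValuationSubring K) (hO : ∀ x, x ∈ O ↔ (x ≠ 0 → 0 ≤ ord i x))
    (x : O) : residue O x = 0 ↔ ((x : K) ≠ 0 → 1 ≤ ord i (x : K)) := by
  rw [residue_eq_zero_iff, mem_maximalIdeal, mem_nonunits_iff, unit_iff68 h i O hO]
  constructor
  · intro h1 h2
    have h3 := (hO _).1 x.2 h2
    rcases h3.lt_or_eq with h4 | h4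
    · omega
    · exact absurd ⟨h2, h4.symm⟩ h1
  · rintro h1 ⟨h2, h3⟩
    have := h1 h2
    omega

private theorem lin68 {κ R o : Type*} [Field κ] [CommRing R] [Fintype o] (φ : R →+* κ) (hφ : Function.Surjective φ)
    (W : Submodule κ (o → κ)) (hW1 : Nat.card o ≤ 2 * finrank κ W) :
    ∃ (N : ℕ) (c : Fin N → o → R), 2 * N ≤ Nat.card o ∧
      ∀ y : o → R, (∀ l, φ (∑ j, c l j * y j) = 0) → (fun j => φ (y j)) ∈ W := by
  classical
  have hfin : finrank κ ((o → κ) ⧸ W) = Nat.card o - finrank κ W := by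
    have h1 := Submodule.finrank_quotient_add_finrank W
    rw [finrank_fintype_fun_eq_card, ← Nat.card_eq_fintype_card] at h1
    omega
  let bs : Basis (Fin (Nat.card o - finrank κ W)) κ ((o → κ) ⧸ W) := finBasisOfFinrankEq _ _ hfin
  let L : Fin (Nat.card o - finrank κ W) → ((o → κ) →ₗ[κ] κ) := fun l => (bs.coord l).comp W.mkQ
  have hex : ∀ (l : Fin (Nat.card o - finrank κ W)) (j : o), ∃ c : R, φ c = L l (Pi.single j 1) :=
    fun l j => hφ _
  choose c hc using hex
  refine ⟨_, c, by omega, fun y hl => ?_⟩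
  have h1 : ∀ l, L l (fun j => φ (y j)) = 0 := by
    intro l
    rw [← hl l, map_sum]
    conv_lhs => rw [pi_eq_sum_univ (fun j => φ (y j))]
    rw [map_sum]
    refine Finset.sum_congr rfl fun j _ => ?_
    rw [map_smul, map_mul, hc l j, smul_eq_mul, mul_comm]
    congr 2
    funext j'
    rw [Pi.single_apply]
    by_cases hj : j = j'
    · rw [if_pos hj, if_pos hj.symm]
    · rw [if_neg hj, if_neg (fun h => hj h.symm)]
  have h2 : W.mkQ (fun j => φ (y j)) = 0 := by
    apply bs.ext_elem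
    intro l
    rw [map_zero]
    exact h1 l
  exact (Submodule.Quotient.mk_eq_zero W).1 h2

theorem exists_vs (h : Ords k ord) (i : ι) : ∃ O : ValuationSubring K, (∀ x, x ∈ O ↔ (x ≠ 0 → 0 ≤ ord i x)) ∧
    (∀ c : k, algebraMap k K c ∈ O) ∧ IsDiscreteValuationRing O := by
  refine ⟨vs68 h i, fun x => Iff.rfl, ?_, ?_⟩
  · intro c hc
    have h1 : c ≠ 0 := by
      rintro rfl
      exact hc (map_zero _)
    exact (h.const i c h1).ge
  · obtain ⟨p, hp0, hp1⟩ := h.unif i
    have hu := unit_iff68 h i (vs68 h i) (fun x => Iff.rfl)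
    have hpm : p ∈ vs68 h i := fun _ => by rw [hp1]; exact zero_le_one
    refine IsDiscreteValuationRing.ofHasUnitMulPowIrreducibleFactorization ⟨⟨p, hpm⟩, ?_, ?_⟩
    · constructor
      · intro hc
        have := ((hu _).1 hc).2
        have h2 : ord i p = 0 := this
        omega
      · intro a b hab
        have h1 : p = (a : K) * (b : K) := congrArg (fun z : vs68 h i => (z : K)) hab
        have ha : (a : K) ≠ 0 := left_ne_zero_of_mul (h1 ▸ hp0)
        have hb : (b : K) ≠ 0 := right_ne_zero_of_mul (h1 ▸ hp0)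
        have h2 := h.mul i _ _ ha hb
        rw [← h1, hp1] at h2
        have h3 : 0 ≤ ord i (a : K) := a.2 ha
        have h4 : 0 ≤ ord i (b : K) := b.2 hb
        by_cases h5 : ord i (a : K) = 0
        · exact Or.inl ((hu _).2 ⟨ha, h5⟩)
        · exact Or.inr ((hu _).2 ⟨hb, by omega⟩)
    · intro x hx
      have hx0 : (x : K) ≠ 0 := fun hc => hx (Subtype.ext hc)
      have h1 : 0 ≤ ord i (x : K) := x.2 hx0
      have hpn : p ^ (ord i (x : K)).toNat ≠ 0 := pow_ne_zero _ hp0
      have h2 : ord i ((x : K) * (p ^ (ord i (x : K)).toNat)⁻¹) = 0 := by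
        rw [h.mul i _ _ hx0 (inv_ne_zero hpn), ord_inv68 h i hpn, ord_pow68 h i hp0, hp1]
        omega
      have h3 : (x : K) * (p ^ (ord i (x : K)).toNat)⁻¹ ∈ vs68 h i := fun _ => h2.ge
      have h4 : IsUnit (⟨_, h3⟩ : vs68 h i) := (hu _).2 ⟨mul_ne_zero hx0 (inv_ne_zero hpn), h2⟩
      obtain ⟨u, hu'⟩ := h4
      refine ⟨(ord i (x : K)).toNat, u, ?_⟩
      rw [hu']
      apply Subtype.ext
      show p ^ (ord i (x : K)).toNat * ((x : K) * (p ^ (ord i (x : K)).toNat)⁻¹) = (x : K)
      field_simp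

theorem meta_of_resZero (h : Ords k ord) (i : ι) (O : ValuationSubring K) (hO : ∀ x, x ∈ O ↔ (x ≠ 0 → 0 ≤ ord i x))
    {J : Type*} [Fintype J] {f : J → K} (hf : ∀ j, f j ≠ 0) (hr : ResZero O f) : ResLag ord f i := by
  obtain ⟨p, a, u, hp, hfu, W, hW1, hW2⟩ := hr
  have hp0 : (p : K) ≠ 0 := fun hc => hp.ne_zero (Subtype.ext hc)
  have hu := unit_iff68 h i O hO
  have hres := res_zero_iff68 h i O hO
  have hp1 : ord i (p : K) = 1 := by
    obtain ⟨π, hπ0, hπ1⟩ := h.unif i
    have h0 : 0 ≤ ord i (p : K) := (hO _).1 p.2 hp0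
    have h1 : ord i (p : K) ≠ 0 := fun hc => hp.not_isUnit ((hu _).2 ⟨hp0, hc⟩)
    have hπm : π ∈ O := (hO _).2 fun _ => by rw [hπ1]; exact zero_le_one
    have h2 : ord i ((p : K) * π⁻¹) = ord i (p : K) - 1 := by
      rw [h.mul i _ _ hp0 (inv_ne_zero hπ0), ord_inv68 h i hπ0, hπ1]
      ring
    have hqm : (p : K) * π⁻¹ ∈ O := (hO _).2 fun _ => by rw [h2]; omega
    have h3 : p = (⟨π, hπm⟩ : O) * ⟨(p : K) * π⁻¹, hqm⟩ := by
      apply Subtype.ext
      show (p : K) = π * ((p : K) * π⁻¹)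
      field_simp
    rcases hp.isUnit_or_isUnit h3 with h4 | h4
    · have := ((hu _).1 h4).2
      have h5 : ord i π = 0 := this
      omega
    · have := ((hu _).1 h4).2
      have h5 : ord i ((p : K) * π⁻¹) = 0 := this
      omega
  have ha : a = fun j => ord i (f j) := by
    funext j
    have h1 := (hu (u j : O)).1 (u j).isUnit
    rw [hfu j, h.mul i _ _ (zpow_ne_zero _ hp0) h1.1, ord_zpow68 h i hp0, hp1, h1.2]
    ring
  subst ha
  obtain ⟨N, c, hN, hc⟩ := lin68 (residue O) residue_surjective W hW1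
  refine ⟨(p : K), N, fun l j => (c l j : K), hp0, hp1, hN, fun l j => (hO _).1 (c l j).2, ?_⟩
  intro y hy hl
  have h5 := hc (fun j => (⟨y j, (hO _).2 (hy j)⟩ : O)) (fun l => by
    rw [hres]
    have h3 : ((∑ j, c l j * (⟨y j, (hO _).2 (hy j)⟩ : O) : O) : K) = ∑ j, (c l j : K) * y j := by
      push_cast
      rfl
    rw [h3]
    exact hl l)
  have h6 := hW2 _ h5
  have h7 : residue O (∑ j : {j : J // Odd (ord i (f j))}, (u j.1 : O) * (⟨y j, (hO _).2 (hy j)⟩ : O) ^ 2) = 0 := by
    rw [map_sum]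
    refine Eq.trans (Finset.sum_congr rfl fun j _ => ?_) h6
    rw [map_mul, map_pow]
  rw [hres] at h7
  have h8 : ((∑ j : {j : J // Odd (ord i (f j))}, (u j.1 : O) * (⟨y j, (hO _).2 (hy j)⟩ : O) ^ 2 : O) : K) =
      ∑ j : {j : J // Odd (ord i (f j))}, f j.1 * (p : K) ^ (-ord i (f j.1)) * y j ^ 2 := by
    push_cast
    refine Finset.sum_congr rfl fun j _ => ?_
    have h9 : f j.1 * (p : K) ^ (-ord i (f j.1)) = ((u j.1 : O) : K) := by
      have h10 := hfu j.1
      have h11 : (p : K) ^ (ord i (f j.1)) * (p : K) ^ (-ord i (f j.1)) = 1 := by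
        rw [← zpow_add₀ hp0]
        simp
      calc f j.1 * (p : K) ^ (-ord i (f j.1)) =
          ((p : K) ^ (ord i (f j.1)) * ((u j.1 : O) : K)) * (p : K) ^ (-ord i (f j.1)) := by rw [← h10]
        _ = ((p : K) ^ (ord i (f j.1)) * (p : K) ^ (-ord i (f j.1))) * ((u j.1 : O) : K) := by ring
        _ = _ := by rw [h11, one_mul]
    rw [h9]
  rw [h8] at h7
  exact h7

end Pool.Agent.Helper41.TU
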