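import Pool.Agent.Helper41.TU.Mk1
import Pool.Agent.Helper41.TU.Vr

/-!
# Block TU-RSD: the residue map (tame symbol) modulo 2

`O` is a discrete valuation ring with fraction field `F` (a `ValuationSubring`), `p` a uniformiser, `κ` the residue field. `x = p ^ (vO x) * uO x` with `vO x : ℤ`, `uO x : Oˣ`
(unique). If `-1` is a square in `κ` then the residue map is
`∂ {f_0, .., f_n} = ∑ i, v(f_i) {ū_0, .., omit i, .., ū_n}`.
It is well defined. Multiplicativity in the entry `i`: the term `i` by `v(ab) = v(a) + v(b)`, the others by `sym_mul`. Steinberg, `f_i + f_j = 1`: if both orders are `0`: the terms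
`m ≠ i, j` have `ū_i + ū_j = 1`, the terms `i`, `j` have the coefficient `0`. If `v(f_i) > 0` then `v(f_j) = 0`, `ū_j = 1`: all terms `m ≠ j` vanish by `sym_one`. If `v(f_i) < 0` then
`v(f_j) = v(f_i)`, `ū_j = - ū_i`: the terms `m ≠ i, j` vanish (`sym_self`, `sym_neg`), and the terms `i` and `j` have the same coefficient, and the symbols `{.., omit i, .., ū_j ..}`,
`{.., ū_i, .., omit j, ..}` agree up to the sign of one entry and a permutation (`sym_neg`, `sym_perm`), so they cancel modulo 2.
-/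

set_option autoImplicit false

namespace Pool.Agent.Helper41.TU

open IsLocalRing Function

variable {F : Type*} [Field F] (O : ValuationSubring F)

private theorem coe_ne67 [IsDiscreteValuationRing O] {p : O} (hp : Irreducible p) : (p : F) ≠ 0 := by
  intro h0
  exact hp.ne_zero (Subtype.ext h0)

private theorem inv_coe67 (u : Oˣ) : (((u⁻¹ : Oˣ) : O) : F) = (((u : O) : F))⁻¹ := by
  have h1 : ((u : O) : F) * (((u⁻¹ : Oˣ) : O) : F) = 1 := by
    rw [← MulMemClass.coe_mul, Units.mul_inv]
    rfl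
  exact eq_inv_of_mul_eq_one_right h1

private theorem unit_ne67 (u : Oˣ) : ((u : O) : F) ≠ 0 := by
  intro h0
  exact u.ne_zero (Subtype.ext h0)

theorem exists_decomp [IsDiscreteValuationRing O] {p : O} (hp : Irreducible p) (x : Fˣ) :
    ∃ (a : ℤ) (u : Oˣ), (x : F) = (p : F) ^ a * ((u : O) : F) := by
  have hp0 : (p : F) ≠ 0 := coe_ne67 O hp
  have key : ∀ y : O, y ≠ 0 → ∃ (n : ℕ) (u : Oˣ), (y : F) = (p : F) ^ (n : ℤ) * ((u : O) : F) := by
    intro y hy
    obtain ⟨n, u, h⟩ := IsDiscreteValuationRing.eq_unit_mul_pow_irreducible hy hp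
    refine ⟨n, u, ?_⟩
    rw [h, zpow_natCast, MulMemClass.coe_mul, SubmonoidClass.coe_pow, mul_comm]
  rcases O.mem_or_inv_mem (x : F) with h | h
  · obtain ⟨n, u, hu⟩ := key ⟨x, h⟩ (fun h0 => x.ne_zero (congrArg Subtype.val h0))
    exact ⟨n, u, hu⟩
  · obtain ⟨n, u, hu⟩ := key ⟨(x : F)⁻¹, h⟩ (fun h0 => inv_ne_zero x.ne_zero (congrArg Subtype.val h0))
    refine ⟨-n, u⁻¹, ?_⟩
    have h1 : ((x : F))⁻¹ = (p : F) ^ (n : ℤ) * ((u : O) : F) := hu
    have h2 : (((u⁻¹ : Oˣ) : O) : F) = (((u : O) : F))⁻¹ := inv_coe67 O u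
    rw [h2, zpow_neg, ← mul_inv, ← h1, inv_inv]

private theorem uniq67 [IsDiscreteValuationRing O] {p : O} (hp : Irreducible p) {a b : ℤ} (hab : a ≤ b) {u v : Oˣ}
    (h : (p : F) ^ a * ((u : O) : F) = (p : F) ^ b * ((v : O) : F)) : a = b ∧ u = v := by
  have hp0 : (p : F) ≠ 0 := coe_ne67 O hp
  obtain ⟨n, hn⟩ := Int.eq_ofNat_of_zero_le (sub_nonneg.2 hab)
  have hb : b = a + n := by omega
  rw [hb, zpow_add₀ hp0, mul_assoc] at h
  have h1 := mul_left_cancel₀ (zpow_ne_zero a hp0) h
  have h2 : (u : O) = p ^ n * (v : O) := by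
    apply Subtype.ext
    rw [h1, zpow_natCast, MulMemClass.coe_mul, SubmonoidClass.coe_pow]
  have hn0 : n = 0 := by
    by_contra h0
    apply hp.not_isUnit
    have h3 : IsUnit (p ^ n * (v : O)) := h2 ▸ u.isUnit
    have h4 : IsUnit (p ^ n) := (IsUnit.mul_iff.1 h3).1
    exact (isUnit_pow_iff h0).1 h4
  subst hn0
  refine ⟨by omega, ?_⟩
  apply Units.ext
  rw [h2, pow_zero, one_mul]

theorem decomp_unique [IsDiscreteValuationRing O] {p : O} (hp : Irreducible p) {a b : ℤ} {u v : Oˣ}
    (h : (p : F) ^ a * ((u : O) : F) = (p : F) ^ b * ((v : O) : F)) : a = b ∧ u = v := by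
  rcases le_total a b with hab | hab
  · exact uniq67 O hp hab h
  · obtain ⟨h1, h2⟩ := uniq67 O hp hab h.symm
    exact ⟨h1.symm, h2.symm⟩

/-- The order. -/
noncomputable def vO [IsDiscreteValuationRing O] {p : O} (hp : Irreducible p) (x : Fˣ) : ℤ :=
  Classical.choose (exists_decomp O hp x)

/-- The unit `x / p ^ v(x)`. -/
noncomputable def uO [IsDiscreteValuationRing O] {p : O} (hp : Irreducible p) (x : Fˣ) : Oˣ :=
  Classical.choose (Classical.choose_spec (exists_decomp O hp x))

theorem decomp [IsDiscreteValuationRing O] {p : O} (hp : Irreducible p) (x : Fˣ) :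
    (x : F) = (p : F) ^ (vO O hp x) * ((uO O hp x : O) : F) :=
  Classical.choose_spec (Classical.choose_spec (exists_decomp O hp x))

/-- The residue class of the unit `x / p ^ v(x)`. -/
noncomputable def rO [IsDiscreteValuationRing O] {p : O} (hp : Irreducible p) (x : Fˣ) : (ResidueField O)ˣ :=
  Units.map (residue O).toMonoidHom (uO O hp x)

/-- The residue of a symbol. -/
noncomputable def tame0 [IsDiscreteValuationRing O] {p : O} (hp : Irreducible p) {n : ℕ} (l : Fin (n + 1) → Fˣ) :
    KM (ResidueField O) n :=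
  ∑ i : Fin (n + 1), (vO O hp (l i) : ZMod 2) • sym (fun j : Fin n => rO O hp (l (i.succAbove j)))

private theorem vu67 [IsDiscreteValuationRing O] {p : O} (hp : Irreducible p) (x : Fˣ) (a : ℤ) (u : Oˣ)
    (h : (x : F) = (p : F) ^ a * ((u : O) : F)) : vO O hp x = a ∧ uO O hp x = u :=
  decomp_unique O hp ((decomp O hp x).symm.trans h)

private theorem mul67 [IsDiscreteValuationRing O] {p : O} (hp : Irreducible p) (x y : Fˣ) :
    vO O hp (x * y) = vO O hp x + vO O hp y ∧ uO O hp (x * y) = uO O hp x * uO O hp y := by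
  apply vu67
  have hp0 : (p : F) ≠ 0 := coe_ne67 O hp
  rw [Units.val_mul, zpow_add₀ hp0, Units.val_mul, MulMemClass.coe_mul]
  conv_lhs => rw [decomp O hp x, decomp O hp y]
  ring

private theorem rO_mul67 [IsDiscreteValuationRing O] {p : O} (hp : Irreducible p) (x y : Fˣ) :
    rO O hp (x * y) = rO O hp x * rO O hp y := by
  unfold rO
  rw [(mul67 O hp x y).2, map_mul]

private theorem rO_val67 [IsDiscreteValuationRing O] {p : O} (hp : Irreducible p) (x : Fˣ) :
    ((rO O hp x : (ResidueField O)ˣ) : ResidueField O) = residue O (uO O hp x : O) := rfl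

private theorem res_p67 [IsDiscreteValuationRing O] {p : O} (hp : Irreducible p) : residue O p = 0 :=
  (residue_eq_zero_iff p).2 ((mem_maximalIdeal p).2 hp.not_isUnit)

private theorem int67 [IsDiscreteValuationRing O] {p : O} (hp : Irreducible p) (x : Fˣ) (h : 0 ≤ vO O hp x) :
    ∃ n : ℕ, vO O hp x = n ∧ (x : F) = ((p ^ n * (uO O hp x : O) : O) : F) := by
  obtain ⟨n, hn⟩ := Int.eq_ofNat_of_zero_le h
  refine ⟨n, hn, ?_⟩
  rw [MulMemClass.coe_mul, SubmonoidClass.coe_pow, ← zpow_natCast, ← hn]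
  exact decomp O hp x

/-- the case of an order `> 0` -/
private theorem pos67 [IsDiscreteValuationRing O] {p : O} (hp : Irreducible p) {x y : Fˣ} (h : (x : F) + y = 1)
    (hx : 0 < vO O hp x) (hy : 0 ≤ vO O hp y) : vO O hp y = 0 ∧ rO O hp y = 1 := by
  obtain ⟨n, hn, hx'⟩ := int67 O hp x hx.le
  obtain ⟨m, hm, hy'⟩ := int67 O hp y hy
  have h1 : p ^ n * (uO O hp x : O) + p ^ m * (uO O hp y : O) = 1 := by
    apply Subtype.ext
    rw [AddMemClass.coe_add, ← hx', ← hy']
    exact h
  have h2 := congrArg (residue O) h1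
  have hn0 : n ≠ 0 := by omega
  rw [map_add, map_mul, map_mul, map_pow, map_pow, res_p67 O hp, zero_pow hn0, zero_mul, zero_add, map_one] at h2
  have hm0 : m = 0 := by
    by_contra h0
    rw [zero_pow h0, zero_mul] at h2
    exact zero_ne_one h2
  subst hm0
  refine ⟨hm, ?_⟩
  apply Units.ext
  rw [rO_val67, Units.val_one]
  rw [pow_zero, one_mul] at h2
  exact h2

/-- the case of orders `0` -/
private theorem zero67 [IsDiscreteValuationRing O] {p : O} (hp : Irreducible p) {x y : Fˣ} (h : (x : F) + y = 1)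
    (hx : vO O hp x = 0) (hy : vO O hp y = 0) :
    ((rO O hp x : (ResidueField O)ˣ) : ResidueField O) + (rO O hp y : (ResidueField O)ˣ) = 1 := by
  obtain ⟨n, hn, hx'⟩ := int67 O hp x hx.ge
  obtain ⟨m, hm, hy'⟩ := int67 O hp y hy.ge
  have h1 : p ^ n * (uO O hp x : O) + p ^ m * (uO O hp y : O) = 1 := by
    apply Subtype.ext
    rw [AddMemClass.coe_add, ← hx', ← hy']
    exact h
  have hn0 : n = 0 := by omega
  have hm0 : m = 0 := by omega
  subst hn0
  subst hm0
  have h2 := congrArg (residue O) h1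
  rw [pow_zero, one_mul, one_mul, map_add, map_one] at h2
  exact h2

/-- the case of a negative order -/
private theorem neg67 [IsDiscreteValuationRing O] {p : O} (hp : Irreducible p) {x y : Fˣ} (h : (x : F) + y = 1)
    (hx : vO O hp x < 0) : vO O hp y = vO O hp x ∧ rO O hp y = -rO O hp x := by
  have hp0 : (p : F) ≠ 0 := coe_ne67 O hp
  obtain ⟨n, hn⟩ := Int.eq_ofNat_of_zero_le (show 0 ≤ -vO O hp x by omega)
  have hv : vO O hp x = -(n : ℤ) := by omega
  have hn0 : n ≠ 0 := by omega
  have h1 : residue O (p ^ n - (uO O hp x : O)) = -residue O (uO O hp x : O) := by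
    rw [map_sub, map_pow, res_p67 O hp, zero_pow hn0, zero_sub]
  have h2 : IsUnit (p ^ n - (uO O hp x : O)) := by
    by_contra h0
    have h3 := (residue_eq_zero_iff _).2 ((mem_maximalIdeal _).2 h0)
    rw [h1, neg_eq_zero, ← rO_val67] at h3
    exact (rO O hp x).ne_zero h3
  obtain ⟨w, hw⟩ := h2
  have h4 : (y : F) = (p : F) ^ (vO O hp x) * ((w : O) : F) := by
    have h5 := decomp O hp x
    have h6 : (p : F) ^ (vO O hp x) * (p : F) ^ n = 1 := by
      rw [hv, zpow_neg, zpow_natCast, inv_mul_cancel₀ (pow_ne_zero n hp0)]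
    rw [hw, AddSubgroupClass.coe_sub, SubmonoidClass.coe_pow, mul_sub, h6, ← h5]
    linear_combination h
  obtain ⟨h5, h6⟩ := vu67 O hp y _ w h4
  refine ⟨h5, ?_⟩
  apply Units.ext
  rw [rO_val67, h6, hw, h1, Units.val_neg, rO_val67]

/-- The four cases of the Steinberg relation. -/
private theorem cases67 [IsDiscreteValuationRing O] {p : O} (hp : Irreducible p) {x y : Fˣ} (h : (x : F) + y = 1) :
    (vO O hp x = 0 ∧ vO O hp y = 0 ∧
      ((rO O hp x : (ResidueField O)ˣ) : ResidueField O) + (rO O hp y : (ResidueField O)ˣ) = 1) ∨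
    (vO O hp y = 0 ∧ rO O hp y = 1) ∨ (vO O hp x = 0 ∧ rO O hp x = 1) ∨
    (vO O hp y = vO O hp x ∧ rO O hp y = -rO O hp x) := by
  have h' : (y : F) + x = 1 := by rw [add_comm]; exact h
  by_cases hx : vO O hp x < 0
  · exact Or.inr (Or.inr (Or.inr (neg67 O hp h hx)))
  by_cases hy : vO O hp y < 0
  · obtain ⟨h1, h2⟩ := neg67 O hp h' hy
    refine Or.inr (Or.inr (Or.inr ⟨h1.symm, ?_⟩))
    rw [h2, neg_neg]
  push Not at hx hy
  by_cases hx0 : 0 < vO O hp x
  · exact Or.inr (Or.inl (pos67 O hp h hx0 hy))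
  by_cases hy0 : 0 < vO O hp y
  · exact Or.inr (Or.inr (Or.inl (pos67 O hp h' hy0 hx)))
  have h1 : vO O hp x = 0 := by omega
  have h2 : vO O hp y = 0 := by omega
  exact Or.inl ⟨h1, h2, zero67 O hp h h1 h2⟩

/-- the sum of two symbols in the last case -/
private theorem swap67 {κ : Type*} [Field κ] (hi : IsSquare (-1 : κ)) {n : ℕ} (s : Fin (n + 1) → κˣ) {i j : Fin (n + 1)}
    (hij : i ≠ j) (h : s j = -s i) :
    sym (fun k : Fin n => s (i.succAbove k)) = sym (fun k : Fin n => s (j.succAbove k)) := by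
  obtain ⟨j', hj'⟩ := Fin.exists_succAbove_eq hij.symm
  obtain ⟨s', hs'⟩ : ∃ s' : Fin (n + 1) → κˣ, s' = update s j (s i) := ⟨_, rfl⟩
  have h1 : sym (fun k : Fin n => s (i.succAbove k)) = sym (fun k : Fin n => s' (i.succAbove k)) := by
    have h2 := sym_neg hi (fun k : Fin n => s (i.succAbove k)) j'
    rw [← h2]
    congr 1
    funext k
    by_cases hk : k = j'
    · subst hk
      rw [update_self, hj', hs', update_self, h, neg_neg]
    · rw [update_of_ne hk, hs', update_of_ne]
      rw [← hj']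
      exact fun h0 => hk (Fin.succAbove_right_injective h0)
  have h3 : (fun k : Fin n => s (j.succAbove k)) = fun k : Fin n => s' (j.succAbove k) := by
    funext k
    rw [hs', update_of_ne (Fin.succAbove_ne j k)]
  have hsw : ∀ k, s' (Equiv.swap i j k) = s' k := by
    intro k
    have hii : s' i = s' j := by
      rw [hs', update_self, update_of_ne hij]
    by_cases hk : k = i
    · rw [hk, Equiv.swap_apply_left, hii]
    by_cases hk' : k = j
    · rw [hk', Equiv.swap_apply_right, hii]
    rw [Equiv.swap_apply_of_ne_of_ne hk hk']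
  have hex : ∀ k : Fin n, ∃ k' : Fin n, i.succAbove k' = Equiv.swap i j (j.succAbove k) := by
    intro k
    apply Fin.exists_succAbove_eq
    intro h0
    have h5 : j.succAbove k = j := by
      have := congrArg (Equiv.swap i j) h0
      rwa [Equiv.swap_apply_self, Equiv.swap_apply_left] at this
    exact Fin.succAbove_ne j k h5
  choose g hg using hex
  have hginj : Function.Injective g := by
    intro a b hab
    have h6 := hg a
    rw [hab, hg b] at h6
    exact (Fin.succAbove_right_injective ((Equiv.swap i j).injective h6)).symm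
  have h4 : (fun k : Fin n => s' (j.succAbove k)) =
      (fun k : Fin n => s' (i.succAbove k)) ∘ (Equiv.ofBijective g (Finite.injective_iff_bijective.1 hginj)) := by
    funext k
    rw [comp_apply, Equiv.ofBijective_apply, hg, hsw]
  rw [h1, h3, h4, sym_perm hi]

private theorem fam67 {κ : Type*} [Field κ] {n : ℕ} (f : Fˣ → κˣ) (l : Fin (n + 1) → Fˣ) (m : Fin (n + 1)) (i' : Fin n) (x : Fˣ) :
    (fun k : Fin n => f (update l (m.succAbove i') x (m.succAbove k))) =
      update (fun k : Fin n => f (l (m.succAbove k))) i' (f x) := by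
  funext k
  by_cases hk : k = i'
  · subst hk
    rw [update_self, update_self]
  · rw [update_of_ne hk, update_of_ne]
    exact fun h0 => hk (Fin.succAbove_right_injective h0)

private theorem tame0_mul67 [IsDiscreteValuationRing O] {p : O} (hp : Irreducible p) {n : ℕ} (l : Fin (n + 1) → Fˣ)
    (i : Fin (n + 1)) (a b : Fˣ) :
    tame0 O hp (update l i (a * b)) = tame0 O hp (update l i a) + tame0 O hp (update l i b) := by
  unfold tame0
  rw [← Finset.sum_add_distrib]
  refine Finset.sum_congr rfl fun m _ => ?_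
  by_cases hm : m = i
  · subst hm
    have h1 : ∀ x : Fˣ, (fun k : Fin n => rO O hp (update l m x (m.succAbove k))) = fun k : Fin n => rO O hp (l (m.succAbove k)) := by
      intro x
      funext k
      rw [update_of_ne (Fin.succAbove_ne m k)]
    rw [h1, h1, h1, update_self, update_self, update_self, (mul67 O hp a b).1, ← add_smul]
    push_cast
    rfl
  · obtain ⟨i', hi'⟩ := Fin.exists_succAbove_eq (Ne.symm hm)
    subst hi'
    rw [fam67 (rO O hp), fam67 (rO O hp), fam67 (rO O hp), rO_mul67, sym_mul, update_of_ne hm, update_of_ne hm, update_of_ne hm,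
      smul_add]

private theorem tame0_st67 [IsDiscreteValuationRing O] {p : O} (hp : Irreducible p) (hi : IsSquare (-1 : ResidueField O)) {n : ℕ}
    (l : Fin (n + 1) → Fˣ) (i j : Fin (n + 1)) (hij : i ≠ j) (h : (l i : F) + l j = 1) : tame0 O hp l = 0 := by
  unfold tame0
  rcases cases67 O hp h with ⟨h1, h2, h3⟩ | ⟨h1, h2⟩ | ⟨h1, h2⟩ | ⟨h1, h2⟩
  · refine Finset.sum_eq_zero fun m _ => ?_
    by_cases hmi : m = i
    · rw [hmi, h1, Int.cast_zero, zero_smul]
    by_cases hmj : m = j
    · rw [hmj, h2, Int.cast_zero, zero_smul]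
    obtain ⟨i', hi'⟩ := Fin.exists_succAbove_eq (Ne.symm hmi)
    obtain ⟨j', hj'⟩ := Fin.exists_succAbove_eq (Ne.symm hmj)
    have hne : i' ≠ j' := by
      intro h0
      apply hij
      rw [← hi', ← hj', h0]
    rw [sym_steinberg (fun k : Fin n => rO O hp (l (m.succAbove k))) hne (by rw [hi', hj']; exact h3), smul_zero]
  · refine Finset.sum_eq_zero fun m _ => ?_
    by_cases hmj : m = j
    · rw [hmj, h1, Int.cast_zero, zero_smul]
    obtain ⟨j', hj'⟩ := Fin.exists_succAbove_eq (Ne.symm hmj)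
    rw [sym_one (fun k : Fin n => rO O hp (l (m.succAbove k))) j' (by rw [hj']; exact h2), smul_zero]
  · refine Finset.sum_eq_zero fun m _ => ?_
    by_cases hmi : m = i
    · rw [hmi, h1, Int.cast_zero, zero_smul]
    obtain ⟨i', hi'⟩ := Fin.exists_succAbove_eq (Ne.symm hmi)
    rw [sym_one (fun k : Fin n => rO O hp (l (m.succAbove k))) i' (by rw [hi']; exact h2), smul_zero]
  · have hoth : ∀ m, m ≠ i → m ≠ j → (vO O hp (l m) : ZMod 2) • sym (fun k : Fin n => rO O hp (l (m.succAbove k))) = 0 := by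
      intro m hmi hmj
      obtain ⟨i', hi'⟩ := Fin.exists_succAbove_eq (Ne.symm hmi)
      obtain ⟨j', hj'⟩ := Fin.exists_succAbove_eq (Ne.symm hmj)
      have hne : i' ≠ j' := by
        intro h0
        apply hij
        rw [← hi', ← hj', h0]
      have h3 : sym (fun k : Fin n => rO O hp (l (m.succAbove k))) = 0 := by
        rw [← sym_neg hi _ j']
        refine sym_self hi _ hne ?_
        rw [update_self, update_of_ne hne, hi', hj', h2, neg_neg]
      rw [h3, smul_zero]
    rw [Finset.sum_eq_add_of_mem i j (Finset.mem_univ _) (Finset.mem_univ _) hij fun m _ hm => hoth m hm.1 hm.2, h1,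
      swap67 hi (fun k => rO O hp (l k)) hij h2, KM_add_self]

private theorem lift67 {M A : Type*} [AddCommGroup M] [Module (ZMod 2) M] (f : A → M) (a : A) :
    Finsupp.lift M (ZMod 2) A f (Finsupp.single a 1) = f a := by
  rw [Finsupp.lift_apply]
  exact (Finsupp.sum_single_index (a := a) (b := (1 : ZMod 2)) (h := fun x r => r • f x) (zero_smul _ _)).trans (one_smul _ _)

theorem tame_rel [IsDiscreteValuationRing O] {p : O} (hp : Irreducible p) (hi : IsSquare (-1 : ResidueField O)) {n : ℕ}
    {x : (Fin (n + 1) → Fˣ) →₀ ZMod 2} (hx : KRel F (n + 1) x) :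
    Finsupp.lift (KM (ResidueField O) n) (ZMod 2) (Fin (n + 1) → Fˣ) (tame0 O hp) x = 0 := by
  cases hx with
  | mul l i a b =>
    rw [map_sub, map_sub, lift67, lift67, lift67, tame0_mul67]
    abel
  | steinberg l i j hij h =>
    rw [lift67]
    exact tame0_st67 O hp hi l i j hij h

/-- The residue map `K_{n+1}(F) / 2 → K_n(κ) / 2` of a discrete valuation ring with residue field `κ` in which `-1` is a square. -/
noncomputable def tame [IsDiscreteValuationRing O] {p : O} (hp : Irreducible p) (hi : IsSquare (-1 : ResidueField O)) (n : ℕ) :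
    KM F (n + 1) →ₗ[ZMod 2] KM (ResidueField O) n :=
  Submodule.liftQ _ (Finsupp.lift (KM (ResidueField O) n) (ZMod 2) (Fin (n + 1) → Fˣ) (tame0 O hp))
    (Submodule.span_le.2 fun _ hx => tame_rel O hp hi hx)

theorem tame_sym [IsDiscreteValuationRing O] {p : O} (hp : Irreducible p) (hi : IsSquare (-1 : ResidueField O)) {n : ℕ}
    (l : Fin (n + 1) → Fˣ) : tame O hp hi n (sym l) = tame0 O hp l := by
  unfold tame sym
  rw [← lift67 (tame0 O hp) l]
  rfl

end Pool.Agent.Helper41.TU
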