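import Pool.Agent.Helper41.TU.MkDefs

/-!
# Block TU-WT: metabolic forms

`metab_equiv`, `metab_sq`, `metab_smul`: change of variables. `metab_sum`: direct sum of the subspaces.
`metab_double`: `-1 = i^2`; `W = {(w, i w)}`.
`metab_cancel` (`2 ≠ 0`, all coefficients nonzero): let `b_f`, `b_g` be the nondegenerate bilinear forms, `W ⊆ V_f ⊕ V_g` with `b|_W = 0` (polarise, `2 ≠ 0`) and
`2 dim W ≥ dim V_f + dim V_g`, `M ⊆ V_g` with `b_g|_M = 0`, `2 dim M ≥ dim V_g`. Let `W_1 = {w ∈ W : w_g ∈ M}` and `W_0` its image in `V_f`. `q` vanishes on `W_0`: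
`q_f(w_f) = q(w) - q_g(w_g) = 0`. Dimension: let `W_2 = {w ∈ W : w_f = 0, w_g ∈ M}` (kernel of `W_1 → W_0`). The projection `W → V_g / M` has image in ... :
the image `p(W) ⊆ V_g` and `W ∩ V_g` are orthogonal for `b_g` (`w ∈ W`, `(0, z) ∈ W`: `0 = b_g(w_g, z)`). So `dim W_1 = dim W - dim (p(W) + M) + dim M ≥ dim W - dim (W_2^⊥ in V_g) + dim M`,
because `p(W) + M ⊆ W_2^⊥` (`M ⊆ M^⊥`), and `dim W_2^⊥ = dim V_g - dim W_2`. So `dim W_0 = dim W_1 - dim W_2 ≥ dim W + dim M - dim V_g ≥ dim V_f / 2`.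
`metab_not_aniso`: a metabolic form in at least one variable is isotropic.
-/

set_option autoImplicit false

namespace Pool.Agent.Helper41.TU

open Module

variable {F : Type*} [Field F] {J I : Type*} [Fintype J] [Fintype I]

private lemma polar32 {J : Type*} [Fintype J] (h2 : (2 : F) ≠ 0) {f : J → F} {W : Submodule F (J → F)}
    (hW : ∀ w ∈ W, ∑ j, f j * w j ^ 2 = 0) {v w : J → F} (hv : v ∈ W) (hw : w ∈ W) :
    ∑ j, f j * v j * w j = 0 := by
  have h3 := hW (v + w) (W.add_mem hv hw)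
  have h4 : ∑ j, f j * (v + w) j ^ 2 = ∑ j, f j * v j ^ 2 + ∑ j, f j * w j ^ 2 + 2 * ∑ j, f j * v j * w j := by
    rw [Finset.mul_sum, ← Finset.sum_add_distrib, ← Finset.sum_add_distrib]
    refine Finset.sum_congr rfl fun j _ => ?_
    rw [Pi.add_apply]
    ring
  rw [h4, hW v hv, hW w hw, zero_add, zero_add] at h3
  rcases mul_eq_zero.1 h3 with h5 | h5
  · exact absurd h5 h2
  · exact h5

private lemma dim32 {A U V : Type*} [AddCommGroup A] [Module F A] [FiniteDimensional F A] [AddCommGroup U]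
    [Module F U] [FiniteDimensional F U] [AddCommGroup V] [Module F V] (Φ Θ : A →ₗ[F] U) (Ψ : A →ₗ[F] V)
    (D : U →ₗ[F] Module.Dual F U) (hinj : ∀ p, Φ p = 0 → Ψ p = 0 → D (Θ p) = 0 → p = 0)
    (hort : ∀ p q, Φ p = 0 → Ψ p = 0 → D (Θ p) (Φ q) = 0) :
    finrank F A ≤ finrank F (LinearMap.range (Ψ ∘ₗ (LinearMap.ker Φ).subtype)) + finrank F U := by
  obtain ⟨Ψ', hΨ'⟩ : ∃ Ψ' : LinearMap.ker Φ →ₗ[F] V, Ψ' = Ψ ∘ₗ (LinearMap.ker Φ).subtype := ⟨_, rfl⟩
  obtain ⟨T, hT⟩ : ∃ T : LinearMap.ker Ψ' →ₗ[F] Module.Dual F U,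
      T = ((D ∘ₗ Θ) ∘ₗ (LinearMap.ker Φ).subtype) ∘ₗ (LinearMap.ker Ψ').subtype := ⟨_, rfl⟩
  have hz : ∀ p : LinearMap.ker Ψ', Ψ p.1.1 = 0 := by
    intro p
    have h3 := LinearMap.mem_ker.1 p.2
    have h4 : Ψ' p.1 = Ψ p.1.1 := LinearMap.congr_fun hΨ' p.1
    rw [← h4]
    exact h3
  have hTinj : Function.Injective T := by
    rw [injective_iff_map_eq_zero]
    intro p hp
    rw [hT] at hp
    exact Subtype.ext (Subtype.ext (hinj p.1.1 (LinearMap.mem_ker.1 p.1.2) (hz p) hp))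
  have hle : LinearMap.range T ≤ (LinearMap.range Φ).dualAnnihilator := by
    rintro _ ⟨p, rfl⟩
    rw [Submodule.mem_dualAnnihilator]
    rintro _ ⟨q, rfl⟩
    rw [hT]
    exact hort p.1.1 q (LinearMap.mem_ker.1 p.1.2) (hz p)
  have e1 := LinearMap.finrank_range_add_finrank_ker Φ
  have e2 := LinearMap.finrank_range_add_finrank_ker Ψ'
  have e3 := Subspace.finrank_add_finrank_dualAnnihilator_eq (LinearMap.range Φ)
  have e4 := Submodule.finrank_mono hle
  rw [LinearMap.finrank_range_of_inj hTinj] at e4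
  rw [← hΨ']
  omega

theorem metab_equiv (e : I ≃ J) {f : J → F} (h : Metab f) : Metab (f ∘ e) := by
  obtain ⟨W, h1, h2⟩ := h
  refine ⟨W.map (LinearEquiv.funCongrLeft F F e).toLinearMap, ?_, ?_⟩
  · rw [Nat.card_congr e, ← ((LinearEquiv.funCongrLeft F F e).submoduleMap W).finrank_eq]
    exact h1
  · rintro w ⟨x, hx, rfl⟩
    have h3 := h2 x hx
    rw [← h3]
    exact Fintype.sum_equiv e _ _ fun i => rfl

theorem metab_sq {f g : J → F} (h : Metab f) (c : J → F) (hc : ∀ j, c j ≠ 0) (hg : ∀ j, g j = f j * c j ^ 2) : Metab g := by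
  obtain ⟨W, h1, h2⟩ := h
  obtain ⟨e, he⟩ : ∃ e : (J → F) ≃ₗ[F] (J → F), ∀ x j, e x j = c j * x j :=
    ⟨LinearEquiv.piCongrRight fun j => LinearEquiv.smulOfNeZero F F (c j) (hc j), fun x j => rfl⟩
  refine ⟨W.map e.symm.toLinearMap, ?_, ?_⟩
  · rw [← (e.symm.submoduleMap W).finrank_eq]
    exact h1
  · rintro w ⟨x, hx, rfl⟩
    have h3 := h2 x hx
    rw [← h3]
    refine Finset.sum_congr rfl fun j _ => ?_
    have h4 : x j = c j * (e.symm x) j := by
      rw [← he, e.apply_symm_apply]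
    rw [hg, h4]
    change f j * c j ^ 2 * (e.symm x) j ^ 2 = _
    ring

theorem metab_smul {f : J → F} (h : Metab f) (c : F) : Metab (fun j => c * f j) := by
  obtain ⟨W, h1, h2⟩ := h
  refine ⟨W, h1, fun w hw => ?_⟩
  have h3 : ∑ j, c * f j * w j ^ 2 = c * ∑ j, f j * w j ^ 2 := by
    rw [Finset.mul_sum]
    exact Finset.sum_congr rfl fun j _ => by ring
  rw [h3, h2 w hw, mul_zero]

theorem metab_sum {f : J → F} {g : I → F} (hf : Metab f) (hg : Metab g) : Metab (Sum.elim f g) := by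
  obtain ⟨W, h1, h2⟩ := hf
  obtain ⟨U, h3, h4⟩ := hg
  obtain ⟨L, hL⟩ : ∃ L : (W × U) →ₗ[F] (J ⊕ I → F), ∀ p, L p = Sum.elim (p.1 : J → F) (p.2 : I → F) :=
    ⟨{ toFun := fun p => Sum.elim (p.1 : J → F) (p.2 : I → F)
       map_add' := fun p q => by
        ext k
        rcases k with k | k <;> rfl
       map_smul' := fun c p => by
        ext k
        rcases k with k | k <;> rfl }, fun p => rfl⟩
  have hinj : Function.Injective L := by
    rintro ⟨p1, p2⟩ ⟨q1, q2⟩ hpq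
    rw [hL, hL] at hpq
    apply Prod.ext
    · apply Subtype.ext
      funext k
      exact congrFun hpq (Sum.inl k)
    · apply Subtype.ext
      funext k
      exact congrFun hpq (Sum.inr k)
  refine ⟨LinearMap.range L, ?_, ?_⟩
  · rw [LinearMap.finrank_range_of_inj hinj, Module.finrank_prod, Nat.card_sum]
    omega
  · rintro w ⟨p, rfl⟩
    rw [hL, Fintype.sum_sum_type]
    simp only [Sum.elim_inl, Sum.elim_inr]
    rw [h2 _ p.1.2, h4 _ p.2.2, add_zero]

theorem metab_double (hi : IsSquare (-1 : F)) (f : J → F) : Metab (Sum.elim f f) := by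
  obtain ⟨i, hi⟩ := hi
  obtain ⟨L, hL⟩ : ∃ L : (J → F) →ₗ[F] (J ⊕ J → F), ∀ p, L p = Sum.elim p (i • p) :=
    ⟨{ toFun := fun p => Sum.elim p (i • p)
       map_add' := fun p q => by
        ext k
        rcases k with k | k
        · rfl
        · simp
       map_smul' := fun c p => by
        ext k
        rcases k with k | k
        · rfl
        · simp only [Sum.elim_inr, Pi.smul_apply, smul_eq_mul, RingHom.id_apply]
          ring }, fun p => rfl⟩
  have hinj : Function.Injective L := by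
    intro p q hpq
    rw [hL, hL] at hpq
    funext k
    exact congrFun hpq (Sum.inl k)
  refine ⟨LinearMap.range L, ?_, ?_⟩
  · rw [LinearMap.finrank_range_of_inj hinj, Module.finrank_fintype_fun_eq_card, Nat.card_sum, Nat.card_eq_fintype_card]
    omega
  · rintro w ⟨p, rfl⟩
    rw [hL, Fintype.sum_sum_type]
    simp only [Sum.elim_inl, Sum.elim_inr, Pi.smul_apply, smul_eq_mul]
    rw [← Finset.sum_add_distrib]
    refine Finset.sum_eq_zero fun j _ => ?_
    linear_combination (-(f j * p j ^ 2)) * hi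

theorem metab_cancel (h2 : (2 : F) ≠ 0) {f : J → F} {g : I → F} (hf : ∀ j, f j ≠ 0) (hg : ∀ j, g j ≠ 0)
    (h : Metab (Sum.elim f g)) (hg2 : Metab g) : Metab f := by
  classical
  obtain ⟨W, hW1, hW2⟩ := h
  obtain ⟨M, hM1, hM2⟩ := hg2
  obtain ⟨D, hD⟩ : ∃ D : (I → F) →ₗ[F] Module.Dual F (I → F), ∀ z x, D z x = ∑ i, g i * z i * x i :=
    ⟨{ toFun := fun z =>
        { toFun := fun x => ∑ i, g i * z i * x i
          map_add' := fun x y => by
            rw [← Finset.sum_add_distrib]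
            exact Finset.sum_congr rfl fun i _ => by rw [Pi.add_apply]; ring
          map_smul' := fun c x => by
            rw [RingHom.id_apply, smul_eq_mul, Finset.mul_sum]
            exact Finset.sum_congr rfl fun i _ => by rw [Pi.smul_apply, smul_eq_mul]; ring }
       map_add' := fun x y => by
        refine LinearMap.ext fun z => ?_
        change ∑ i, g i * (x + y) i * z i = ∑ i, g i * x i * z i + ∑ i, g i * y i * z i
        rw [← Finset.sum_add_distrib]
        exact Finset.sum_congr rfl fun i _ => by rw [Pi.add_apply]; ring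
       map_smul' := fun c x => by
        refine LinearMap.ext fun z => ?_
        change ∑ i, g i * (c • x) i * z i = c * ∑ i, g i * x i * z i
        rw [Finset.mul_sum]
        exact Finset.sum_congr rfl fun i _ => by rw [Pi.smul_apply, smul_eq_mul]; ring }, fun z x => rfl⟩
  have hDinj : ∀ z, D z = 0 → z = 0 := by
    intro z hz
    funext i
    have h3 : D z (Pi.single i 1) = 0 := by rw [hz]; rfl
    rw [hD, Finset.sum_eq_single i] at h3
    · rw [Pi.single_eq_same, mul_one] at h3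
      rcases mul_eq_zero.1 h3 with h4 | h4
      · exact absurd h4 (hg i)
      · exact h4
    · intro k _ hk
      rw [Pi.single_eq_of_ne hk, mul_zero]
    · intro hk
      exact absurd (Finset.mem_univ _) hk
  obtain ⟨Φ, hΦ⟩ : ∃ Φ : (W × M) →ₗ[F] (I → F), ∀ p, Φ p = fun i => (p.1 : J ⊕ I → F) (Sum.inr i) - (p.2 : I → F) i :=
    ⟨{ toFun := fun p => fun i => (p.1 : J ⊕ I → F) (Sum.inr i) - (p.2 : I → F) i
       map_add' := fun p q => by
        funext k
        simp only [Prod.fst_add, Prod.snd_add, Submodule.coe_add, Pi.add_apply]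
        ring
       map_smul' := fun c p => by
        funext k
        simp only [Prod.smul_fst, Prod.smul_snd, Submodule.coe_smul, Pi.smul_apply, smul_eq_mul, RingHom.id_apply]
        ring }, fun p => rfl⟩
  obtain ⟨Ψ, hΨ⟩ : ∃ Ψ : (W × M) →ₗ[F] (J → F), ∀ p, Ψ p = fun j => (p.1 : J ⊕ I → F) (Sum.inl j) :=
    ⟨{ toFun := fun p => fun j => (p.1 : J ⊕ I → F) (Sum.inl j)
       map_add' := fun p q => rfl
       map_smul' := fun c p => rfl }, fun p => rfl⟩
  obtain ⟨Θ, hΘ⟩ : ∃ Θ : (W × M) →ₗ[F] (I → F), ∀ p, Θ p = (p.2 : I → F) :=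
    ⟨{ toFun := fun p => (p.2 : I → F)
       map_add' := fun p q => rfl
       map_smul' := fun c p => rfl }, fun p => rfl⟩
  have hker : ∀ p, Φ p = 0 → ∀ i, (p.1 : J ⊕ I → F) (Sum.inr i) = (p.2 : I → F) i := by
    intro p hp i
    rw [hΦ] at hp
    exact sub_eq_zero.1 (congrFun hp i)
  have hker2 : ∀ p, Ψ p = 0 → ∀ j, (p.1 : J ⊕ I → F) (Sum.inl j) = 0 := by
    intro p hp j
    rw [hΨ] at hp
    exact congrFun hp j
  have hinj : ∀ p, Φ p = 0 → Ψ p = 0 → D (Θ p) = 0 → p = 0 := by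
    intro p hp1 hp2 hp3
    have h3 : Θ p = 0 := hDinj _ hp3
    rw [hΘ] at h3
    apply Prod.ext
    · apply Subtype.ext
      funext k
      rcases k with k | k
      · exact hker2 p hp2 k
      · rw [hker p hp1 k, h3]
        rfl
    · exact Subtype.ext h3
  have hort : ∀ p q, Φ p = 0 → Ψ p = 0 → D (Θ p) (Φ q) = 0 := by
    intro p q hp1 hp2
    rw [hD, hΘ, hΦ]
    have h3 : ∑ k, (Sum.elim f g) k * (p.1 : J ⊕ I → F) k * (q.1 : J ⊕ I → F) k = 0 :=
      polar32 h2 hW2 p.1.2 q.1.2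
    have h4 : ∑ i, g i * (p.2 : I → F) i * (q.2 : I → F) i = 0 := polar32 h2 hM2 p.2.2 q.2.2
    rw [Fintype.sum_sum_type] at h3
    simp only [Sum.elim_inl, Sum.elim_inr] at h3
    rw [Finset.sum_eq_zero (fun j _ => by rw [hker2 p hp2 j, mul_zero, zero_mul]), zero_add] at h3
    have h5 : ∀ i, g i * (p.2 : I → F) i * ((q.1 : J ⊕ I → F) (Sum.inr i) - (q.2 : I → F) i) =
        g i * (p.1 : J ⊕ I → F) (Sum.inr i) * (q.1 : J ⊕ I → F) (Sum.inr i) - g i * (p.2 : I → F) i * (q.2 : I → F) i := by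
      intro i
      rw [hker p hp1 i]
      ring
    rw [Finset.sum_congr rfl fun i _ => h5 i, Finset.sum_sub_distrib, h3, h4, sub_zero]
  have e1 := dim32 Φ Θ Ψ D hinj hort
  rw [Module.finrank_prod, Module.finrank_fintype_fun_eq_card] at e1
  rw [Nat.card_sum, Nat.card_eq_fintype_card, Nat.card_eq_fintype_card] at hW1
  rw [Nat.card_eq_fintype_card] at hM1
  refine ⟨LinearMap.range (Ψ ∘ₗ (LinearMap.ker Φ).subtype), ?_, ?_⟩
  · rw [Nat.card_eq_fintype_card]
    omega
  · rintro _ ⟨p, rfl⟩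
    have h0 := LinearMap.mem_ker.1 p.2
    rw [LinearMap.comp_apply, hΨ]
    have h3 := hW2 _ p.1.1.2
    have h4 := hM2 _ p.1.2.2
    rw [Fintype.sum_sum_type] at h3
    simp only [Sum.elim_inl, Sum.elim_inr] at h3
    rw [Finset.sum_congr (g := fun i => g i * (p.1.2 : I → F) i ^ 2) rfl (fun i _ => by rw [hker p.1 h0 i]), h4, add_zero] at h3
    exact h3

theorem isotropic_of_metab [Nonempty J] {f : J → F} (h : Metab f) : ∃ x : J → F, x ≠ 0 ∧ ∑ j, f j * x j ^ 2 = 0 := by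
  obtain ⟨W, h1, h2⟩ := h
  have h3 : 0 < Nat.card J := Nat.card_pos
  have h4 : W ≠ ⊥ := by
    intro h
    rw [h, finrank_bot] at h1
    omega
  obtain ⟨x, hx, hx0⟩ := Submodule.exists_mem_ne_zero_of_ne_bot h4
  exact ⟨x, hx0, h2 x hx⟩

end Pool.Agent.Helper41.TU
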